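import Pool.Agent.T3.Low0

/-!
# Lower bound, family B: `m = k² + k + s`, `1 ≤ s ≤ k`, `k ≥ 2`, type `≥ 2k`

Residues `a1 = k+1`, `a2 = -1`, `a3 = k` in `ZMod m`; weights `w2 = m k - 1`, `w3 = m (k+s-1) + k`,
`w1 = w3 + 1`.
Normal forms: `R x y z :⇔ (y = 0 ∧ 1 ≤ x ∧ x + z ≤ k-1) ∨ (x = 0 ∧ y + z ≤ k) ∨
(x = 0 ∧ z = 0 ∧ y ≤ k + s - 1)`.

*red*:
* `x, y ≥ 1`: `(x,y,z) → (x-1,y-1,z+1)`.
* `y = 0`, `x ≥ 1`, `x + z ≥ k`: `z' = min z (k-1)`, `x' = k - z'` (`1 ≤ x' ≤ x`);
  `(x,0,z) → (x-x', z'+s, z-z')`.  Class `x' (k+1) + z' k = k (k+1) - z' ≡ -(z'+s)`.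
  Weight: `(z'+s) w2 < x' w1 + z' w3 = k w3 + x'`: as `z' ≤ k-1`,
  `(z'+s) w2 ≤ (k-1+s)(mk-1) < k (m(k+s-1) + k)`.
* `x = 0`, `z ≥ 1`, `y + z ≥ k+1`, and (`z ≤ k` or `y ≥ 1`): `z' = min z k`, `y' = k+1-z'` (`≤ y`);
  `(0,y,z) → (z'-1, y-y', z-z')`.  Class `-y' + z' k = (z'-1)(k+1)`.
  Weight: `(z'-1) w1 = (z'-1) w3 + (z'-1) < y' w2 + z' w3` (`z'-1 < k ≤ w3`).
* `x = y = 0`, `z ≥ k+1`: `(0,0,z) → (0,s,z-k-1)`.  Class `(k+1) k ≡ -s`.  Weight `s w2 < (k+1) w3`
  (`s ≤ k`, `w2 < w3`).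
* `x = z = 0`, `y ≥ k+s`: `(0,y,0) → (0,y-k-s,k)`.  Class `-(k+s) ≡ k²`.
  Weight `k w3 < (k+s) w2`: `k (m(k+s-1) + k) = mk(k+s) - km + k²`, `(k+s)(mk-1) = mk(k+s) - (k+s)`;
  need `k² + k + s < k m`, i.e. `m < k m`.

*inj*: the classes are represented by the integers `J (k+1) - r`: first kind
(`J = x+z`, `r = z`, `0 ≤ r < J ≤ k-1`), second kind with `z ≥ 1` (`J = z`, `r = y + z`,
`1 ≤ J ≤ r ≤ k`), and `-y`, `0 ≤ y ≤ k+s-1`, for `x = z = 0`.  The numbers `J (k+1) - r`, `1 ≤ J ≤ k`,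
`0 ≤ r ≤ k` are different, and those which occur lie in `[1, k²]` (for `J = k`, `r = k`); all lie in
`[-(k+s-1), k²]`, an interval of `m` integers.

*surj*: `a2 = -1`.

*S*: `(x,0,k-1-x)` for `1 ≤ x ≤ k-1`; `(0,y,k-y)` for `0 ≤ y ≤ k-1`; `(0,k+s-1,0)`: `2k` triples.
-/

namespace Pool.Agent.T3

open Pool.Agent.Hhelper4.NS

/-- the normal forms -/
def lbR (k s : ℕ) (x y z : ℕ) : Prop :=
  (y = 0 ∧ 1 ≤ x ∧ x + z ≤ k - 1) ∨ (x = 0 ∧ y + z ≤ k) ∨ (x = 0 ∧ z = 0 ∧ y ≤ k + s - 1)

/-- the maximal elements -/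
def lbf (k s : ℕ) (i : ℕ) : ℕ × ℕ × ℕ :=
  if i < k - 1 then (i + 1, 0, k - 2 - i) else
    if i < 2 * k - 1 then (0, i - (k - 1), k - (i - (k - 1))) else (0, k + s - 1, 0)

theorem lbf_inj {k s : ℕ} (hk : 2 ≤ k) (h1 : 1 ≤ s) :
    Set.InjOn (lbf k s) (Finset.range (2 * k)) := by
  intro i hi j hj h
  simp only [Finset.coe_range, Set.mem_Iio] at hi hj
  unfold lbf at h
  split_ifs at h <;> simp only [Prod.mk.injEq] at h <;> omega

theorem lbf_max {k s : ℕ} (hk : 2 ≤ k) (h1 : 1 ≤ s) {i : ℕ} (hi : i < 2 * k) :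
    lbR k s (lbf k s i).1 (lbf k s i).2.1 (lbf k s i).2.2 ∧
      ¬ lbR k s ((lbf k s i).1 + 1) (lbf k s i).2.1 (lbf k s i).2.2 ∧
      ¬ lbR k s (lbf k s i).1 ((lbf k s i).2.1 + 1) (lbf k s i).2.2 ∧
      ¬ lbR k s (lbf k s i).1 (lbf k s i).2.1 ((lbf k s i).2.2 + 1) := by
  unfold lbf
  by_cases c1 : i < k - 1
  · rw [if_pos c1]
    simp only [lbR]
    refine ⟨?_, ?_, ?_, ?_⟩
    · left; refine ⟨trivial, ?_, ?_⟩ <;> omega
    · rintro (h | h | h) <;> omega
    · rintro (h | h | h) <;> omega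
    · rintro (h | h | h) <;> omega
  · rw [if_neg c1]
    by_cases c2 : i < 2 * k - 1
    · rw [if_pos c2]
      simp only [lbR]
      refine ⟨?_, ?_, ?_, ?_⟩
      · right; left; refine ⟨trivial, ?_⟩; omega
      · rintro (h | h | h) <;> omega
      · rintro (h | h | h) <;> omega
      · rintro (h | h | h) <;> omega
    · rw [if_neg c2]
      simp only [lbR]
      refine ⟨?_, ?_, ?_, ?_⟩
      · right; right; refine ⟨trivial, trivial, ?_⟩; omega
      · rintro (h | h | h) <;> omega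
      · rintro (h | h | h) <;> omega
      · rintro (h | h | h) <;> omega

/-- the integer representing the class -/
def lbV (k : ℕ) (x y z : ℕ) : ℤ := (x : ℤ) * (k + 1) - y + z * k

theorem lbV_cl {m k : ℕ} (x y z : ℕ) :
    cl (m := m) (k + 1) (-1) k x y z = ((lbV k x y z : ℤ) : ZMod m) := by
  unfold cl lbV
  push_cast
  ring

theorem lbV_range {k s : ℕ} (hk : 2 ≤ k) (h1 : 1 ≤ s) {x y z : ℕ} (h : lbR k s x y z) :
    -((k : ℤ) + s - 1) ≤ lbV k x y z ∧ lbV k x y z ≤ (k : ℤ) ^ 2 := by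
  unfold lbV
  rcases h with ⟨h1', h2, h3⟩ | ⟨h1', h2⟩ | ⟨h1', h2, h3⟩
  · subst h1'
    have h4 : (x : ℤ) + z ≤ k - 1 := by omega
    have h5 : (0 : ℤ) ≤ x := by positivity
    have h6 : (0 : ℤ) ≤ z := by positivity
    have h7 : (0 : ℤ) ≤ k := by positivity
    have h8 : (2 : ℤ) ≤ k := by exact_mod_cast hk
    have h9 : (1 : ℤ) ≤ s := by exact_mod_cast h1
    constructor
    · have : 0 ≤ (x : ℤ) * (k + 1) + z * k := by positivity
      push_cast
      linarith
    · push_cast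
      nlinarith
  · subst h1'
    have h4 : (y : ℤ) + z ≤ k := by exact_mod_cast h2
    have h6 : (0 : ℤ) ≤ z := by positivity
    have h6' : (0 : ℤ) ≤ y := by positivity
    have h8 : (2 : ℤ) ≤ k := by exact_mod_cast hk
    have h9 : (1 : ℤ) ≤ s := by exact_mod_cast h1
    constructor
    · have : 0 ≤ (z : ℤ) * k := by positivity
      push_cast
      linarith
    · push_cast
      nlinarith
  · subst h1'
    subst h2
    have h4 : (y : ℤ) ≤ k + s - 1 := by omega
    have h6' : (0 : ℤ) ≤ y := by positivity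
    have h8 : (2 : ℤ) ≤ k := by exact_mod_cast hk
    constructor
    · push_cast
      linarith
    · push_cast
      nlinarith

theorem lb_digits {k J r J' r' : ℤ} (hr : 0 ≤ r) (hrk : r ≤ k) (hr' : 0 ≤ r')
    (hrk' : r' ≤ k) (h : J * (k + 1) - r = J' * (k + 1) - r') : J = J' ∧ r = r' := by
  have h1 : (J - J') * (k + 1) = r - r' := by linarith
  have h2 : J = J' := by
    by_contra hne
    rcases lt_or_gt_of_ne hne with h3 | h3
    · have : J - J' ≤ -1 := by linarith
      nlinarith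
    · have : 1 ≤ J - J' := by linarith
      nlinarith
  subst h2
  exact ⟨rfl, by linarith⟩

/-- every positive value has the form `J (k+1) - r` -/
theorem lbR_form {k s : ℕ} (hk : 2 ≤ k) (h1 : 1 ≤ s) {x y z : ℕ} (h : lbR k s x y z) :
    (y = 0 ∧ 1 ≤ x ∧ x + z ≤ k - 1 ∧ lbV k x y z = ((x : ℤ) + z) * (k + 1) - z ∧
        0 < lbV k x y z) ∨
      (x = 0 ∧ 1 ≤ z ∧ y + z ≤ k ∧ lbV k x y z = (z : ℤ) * (k + 1) - (y + z) ∧
        0 < lbV k x y z) ∨
      (x = 0 ∧ z = 0 ∧ lbV k x y z = -(y : ℤ)) := by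
  unfold lbR at h
  have h8 : (2 : ℤ) ≤ k := by exact_mod_cast hk
  by_cases hx : 1 ≤ x
  · left
    have hy : y = 0 := by omega
    subst hy
    have hxz : x + z ≤ k - 1 := by omega
    have h5 : (1 : ℤ) ≤ x := by exact_mod_cast hx
    have h6 : (0 : ℤ) ≤ z := by positivity
    refine ⟨rfl, hx, hxz, ?_, ?_⟩
    · unfold lbV; push_cast; ring
    · unfold lbV; push_cast; nlinarith [mul_nonneg h6 (by linarith : (0 : ℤ) ≤ k)]
  · have hx0 : x = 0 := by omega
    subst hx0
    by_cases hz : 1 ≤ z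
    · right; left
      have hyz : y + z ≤ k := by omega
      have h5 : (1 : ℤ) ≤ z := by exact_mod_cast hz
      have h6 : (y : ℤ) + z ≤ k := by exact_mod_cast hyz
      refine ⟨rfl, hz, hyz, ?_, ?_⟩
      · unfold lbV; push_cast; ring
      · unfold lbV; push_cast; nlinarith
    · right; right
      have hz0 : z = 0 := by omega
      subst hz0
      refine ⟨rfl, rfl, ?_⟩
      unfold lbV; push_cast; ring

theorem lbV_inj {k s : ℕ} (hk : 2 ≤ k) (h1 : 1 ≤ s) {x y z x' y' z' : ℕ}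
    (h : lbR k s x y z) (h' : lbR k s x' y' z') (he : lbV k x y z = lbV k x' y' z') :
    (x, y, z) = (x', y', z') := by
  have hf := lbR_form hk h1 h
  have hf' := lbR_form hk h1 h'
  simp only [Prod.mk.injEq]
  rcases hf with ⟨a1, a2, a3, a4, a5⟩ | ⟨a1, a2, a3, a4, a5⟩ | ⟨a1, a2, a4⟩ <;>
  rcases hf' with ⟨b1, b2, b3, b4, b5⟩ | ⟨b1, b2, b3, b4, b5⟩ | ⟨b1, b2, b4⟩
  · rw [a4, b4] at he
    obtain ⟨c1, c2⟩ := lb_digits (by positivity) (by omega) (by positivity) (by omega) he
    omega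
  · rw [a4, b4] at he
    obtain ⟨c1, c2⟩ := lb_digits (by positivity) (by omega) (by positivity) (by omega) he
    omega
  · exfalso; rw [he, b4] at a5; omega
  · rw [a4, b4] at he
    obtain ⟨c1, c2⟩ := lb_digits (by positivity) (by omega) (by positivity) (by omega) he
    omega
  · rw [a4, b4] at he
    obtain ⟨c1, c2⟩ := lb_digits (by positivity) (by omega) (by positivity) (by omega) he
    omega
  · exfalso; rw [he, b4] at a5; omega
  · exfalso; rw [← he, a4] at b5; omega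
  · exfalso; rw [← he, a4] at b5; omega
  · rw [a4, b4] at he; omega

theorem lb_red {k s m w1 w2 w3 : ℕ} (hk : 2 ≤ k) (h1 : 1 ≤ s) (hs : s ≤ k)
    (hm : m = k ^ 2 + k + s) (hw2 : w2 + 1 = m * k) (hw3 : w3 = m * (k + s - 1) + k)
    (hw1 : w1 = w3 + 1) (x y z : ℕ) (hR : ¬ lbR k s x y z) :
    ∃ x' y' z', cl (m := m) (k + 1) (-1) k x' y' z' = cl (m := m) (k + 1) (-1) k x y z ∧
      wt w1 w2 w3 x' y' z' < wt w1 w2 w3 x y z := by
  have hM : (k : ZMod m) ^ 2 + k + s = 0 := by
    have h0 : ((k ^ 2 + k + s : ℕ) : ZMod m) = 0 := by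
      rw [← hm]; exact ZMod.natCast_self m
    push_cast at h0
    exact h0
  have hm0 : 1 ≤ m := by rw [hm]; omega
  have hkm : w2 < m * k := by omega
  have hw3k : k ≤ w3 := by rw [hw3]; omega
  have hw3b : m * k ≤ w3 := by
    rw [hw3]
    have : m * k ≤ m * (k + s - 1) := Nat.mul_le_mul_left _ (by omega)
    omega
  unfold lbR at hR
  rcases Nat.eq_zero_or_pos x with hx | hx
  · subst hx
    rcases Nat.eq_zero_or_pos z with hz | hz
    · -- case 5
      subst hz
      have hy : k + s ≤ y := by omega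
      obtain ⟨y', rfl⟩ := Nat.exists_eq_add_of_le hy
      refine ⟨0, y', k, ?_, ?_⟩
      · unfold cl; push_cast; linear_combination hM
      · unfold wt
        have h5 : w3 * k < w2 * (k + s) := by
          obtain ⟨t, ht⟩ : ∃ t, k + s - 1 = t := ⟨_, rfl⟩
          have ht2 : t + 1 = k + s := by omega
          rw [ht] at hw3
          have e1 : (w2 : ℤ) = m * k - 1 := by
            have : ((w2 + 1 : ℕ) : ℤ) = ((m * k : ℕ) : ℤ) := by rw [hw2]
            push_cast at this; linarith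
          have e2 : (w3 : ℤ) = m * t + k := by rw [hw3]; push_cast; ring
          have e3 : (t : ℤ) = k + s - 1 := by
            have : ((t + 1 : ℕ) : ℤ) = ((k + s : ℕ) : ℤ) := by rw [ht2]
            push_cast at this; linarith
          have e4 : (m : ℤ) = k ^ 2 + k + s := by rw [hm]; push_cast; ring
          have e5 : (w2 : ℤ) * (k + s) - w3 * k = (k - 1) * m := by
            rw [e1, e2, e3]
            linear_combination e4
          have e6 : (0 : ℤ) < (k - 1) * m := by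
            have : (2 : ℤ) ≤ k := by exact_mod_cast hk
            have : (1 : ℤ) ≤ m := by exact_mod_cast hm0
            nlinarith
          have e7 : (w3 : ℤ) * k < w2 * (k + s) := by linarith
          exact_mod_cast e7
        have h6 : w2 * (k + s + y') = w2 * (k + s) + w2 * y' := by ring
        omega
    · rcases Nat.eq_zero_or_pos y with hy | hy
      · -- case 4
        subst hy
        have hz2 : k + 1 ≤ z := by omega
        obtain ⟨z', rfl⟩ := Nat.exists_eq_add_of_le hz2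
        refine ⟨0, s, z', ?_, ?_⟩
        · unfold cl; push_cast; linear_combination (-1 : ZMod m) * hM
        · unfold wt
          have h5 : w2 * s < w3 * (k + 1) := by
            calc w2 * s ≤ (m * k) * k := Nat.mul_le_mul hkm.le hs
              _ < (m * k) * (k + 1) := by
                  apply Nat.mul_lt_mul_of_pos_left (Nat.lt_succ_self k)
                  positivity
              _ ≤ w3 * (k + 1) := Nat.mul_le_mul_right _ hw3b
          have h6 : w3 * (k + 1 + z') = w3 * (k + 1) + w3 * z' := by ring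
          omega
      · -- case 3
        obtain ⟨z1, y1, z2, y2, e1, e2, e3⟩ : ∃ z1 y1 z2 y2, z = z1 + 1 + z2 ∧ y = y1 + y2 ∧
            y1 + z1 = k := by
          rcases le_total z k with hzk | hzk
          · exact ⟨z - 1, k + 1 - z, 0, y - (k + 1 - z), by omega, by omega, by omega⟩
          · exact ⟨k - 1, 1, z - k, y - 1, by omega, by omega, by omega⟩
        subst e1
        subst e2
        refine ⟨z1, y2, z2, ?_, ?_⟩
        · have e4 : (y1 : ZMod m) + z1 = k := by rw [← e3]; push_cast; ring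
          unfold cl; push_cast
          linear_combination e4
        · unfold wt
          have h6 : w2 * (y1 + y2) = w2 * y1 + w2 * y2 := by ring
          have h7 : w3 * (z1 + 1 + z2) = w3 * z1 + w3 + w3 * z2 := by ring
          have h8 : w1 * z1 = w3 * z1 + z1 := by rw [hw1]; ring
          have h9 : z1 < k ∨ z1 = k := by omega
          rcases h9 with h9 | h9
          · omega
          · have hz1 : y1 = 0 := by omega
            subst hz1
            have : k < w3 := by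
              rw [hw3]
              have : 0 < m * (k + s - 1) := Nat.mul_pos (by omega) (by omega)
              omega
            omega
  · rcases Nat.eq_zero_or_pos y with hy | hy
    · -- case 2
      subst hy
      obtain ⟨z1, x1, z2, x2, e1, e2, e3, e4⟩ : ∃ z1 x1 z2 x2, z = z1 + z2 ∧ x = x1 + x2 ∧
          x1 + z1 = k ∧ z1 ≤ k - 1 := by
        rcases le_total z (k - 1) with hzk | hzk
        · exact ⟨z, k - z, 0, x - (k - z), by omega, by omega, by omega, by omega⟩
        · exact ⟨k - 1, 1, z - (k - 1), x - 1, by omega, by omega, by omega, by omega⟩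
      subst e1
      subst e2
      refine ⟨x2, z1 + s, z2, ?_, ?_⟩
      · have e5 : (x1 : ZMod m) + z1 = k := by rw [← e3]; push_cast; ring
        unfold cl; push_cast
        linear_combination (-1 : ZMod m) * hM - ((k : ZMod m) + 1) * e5
      · unfold wt
        have h5 : w2 * (z1 + s) < w1 * x1 + w3 * z1 := by
          have h6 : w1 * x1 + w3 * z1 = w3 * k + x1 := by
            rw [hw1, ← e3]; ring
          rw [h6]
          have h7 : w2 * (z1 + s) ≤ (m * k) * (k + s - 1) := Nat.mul_le_mul hkm.le (by omega)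
          have h8 : w3 * k = (m * k) * (k + s - 1) + k * k := by rw [hw3]; ring
          have h9 : 0 < k * k := by positivity
          omega
        have h6 : w1 * (x1 + x2) = w1 * x1 + w1 * x2 := by ring
        have h7 : w3 * (z1 + z2) = w3 * z1 + w3 * z2 := by ring
        omega
    · -- case 1
      obtain ⟨x', rfl⟩ : ∃ x', x = x' + 1 := ⟨x - 1, by omega⟩
      obtain ⟨y', rfl⟩ : ∃ y', y = y' + 1 := ⟨y - 1, by omega⟩
      refine ⟨x', y', z + 1, ?_, ?_⟩
      · unfold cl; push_cast; ring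
      · unfold wt
        have h5 : w1 * (x' + 1) = w1 + w1 * x' := by ring
        have h6 : w2 * (y' + 1) = w2 + w2 * y' := by ring
        have h7 : w3 * (z + 1) = w3 * z + w3 := by ring
        omega

theorem lowB {k s m : ℕ} (hk : 2 ≤ k) (h1 : 1 ≤ s) (hs : s ≤ k) (hm : m = k ^ 2 + k + s) :
    ∃ Γ : AddSubmonoid ℕ, IsNumerical Γ ∧ edim Γ = 4 ∧ mult Γ = m ∧ 2 * k ≤ type Γ := by
  have hm0 : 1 ≤ m := by rw [hm]; omega
  have : NeZero m := ⟨by omega⟩
  obtain ⟨w2, hw2⟩ : ∃ w2, w2 + 1 = m * k := by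
    have : 0 < m * k := Nat.mul_pos (by omega) (by omega)
    exact ⟨m * k - 1, by omega⟩
  obtain ⟨w3, hw3⟩ : ∃ w3, w3 = m * (k + s - 1) + k := ⟨_, rfl⟩
  obtain ⟨w1, hw1⟩ : ∃ w1, w1 = w3 + 1 := ⟨_, rfl⟩
  have h0 : ((m : ℕ) : ZMod m) = 0 := ZMod.natCast_self m
  have c3 : (w3 : ZMod m) = k := by rw [hw3]; push_cast; rw [h0]; ring
  have c1 : (w1 : ZMod m) = k + 1 := by rw [hw1]; push_cast; rw [c3]
  have c2 : (w2 : ZMod m) = -1 := by
    have : ((w2 + 1 : ℕ) : ZMod m) = ((m * k : ℕ) : ZMod m) := by rw [hw2]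
    push_cast at this
    rw [h0, zero_mul] at this
    exact eq_neg_of_add_eq_zero_left this
  have hmk : m * 2 ≤ m * k := Nat.mul_le_mul_left _ hk
  have hm3 : 3 ≤ m := by rw [hm]; nlinarith
  have hmk' : m * 2 ≤ m * (k + s - 1) := Nat.mul_le_mul_left _ (by omega)
  have hcrit := low_criterion (m := m) (a1 := (k : ZMod m) + 1) (a2 := -1) (a3 := k)
    (w1 := w1) (w2 := w2) (w3 := w3) c1 c2 c3 (by omega) (by omega) (by omega)
    (fun c => ⟨0, (-c).val, 0, by
      unfold cl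
      rw [ZMod.natCast_zmod_val]
      simp⟩)
    (R := lbR k s)
    (lb_red hk h1 hs hm hw2 hw3 hw1)
    (fun x y z x' y' z' hR hR' he => by
      apply lbV_inj hk h1 hR hR'
      rw [lbV_cl, lbV_cl, ZMod.intCast_eq_intCast_iff_dvd_sub] at he
      have r1 := lbV_range hk h1 hR
      have r2 := lbV_range hk h1 hR'
      have hmz : (m : ℤ) = k ^ 2 + k + s := by rw [hm]; push_cast; ring
      have h3 : lbV k x' y' z' - lbV k x y z = 0 := by
        apply Int.eq_zero_of_abs_lt_dvd he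
        rw [abs_lt, hmz]
        constructor <;> linarith [r1.1, r1.2, r2.1, r2.2]
      linarith)
    (by unfold lbR; omega) (by unfold lbR; omega) (by unfold lbR; omega)
    (S := (Finset.range (2 * k)).image (lbf k s))
    (fun p hp => by
      obtain ⟨i, hi, rfl⟩ := Finset.mem_image.mp hp
      exact lbf_max hk h1 (Finset.mem_range.mp hi))
  rw [Finset.card_image_of_injOn (lbf_inj hk h1), Finset.card_range] at hcrit
  exact hcrit

end Pool.Agent.T3
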