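import Pool.Agent.T3.ArithII

/-!
# Case II arithmetic, `e1 + e2 + e3 = 2`

Notation of `ArithII.lean`.  Use `ident` with `e = 2`, over `ℤ`: `u = b + c - nX - 1`,
`v = a + c - nY - 1`, `w = a + b - nZ - 1`, `D = a b c - A' B' C' ≥ 0`.  With
`G := 4 (core + VX + VY + VZ) - (nX+nY+nZ+3)²`:
`G = 4 D + QL + 2 (u+v+w) + 4 + 2 Σ (2 V - n (n+1))`, where `QL` is the expression of `ql`
(which needs `u, v, w ≥ 0` to be applied), and `2 (2 V - n(n+1)) ≥ -8` for a bad leg (`κ = J = 1`),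
`≥ 0` for the others.

* No leg with `κ = 1`: `u ≥ b' + c' - κX - JX ≥ 0` (`leg_facts`), similarly `v`, `w`; `G ≥ 0`.
* Otherwise, by symmetry (`Dat.swap`, `Dat.rot`) the X-leg has `κX = 1` with `dXy = 1`: `bX = b+1`,
  `f3 ≤ gX ≤ c`.  `e3h` gives `e3 = 0`, so `e1 = e2 = 1`.  `Y` is low (`s3Xy`).  `Z` is low: by `s2xz`
  either `aZ < f1`, or `aZ = a+1` and then `bZ < f2` by `e2h`.  So `JY = JZ = 0`,
  `v ≥ a' + c'`, `w ≥ a' + b'`, `u ≥ b' + c' - 1 - JX`, and `JX = 1` implies `c' ≥ 1`.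
  (i) `u ≥ 0`: `QL ≥ 0` by `ql`.  If `JX = 0`, done.  If `JX = 1`: `v ≥ 1`; we need
      `QL + 2 (u+v+w) ≥ 4`: clear if `u+v+w ≥ 2`, else `u = w = 0`, `v = 1`, `QL = 4 b + 1`.
  (ii) `u = -1`:  `QL + 2(u+v+w) = -4a - 1 + 4(vb + wc) + (v-w)² + 4(v+w)`.
      - `JX = 0`: then `b' = c' = 0`, `D = a f2 f3 - (a'+1)`.
        `G ≥ 4 (D - a) + 3 + 4(vb+wc) + (v-w)² + 4 (v+w) + 2 Σ(2V - n(n+1))`.
        If `f2 f3 ≥ 2`, `D - a ≥ a - a' - 1 = f1 - 1 ≥ 0`, done.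
        If `f2 = f3 = 1` (`b = c = 1`): `G ≥ -4 a' - 1 + 8 (v+w) + (v-w)² + 2 Σ(...)`, `v, w ≥ a'`: fine if
        `v + w ≥ 1`.  If `v = w = 0`: `a' = 0`, `nY = nZ = f1` (`≥ 1`).  `Y` is low and nonempty
        (`nY ≥ 1`), so `gY ≥ 1 = f3` (`hz`) and `aY < f1`; `hn` with `dYx = 0` (`aY ≠ a+1`):
        `f1 + 1 ≤ aY + 1 + dYz`, so `dYz = 1`, `aY = f1 - 1`.  Similarly `bZ ≥ 1`, `aZ < f1`,
        `dZx = 0`, `dZy = 1`, `aZ = f1 - 1`.  `s4yz` gives `2 Σ(2 V - n(n+1)) ≥ 16`.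
      - `JX = 1`: `u = -1` forces `b' = 0`, `c' = 1`; `v ≥ a'+1`, `w ≥ a'`,
        `D = a f2 (f3+1) - 2 (a'+1) ≥ 2 a - 2 (a'+1)`.
        `G ≥ 4 (D - a) + 3 - 8 + 4 (v b + w c) + (v-w)² + 4 (v+w)
           ≥ -9 - 4 a' + 8 v + 12 w + (v-w)²` (`b ≥ 1`, `c ≥ 2`, `a = f1 + a'`, `f1 ≥ 1`), which is
        `≥ 0`: for `a' ≥ 1` it is `≥ -1 + 16 a'`; for `a' = 0`: `v = 1, w = 0`: `0`; otherwise positive.
-/

namespace Pool.Agent.T3

/-- The final inequality, from the identity, with slack `s` in the volume bounds. -/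
private theorem fin2 {a b c A B C nX nY nZ VX VY VZ s : ℤ}
    (hV : nX * (nX + 1) + nY * (nY + 1) + nZ * (nZ + 1) ≤ 2 * (VX + VY + VZ) + s)
    (hQ : 2 * s + 4 * (A * B * C) ≤ 4 * (a * b * c) +
      4 * ((b + c - nX - 1) * a + (a + c - nY - 1) * b + (a + b - nZ - 1) * c) +
      ((b + c - nX - 1) * (b + c - nX - 1) + (a + c - nY - 1) * (a + c - nY - 1) +
        (a + b - nZ - 1) * (a + b - nZ - 1) - 2 * (b + c - nX - 1) * (a + c - nY - 1)
        - 2 * (b + c - nX - 1) * (a + b - nZ - 1) - 2 * (a + c - nY - 1) * (a + b - nZ - 1)) +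
      2 * ((b + c - nX - 1) + (a + c - nY - 1) + (a + b - nZ - 1)) + 4) :
    (nX + nY + nZ + 3) ^ 2 + 4 * (A * B * C) ≤
      4 * ((a + 1) * (b + 1) * (c + 1) + VX + VY + VZ) := by
  have h := ident a b c nX nY nZ 2 (b + c - nX - 1) (a + c - nY - 1) (a + b - nZ - 1)
    (by ring) (by ring) (by ring)
  nlinarith [h, hV, hQ]

private theorem D_nonneg {a b c A B C : ℤ} (hA : 0 ≤ A) (hB : 0 ≤ B) (hC : 0 ≤ C)
    (h1 : A ≤ a) (h2 : B ≤ b) (h3 : C ≤ c) : A * B * C ≤ a * b * c := by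
  have ha := hA.trans h1
  have hb := hB.trans h2
  have h4 : A * B ≤ a * b := mul_le_mul h1 h2 hB ha
  exact mul_le_mul h4 h3 hC (mul_nonneg ha hb)

/-- All of `u, v, w` nonnegative. -/
private theorem caseQ {a b c A B C nX nY nZ VX VY VZ s : ℤ}
    (hA : 0 ≤ A) (hB : 0 ≤ B) (hC : 0 ≤ C) (h1 : A ≤ a) (h2 : B ≤ b) (h3 : C ≤ c)
    (hb : 1 ≤ b) (n1 : 0 ≤ nX) (n2 : 0 ≤ nY) (n3 : 0 ≤ nZ)
    (hu : 0 ≤ b + c - nX - 1) (hv : 0 ≤ a + c - nY - 1) (hw : 0 ≤ a + b - nZ - 1)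
    (hV : nX * (nX + 1) + nY * (nY + 1) + nZ * (nZ + 1) ≤ 2 * (VX + VY + VZ) + s)
    (hs : s ≤ 2 ∨ (s ≤ 4 ∧ 1 ≤ a + c - nY - 1)) :
    (nX + nY + nZ + 3) ^ 2 + 4 * (A * B * C) ≤
      4 * ((a + 1) * (b + 1) * (c + 1) + VX + VY + VZ) := by
  apply fin2 hV
  have hD := D_nonneg hA hB hC h1 h2 h3
  set u := b + c - nX - 1 with hu'
  set v := a + c - nY - 1 with hv'
  set w := a + b - nZ - 1 with hw'
  have hq := ql (a := a) (b := b) (c := c) (u := u) (v := v) (w := w) (hA.trans h1) (hB.trans h2)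
    (hC.trans h3) hu hv hw (by omega) (by omega) (by omega)
  rcases hs with hs | ⟨hs, hv1⟩
  · linarith
  · by_cases hsum : 2 ≤ u + v + w
    · linarith
    · have hu0 : u = 0 := by omega
      have hw0 : w = 0 := by omega
      have hv0 : v = 1 := by omega
      rw [hu0, hw0, hv0]
      linarith


/-- `u = -1`, `J = 0`. -/
private theorem caseN0 {f1 b c a' nX nY nZ VX VY VZ s : ℤ} (p1 : 1 ≤ f1) (p2 : 1 ≤ b)
    (p3 : 1 ≤ c) (ha : 0 ≤ a') (hX : nX = b + c)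
    (hv : a' ≤ f1 + a' + c - nY - 1) (hw : a' ≤ f1 + a' + b - nZ - 1)
    (hV : nX * (nX + 1) + nY * (nY + 1) + nZ * (nZ + 1) ≤ 2 * (VX + VY + VZ) + s)
    (hs : (s = 0 ∧ (2 ≤ b * c ∨ (b = 1 ∧ c = 1 ∧
      1 ≤ (f1 + a' + c - nY - 1) + (f1 + a' + b - nZ - 1)))) ∨
      (s = -8 ∧ b = 1 ∧ c = 1 ∧ a' = 0)) :
    (nX + nY + nZ + 3) ^ 2 + 4 * ((a' + 1) * 1 * 1) ≤
      4 * ((f1 + a' + 1) * (b + 1) * (c + 1) + VX + VY + VZ) := by
  apply fin2 hV
  have hu : b + c - nX - 1 = -1 := by rw [hX]; ring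
  rw [hu]
  set v := f1 + a' + c - nY - 1 with hv'
  set w := f1 + a' + b - nZ - 1 with hw'
  have hv0 : 0 ≤ v := ha.trans hv
  have hw0 : 0 ≤ w := ha.trans hw
  have hvb : v * 1 ≤ v * b := mul_le_mul_of_nonneg_left p2 hv0
  have hwc : w * 1 ≤ w * c := mul_le_mul_of_nonneg_left p3 hw0
  rcases hs with ⟨rfl, hbc | ⟨rfl, rfl, hvw⟩⟩ | ⟨rfl, rfl, rfl, rfl⟩
  · have h1 : (f1 + a') * 2 ≤ (f1 + a') * (b * c) := mul_le_mul_of_nonneg_left hbc (by omega)
    nlinarith [sq_nonneg (v - w)]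
  · nlinarith [sq_nonneg (v - w)]
  · nlinarith [sq_nonneg (v - w)]

/-- `u = -1`, `J = 1`. -/
private theorem caseN1 {f1 b f3 a' nX nY nZ VX VY VZ : ℤ} (p1 : 1 ≤ f1) (p2 : 1 ≤ b)
    (p3 : 1 ≤ f3) (ha : 0 ≤ a') (hX : nX = b + f3 + 1)
    (hv : a' + 1 ≤ f1 + a' + (f3 + 1) - nY - 1) (hw : a' ≤ f1 + a' + b - nZ - 1)
    (hV : nX * (nX + 1) + nY * (nY + 1) + nZ * (nZ + 1) ≤ 2 * (VX + VY + VZ) + 4) :
    (nX + nY + nZ + 3) ^ 2 + 4 * ((a' + 1) * 1 * 2) ≤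
      4 * ((f1 + a' + 1) * (b + 1) * (f3 + 1 + 1) + VX + VY + VZ) := by
  apply fin2 hV
  have hu : b + (f3 + 1) - nX - 1 = -1 := by rw [hX]; ring
  rw [hu]
  set v := f1 + a' + (f3 + 1) - nY - 1 with hv'
  set w := f1 + a' + b - nZ - 1 with hw'
  have hv0 : 0 ≤ v := by omega
  have hw0 : 0 ≤ w := ha.trans hw
  have hvb : v * 1 ≤ v * b := mul_le_mul_of_nonneg_left p2 hv0
  have hwc : w * 2 ≤ w * (f3 + 1) := mul_le_mul_of_nonneg_left (by omega) hw0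
  have hbc : (2 : ℤ) ≤ b * (f3 + 1) := by nlinarith
  have h1 : (f1 + a') * 2 ≤ (f1 + a') * (b * (f3 + 1)) :=
    mul_le_mul_of_nonneg_left hbc (by omega)
  have h2 : 9 + 4 * a' ≤ 8 * v + 12 * w + (v - w) ^ 2 := by
    rcases le_or_gt 1 a' with h | h
    · nlinarith [sq_nonneg (v - w)]
    · have ha0 : a' = 0 := by omega
      subst ha0
      by_cases hw1 : 1 ≤ w
      · nlinarith [sq_nonneg (v - w)]
      · have : w = 0 := by omega
        rw [this]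
        nlinarith
  nlinarith

/-- The X-leg is bad (`κ = 1`) with `dXy = 1`. -/
private theorem kappa_case {f1 f2 f3 a b c bX gX aY gY aZ bZ dXy dXz dYx dYz dZx dZy nX VX nY VY
    nZ VZ e1 e2 e3 : ℕ} (h : Dat f1 f2 f3 a b c bX gX aY gY aZ bZ dXy dXz dYx dYz dZx dZy
      nX VX nY VY nZ VZ e1 e2 e3) (he : e1 + e2 + e3 = 2) {J : ℕ} (hJ1 : J ≤ 1)
    (hd : dXy = 1) (hbX : bX = b + 1) (hg1 : f3 ≤ gX) (hg2 : gX ≤ c) (hJc : J = 1 → f3 + 1 ≤ c)
    (hnX : nX ≤ f2 + f3 + J) (hVX : nX * (nX + 1) ≤ 2 * VX + 4 * J) :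
    (nX + nY + nZ + e1 + e2 + e3 + 1) ^ 2 + 4 * ((a + 1 - f1) * (b + 1 - f2) * (c + 1 - f3)) ≤
      4 * ((a + 1) * (b + 1) * (c + 1) + VX + VY + VZ) := by
  have p1 := h.p1
  have p2 := h.p2
  have p3 := h.p3
  have h1 := h.h1
  have h2 := h.h2
  have h3 := h.h3
  have he3 : e3 = 0 := by
    have h4 := h.e3l
    have h5 := h.e3h
    by_contra hne
    exact (h5 (by omega)).1 ⟨hbX, hg1⟩
  have he2 : e2 = 1 := by
    have h4 := h.e1l
    have h5 := h.e2l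
    omega
  have he1 : e1 = 1 := by omega
  have lowY : aY < f1 ∨ gY < f3 := h.s3Xy (by omega)
  have lowZ : aZ < f1 ∨ bZ < f2 := by
    have h4 := h.s2xz
    have h5 := (h.e2h he2).2
    have h6 := h.lZ.hβ
    by_contra hne
    push Not at hne
    have h7 : ¬ aZ ≤ a := fun h8 => h4 ⟨hg1, hg2, hne.1, h8⟩
    exact h5 ⟨by omega, hne.2⟩
  -- the two low legs
  obtain ⟨JY, -, -, hY⟩ := leg_facts h.lY p1 p3 h1 h3
  have hY' : dYx + dYz ≤ 1 ∧ nY + 2 ≤ f1 + f3 + (dYx + dYz) ∧ nY * (nY + 1) ≤ 2 * VY := by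
    rcases hY with hY | hY | hY
    · omega
    · omega
    · exact ⟨hY.2.2.1, hY.2.2.2⟩
  obtain ⟨JZ, -, -, hZ⟩ := leg_facts h.lZ p1 p2 h1 h2
  have hZ' : dZx + dZy ≤ 1 ∧ nZ + 2 ≤ f1 + f2 + (dZx + dZy) ∧ nZ * (nZ + 1) ≤ 2 * VZ := by
    rcases hZ with hZ | hZ | hZ
    · omega
    · omega
    · exact ⟨hZ.2.2.1, hZ.2.2.2⟩
  obtain ⟨hY1, hY2, hY3⟩ := hY'
  obtain ⟨hZ1, hZ2, hZ3⟩ := hZ'
  obtain ⟨a', ha'⟩ := Nat.exists_eq_add_of_le h1
  obtain ⟨b', hb'⟩ := Nat.exists_eq_add_of_le h2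
  obtain ⟨c', hc'⟩ := Nat.exists_eq_add_of_le h3
  have hA : a + 1 - f1 = a' + 1 := by omega
  have hB : b + 1 - f2 = b' + 1 := by omega
  have hC : c + 1 - f3 = c' + 1 := by omega
  have hsum : nX + nY + nZ + e1 + e2 + e3 + 1 = nX + nY + nZ + 3 := by omega
  rw [hA, hB, hC, hsum]
  have hVXz : (nX : ℤ) * (nX + 1) ≤ 2 * VX + 4 * J := by exact_mod_cast hVX
  have hVYz : (nY : ℤ) * (nY + 1) ≤ 2 * VY := by exact_mod_cast hY3
  have hVZz : (nZ : ℤ) * (nZ + 1) ≤ 2 * VZ := by exact_mod_cast hZ3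
  zify
  by_cases hu : nX + 1 ≤ b + c
  · refine caseQ (s := 4 * J) (by positivity) (by positivity) (by positivity) (by omega) (by omega)
      (by omega) (by omega) (by omega) (by omega) (by omega) (by omega) (by omega) (by omega)
      (by linarith) ?_
    omega
  · rcases Nat.le_one_iff_eq_zero_or_eq_one.mp hJ1 with hJ | hJ
    · -- `J = 0`
      subst hJ
      have hb0 : b' = 0 := by omega
      have hc0 : c' = 0 := by omega
      subst hb0 hc0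
      have hbb : b = f2 := by omega
      have hcc : c = f3 := by omega
      have hX : nX = b + c := by omega
      by_cases hbc : 2 ≤ b * c ∨ (b = 1 ∧ c = 1 ∧ 1 ≤ (a + c - nY - 1) + (a + b - nZ - 1))
      · have key := caseN0 (f1 := f1) (b := b) (c := c) (a' := a') (nX := nX) (nY := nY) (nZ := nZ)
          (VX := VX) (VY := VY) (VZ := VZ) (s := 0) (by omega) (by omega) (by omega) (by omega)
          (by omega) (by omega) (by omega) (by push_cast at hVXz ⊢; linarith) ?_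
        · rw [ha']
          push_cast at key ⊢
          linarith
        · left
          refine ⟨rfl, ?_⟩
          rcases hbc with hbc | ⟨hb1, hc1, hbc⟩
          · left
            exact_mod_cast hbc
          · right
            omega
      · push Not at hbc
        obtain ⟨hbc1, hbc2⟩ := hbc
        have hb1 : b = 1 := by
          by_contra hne
          have hb2 : 2 ≤ b := by omega
          have hc1 : 1 ≤ c := by omega
          have := Nat.mul_le_mul hb2 hc1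
          omega
        have hc1 : c = 1 := by
          rw [hb1] at hbc1
          omega
        have hvw := hbc2 hb1 hc1
        have ha0 : a' = 0 := by omega
        have hnY : nY = f1 := by omega
        have hnZ : nZ = f1 := by omega
        have hYn := h.lY.hn
        have hYz := h.lY.hz
        have hYp := h.lY.dβp
        have hYq := h.lY.dγq
        have hYt := h.lY.dβt
        have hZn := h.lZ.hn
        have hZz := h.lZ.hz
        have hZp := h.lZ.dβp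
        have hZq := h.lZ.dγq
        have hZt := h.lZ.dβt
        have hYfull : 1 ≤ dYz ∧ aY + 1 = f1 := by
          split_ifs at hYn <;> omega
        have hZfull : 1 ≤ dZy ∧ aZ + 1 = f1 := by
          split_ifs at hZn <;> omega
        obtain ⟨g1, g2⟩ := h.s4yz hYfull.1 hZfull.1 hYfull.2 hZfull.2
        have g1z : (nY : ℤ) * (nY + 1) + 4 ≤ 2 * VY := by exact_mod_cast g1
        have g2z : (nZ : ℤ) * (nZ + 1) + 4 ≤ 2 * VZ := by exact_mod_cast g2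
        have key := caseN0 (f1 := f1) (b := b) (c := c) (a' := a') (nX := nX) (nY := nY) (nZ := nZ)
          (VX := VX) (VY := VY) (VZ := VZ) (s := -8) (by omega) (by omega) (by omega) (by omega)
          (by omega) (by omega) (by omega) (by push_cast at hVXz ⊢; linarith)
          (Or.inr ⟨rfl, by omega, by omega, by omega⟩)
        rw [ha']
        push_cast at key ⊢
        linarith
    · -- `J = 1`
      subst hJ
      have hc1 := hJc rfl
      have hb0 : b' = 0 := by omega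
      have hc0 : c' = 1 := by omega
      subst hb0 hc0
      have hbb : b = f2 := by omega
      have key := caseN1 (f1 := f1) (b := b) (f3 := f3) (a' := a') (nX := nX) (nY := nY) (nZ := nZ)
          (VX := VX) (VY := VY) (VZ := VZ) (by omega) (by omega) (by omega) (by omega)
          (by omega) (by omega) (by omega) (by push_cast at hVXz ⊢; linarith)
      rw [ha', hc']
      push_cast at key ⊢
      linarith

private theorem goal_swap {A B C a b c nX VX nY VY nZ VZ e1 e2 e3 : ℕ}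
    (h : (nY + nX + nZ + e2 + e1 + e3 + 1) ^ 2 + 4 * (B * A * C) ≤
      4 * ((b + 1) * (a + 1) * (c + 1) + VY + VX + VZ)) :
    (nX + nY + nZ + e1 + e2 + e3 + 1) ^ 2 + 4 * (A * B * C) ≤
      4 * ((a + 1) * (b + 1) * (c + 1) + VX + VY + VZ) := by
  have e1' : nX + nY + nZ + e1 + e2 + e3 + 1 = nY + nX + nZ + e2 + e1 + e3 + 1 := by ring
  have e2' : A * B * C = B * A * C := by ring
  have e3' : (a + 1) * (b + 1) * (c + 1) + VX + VY + VZ =
    (b + 1) * (a + 1) * (c + 1) + VY + VX + VZ := by ring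
  rw [e1', e2', e3']
  exact h

private theorem goal_rot {A B C a b c nX VX nY VY nZ VZ e1 e2 e3 : ℕ}
    (h : (nZ + nX + nY + e3 + e1 + e2 + 1) ^ 2 + 4 * (C * A * B) ≤
      4 * ((c + 1) * (a + 1) * (b + 1) + VZ + VX + VY)) :
    (nX + nY + nZ + e1 + e2 + e3 + 1) ^ 2 + 4 * (A * B * C) ≤
      4 * ((a + 1) * (b + 1) * (c + 1) + VX + VY + VZ) := by
  have e1' : nX + nY + nZ + e1 + e2 + e3 + 1 = nZ + nX + nY + e3 + e1 + e2 + 1 := by ring
  have e2' : A * B * C = C * A * B := by ring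
  have e3' : (a + 1) * (b + 1) * (c + 1) + VX + VY + VZ =
    (c + 1) * (a + 1) * (b + 1) + VZ + VX + VY := by ring
  rw [e1', e2', e3']
  exact h

theorem arithII2 {f1 f2 f3 a b c bX gX aY gY aZ bZ dXy dXz dYx dYz dZx dZy nX VX nY VY nZ VZ
    e1 e2 e3 : ℕ} (h : Dat f1 f2 f3 a b c bX gX aY gY aZ bZ dXy dXz dYx dYz dZx dZy
      nX VX nY VY nZ VZ e1 e2 e3) (he : e1 + e2 + e3 = 2) :
    (nX + nY + nZ + e1 + e2 + e3 + 1) ^ 2 + 4 * ((a + 1 - f1) * (b + 1 - f2) * (c + 1 - f3)) ≤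
      4 * ((a + 1) * (b + 1) * (c + 1) + VX + VY + VZ) := by
  have p1 := h.p1
  have p2 := h.p2
  have p3 := h.p3
  have h1 := h.h1
  have h2 := h.h2
  have h3 := h.h3
  obtain ⟨JX, hJX1, hJX, hX⟩ := leg_facts h.lX p2 p3 h2 h3
  obtain ⟨JY, hJY1, hJY, hY⟩ := leg_facts h.lY p1 p3 h1 h3
  obtain ⟨JZ, hJZ1, hJZ, hZ⟩ := leg_facts h.lZ p1 p2 h1 h2
  -- the X-leg
  have hX' : nX + 1 ≤ f2 + f3 + JX ∧ nX * (nX + 1) ≤ 2 * VX ∨
      (nX + nY + nZ + e1 + e2 + e3 + 1) ^ 2 + 4 * ((a + 1 - f1) * (b + 1 - f2) * (c + 1 - f3)) ≤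
      4 * ((a + 1) * (b + 1) * (c + 1) + VX + VY + VZ) := by
    rcases hX with ⟨hX | hX, hn, hv⟩ | hX | hX
    · right
      obtain ⟨q1, q2, q3, q4, q5, q6⟩ := hX
      exact kappa_case h he hJX1 q1 q3 q4 q5 q6 hn hv
    · right
      obtain ⟨q1, q2, q3, q4, q5, q6⟩ := hX
      have h' := h.rot.swap
      refine goal_rot (goal_swap ?_)
      exact kappa_case h' (by omega) hJX1 q2 q3 q4 q5 q6 (by omega) hv
    · left
      omega
    · left
      exact ⟨by omega, hX.2.2.2.2⟩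
  rcases hX' with hX' | hX'
  swap
  · exact hX'
  have hY' : nY + 1 ≤ f1 + f3 + JY ∧ nY * (nY + 1) ≤ 2 * VY ∨
      (nX + nY + nZ + e1 + e2 + e3 + 1) ^ 2 + 4 * ((a + 1 - f1) * (b + 1 - f2) * (c + 1 - f3)) ≤
      4 * ((a + 1) * (b + 1) * (c + 1) + VX + VY + VZ) := by
    rcases hY with ⟨hY | hY, hn, hv⟩ | hY | hY
    · right
      obtain ⟨q1, q2, q3, q4, q5, q6⟩ := hY
      refine goal_swap ?_
      exact kappa_case h.swap (by omega) hJY1 q1 q3 q4 q5 q6 hn hv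
    · right
      obtain ⟨q1, q2, q3, q4, q5, q6⟩ := hY
      refine goal_rot (goal_rot ?_)
      exact kappa_case h.rot.rot (by omega) hJY1 q2 q3 q4 q5 q6 (by omega) hv
    · left
      omega
    · left
      exact ⟨by omega, hY.2.2.2.2⟩
  rcases hY' with hY' | hY'
  swap
  · exact hY'
  have hZ' : nZ + 1 ≤ f1 + f2 + JZ ∧ nZ * (nZ + 1) ≤ 2 * VZ ∨
      (nX + nY + nZ + e1 + e2 + e3 + 1) ^ 2 + 4 * ((a + 1 - f1) * (b + 1 - f2) * (c + 1 - f3)) ≤
      4 * ((a + 1) * (b + 1) * (c + 1) + VX + VY + VZ) := by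
    rcases hZ with ⟨hZ | hZ, hn, hv⟩ | hZ | hZ
    · right
      obtain ⟨q1, q2, q3, q4, q5, q6⟩ := hZ
      refine goal_rot ?_
      exact kappa_case h.rot (by omega) hJZ1 q1 q3 q4 q5 q6 (by omega) hv
    · right
      obtain ⟨q1, q2, q3, q4, q5, q6⟩ := hZ
      refine goal_rot (goal_rot (goal_swap ?_))
      exact kappa_case h.rot.rot.swap (by omega) hJZ1 q2 q3 q4 q5 q6 (by omega) hv
    · left
      omega
    · left
      exact ⟨by omega, hZ.2.2.2.2⟩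
  rcases hZ' with hZ' | hZ'
  swap
  · exact hZ'
  obtain ⟨hX2, hX3⟩ := hX'
  obtain ⟨hY2, hY3⟩ := hY'
  obtain ⟨hZ2, hZ3⟩ := hZ'
  obtain ⟨a', ha'⟩ := Nat.exists_eq_add_of_le h1
  obtain ⟨b', hb'⟩ := Nat.exists_eq_add_of_le h2
  obtain ⟨c', hc'⟩ := Nat.exists_eq_add_of_le h3
  have hA : a + 1 - f1 = a' + 1 := by omega
  have hB : b + 1 - f2 = b' + 1 := by omega
  have hC : c + 1 - f3 = c' + 1 := by omega
  have hsum : nX + nY + nZ + e1 + e2 + e3 + 1 = nX + nY + nZ + 3 := by omega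
  rw [hA, hB, hC, hsum]
  have hVXz : (nX : ℤ) * (nX + 1) ≤ 2 * VX := by exact_mod_cast hX3
  have hVYz : (nY : ℤ) * (nY + 1) ≤ 2 * VY := by exact_mod_cast hY3
  have hVZz : (nZ : ℤ) * (nZ + 1) ≤ 2 * VZ := by exact_mod_cast hZ3
  zify
  refine caseQ (s := 0) (by positivity) (by positivity) (by positivity) (by omega) (by omega)
      (by omega) (by omega) (by omega) (by omega) (by omega) (by omega) (by omega) (by omega)
      (by linarith) (Or.inl (by norm_num))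

end Pool.Agent.T3
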