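import Pool.Agent.T3.ArithII

/-!
# Case II arithmetic, `e1 = e2 = e3 = 1`

Notation of `ArithII.lean`.  Use `ident` with `e = 3`, over `ℤ`: `u = b + c - nX - 2`,
`v = a + c - nY - 2`, `w = a + b - nZ - 2`, `D = a b c - A' B' C' ≥ 0`.  With
`G := 4 (core + VX + VY + VZ) - (nX+nY+nZ+4)²`:
`G = 4 D + QL + 2 (u+v+w) + 12 + 2 Σ (2 V - n (n+1))`, `QL` the expression of `ql`.

No leg has `κ = 1`: e.g. `dXy = 1` would give `bX = b+1`, `f3 ≤ gX`, excluded by `e3h` (`dXz`: `e2h`,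
etc.).  So all `2V - n(n+1) ≥ 0`.  If `JX = 1` then `bX ≤ b` (`e3h`) and `gX ≤ c` (`e2h`), so
`b' ≥ 1`, `c' ≥ 1`; similarly for `Y`, `Z`.  `u ≥ b' + c' - 1 - κX - JX`: so `u ≥ 0` if `JX = 1`, and
if `JX = 0`, `u ≥ b' + c' - 1 ≥ -1`, with `u = -1` only if `b' = c' = 0`, `κX = 0` and
`nX = f2 + f3 - 1`.

(a) `u, v, w ≥ 0`: `ql`, done.
(b) exactly one is `-1`, by symmetry `u`: `b = f2`, `c = f3`, so `JY = JZ = 0`, and
    `G ≥ 4 (D - a) + 11 + 4 (vb + wc) + (v-w)² + 4 (v+w)`, `D = a f2 f3 - (a'+1)`.  If `f2 f3 ≥ 2`: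
    `D - a ≥ f1 - 1 ≥ 0`.  If `f2 = f3 = 1`: `G ≥ 7 - 4 a' + 8 (v+w)`, `v, w ≥ max 0 (a'-1)`: `≥ 0`.
(c) exactly two are `-1`, say `u = v = -1`: `a' = b' = c' = 0` and
    `G ≥ 4 (f1 f2 f3 - f1 - f2 + 1) + 4 w f3 + w² + 6 w ≥ 4 (f1-1)(f2-1) ≥ 0`.
(d) `u = v = w = -1`: `a' = b' = c' = 0`, `nX = f2+f3-1`, `nY = f1+f3-1`, `nZ = f1+f2-1`, all `κ = 0`,
    `G = 4 (f1 f2 f3 - f1 - f2 - f3) - 1 + 2 Σ (2V - n(n+1))`.
    If `f1, f2, f3 ≥ 2`: `f1 f2 f3 - f1 - f2 - f3 ≥ 2`, done.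
    In general each leg is of type M (not low, `d = 0`; then e.g. `f2 ≤ bX ≤ b`, `f3 ≤ gX ≤ c`, by
    `e3h`, `e2h`) or of type T (low, `d = 1`).
    Two legs of type M contradict `s2xy`/`s2xz`/`s2yz`.
    (d1) One leg of type M, say `Z`: `f1 ≤ aZ`, `f2 ≤ bZ`.  `dXz = 0` by `s3Xz`, so `dXy = 1`,
         `bX = b+1`, so `gX < f3`; similarly `dYz = 0` by `s3Yz`, `dYx = 1`, `gY < f3`.
    (d2) all legs of type T.  Either (`dXy = 1` and `dYx = 1`), or (`dXz = 1` and `dZx = 1`), or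
         (`dYz = 1` and `dZy = 1`), or cyclic: (`dXy = dYz = dZx = 1` or `dXz = dYx = dZy = 1`).  In the
         cyclic case: `dXy = 1` gives `bX = b+1`, so low means `1 ≤ gX < f3` (`hz`), `f3 ≥ 2`,
         and similarly for the others: `f1, f2, f3 ≥ 2`, done.
    In the remaining cases, say `dXy = dYx = 1` (so `bX = b+1`, `gX < f3`, `aY = a+1`, `gY < f3`):
    `hn`: `f2 + f3 ≤ f2 + gX + 1`, so `gX + 1 = f3`, similarly `gY + 1 = f3`; `gX ≥ 1` so `f3 ≥ 2`.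
    `s4xy` gives `2 Σ (2V - n(n+1)) ≥ 16`, and `f1 f2 f3 - f1 - f2 - f3 ≥ -2` as `f3 ≥ 2`.  So `G ≥ 7`.
-/

namespace Pool.Agent.T3

/-- the case `u, v, w ≥ 0` -/
theorem a3_La {f1 f2 f3 a b c u v w : ℤ} (p1 : 1 ≤ f1) (p2 : 1 ≤ f2) (p3 : 1 ≤ f3) (h1 : f1 ≤ a)
    (h2 : f2 ≤ b) (h3 : f3 ≤ c) (hu : 0 ≤ u) (hv : 0 ≤ v) (hw : 0 ≤ w) (ku : u ≤ b + c)
    (kv : v ≤ a + c) (kw : w ≤ a + b) :
    0 ≤ 4 * (a * b * c - (a + 1 - f1) * (b + 1 - f2) * (c + 1 - f3)) + 4 * (u * a + v * b + w * c) +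
      (u * u + v * v + w * w - 2 * u * v - 2 * u * w - 2 * v * w) + 2 * (u + v + w) + 12 := by
  have hD : (a + 1 - f1) * (b + 1 - f2) * (c + 1 - f3) ≤ a * b * c := by
    apply mul_le_mul
    · apply mul_le_mul <;> linarith
    · linarith
    · linarith
    · apply mul_nonneg <;> linarith
  have hQ := ql (a := a) (b := b) (c := c) (by linarith) (by linarith) (by linarith) hu hv hw ku kv kw
  linarith

/-- the case `u = -1`, `v, w ≥ 0` -/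
theorem a3_Lb {f1 f2 f3 a v w : ℤ} (p1 : 1 ≤ f1) (p2 : 1 ≤ f2) (p3 : 1 ≤ f3) (h1 : f1 ≤ a)
    (hv : 0 ≤ v) (hw : 0 ≤ w) (kv : a - f1 - 1 ≤ v) (kw : a - f1 - 1 ≤ w) :
    0 ≤ 4 * (a * f2 * f3 - (a + 1 - f1)) + 4 * (-a + v * f2 + w * f3) +
      (1 + v * v + w * w + 2 * v + 2 * w - 2 * v * w) + 2 * (-1 + v + w) + 12 := by
  have hsq := mul_self_nonneg (v - w)
  by_cases hc : f2 = 1 ∧ f3 = 1
  · obtain ⟨rfl, rfl⟩ := hc
    have e1 : (v - w) * (v - w) = v * v + w * w - 2 * v * w := by ring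
    rcases le_total (a - f1) 1 with h | h <;> nlinarith
  · have hP : 2 ≤ f2 * f3 := by
      rcases lt_or_eq_of_le p2 with h | h
      · nlinarith
      · rcases lt_or_eq_of_le p3 with h' | h'
        · nlinarith
        · exact absurd ⟨h.symm, h'.symm⟩ hc
    have h4 : 0 ≤ a * (f2 * f3 - 2) := mul_nonneg (by linarith) (by linarith)
    have h5 : 0 ≤ v * f2 := mul_nonneg hv (by linarith)
    have h6 : 0 ≤ w * f3 := mul_nonneg hw (by linarith)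
    nlinarith

/-- the case `u = v = -1`, `w ≥ 0` -/
theorem a3_Lc {f1 f2 f3 w : ℤ} (p1 : 1 ≤ f1) (p2 : 1 ≤ f2) (p3 : 1 ≤ f3) (hw : 0 ≤ w) :
    0 ≤ 4 * (f1 * f2 * f3 - 1) + 4 * (-f1 - f2 + w * f3) + (w * w + 4 * w) + 2 * (w - 2) + 12 := by
  have h1 : 0 ≤ f1 * f2 * (f3 - 1) := mul_nonneg (mul_nonneg (by linarith) (by linarith)) (by linarith)
  have h2 : 0 ≤ (f1 - 1) * (f2 - 1) := mul_nonneg (by linarith) (by linarith)
  have h3 : 0 ≤ w * f3 := mul_nonneg hw (by linarith)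
  nlinarith [mul_nonneg hw hw]

/-- not all of `u, v, w` are `-1` -/
theorem a3_core {f1 f2 f3 a b c u v w : ℤ} (p1 : 1 ≤ f1) (p2 : 1 ≤ f2) (p3 : 1 ≤ f3) (h1 : f1 ≤ a)
    (h2 : f2 ≤ b) (h3 : f3 ≤ c) (ku : u ≤ b + c) (kv : v ≤ a + c) (kw : w ≤ a + b)
    (hu : b + c - f2 - f3 - 1 ≤ u ∨ (f2 + 1 ≤ b ∧ f3 + 1 ≤ c ∧ b + c - f2 - f3 - 2 ≤ u))
    (hv : a + c - f1 - f3 - 1 ≤ v ∨ (f1 + 1 ≤ a ∧ f3 + 1 ≤ c ∧ a + c - f1 - f3 - 2 ≤ v))
    (hw : a + b - f1 - f2 - 1 ≤ w ∨ (f1 + 1 ≤ a ∧ f2 + 1 ≤ b ∧ a + b - f1 - f2 - 2 ≤ w))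
    (hne : ¬ (u = -1 ∧ v = -1 ∧ w = -1)) :
    0 ≤ 4 * (a * b * c - (a + 1 - f1) * (b + 1 - f2) * (c + 1 - f3)) + 4 * (u * a + v * b + w * c) +
      (u * u + v * v + w * w - 2 * u * v - 2 * u * w - 2 * v * w) + 2 * (u + v + w) + 12 := by
  have su : 0 ≤ u ∨ (u = -1 ∧ b = f2 ∧ c = f3) := by omega
  have sv : 0 ≤ v ∨ (v = -1 ∧ a = f1 ∧ c = f3) := by omega
  have sw : 0 ≤ w ∨ (w = -1 ∧ a = f1 ∧ b = f2) := by omega
  rcases su with su | ⟨su, sb, sc⟩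
  · rcases sv with sv | ⟨sv, sa, sc⟩
    · rcases sw with sw | ⟨sw, sa, sb⟩
      · exact a3_La p1 p2 p3 h1 h2 h3 su sv sw ku kv kw
      · -- only w
        have := a3_Lb (f1 := f3) (f2 := f1) (f3 := f2) (a := c) (v := u) (w := v) p3 p1 p2 h3 su sv
          (by omega) (by omega)
        subst sw sa sb
        refine le_trans this (le_of_eq ?_)
        ring
    · rcases sw with sw | ⟨sw, sa', sb⟩
      · -- only v
        have := a3_Lb (f1 := f2) (f2 := f1) (f3 := f3) (a := b) (v := u) (w := w) p2 p1 p3 h2 su sw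
          (by omega) (by omega)
        subst sv sa sc
        refine le_trans this (le_of_eq ?_)
        ring
      · -- v and w
        have := a3_Lc (f1 := f2) (f2 := f3) (f3 := f1) (w := u) p2 p3 p1 su
        subst sv sw sa sc sb
        refine le_trans this (le_of_eq ?_)
        ring
  · rcases sv with sv | ⟨sv, sa, sc'⟩
    · rcases sw with sw | ⟨sw, sa, sb'⟩
      · -- only u
        have := a3_Lb (f1 := f1) (f2 := f2) (f3 := f3) (a := a) (v := v) (w := w) p1 p2 p3 h1 sv sw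
          (by omega) (by omega)
        subst su sb sc
        refine le_trans this (le_of_eq ?_)
        ring
      · -- u and w
        have := a3_Lc (f1 := f1) (f2 := f3) (f3 := f2) (w := v) p1 p3 p2 sv
        subst su sw sb sc sa
        refine le_trans this (le_of_eq ?_)
        ring
    · rcases sw with sw | ⟨sw, sa', sb'⟩
      · -- u and v
        have := a3_Lc (f1 := f1) (f2 := f2) (f3 := f3) (w := w) p1 p2 p3 sw
        subst su sv sb sc sa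
        refine le_trans this (le_of_eq ?_)
        ring
      · exact absurd ⟨su, sv, sw⟩ hne

/-- the facts about one leg -/
theorem a3_leg {p q B C β0 γ0 dβ dγ n V : ℕ} (h : LegSum p q B C β0 γ0 dβ dγ n V)
    (hp : 1 ≤ p) (hq : 1 ≤ q) (hB : p ≤ B) (hC : q ≤ C) (hb : ¬ (β0 = B + 1 ∧ q ≤ γ0))
    (hc : ¬ (γ0 = C + 1 ∧ p ≤ β0)) :
    n * (n + 1) ≤ 2 * V ∧ (n + 1 ≤ p + q ∨ (p + 1 ≤ B ∧ q + 1 ≤ C ∧ n ≤ p + q)) ∧
    (n + 1 = p + q → (p = B ∧ q = C) →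
      (p ≤ β0 ∧ β0 ≤ B ∧ q ≤ γ0 ∧ γ0 ≤ C) ∨
      (1 ≤ dβ ∧ β0 = B + 1 ∧ γ0 + 1 = q ∧ 1 ≤ γ0) ∨
      (1 ≤ dγ ∧ γ0 = C + 1 ∧ β0 + 1 = p ∧ 1 ≤ β0)) := by
  obtain ⟨J, hJ, kJ, hcase⟩ := leg_facts h hp hq hB hC
  have hβ := h.hβ
  have hγ := h.hγ
  rcases hcase with ⟨(⟨-, -, h1, h2, h3, -⟩ | ⟨-, -, h1, h2, h3, -⟩), -, -⟩ | h0 | h0
  · exact absurd ⟨h1, h2⟩ hb
  · exact absurd ⟨h1, h2⟩ hc
  · obtain ⟨d1, d2, h1, h2, h3, h4⟩ := h0
    refine ⟨h4, ?_, ?_⟩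
    · rcases Nat.lt_or_ge J 1 with hJ0 | hJ1
      · left; omega
      · right
        have hJ1' : J = 1 := by omega
        obtain ⟨h5, h6, -⟩ := kJ hJ1'
        refine ⟨?_, ?_, by omega⟩
        · by_contra hh
          exact hb ⟨by omega, by omega⟩
        · by_contra hh
          exact hc ⟨by omega, by omega⟩
    · intro _ _
      left
      refine ⟨h1, ?_, h2, ?_⟩
      · by_contra hh
        exact hb ⟨by omega, h2⟩
      · by_contra hh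
        exact hc ⟨by omega, h1⟩
  · obtain ⟨hlow, hJ0, hd, hn2, hV⟩ := h0
    refine ⟨hV, by left; omega, ?_⟩
    intro hn _
    right
    have hd1 : dβ + dγ = 1 := by omega
    have hhn := h.hn
    have hif : (if p < β0 ∧ q < γ0 then 1 else 0) = 0 := by
      rw [if_neg]
      omega
    rw [hif] at hhn
    have hz := h.hz
    rcases Nat.eq_zero_or_pos dβ with h5 | h5
    · right
      have h6 : 1 ≤ dγ := by omega
      have h7 := h.dγt h6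
      have h8 : β0 < p := by omega
      have h9 : min β0 p = β0 := min_eq_left h8.le
      have h10 : min γ0 q = q := min_eq_right (by omega)
      rw [h9, h10] at hhn
      have h11 : β0 ≠ 0 := by
        intro h12
        have := hz.mp h12
        omega
      refine ⟨h6, h7, ?_, by omega⟩
      rcases le_max_iff.mp hhn with h12 | h12 <;> omega
    · left
      have h7 := h.dβt h5
      have h8 : γ0 < q := by omega
      have h9 : min γ0 q = γ0 := min_eq_left h8.le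
      have h10 : min β0 p = p := min_eq_right (by omega)
      rw [h9, h10] at hhn
      have h11 : γ0 ≠ 0 := by
        intro h12
        have := hz.mpr h12
        omega
      refine ⟨h5, h7, ?_, by omega⟩
      rcases le_max_iff.mp hhn with h12 | h12 <;> omega

/-- all of `u, v, w` are `-1` -/
theorem a3_Ld {f1 f2 f3 S : ℤ} (p1 : 1 ≤ f1) (p2 : 1 ≤ f2) (p3 : 1 ≤ f3) (hS : 0 ≤ S)
    (h : (8 ≤ S ∧ (2 ≤ f1 ∨ 2 ≤ f2 ∨ 2 ≤ f3)) ∨ (2 ≤ f1 ∧ 2 ≤ f2 ∧ 2 ≤ f3)) :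
    0 ≤ 4 * (f1 * f2 * f3 - 1) + 4 * (-f1 - f2 - f3) + (-3) + 2 * (-3) + 12 + 2 * S := by
  have aux : ∀ x y z : ℤ, 1 ≤ x → 1 ≤ y → 2 ≤ z → -2 ≤ x * y * z - x - y - z := by
    intro x y z hx hy hz
    have h1 : 0 ≤ (x * y - 1) * (z - 2) := mul_nonneg (by nlinarith) (by linarith)
    have h2 : 0 ≤ (x - 1) * (y - 1) := mul_nonneg (by linarith) (by linarith)
    nlinarith
  rcases h with ⟨h1, h2 | h2 | h2⟩ | ⟨h1, h2, h3⟩
  · have := aux f2 f3 f1 p2 p3 h2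
    nlinarith
  · have := aux f1 f3 f2 p1 p3 h2
    nlinarith
  · have := aux f1 f2 f3 p1 p2 h2
    nlinarith
  · have h4 : 4 ≤ f1 * f2 := by nlinarith
    have h5 : 0 ≤ (f1 * f2 - 4) * (f3 - 2) := mul_nonneg (by linarith) (by linarith)
    have h6 : 0 ≤ (f1 - 2) * (f2 - 2) := mul_nonneg (by linarith) (by linarith)
    nlinarith

theorem a3_abs {p q β γ : ℕ} (h : β < p ∨ γ < q) (h1 : p ≤ β) (h2 : q ≤ γ) : False := by
  omega

theorem a3_two {g f : ℕ} (h : g + 1 = f) (h1 : 1 ≤ g) : 2 ≤ (f : ℤ) := by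
  omega

theorem a3_u {B C p q n : ℕ} (h : n + 1 ≤ p + q ∨ (p + 1 ≤ B ∧ q + 1 ≤ C ∧ n ≤ p + q)) :
    (B : ℤ) + C - p - q - 1 ≤ B + C - n - 2 ∨
      ((p : ℤ) + 1 ≤ B ∧ (q : ℤ) + 1 ≤ C ∧ (B : ℤ) + C - p - q - 2 ≤ B + C - n - 2) := by
  omega

theorem a3_eqs {B C p q n : ℕ} (h : n + 1 ≤ p + q ∨ (p + 1 ≤ B ∧ q + 1 ≤ C ∧ n ≤ p + q))
    (hp : p ≤ B) (hq : q ≤ C) (hu : (B : ℤ) + C - n - 2 = -1) : n + 1 = p + q ∧ p = B ∧ q = C := by
  omega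

theorem arithII3 {f1 f2 f3 a b c bX gX aY gY aZ bZ dXy dXz dYx dYz dZx dZy nX VX nY VY nZ VZ
    e1 e2 e3 : ℕ} (h : Dat f1 f2 f3 a b c bX gX aY gY aZ bZ dXy dXz dYx dYz dZx dZy
      nX VX nY VY nZ VZ e1 e2 e3) (he : e1 + e2 + e3 = 3) :
    (nX + nY + nZ + e1 + e2 + e3 + 1) ^ 2 + 4 * ((a + 1 - f1) * (b + 1 - f2) * (c + 1 - f3)) ≤
      4 * ((a + 1) * (b + 1) * (c + 1) + VX + VY + VZ) := by
  have k1 := h.e1l
  have k2 := h.e2l
  have k3 := h.e3l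
  have q1 : e1 = 1 := by omega
  have q2 : e2 = 1 := by omega
  have q3 : e3 = 1 := by omega
  have E1 := h.e1h q1
  have E2 := h.e2h q2
  have E3 := h.e3h q3
  have p1 := h.p1
  have p2 := h.p2
  have p3 := h.p3
  have g1 := h.h1
  have g2 := h.h2
  have g3 := h.h3
  obtain ⟨vX, cX, mX⟩ := a3_leg h.lX p2 p3 g2 g3 E3.1 E2.1
  obtain ⟨vY, cY, mY⟩ := a3_leg h.lY p1 p3 g1 g3 E3.2 E1.1
  obtain ⟨vZ, cZ, mZ⟩ := a3_leg h.lZ p1 p2 g1 g2 E2.2 E1.2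
  subst q1 q2 q3
  -- the identity
  have hid := ident (a : ℤ) b c nX nY nZ 3 (b + c - nX - 2) (a + c - nY - 2) (a + b - nZ - 2)
    (by ring) (by ring) (by ring)
  have vX' : (nX : ℤ) * (nX + 1) ≤ 2 * VX := by exact_mod_cast vX
  have vY' : (nY : ℤ) * (nY + 1) ≤ 2 * VY := by exact_mod_cast vY
  have vZ' : (nZ : ℤ) * (nZ + 1) ≤ 2 * VZ := by exact_mod_cast vZ
  have key : 0 ≤ 4 * ((a : ℤ) * b * c - (a + 1 - f1) * (b + 1 - f2) * (c + 1 - f3)) +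
      4 * (((b : ℤ) + c - nX - 2) * a + ((a : ℤ) + c - nY - 2) * b + ((a : ℤ) + b - nZ - 2) * c) +
      (((b : ℤ) + c - nX - 2) * ((b : ℤ) + c - nX - 2) + ((a : ℤ) + c - nY - 2) * ((a : ℤ) + c - nY - 2)
        + ((a : ℤ) + b - nZ - 2) * ((a : ℤ) + b - nZ - 2)
        - 2 * ((b : ℤ) + c - nX - 2) * ((a : ℤ) + c - nY - 2)
        - 2 * ((b : ℤ) + c - nX - 2) * ((a : ℤ) + b - nZ - 2)
        - 2 * ((a : ℤ) + c - nY - 2) * ((a : ℤ) + b - nZ - 2))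
      + 2 * (((b : ℤ) + c - nX - 2) + ((a : ℤ) + c - nY - 2) + ((a : ℤ) + b - nZ - 2)) + 12
      + 2 * ((2 * VX - nX * (nX + 1)) + (2 * VY - nY * (nY + 1)) + (2 * VZ - nZ * (nZ + 1))) := by
    by_cases hall : (b : ℤ) + c - nX - 2 = -1 ∧ (a : ℤ) + c - nY - 2 = -1 ∧ (a : ℤ) + b - nZ - 2 = -1
    · have ea : a = f1 := by omega
      have eb : b = f2 := by omega
      have ec : c = f3 := by omega
      have nXe : nX + 1 = f2 + f3 := by omega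
      have nYe : nY + 1 = f1 + f3 := by omega
      have nZe : nZ + 1 = f1 + f2 := by omega
      have tX := mX nXe ⟨eb.symm, ec.symm⟩
      have tY := mY nYe ⟨ea.symm, ec.symm⟩
      have tZ := mZ nZe ⟨ea.symm, eb.symm⟩
      have hS : (8 ≤ (2 * (VX : ℤ) - nX * (nX + 1)) + (2 * VY - nY * (nY + 1)) + (2 * VZ - nZ * (nZ + 1)) ∧
          (2 ≤ (f1 : ℤ) ∨ 2 ≤ (f2 : ℤ) ∨ 2 ≤ (f3 : ℤ))) ∨ (2 ≤ (f1 : ℤ) ∧ 2 ≤ (f2 : ℤ) ∧ 2 ≤ (f3 : ℤ)) := by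
        have hxy : 1 ≤ dXy → 1 ≤ dYx → gX + 1 = f3 → gY + 1 = f3 → 1 ≤ gX →
            8 ≤ (2 * (VX : ℤ) - nX * (nX + 1)) + (2 * VY - nY * (nY + 1)) + (2 * VZ - nZ * (nZ + 1)) ∧
            (2 ≤ (f1 : ℤ) ∨ 2 ≤ (f2 : ℤ) ∨ 2 ≤ (f3 : ℤ)) := by
          intro r1 r2 r3 r4 r5
          obtain ⟨s1, s2⟩ := h.s4xy r1 r2 r3 r4
          have s1' : (nX : ℤ) * (nX + 1) + 4 ≤ 2 * VX := by exact_mod_cast s1
          have s2' : (nY : ℤ) * (nY + 1) + 4 ≤ 2 * VY := by exact_mod_cast s2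
          exact ⟨by linarith, Or.inr (Or.inr (a3_two r3 r5))⟩
        have hxz : 1 ≤ dXz → 1 ≤ dZx → bX + 1 = f2 → bZ + 1 = f2 → 1 ≤ bX →
            8 ≤ (2 * (VX : ℤ) - nX * (nX + 1)) + (2 * VY - nY * (nY + 1)) + (2 * VZ - nZ * (nZ + 1)) ∧
            (2 ≤ (f1 : ℤ) ∨ 2 ≤ (f2 : ℤ) ∨ 2 ≤ (f3 : ℤ)) := by
          intro r1 r2 r3 r4 r5
          obtain ⟨s1, s2⟩ := h.s4xz r1 r2 r3 r4
          have s1' : (nX : ℤ) * (nX + 1) + 4 ≤ 2 * VX := by exact_mod_cast s1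
          have s2' : (nZ : ℤ) * (nZ + 1) + 4 ≤ 2 * VZ := by exact_mod_cast s2
          exact ⟨by linarith, Or.inr (Or.inl (a3_two r3 r5))⟩
        have hyz : 1 ≤ dYz → 1 ≤ dZy → aY + 1 = f1 → aZ + 1 = f1 → 1 ≤ aY →
            8 ≤ (2 * (VX : ℤ) - nX * (nX + 1)) + (2 * VY - nY * (nY + 1)) + (2 * VZ - nZ * (nZ + 1)) ∧
            (2 ≤ (f1 : ℤ) ∨ 2 ≤ (f2 : ℤ) ∨ 2 ≤ (f3 : ℤ)) := by
          intro r1 r2 r3 r4 r5
          obtain ⟨s1, s2⟩ := h.s4yz r1 r2 r3 r4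
          have s1' : (nY : ℤ) * (nY + 1) + 4 ≤ 2 * VY := by exact_mod_cast s1
          have s2' : (nZ : ℤ) * (nZ + 1) + 4 ≤ 2 * VZ := by exact_mod_cast s2
          exact ⟨by linarith, Or.inl (a3_two r3 r5)⟩
        have i1 := h.s2xy
        have i2 := h.s2xz
        have i3 := h.s2yz
        have j1 := h.s3Xy
        have j2 := h.s3Xz
        have j3 := h.s3Yx
        have j4 := h.s3Yz
        have j5 := h.s3Zx
        have j6 := h.s3Zy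
        rcases tX with tX | ⟨x1, x2, x3, x4⟩ | ⟨x1, x2, x3, x4⟩
        · rcases tY with tY | ⟨y1, y2, y3, y4⟩ | ⟨y1, y2, y3, y4⟩
          · exact absurd ⟨tX.1, tX.2.1, tY.1, tY.2.1⟩ i1
          · exfalso
            exact a3_abs (j3 y1) tX.1 tX.2.2.1
          · rcases tZ with tZ | ⟨z1, z2, z3, z4⟩ | ⟨z1, z2, z3, z4⟩
            · exact absurd ⟨tX.2.2.1, tX.2.2.2, tZ.1, tZ.2.1⟩ i2
            · exfalso
              exact a3_abs (j5 z1) tX.1 tX.2.2.1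
            · exact Or.inl (hyz y1 z1 y3 z3 y4)
        · rcases tY with tY | ⟨y1, y2, y3, y4⟩ | ⟨y1, y2, y3, y4⟩
          · exfalso
            exact a3_abs (j1 x1) tY.1 tY.2.2.1
          · exact Or.inl (hxy x1 y1 x3 y3 x4)
          · rcases tZ with tZ | ⟨z1, z2, z3, z4⟩ | ⟨z1, z2, z3, z4⟩
            · exfalso
              exact a3_abs (j4 y1) tZ.1 tZ.2.2.1
            · right
              exact ⟨a3_two y3 y4, a3_two z3 z4, a3_two x3 x4⟩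
            · exact Or.inl (hyz y1 z1 y3 z3 y4)
        · rcases tZ with tZ | ⟨z1, z2, z3, z4⟩ | ⟨z1, z2, z3, z4⟩
          · exfalso
            exact a3_abs (j2 x1) tZ.1 tZ.2.2.1
          · exact Or.inl (hxz x1 z1 x3 z3 x4)
          · rcases tY with tY | ⟨y1, y2, y3, y4⟩ | ⟨y1, y2, y3, y4⟩
            · exfalso
              exact a3_abs (j6 z1) tY.1 tY.2.2.1
            · right
              exact ⟨a3_two z3 z4, a3_two x3 x4, a3_two y3 y4⟩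
            · exact Or.inl (hyz y1 z1 y3 z3 y4)
      have := a3_Ld (f1 := f1) (f2 := f2) (f3 := f3) (by exact_mod_cast p1) (by exact_mod_cast p2)
        (by exact_mod_cast p3) (by linarith) hS
      obtain ⟨u1, u2, u3⟩ := hall
      rw [u1, u2, u3]
      subst ea eb ec
      refine le_trans this (le_of_eq ?_)
      ring
    · have := a3_core (f1 := f1) (f2 := f2) (f3 := f3) (a := a) (b := b) (c := c)
        (u := (b : ℤ) + c - nX - 2) (v := (a : ℤ) + c - nY - 2) (w := (a : ℤ) + b - nZ - 2)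
        (by exact_mod_cast p1) (by exact_mod_cast p2) (by exact_mod_cast p3) (by exact_mod_cast g1)
        (by exact_mod_cast g2) (by exact_mod_cast g3) (by linarith) (by linarith) (by linarith)
        (a3_u cX) (a3_u cY) (a3_u cZ) hall
      linarith
  have c1 : ((a + 1 - f1 : ℕ) : ℤ) = a + 1 - f1 := by omega
  have c2 : ((b + 1 - f2 : ℕ) : ℤ) = b + 1 - f2 := by omega
  have c3 : ((c + 1 - f3 : ℕ) : ℤ) = c + 1 - f3 := by omega
  zify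
  rw [c1, c2, c3]
  linear_combination (exp := 1) key + hid

end Pool.Agent.T3
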