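import Pool.Agent.T3.Defs

/-!
# Decomposition of `P` by the center

If `x ≥ a+1` and `P x y z` then `y ≤ b` (as `¬ P (a+1) (b+1) 0`) and `z ≤ c`; so the three parts
`{x ≥ a+1}`, `{y ≥ b+1}`, `{z ≥ c+1}` are disjoint, and the rest is the part in the box
`[0,a] × [0,b] × [0,c]`.  `cnt (sw P) (b+1)` counts the elements of `P` with `y ≥ b+1` and
`cnt (rt P) (c+1)` those with `z ≥ c+1` (apply `Set.ncard_congr` or an injection); same for `Mx`
(with `Mx (sw P) = sw (Mx P)`, which holds by unfolding).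

`count0`: the whole box belongs to `P`; a maximal element in the box must be `(a,b,c)`.

`count1`: the elements of the box in `P` are those not `≥ (f1,f2,f3)`: `(a+1)(b+1)(c+1) -
(a+1-f1)(b+1-f2)(c+1-f3)`.  A maximal element `(x,y,z)` in the box has a coordinate smaller than
the one of `F`, say `x < f1`; then `x = f1 - 1`, `y = b`, `z = c` (otherwise increase a coordinate;
the new point is in the box, and its first coordinate is `< f1`, or its first coordinate is still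
`< f1` when increasing the others).
-/

namespace Pool.Agent.T3

/-- the part of `Q` in the box `[0,a] × [0,b] × [0,c]` -/
def bx (Q : ℕ → ℕ → ℕ → Prop) (a b c : ℕ) : Set (ℕ × ℕ × ℕ) :=
  {v | Q v.1 v.2.1 v.2.2 ∧ v.1 ≤ a ∧ v.2.1 ≤ b ∧ v.2.2 ≤ c}

theorem cnt_decomp {Q : ℕ → ℕ → ℕ → Prop} {a b c : ℕ} (hf : (St Q).Finite)
    (hab : ∀ x y z, Q x y z → ¬ (a + 1 ≤ x ∧ b + 1 ≤ y))
    (hac : ∀ x y z, Q x y z → ¬ (a + 1 ≤ x ∧ c + 1 ≤ z))
    (hbc : ∀ x y z, Q x y z → ¬ (b + 1 ≤ y ∧ c + 1 ≤ z)) :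
    cnt Q 0 = (bx Q a b c).ncard + cnt Q (a + 1) + cnt (sw Q) (b + 1) + cnt (rt Q) (c + 1) := by
  set Y : Set (ℕ × ℕ × ℕ) := {v | Q v.1 v.2.1 v.2.2 ∧ b + 1 ≤ v.2.1} with hY
  set Z : Set (ℕ × ℕ × ℕ) := {v | Q v.1 v.2.1 v.2.2 ∧ c + 1 ≤ v.2.2} with hZ
  set X : Set (ℕ × ℕ × ℕ) := {v | Q v.1 v.2.1 v.2.2 ∧ a + 1 ≤ v.1} with hX
  have e1 : cnt (sw Q) (b + 1) = Y.ncard := by
    have h1 : {v : ℕ × ℕ × ℕ | sw Q v.1 v.2.1 v.2.2 ∧ b + 1 ≤ v.1} =
        (fun v : ℕ × ℕ × ℕ => (v.2.1, v.1, v.2.2)) '' Y := by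
      ext ⟨x, y, z⟩
      simp only [Set.mem_setOf_eq, Set.mem_image, Prod.mk.injEq, hY, Prod.exists, sw]
      constructor
      · rintro ⟨h1, h2⟩
        exact ⟨y, x, z, ⟨h1, h2⟩, rfl, rfl, rfl⟩
      · rintro ⟨y', x', z', ⟨h1, h2⟩, rfl, rfl, rfl⟩
        exact ⟨h1, h2⟩
    unfold cnt
    rw [h1]
    apply Set.ncard_image_of_injective
    rintro ⟨x, y, z⟩ ⟨x', y', z'⟩ h
    simp only [Prod.mk.injEq] at h ⊢
    tauto
  have e2 : cnt (rt Q) (c + 1) = Z.ncard := by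
    have h1 : {v : ℕ × ℕ × ℕ | rt Q v.1 v.2.1 v.2.2 ∧ c + 1 ≤ v.1} =
        (fun v : ℕ × ℕ × ℕ => (v.2.2, v.1, v.2.1)) '' Z := by
      ext ⟨x, y, z⟩
      simp only [Set.mem_setOf_eq, Set.mem_image, Prod.mk.injEq, hZ, Prod.exists, rt]
      constructor
      · rintro ⟨h1, h2⟩
        exact ⟨y, z, x, ⟨h1, h2⟩, rfl, rfl, rfl⟩
      · rintro ⟨y', z', x', ⟨h1, h2⟩, rfl, rfl, rfl⟩
        exact ⟨h1, h2⟩
    unfold cnt
    rw [h1]
    apply Set.ncard_image_of_injective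
    rintro ⟨x, y, z⟩ ⟨x', y', z'⟩ h
    simp only [Prod.mk.injEq] at h ⊢
    tauto
  have e3 : cnt Q 0 = (((bx Q a b c ∪ X) ∪ Y) ∪ Z).ncard := by
    unfold cnt
    congr 1
    ext ⟨x, y, z⟩
    simp only [Set.mem_setOf_eq, Set.mem_union, bx, hX, hY, hZ]
    constructor
    · rintro ⟨h1, -⟩
      by_cases hx : a + 1 ≤ x
      · exact Or.inl (Or.inl (Or.inr ⟨h1, hx⟩))
      by_cases hy : b + 1 ≤ y
      · exact Or.inl (Or.inr ⟨h1, hy⟩)
      by_cases hz : c + 1 ≤ z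
      · exact Or.inr ⟨h1, hz⟩
      · exact Or.inl (Or.inl (Or.inl ⟨h1, by omega, by omega, by omega⟩))
    · rintro (((⟨h1, -⟩ | ⟨h1, -⟩) | ⟨h1, -⟩) | ⟨h1, -⟩) <;> exact ⟨h1, Nat.zero_le _⟩
  have fb : (bx Q a b c).Finite := hf.subset fun v hv => hv.1
  have fX : X.Finite := hf.subset fun v hv => hv.1
  have fY : Y.Finite := hf.subset fun v hv => hv.1
  have fZ : Z.Finite := hf.subset fun v hv => hv.1
  have d1 : Disjoint (bx Q a b c) X := by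
    rw [Set.disjoint_left]
    rintro ⟨x, y, z⟩ ⟨-, h1, -, -⟩ ⟨-, h2⟩
    simp only at h1 h2
    omega
  have d2 : Disjoint (bx Q a b c ∪ X) Y := by
    rw [Set.disjoint_left]
    rintro ⟨x, y, z⟩ (⟨-, -, h1, -⟩ | ⟨h0, h1⟩) ⟨-, h2⟩
    · simp only at h1 h2
      omega
    · exact hab x y z h0 ⟨h1, h2⟩
  have d3 : Disjoint ((bx Q a b c ∪ X) ∪ Y) Z := by
    rw [Set.disjoint_left]
    rintro ⟨x, y, z⟩ ((⟨-, -, -, h1⟩ | ⟨h0, h1⟩) | ⟨h0, h1⟩) ⟨-, h2⟩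
    · simp only at h1 h2
      omega
    · exact hac x y z h0 ⟨h1, h2⟩
    · exact hbc x y z h0 ⟨h1, h2⟩
  rw [e1, e2, e3, Set.ncard_union_eq d3 ((fb.union fX).union fY) fZ,
    Set.ncard_union_eq d2 (fb.union fX) fY, Set.ncard_union_eq d1 fb fX]
  rfl

theorem sw_Mx (P : ℕ → ℕ → ℕ → Prop) : sw (Mx P) = Mx (sw P) := by
  funext x y z
  simp only [sw, Mx, eq_iff_iff]
  tauto

theorem rt_Mx (P : ℕ → ℕ → ℕ → Prop) : rt (Mx P) = Mx (rt P) := by
  funext x y z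
  simp only [rt, Mx, eq_iff_iff]
  tauto

theorem box_card (a b c : ℕ) :
    ({v : ℕ × ℕ × ℕ | v.1 ≤ a ∧ v.2.1 ≤ b ∧ v.2.2 ≤ c}).ncard = (a + 1) * (b + 1) * (c + 1) := by
  have h1 : {v : ℕ × ℕ × ℕ | v.1 ≤ a ∧ v.2.1 ≤ b ∧ v.2.2 ≤ c} =
      ((Finset.range (a + 1) ×ˢ Finset.range (b + 1) ×ˢ Finset.range (c + 1) :
        Finset (ℕ × ℕ × ℕ)) : Set (ℕ × ℕ × ℕ)) := by
    ext ⟨x, y, z⟩
    simp only [Set.mem_setOf_eq, Finset.coe_product, Finset.coe_range, Set.mem_prod, Set.mem_Iio]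
    omega
  rw [h1, Set.ncard_coe_finset, Finset.card_product, Finset.card_product, Finset.card_range,
    Finset.card_range, Finset.card_range, mul_assoc]

theorem cone_card (f1 f2 f3 a b c : ℕ) :
    ({v : ℕ × ℕ × ℕ | (v.1 ≤ a ∧ v.2.1 ≤ b ∧ v.2.2 ≤ c) ∧
      (f1 ≤ v.1 ∧ f2 ≤ v.2.1 ∧ f3 ≤ v.2.2)}).ncard =
      (a + 1 - f1) * (b + 1 - f2) * (c + 1 - f3) := by
  have h1 : {v : ℕ × ℕ × ℕ | (v.1 ≤ a ∧ v.2.1 ≤ b ∧ v.2.2 ≤ c) ∧
      (f1 ≤ v.1 ∧ f2 ≤ v.2.1 ∧ f3 ≤ v.2.2)} =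
      ((Finset.Ico f1 (a + 1) ×ˢ Finset.Ico f2 (b + 1) ×ˢ Finset.Ico f3 (c + 1) :
        Finset (ℕ × ℕ × ℕ)) : Set (ℕ × ℕ × ℕ)) := by
    ext ⟨x, y, z⟩
    simp only [Set.mem_setOf_eq, Finset.coe_product, Finset.coe_Ico, Set.mem_prod, Set.mem_Ico]
    omega
  rw [h1, Set.ncard_coe_finset, Finset.card_product, Finset.card_product, Nat.card_Ico,
    Nat.card_Ico, Nat.card_Ico, mul_assoc]

section
variable {P : ℕ → ℕ → ℕ → Prop} {a b c : ℕ}

theorem ctr_ab (hd : Down P) (hc : Ctr P a b c) (x y z : ℕ) (h : P x y z) :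
    ¬ (a + 1 ≤ x ∧ b + 1 ≤ y) := fun h' =>
  hc.nab (hd _ _ _ _ _ _ h'.1 h'.2 (Nat.zero_le _) h)

theorem ctr_ac (hd : Down P) (hc : Ctr P a b c) (x y z : ℕ) (h : P x y z) :
    ¬ (a + 1 ≤ x ∧ c + 1 ≤ z) := fun h' =>
  hc.nac (hd _ _ _ _ _ _ h'.1 (Nat.zero_le _) h'.2 h)

theorem ctr_bc (hd : Down P) (hc : Ctr P a b c) (x y z : ℕ) (h : P x y z) :
    ¬ (b + 1 ≤ y ∧ c + 1 ≤ z) := fun h' =>
  hc.nbc (hd _ _ _ _ _ _ (Nat.zero_le _) h'.1 h'.2 h)

theorem ctr_decomp (hd : Down P) (hf : (St P).Finite) (hc : Ctr P a b c) :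
    cnt P 0 = (bx P a b c).ncard + cnt P (a + 1) + cnt (sw P) (b + 1) + cnt (rt P) (c + 1) :=
  cnt_decomp hf (ctr_ab hd hc) (ctr_ac hd hc) (ctr_bc hd hc)

theorem ctr_decomp_Mx (hd : Down P) (hf : (St P).Finite) (hc : Ctr P a b c) :
    cnt (Mx P) 0 = (bx (Mx P) a b c).ncard + cnt (Mx P) (a + 1) + cnt (Mx (sw P)) (b + 1) +
      cnt (Mx (rt P)) (c + 1) := by
  rw [← sw_Mx, ← rt_Mx]
  refine cnt_decomp (hf.subset fun v hv => hv.1) ?_ ?_ ?_
  · exact fun x y z h => ctr_ab hd hc x y z h.1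
  · exact fun x y z h => ctr_ac hd hc x y z h.1
  · exact fun x y z h => ctr_bc hd hc x y z h.1

end

theorem count0 {P : ℕ → ℕ → ℕ → Prop} {a b c : ℕ} (hd : Down P) (hf : (St P).Finite)
    (hc : Ctr P a b c) (h : P a b c) :
    cnt P 0 = (a + 1) * (b + 1) * (c + 1) + cnt P (a + 1) + cnt (sw P) (b + 1) +
      cnt (rt P) (c + 1) ∧
    cnt (Mx P) 0 ≤ 1 + cnt (Mx P) (a + 1) + cnt (Mx (sw P)) (b + 1) + cnt (Mx (rt P)) (c + 1) := by
  constructor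
  · have h1 : bx P a b c = {v : ℕ × ℕ × ℕ | v.1 ≤ a ∧ v.2.1 ≤ b ∧ v.2.2 ≤ c} := by
      ext ⟨x, y, z⟩
      simp only [bx, Set.mem_setOf_eq]
      exact ⟨fun h => h.2, fun h' => ⟨hd _ _ _ _ _ _ h'.1 h'.2.1 h'.2.2 h, h'⟩⟩
    rw [ctr_decomp hd hf hc, h1, box_card]
  · rw [ctr_decomp_Mx hd hf hc]
    have h1 : bx (Mx P) a b c ⊆ {(a, b, c)} := by
      rintro ⟨x, y, z⟩ ⟨⟨h0, hx, hy, hz⟩, h1, h2, h3⟩
      simp only at h0 hx hy hz h1 h2 h3
      have ex : x = a := by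
        by_contra hne
        exact hx (hd _ _ _ _ _ _ (by omega) h2 h3 h)
      have ey : y = b := by
        by_contra hne
        exact hy (hd _ _ _ _ _ _ h1 (by omega) h3 h)
      have ez : z = c := by
        by_contra hne
        exact hz (hd _ _ _ _ _ _ h1 h2 (by omega) h)
      rw [ex, ey, ez]
      rfl
    have h2 : (bx (Mx P) a b c).ncard ≤ 1 := by
      have := Set.ncard_le_ncard h1 (Set.finite_singleton _)
      rwa [Set.ncard_singleton] at this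
    omega

open Classical in
theorem count1 {P : ℕ → ℕ → ℕ → Prop} {f1 f2 f3 a b c : ℕ} (h : CylF P f1 f2 f3)
    (hc : Ctr P a b c) (h1 : f1 ≤ a + 1) (h2 : f2 ≤ b + 1) (h3 : f3 ≤ c + 1) :
    cnt P 0 + (a + 1 - f1) * (b + 1 - f2) * (c + 1 - f3) = (a + 1) * (b + 1) * (c + 1) +
      cnt P (a + 1) + cnt (sw P) (b + 1) + cnt (rt P) (c + 1) ∧
    cnt (Mx P) 0 ≤ (if Mx P (f1 - 1) b c then 1 else 0) + (if Mx P a (f2 - 1) c then 1 else 0) +
      (if Mx P a b (f3 - 1) then 1 else 0) +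
      cnt (Mx P) (a + 1) + cnt (Mx (sw P)) (b + 1) + cnt (Mx (rt P)) (c + 1) := by
  have hd := h.down
  have hf := h.fin
  have key : ∀ x y z, x ≤ a → y ≤ b → z ≤ c → (P x y z ↔ ¬ (f1 ≤ x ∧ f2 ≤ y ∧ f3 ≤ z)) := by
    intro x y z hx hy hz
    constructor
    · intro hp hle
      exact h.notF (hd _ _ _ _ _ _ hle.1 hle.2.1 hle.2.2 hp)
    · intro hn
      exact h.cyl x y z (hd _ _ _ _ _ _ hx hy le_rfl hc.ab) (hd _ _ _ _ _ _ hx le_rfl hz hc.ac)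
        (hd _ _ _ _ _ _ le_rfl hy hz hc.bc) hn
  constructor
  · set C : Set (ℕ × ℕ × ℕ) := {v : ℕ × ℕ × ℕ | (v.1 ≤ a ∧ v.2.1 ≤ b ∧ v.2.2 ≤ c) ∧
      (f1 ≤ v.1 ∧ f2 ≤ v.2.1 ∧ f3 ≤ v.2.2)} with hC
    have hU : bx P a b c ∪ C = {v : ℕ × ℕ × ℕ | v.1 ≤ a ∧ v.2.1 ≤ b ∧ v.2.2 ≤ c} := by
      ext ⟨x, y, z⟩
      simp only [bx, hC, Set.mem_setOf_eq, Set.mem_union]
      constructor
      · rintro (⟨-, h'⟩ | ⟨h', -⟩) <;> exact h'
      · intro h'
        by_cases hle : f1 ≤ x ∧ f2 ≤ y ∧ f3 ≤ z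
        · exact Or.inr ⟨h', hle⟩
        · exact Or.inl ⟨(key x y z h'.1 h'.2.1 h'.2.2).2 hle, h'⟩
    have hfb : ({v : ℕ × ℕ × ℕ | v.1 ≤ a ∧ v.2.1 ≤ b ∧ v.2.2 ≤ c}).Finite := by
      apply Set.finite_of_ncard_pos
      rw [box_card]
      positivity
    have hdis : Disjoint (bx P a b c) C := by
      rw [Set.disjoint_left]
      rintro ⟨x, y, z⟩ ⟨h0, h'⟩ ⟨-, hle⟩
      exact (key x y z h'.1 h'.2.1 h'.2.2).1 h0 hle
    have e := Set.ncard_union_eq hdis (hfb.subset (by rw [← hU]; exact Set.subset_union_left))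
      (hfb.subset (by rw [← hU]; exact Set.subset_union_right))
    rw [hU, box_card, hC, cone_card] at e
    rw [ctr_decomp hd hf hc, e]
    ring
  · rw [ctr_decomp_Mx hd hf hc]
    have hs : bx (Mx P) a b c ⊆ ({v | v = (f1 - 1, b, c) ∧ Mx P (f1 - 1) b c} ∪
        {v | v = (a, f2 - 1, c) ∧ Mx P a (f2 - 1) c}) ∪
        {v | v = (a, b, f3 - 1) ∧ Mx P a b (f3 - 1)} := by
      rintro ⟨x, y, z⟩ ⟨hm, l1, l2, l3⟩
      have hm' := hm
      obtain ⟨h0, hx, hy, hz⟩ := hm'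
      simp only at h0 hx hy hz l1 l2 l3 hm
      have hn := (key x y z l1 l2 l3).1 h0
      have hxx : x + 1 ≤ a → (f1 ≤ x + 1 ∧ f2 ≤ y ∧ f3 ≤ z) := by
        intro hle
        by_contra hcon
        exact hx ((key (x + 1) y z hle l2 l3).2 hcon)
      have hyy : y + 1 ≤ b → (f1 ≤ x ∧ f2 ≤ y + 1 ∧ f3 ≤ z) := by
        intro hle
        by_contra hcon
        exact hy ((key x (y + 1) z l1 hle l3).2 hcon)
      have hzz : z + 1 ≤ c → (f1 ≤ x ∧ f2 ≤ y ∧ f3 ≤ z + 1) := by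
        intro hle
        by_contra hcon
        exact hz ((key x y (z + 1) l1 l2 hle).2 hcon)
      by_cases c1 : f1 ≤ x
      · by_cases c2 : f2 ≤ y
        · have c3 : z < f3 := by
            by_contra hcon
            exact hn ⟨c1, c2, by omega⟩
          right
          have ex : x = a := by omega
          have ey : y = b := by omega
          have ez : z = f3 - 1 := by omega
          subst ex ey ez
          exact ⟨rfl, hm⟩
        · left; right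
          have ex : x = a := by omega
          have ey : y = f2 - 1 := by omega
          have ez : z = c := by omega
          subst ex ey ez
          exact ⟨rfl, hm⟩
      · left; left
        have ex : x = f1 - 1 := by omega
        have ey : y = b := by omega
        have ez : z = c := by omega
        subst ex ey ez
        exact ⟨rfl, hm⟩
    have one : ∀ (w : ℕ × ℕ × ℕ) (q : Prop), ({v | v = w ∧ q}).Finite ∧
        ({v | v = w ∧ q}).ncard ≤ (if q then 1 else 0) := by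
      intro w q
      have hsub : {v : ℕ × ℕ × ℕ | v = w ∧ q} ⊆ {w} := fun v hv => hv.1
      refine ⟨(Set.finite_singleton w).subset hsub, ?_⟩
      by_cases hq : q
      · rw [if_pos hq]
        have := Set.ncard_le_ncard hsub (Set.finite_singleton _)
        rwa [Set.ncard_singleton] at this
      · rw [if_neg hq]
        have : {v : ℕ × ℕ × ℕ | v = w ∧ q} = ∅ := by
          ext v
          simp [hq]
        rw [this, Set.ncard_empty]
    have o1 := one (f1 - 1, b, c) (Mx P (f1 - 1) b c)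
    have o2 := one (a, f2 - 1, c) (Mx P a (f2 - 1) c)
    have o3 := one (a, b, f3 - 1) (Mx P a b (f3 - 1))
    have hle := Set.ncard_le_ncard hs ((o1.1.union o2.1).union o3.1)
    have hle2 := hle.trans (Set.ncard_union_le _ _)
    have hle3 := Set.ncard_union_le {v | v = (f1 - 1, b, c) ∧ Mx P (f1 - 1) b c}
      {v | v = (a, f2 - 1, c) ∧ Mx P a (f2 - 1) c}
    have p1 := o1.2
    have p2 := o2.2
    have p3 := o3.2
    omega

end Pool.Agent.T3
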