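import Pool.Agent.T3.XLeg

/-!
# Relations between the states of the legs

`P` of type `CylF` with center `(a,b,c)` and `f1 ≤ a+1`, `f2 ≤ b+1`, `f3 ≤ c+1`.

**`s2`.** Let `β = ye P (a+1)`, `α = ye (sw P) (b+1)` (the x-extent at `(·, b+1, 0)`).
If `f2 ≤ β ≤ b` and `f1 ≤ α ≤ a`, then `(α, b+1)` and `(a+1, β)` are deep generators.
`plane_gens'`: the first alternative has `a + 1 ≤ (a+1) - α`, the second `b+1 ≤ (b+1) - β`; both
impossible as `α, β ≥ 1`.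

**`s3`.** Suppose the X-leg has a deep drop `k` of `β`: `R = (i', j')`, `i' = a+2+k`,
`j' = ye P i'`, `f2 ≤ j' ≤ b` is a generator (`drop_gen`), and `ye P (a+1) = b+1`
(`deep_le_one`).  Let `α = ye (sw P) (b+1)`, and suppose `α ≥ f1`.  `α ≤ a+1`.  Then `(α, b+1)` is
a generator (`P α b 0` holds: if `α ≤ a` by `Ctr.ab`, if `α = a+1` since `ye P (a+1) = b+1`).
Apply `plane_gens'` to `(α, b+1), (i', j')`: the second alternative has `b+1 ≤ (b+1) - j'`,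
impossible.  The first gives `d` with `¬ P 0 (f2 + (b+1-j')) (f3-d)`, where
`f2 + (b+1-j') ≤ b+1`, hence `¬ P 0 (b+1) (f3-d)`, so `ze (sw P) (b+1) ≤ f3 - d < f3`.

**`s4`.** Suppose in addition that the Y-leg has a deep drop in the plane `z = 0`; then
`α = a+1` (`deep_le_one` for `sw P`), and that `ze (sw P) (b+1) + 1 = f3`.  As in `s3` with
`α = a+1`: `f3 - 1 ≤ f3 - d`, so `d = 1`, and `¬ P (i' - (a+1)) 0 1`, i.e. `¬ P (k+1) 0 1`.
Since `1 = d < f3 ≤ c+1`, `P a 0 1`, so `k + 1 ≥ a + 1`, `k ≥ a ≥ 1`.  The slices `k-1` and `k` of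
the X-leg are at `x = a+k ≥ k+1` and `x = a+1+k`, so their z-extents are `≤ 1`, and they are
`≥ 1` since `ye P (a+1+k) > 0`.  Their y-extents are both `b+1`: the only deep drop is `k`
(`dd ≤ 1`), and a drop before `k` would land at `≥ ye P (a+1+k) > ye P (a+2+k) ≥ f2`.
So slices `k-1`, `k` are equal, of size `b+1 ≥ 2`.  The leg starts in state R: by `s3` for `sw P`
(deep drop of the Y-leg) `ye P (a+1) < f2` or `ze P (a+1) < f3`
(`sw (sw P) = P`).  `leg_idle` gives the result.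
-/

namespace Pool.Agent.T3

theorem s2 {P : ℕ → ℕ → ℕ → Prop} {f1 f2 f3 a b c : ℕ} (h : CylF P f1 f2 f3)
    (hc : Ctr P a b c) (h3 : f3 ≤ c + 1) :
    ¬ (f2 ≤ ye P (a + 1) ∧ ye P (a + 1) ≤ b ∧ f1 ≤ ye (sw P) (b + 1) ∧
      ye (sw P) (b + 1) ≤ a) := by
  rintro ⟨hb1, hb2, ha1, ha2⟩
  have hp1 := h.p1
  have hp2 := h.p2
  have hX := ye_iff h.down h.fin (a + 1)
  have hY : ∀ x, P x (b + 1) 0 ↔ x < ye (sw P) (b + 1) := fun x =>
    ye_iff h.sw.down h.sw.fin (b + 1) x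
  have g1 : Gen P (ye (sw P) (b + 1)) (b + 1) := by
    refine ⟨by omega, by omega, ?_, ?_, ?_⟩
    · rw [hY]; exact lt_irrefl _
    · rw [hY]; omega
    · exact h.down _ _ _ _ _ _ ha2 le_rfl le_rfl hc.ab
  have g2 : Gen P (a + 1) (ye P (a + 1)) := by
    refine ⟨by omega, by omega, ?_, ?_, ?_⟩
    · rw [hX]; exact lt_irrefl _
    · exact h.down _ _ _ _ _ _ le_rfl hb2 le_rfl hc.ab
    · rw [hX]; omega
  obtain ⟨d, _, _, ⟨_, _, u, _⟩ | ⟨_, _, u, _⟩⟩ :=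
    plane_gens' h hc h3 ha1 hb1 (by omega) (by omega) g1 g2
  · omega
  · omega

/-- the common part of `s3` and `s4` -/
theorem s34 {P : ℕ → ℕ → ℕ → Prop} {f1 f2 f3 a b c k : ℕ} (h : CylF P f1 f2 f3)
    (hc : Ctr P a b c) (h3 : f3 ≤ c + 1)
    (hb : ye P (a + 1) = b + 1) (hd : ye P (a + 1 + k + 1) < ye P (a + 1 + k))
    (hg : f2 ≤ ye P (a + 1 + k + 1)) (hf : f1 ≤ ye (sw P) (b + 1)) :
    ∃ d, 1 ≤ d ∧ d < f3 ∧ ¬ P (a + 1 + k + 1 - ye (sw P) (b + 1)) 0 d ∧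
      ze (sw P) (b + 1) ≤ f3 - d := by
  have hp1 := h.p1
  have hp2 := h.p2
  have hanti := ye_anti h.down h.fin (a + 1)
  have h0k : ye P (a + 1 + k) ≤ ye P (a + 1) := hanti (Nat.zero_le k)
  have hX := ye_iff h.down h.fin (a + 1)
  have hY : ∀ x, P x (b + 1) 0 ↔ x < ye (sw P) (b + 1) := fun x =>
    ye_iff h.sw.down h.sw.fin (b + 1) x
  have hZ : ∀ z, P 0 (b + 1) z ↔ z < ze (sw P) (b + 1) := fun z =>
    ze_iff h.sw.down h.sw.fin (b + 1) z
  have ha2 : ye (sw P) (b + 1) ≤ a + 1 := by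
    by_contra hlt
    exact hc.nab ((hY _).2 (by omega))
  have g1 : Gen P (ye (sw P) (b + 1)) (b + 1) := by
    refine ⟨by omega, by omega, ?_, ?_, ?_⟩
    · rw [hY]; exact lt_irrefl _
    · rw [hY]; omega
    · have hb' : b + 1 - 1 = b := rfl
      rw [hb']
      have : P (a + 1) b 0 := (hX b).2 (by omega)
      exact h.down _ _ _ _ _ _ ha2 le_rfl le_rfl this
  have g2 : Gen P (a + 1 + k + 1) (ye P (a + 1 + k + 1)) :=
    drop_gen h.down h.fin h.p2 (x := a + 1 + k) (by omega) hd hg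
  obtain ⟨d, d1, d2, ⟨e1, e2, u, _⟩ | ⟨_, _, u, _⟩⟩ :=
    plane_gens' h hc h3 hf hg (by omega) (by omega) g1 g2
  · refine ⟨d, d1, d2, e1, ?_⟩
    by_contra hlt
    push Not at hlt
    refine e2 (h.down _ _ _ _ _ _ le_rfl ?_ le_rfl ((hZ _).2 hlt))
    omega
  · omega

theorem dd_ex {p : ℕ} {β : ℕ → ℕ} (hd : 1 ≤ dd p β) : ∃ k, β (k + 1) < β k ∧ p ≤ β (k + 1) := by
  unfold dd at hd
  obtain ⟨k, h1, h2⟩ := Set.nonempty_of_ncard_ne_zero (by omega :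
    {k | β (k + 1) < β k ∧ p ≤ β (k + 1)}.ncard ≠ 0)
  exact ⟨k, h1, h2⟩

theorem s3 {P : ℕ → ℕ → ℕ → Prop} {f1 f2 f3 a b c : ℕ} (h : CylF P f1 f2 f3)
    (hc : Ctr P a b c) (h1 : f1 ≤ a + 1) (h2 : f2 ≤ b + 1) (h3 : f3 ≤ c + 1)
    (hX : 1 ≤ dd f2 (fun k => ye P (a + 1 + k))) :
    ye (sw P) (b + 1) < f1 ∨ ze (sw P) (b + 1) < f3 := by
  obtain ⟨k, hd, hg⟩ := dd_ex hX
  by_contra hcon
  push Not at hcon
  obtain ⟨d, d1, d2, -, e⟩ := s34 (k := k) h hc h3 ((deep_le_one h hc h1 h3).2 hX) hd hg hcon.1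
  omega

theorem s4 {P : ℕ → ℕ → ℕ → Prop} {f1 f2 f3 a b c : ℕ} (h : CylF P f1 f2 f3)
    (hc : Ctr P a b c) (h1 : f1 ≤ a + 1) (h2 : f2 ≤ b + 1) (h3 : f3 ≤ c + 1)
    (ha : 1 ≤ a) (hb : 1 ≤ b)
    (hX : 1 ≤ dd f2 (fun k => ye P (a + 1 + k)))
    (hY : 1 ≤ dd f1 (fun k => ye (sw P) (b + 1 + k)))
    (hg : ze (sw P) (b + 1) + 1 = f3) :
    cnt (Mx P) (a + 1) * (cnt (Mx P) (a + 1) + 1) + 4 ≤ 2 * cnt P (a + 1) := by
  obtain ⟨hb1, hb2⟩ := deep_le_one h hc h1 h3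
  have hbt : ye P (a + 1) = b + 1 := hb2 hX
  have hat : ye (sw P) (b + 1) = a + 1 := (deep_le_one h.sw hc.sw h2 h3).2 hY
  obtain ⟨k, hd, hgk⟩ := dd_ex hX
  have hd' : ye P (a + 1 + k + 1) < ye P (a + 1 + k) := hd
  have hgk' : f2 ≤ ye P (a + 1 + k + 1) := hgk
  obtain ⟨d, d1, d2, e1, e2⟩ := s34 (k := k) h hc h3 hbt hd' hgk' (by omega)
  have hd1 : d = 1 := by omega
  subst hd1
  have hk1 : a + 1 + k + 1 - ye (sw P) (b + 1) = k + 1 := by omega
  rw [hk1] at e1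
  have hka : a ≤ k := by
    by_contra hlt
    exact e1 (h.down _ _ _ _ _ _ (by omega) le_rfl (by omega) hc.ac)
  have hantb := ye_anti h.down h.fin (a + 1)
  have hantg := ze_anti h.down h.fin (a + 1)
  obtain ⟨K, hK⟩ := exists_K h.down h.fin (a + 1)
  -- the only deep drop is `k`
  have hfin : {j | (fun k => ye P (a + 1 + k)) (j + 1) < (fun k => ye P (a + 1 + k)) j ∧
      f2 ≤ (fun k => ye P (a + 1 + k)) (j + 1)}.Finite := by
    refine (Set.finite_Iio K).subset ?_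
    rintro j ⟨hj, -⟩
    rw [Set.mem_Iio]
    by_contra hlt
    have := (hK j (by omega)).1
    have hj' : ye P (a + 1 + (j + 1)) < ye P (a + 1 + j) := hj
    omega
  have huniq : ∀ j, ye P (a + 1 + (j + 1)) < ye P (a + 1 + j) → f2 ≤ ye P (a + 1 + (j + 1)) →
      j = k := by
    intro j hj1 hj2
    unfold dd at hb1
    exact (Set.ncard_le_one hfin).1 hb1 j ⟨hj1, hj2⟩ k ⟨hd, hgk⟩
  have hflat : ∀ j, j ≤ k → ye P (a + 1 + j) = b + 1 := by
    intro j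
    induction j with
    | zero => intro _; exact hbt
    | succ j ih =>
      intro hj
      have ij := ih (by omega)
      have hm : ye P (a + 1 + (j + 1)) ≤ ye P (a + 1 + j) := hantb (Nat.le_succ j)
      have hm2 : ye P (a + 1 + k) ≤ ye P (a + 1 + (j + 1)) := hantb hj
      by_contra hne
      have := huniq j (by omega) (by omega)
      omega
  obtain ⟨k, rfl⟩ : ∃ k', k = k' + 1 := ⟨k - 1, by omega⟩
  have hz : ∀ j, k ≤ j → j ≤ k + 1 → ze P (a + 1 + j) = 1 := by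
    intro j hj1 hj2
    have h1' : ze P (a + 1 + j) ≤ 1 := by
      by_contra hlt
      have : P (a + 1 + j) 0 1 := (ze_iff h.down h.fin _ _).2 (by omega)
      exact e1 (h.down _ _ _ _ _ _ (by omega) le_rfl le_rfl this)
    have h2' := ye_zero h.down h.fin (a + 1 + j)
    have h3' := hflat j hj2
    omega
  have hs := xleg_slice h hc h1
  have hcnt := cnt_slices (K := K) hs (fun k hk => Or.inl (hK k hk).1)
  have hmx := cntMx_slices (K := K) h.p2 h.p3 hs (fun k hk => Or.inl (hK k hk).1)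
  simp only [Nat.zero_le, if_true] at hcnt hmx
  have hg' := deep_le_one h.rt.sw hc.rt.sw h1 h2
  have hg1 : dd f3 (fun k => ze P (a + 1 + k)) ≤ 1 := hg'.1
  have hR : ¬ (f2 < ye P (a + 1) ∧ f3 < ze P (a + 1)) := by
    have := s3 h.sw hc.sw h2 h1 h3 hY
    have e : (ye P (a + 1) < f2 ∨ ze P (a + 1) < f3) := this
    omega
  have hid := leg_idle (K := K) (k := k) h.p2 h.p3 hantb hantg
    (fun k => ye_zero h.down h.fin (a + 1 + k))
    (hK K le_rfl).1 hb1 hg1 rfl rfl hR ((hflat (k + 1) le_rfl).trans (hflat k (by omega)).symm)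
    ((hz (k + 1) (by omega) le_rfl).trans (hz k le_rfl (by omega)).symm)
  rw [← hcnt] at hid
  have hsz : (fun k => ye P (a + 1 + k)) k * (fun k => ze P (a + 1 + k)) k = b + 1 := by
    show ye P (a + 1 + k) * ze P (a + 1 + k) = b + 1
    rw [hflat k (by omega), hz k le_rfl (by omega), mul_one]
  rw [hsz] at hid
  have := Nat.mul_le_mul hmx (Nat.add_le_add_right hmx 1)
  omega

end Pool.Agent.T3
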