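import Pool.Agent.T3.ArithII1
import Pool.Agent.T3.ArithII2
import Pool.Agent.T3.ArithII3
import Pool.Agent.T3.States
import Pool.Agent.T3.Count

/-!
# Case II

Center `(a,b,c) ≥ F`.  Build `Dat` with
`bX = ye P (a+1)`, `gX = ze P (a+1)`, `aY = ye (sw P) (b+1)`, `gY = ze (sw P) (b+1)`,
`aZ = ye (rt P) (c+1)`, `bZ = ze (rt P) (c+1)`;
`dXy = dd f2 (fun k => ye P (a+1+k))`, `dXz = dd f3 (fun k => ze P (a+1+k))`,
`dYx = dd f1 (fun k => ye (sw P) (b+1+k))`, `dYz = dd f3 (fun k => ze (sw P) (b+1+k))`,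
`dZx = dd f1 (fun k => ye (rt P) (c+1+k))`, `dZy = dd f2 (fun k => ze (rt P) (c+1+k))`;
`nX = cnt (Mx P) (a+1)`, `VX = cnt P (a+1)`, `nY = cnt (Mx (sw P)) (b+1)`, ...;
`e1 = if Mx P (f1-1) b c then 1 else 0`, ... (`count1`).

* `lX`, `lY`, `lZ`: `legSum` for `P`, `sw P`, `rt P`.
* `s2xy` : `s2` for `P`.  `s2xz`: `s2` for `sw (rt P)` (`sw (rt P) x y z = P x z y`; center `(a,c,b)`,
  `F = (f1,f3,f2)`; `ye (sw (rt P)) x = ze P x` and `ye (sw (sw (rt P))) z = ye (rt P) z` by `rfl`).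
  `s2yz`: `s2` for a permutation exchanging the roles in the same way (e.g. `rt (rt P)`:
  `rt (rt P) x y z = P z x y`, center `(b,c,a)`, `F = (f2,f3,f1)`;
  `ye (rt (rt P)) y = ze (sw P) y` and `ye (sw (rt (rt P))) z = ze (rt P) z`).
* `s3Xy` : `s3` for `P`; the five others: `s3` for the other five permutations, always
  unfolding the extents by `rfl` (note that the conclusion of `s3` is about the leg of the other
  coordinate of the plane: `ye (sw P) (b+1)`, `ze (sw P) (b+1)` are the two extents of the Y-leg).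
* `s4xy` etc.: `s4` for the six permutations.
* `e3h`: if `Mx P a b (f3-1)` then `¬ P (a+1) b (f3-1)` and `¬ P a (b+1) (f3-1)`; if `bX = b+1` and
  `f3 ≤ gX` then `xleg_slice` (`k = 0`) gives `P (a+1) b (f3-1)`; the other one: `xleg_slice` for `sw P`.
  `e1h`, `e2h` similar.
* Conclude with `count1` and `arithII1/2/3`.
-/

namespace Pool.Agent.T3

/-- exchanging the last two coordinates does not change the counts -/
theorem caseII_cnt (P : ℕ → ℕ → ℕ → Prop) (x0 : ℕ) : cnt (sw (rt P)) x0 = cnt P x0 := by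
  unfold cnt
  have hinj : Function.Injective fun v : ℕ × ℕ × ℕ => (v.1, v.2.2, v.2.1) := by
    rintro ⟨x, y, z⟩ ⟨x', y', z'⟩ h
    simp only [Prod.mk.injEq] at h ⊢
    exact ⟨h.1, h.2.2, h.2.1⟩
  rw [← Set.ncard_image_of_injective {v : ℕ × ℕ × ℕ | P v.1 v.2.1 v.2.2 ∧ x0 ≤ v.1} hinj]
  congr 1
  ext ⟨x, y, z⟩
  constructor
  · rintro ⟨h1, h2⟩
    exact ⟨(x, z, y), ⟨h1, h2⟩, rfl⟩
  · rintro ⟨⟨x', y', z'⟩, ⟨h1, h3⟩, h2⟩
    simp only [Prod.mk.injEq] at h2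
    obtain ⟨rfl, rfl, rfl⟩ := h2
    exact ⟨h1, h3⟩

theorem caseII_e {P : ℕ → ℕ → ℕ → Prop} {f1 f2 f3 a b c : ℕ} (h : CylF P f1 f2 f3)
    (hc : Ctr P a b c) (h1 : f1 ≤ a + 1) (h2 : f2 ≤ b + 1) (h3 : f3 ≤ c + 1) :
    ∃ e1 e2 e3 : ℕ, e1 ≤ 1 ∧ e2 ≤ 1 ∧ e3 ≤ 1 ∧ (e1 = 1 → Mx P (f1 - 1) b c) ∧
      (e2 = 1 → Mx P a (f2 - 1) c) ∧ (e3 = 1 → Mx P a b (f3 - 1)) ∧
      cnt (Mx P) 0 ≤ e1 + e2 + e3 +
        cnt (Mx P) (a + 1) + cnt (Mx (sw P)) (b + 1) + cnt (Mx (rt P)) (c + 1) := by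
  classical
  refine ⟨if Mx P (f1 - 1) b c then 1 else 0, if Mx P a (f2 - 1) c then 1 else 0,
    if Mx P a b (f3 - 1) then 1 else 0, ?_, ?_, ?_, ?_, ?_, ?_, ?_⟩
  · split_ifs <;> omega
  · split_ifs <;> omega
  · split_ifs <;> omega
  · intro he
    by_contra hn
    rw [if_neg hn] at he
    omega
  · intro he
    by_contra hn
    rw [if_neg hn] at he
    omega
  · intro he
    by_contra hn
    rw [if_neg hn] at he
    omega
  · exact (count1 h hc h1 h2 h3).2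

theorem caseII {P : ℕ → ℕ → ℕ → Prop} {f1 f2 f3 a b c : ℕ} (h : CylF P f1 f2 f3)
    (hc : Ctr P a b c) (h1 : f1 ≤ a) (h2 : f2 ≤ b) (h3 : f3 ≤ c) :
    (cnt (Mx P) 0 + 1) ^ 2 ≤ 4 * cnt P 0 := by
  have h1' : f1 ≤ a + 1 := by omega
  have h2' : f2 ≤ b + 1 := by omega
  have h3' : f3 ≤ c + 1 := by omega
  have p1 := h.p1
  have p2 := h.p2
  have p3 := h.p3
  obtain ⟨e1, e2, e3, he1, he2, he3, hm1, hm2, hm3, hmx⟩ := caseII_e h hc h1' h2' h3'
  have hcnt := (count1 h hc h1' h2' h3').1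
  -- the permuted ideals
  have kS : CylF (sw P) f2 f1 f3 := h.sw
  have cS : Ctr (sw P) b a c := hc.sw
  have kR : CylF (rt P) f3 f1 f2 := h.rt
  have cR : Ctr (rt P) c a b := hc.rt
  have kSR : CylF (sw (rt P)) f1 f3 f2 := h.rt.sw
  have cSR : Ctr (sw (rt P)) a c b := hc.rt.sw
  have kRR : CylF (rt (rt P)) f2 f3 f1 := h.rt.rt
  have cRR : Ctr (rt (rt P)) b c a := hc.rt.rt
  have kSRR : CylF (sw (rt (rt P))) f3 f2 f1 := h.rt.rt.sw
  have cSRR : Ctr (sw (rt (rt P))) c b a := hc.rt.rt.sw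
  -- slices
  have slX := xleg_slice h hc h1' 0
  have slY := xleg_slice kS cS h2' 0
  have slZ := xleg_slice kR cR h3' 0
  rw [Nat.add_zero] at slX slY slZ
  have D : Dat f1 f2 f3 a b c (ye P (a + 1)) (ze P (a + 1)) (ye (sw P) (b + 1))
      (ze (sw P) (b + 1)) (ye (rt P) (c + 1)) (ze (rt P) (c + 1))
      (dd f2 (fun k => ye P (a + 1 + k))) (dd f3 (fun k => ze P (a + 1 + k)))
      (dd f1 (fun k => ye (sw P) (b + 1 + k))) (dd f3 (fun k => ze (sw P) (b + 1 + k)))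
      (dd f1 (fun k => ye (rt P) (c + 1 + k))) (dd f2 (fun k => ze (rt P) (c + 1 + k)))
      (cnt (Mx P) (a + 1)) (cnt P (a + 1)) (cnt (Mx (sw P)) (b + 1)) (cnt (sw P) (b + 1))
      (cnt (Mx (rt P)) (c + 1)) (cnt (rt P) (c + 1)) e1 e2 e3 := by
    refine ⟨p1, p2, p3, h1, h2, h3, legSum h hc h1' h2' h3', legSum kS cS h2' h1' h3',
      legSum kR cR h3' h1' h2', s2 h hc h3', s2 kSR cSR h2', s2 kRR cRR h1',
      s3 h hc h1' h2' h3', s3 kSR cSR h1' h3' h2', s3 kS cS h2' h1' h3', ?_, ?_, ?_, ?_, ?_, ?_,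
      he1, he2, he3, ?_, ?_, ?_⟩
    · intro hd
      exact (s3 kRR cRR h2' h3' h1' hd).symm
    · intro hd
      exact (s3 kR cR h3' h1' h2' hd).symm
    · intro hd
      exact (s3 kSRR cSRR h3' h2' h1' hd).symm
    · intro hd hd' hg hg'
      exact ⟨s4 h hc h1' h2' h3' (by omega) (by omega) hd hd' hg',
        s4 kS cS h2' h1' h3' (by omega) (by omega) hd' hd hg⟩
    · intro hd hd' hg hg'
      have t1 := s4 kSR cSR h1' h3' h2' (by omega) (by omega) hd hd' hg'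
      rw [Mx_sw, Mx_rt, caseII_cnt, caseII_cnt] at t1
      exact ⟨t1, s4 kR cR h3' h1' h2' (by omega) (by omega) hd' hd hg⟩
    · intro hd hd' hg hg'
      have t1 := s4 kRR cRR h2' h3' h1' (by omega) (by omega) hd hd' hg'
      have t2 := s4 kSRR cSRR h3' h2' h1' (by omega) (by omega) hd' hd hg
      have e1 : rt (rt P) = sw (rt (sw P)) := rfl
      rw [e1, Mx_sw, Mx_rt, caseII_cnt, caseII_cnt] at t1
      rw [Mx_sw, Mx_rt, caseII_cnt, caseII_cnt] at t2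
      exact ⟨t1, t2⟩
    · intro he
      have hm := hm1 he
      refine ⟨fun hh => hm.2.2.1 ?_, fun hh => hm.2.2.2 ?_⟩
      · exact (slY (f1 - 1) c).2 ⟨by omega, by omega, by omega⟩
      · exact (slZ (f1 - 1) b).2 ⟨by omega, by omega, by omega⟩
    · intro he
      have hm := hm2 he
      refine ⟨fun hh => hm.2.1 ?_, fun hh => hm.2.2.2 ?_⟩
      · exact (slX (f2 - 1) c).2 ⟨by omega, by omega, by omega⟩
      · exact (slZ a (f2 - 1)).2 ⟨by omega, by omega, by omega⟩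
    · intro he
      have hm := hm3 he
      refine ⟨fun hh => hm.2.1 ?_, fun hh => hm.2.2.1 ?_⟩
      · exact (slX b (f3 - 1)).2 ⟨by omega, by omega, by omega⟩
      · exact (slY a (f3 - 1)).2 ⟨by omega, by omega, by omega⟩
  have key : (cnt (Mx P) (a + 1) + cnt (Mx (sw P)) (b + 1) + cnt (Mx (rt P)) (c + 1) +
      e1 + e2 + e3 + 1) ^ 2 + 4 * ((a + 1 - f1) * (b + 1 - f2) * (c + 1 - f3)) ≤
      4 * ((a + 1) * (b + 1) * (c + 1) + cnt P (a + 1) + cnt (sw P) (b + 1) +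
        cnt (rt P) (c + 1)) := by
    rcases Nat.lt_or_ge (e1 + e2 + e3) 2 with h4 | h4
    · exact arithII1 D (by omega)
    · rcases Nat.lt_or_ge (e1 + e2 + e3) 3 with h5 | h5
      · exact arithII2 D (by omega)
      · exact arithII3 D (by omega)
  rw [← hcnt] at key
  have h6 : (cnt (Mx P) 0 + 1) ^ 2 ≤ (cnt (Mx P) (a + 1) + cnt (Mx (sw P)) (b + 1) +
      cnt (Mx (rt P)) (c + 1) + e1 + e2 + e3 + 1) ^ 2 :=
    Nat.pow_le_pow_left (by omega) 2
  have h7 : 4 * (cnt P 0 + (a + 1 - f1) * (b + 1 - f2) * (c + 1 - f3)) =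
      4 * cnt P 0 + 4 * ((a + 1 - f1) * (b + 1 - f2) * (c + 1 - f3)) := by ring
  rw [h7] at key
  exact h6.trans (Nat.le_of_add_le_add_right key)

end Pool.Agent.T3
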