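import Pool.Agent.T3.Defs

/-!
# Pairs of deep generators in the plane `z = 0`

Let `(i,j), (i',j')` be deep generators, `i < i'`, `j' < j`, and let `d` be as in `Dual`; note
`d ≤ f3 - 1 ≤ c` and `f3 - d ≤ f3 - 1 ≤ c`.
* first alternative: `¬ P (i'-i) 0 d` and `P a 0 c` give `i' - i ≥ a + 1`; and
  `¬ P 0 (f2 + (j-j')) (f3-d)`, `P 0 b c` give `f2 + (j - j') ≥ b + 1`, so `j ≥ b + 1` as `j' ≥ f2`.
* second alternative: symmetric.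
-/

set_option linter.all false

namespace Pool.Agent.T3

private theorem plane_aux {P : ℕ → ℕ → ℕ → Prop} {f1 f2 f3 a b c : ℕ} (h : CylF P f1 f2 f3)
    (hc : Ctr P a b c) (h3 : f3 ≤ c + 1) {i j i' j' : ℕ} (hi : f1 ≤ i) (hj : f2 ≤ j')
    (hii : i < i') (hjj : j' < j) (g : Gen P i j) (g' : Gen P i' j') :
    ∃ d, 1 ≤ d ∧ d < f3 ∧
      ((¬ P (i' - i) 0 d ∧ ¬ P 0 (f2 + (j - j')) (f3 - d) ∧ a + 1 ≤ i' - i ∧
          b + 1 ≤ f2 + (j - j')) ∨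
       (¬ P 0 (j - j') d ∧ ¬ P (f1 + (i' - i)) 0 (f3 - d) ∧ b + 1 ≤ j - j' ∧
          a + 1 ≤ f1 + (i' - i))) := by
  obtain ⟨d, hd1, hd2, hd⟩ := h.dxy i j i' j' hi hj hii hjj g g'
  have hA : ∀ x z, z ≤ c → ¬ P x 0 z → a + 1 ≤ x := by
    intro x z hz hn
    by_contra hx
    exact hn (h.down a 0 c x 0 z (by omega) le_rfl hz hc.ac)
  have hB : ∀ y z, z ≤ c → ¬ P 0 y z → b + 1 ≤ y := by
    intro y z hz hn
    by_contra hy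
    exact hn (h.down 0 b c 0 y z le_rfl (by omega) hz hc.bc)
  refine ⟨d, hd1, hd2, ?_⟩
  rcases hd with ⟨u, v⟩ | ⟨u, v⟩
  · exact Or.inl ⟨u, v, hA _ _ (by omega) u, hB _ _ (by omega) v⟩
  · exact Or.inr ⟨u, v, hB _ _ (by omega) u, hA _ _ (by omega) v⟩

theorem plane_gens {P : ℕ → ℕ → ℕ → Prop} {f1 f2 f3 a b c : ℕ} (h : CylF P f1 f2 f3)
    (hc : Ctr P a b c) (h3 : f3 ≤ c + 1) {i j i' j' : ℕ} (hi : f1 ≤ i) (hj : f2 ≤ j')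
    (hii : i < i') (hjj : j' < j) (g : Gen P i j) (g' : Gen P i' j') : a + 1 ≤ i' ∧ b + 1 ≤ j := by
  obtain ⟨d, _, _, ⟨_, _, u, v⟩ | ⟨_, _, u, v⟩⟩ := plane_aux h hc h3 hi hj hii hjj g g'
  · omega
  · omega

/-- More precisely. -/
theorem plane_gens' {P : ℕ → ℕ → ℕ → Prop} {f1 f2 f3 a b c : ℕ} (h : CylF P f1 f2 f3)
    (hc : Ctr P a b c) (h3 : f3 ≤ c + 1) {i j i' j' : ℕ} (hi : f1 ≤ i) (hj : f2 ≤ j')
    (hii : i < i') (hjj : j' < j) (g : Gen P i j) (g' : Gen P i' j') :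
    ∃ d, 1 ≤ d ∧ d < f3 ∧
      ((¬ P (i' - i) 0 d ∧ ¬ P 0 (f2 + (j - j')) (f3 - d) ∧ a + 1 ≤ i' - i ∧
          b + 1 ≤ f2 + (j - j')) ∨
       (¬ P 0 (j - j') d ∧ ¬ P (f1 + (i' - i)) 0 (f3 - d) ∧ b + 1 ≤ j - j' ∧
          a + 1 ≤ f1 + (i' - i))) :=
  plane_aux h hc h3 hi hj hii hjj g g'

end Pool.Agent.T3
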