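import Pool.Agent.T3.XLeg0
import Pool.Agent.T3.Plane

/-!
# Two special configurations in case I-b

Notation: `β k = ye P (2+k)`, `γ k = ze P (2+k)`; slices are rectangles
`P (2+k) y z ↔ y < β k ∧ z < γ k` (in `r2`: `z ≤ 1 < 3`, cf. `xleg0`).  `cntMx_slices` (with
`p = β 0 + 1`, `q = γ 0 + 1`, `k0 = 0`) shows that the number of maximal elements is at most the
number of `k` with a drop (`β (k+1) < β k` or `γ (k+1) < γ k`, slice `k` nonempty).
The volume is `∑ β k γ k` (`cnt_slices`).

**`r3`.**  Center `(1,2,2)`, `n = 4`.  `β 0 ≤ 3`, `γ 0 ≤ 3`, not both equal to `3`.  From `xleg0` type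
bounds, `n + 1 ≤ β 0 + γ 0`, so `(β 0, γ 0)` is `(2,3)` or `(3,2)`: the slice `k = 0` has `6` elements.
The rest (`x ≥ 3`) has at least `3` maximal elements and its slices have sizes `≥ 3, 2, 1` at the
drops (a slice from which `n'` maximal elements remain has `β + γ ≥ n' + 1`, so `β γ ≥ n'`).
Total `≥ 6 + 6 = 12`.

**`r2`.**  `F = (1,1,3)`, center `(1,2,1)`, `n = 3`.  `β 0 ≤ 3`, `γ 0 ≤ 2`, not both top, and
`n + 1 ≤ β 0 + γ 0`: so `(β 0, γ 0)` is `(2,2)` or `(3,1)`.  Since `n = 3`, all drops are by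
exactly one and simultaneous drops do not occur, except at the end: `β` takes all the values
`β 0, β 0 - 1, ..., 1`, `γ` takes all values `γ 0, ..., 1`, and no two drops happen at the same
index except when the leg ends.
Let `(i, 2)` and `(i', 1)` be the generators where `β` falls to `2`, resp. `1`
(if `β 0 = 2` then `i = 2`; it is a generator as `P 1 2 0`).  Both are deep (`f1 = f2 = 1`).
`Dual`: `d ∈ {1,2}`; the second alternative has `¬ P 0 1 d`, impossible by `below`
(`(0,1,d) ≤ (1,1,3)`).  In the first alternative `¬ P 0 2 (3-d)`; for `d = 2` this contradicts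
`Ctr.bc : P 0 2 1`.  So `d = 1` and `¬ P (i'-i) 0 1`.
 * `(3,1)`: `P 1 0 1` (`Ctr.ac`) gives `i' - i ≥ 2`.  So there is at least one slice with `β = 3`, two
   with `β = 2`, one with `β = 1`: volume `≥ 3 + 2 + 2 + 1 = 8`.
 * `(2,2)`: `γ 0 = 2` gives `P 2 0 1`, so `i' - i ≥ 3`, i.e. `i' ≥ 5`: the slices `x = 2, 3, 4` have
   `β = 2`; volume `≥ 4 + 2 + 2 + 1 = 9`.
-/

namespace Pool.Agent.T3

namespace R2X

open Finset

/-- number of maximal elements in slice `k` (upper bound) when nothing is removed -/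
def e (β γ : ℕ → ℕ) (k : ℕ) : ℕ :=
  if β k = 0 ∨ γ k = 0 then 0 else if β (k + 1) < β k ∨ γ (k + 1) < γ k then 1 else 0

theorem e_le (β γ : ℕ → ℕ) (k : ℕ) : e β γ k ≤ 1 := by
  unfold e; split_ifs <;> omega

theorem legF {K : ℕ} {β γ : ℕ → ℕ} (hβ : Antitone β) (hγ : Antitone γ)
    (h0 : ∀ k, β k = 0 ↔ γ k = 0) (hK : β K = 0) :
    (∑ k ∈ range K, e β γ k) + 1 ≤ max 1 (β 0 + γ 0) ∧
    (∑ k ∈ range K, e β γ k) * ((∑ k ∈ range K, e β γ k) + 1) ≤ 2 * ∑ k ∈ range K, β k * γ k := by
  have hdd : ∀ (δ : ℕ → ℕ), Antitone δ → dd (δ 0 + 1) δ = 0 := by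
    intro δ hδ
    unfold dd
    have : {k | δ (k + 1) < δ k ∧ δ 0 + 1 ≤ δ (k + 1)} = ∅ := by
      ext k
      simp only [Set.mem_ofPred_eq, Set.mem_empty_iff_false, iff_false, not_and]
      intro _ h
      have := hδ (Nat.zero_le (k + 1))
      omega
    rw [this]; simp
  have d1 := hdd β hβ
  have d2 := hdd γ hγ
  have he : ∀ k, el (β 0 + 1) (γ 0 + 1) (β k) (γ k) (β (k + 1)) (γ (k + 1)) = e β γ k := by
    intro k
    have h1 := hβ (Nat.zero_le k)
    unfold el e
    have : ¬ (β 0 + 1 < β k ∧ γ 0 + 1 < γ k) := by omega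
    simp [this]
  have hs : ∀ k, sz (β 0 + 1) (γ 0 + 1) (β k) (γ k) = β k * γ k := by
    intro k
    have h1 := hβ (Nat.zero_le k)
    unfold sz
    have : ¬ (β 0 + 1 < β k ∧ γ 0 + 1 < γ k) := by omega
    simp [this]
  have L := leg (p := β 0 + 1) (q := γ 0 + 1) (K := K) (by omega) (by omega) hβ hγ h0 hK
    (by omega) (by omega) rfl rfl
  simp only [he, hs, d1, d2] at L
  obtain ⟨L1, _, L3⟩ := L
  refine ⟨?_, L3 (by omega)⟩
  have h1 : ¬ (β 0 + 1 < β 0 ∧ γ 0 + 1 < γ 0) := by omega
  rw [if_neg h1] at L1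
  have h2 : min (β 0) (β 0 + 1) = β 0 := by omega
  have h3 : min (γ 0) (γ 0 + 1) = γ 0 := by omega
  rw [h2, h3] at L1
  simpa using L1

/-- the sum of two extents decreases at every drop -/
theorem sumE {β γ : ℕ → ℕ} (hβ : Antitone β) (hγ : Antitone γ) (s : ℕ) :
    (∑ k ∈ range s, e β γ k) + (β s + γ s) ≤ β 0 + γ 0 := by
  induction s with
  | zero => simp
  | succ s ih =>
    rw [sum_range_succ]
    have h1 := hβ (Nat.le_succ s)
    have h2 := hγ (Nat.le_succ s)
    have h3 : e β γ s + (β (s + 1) + γ (s + 1)) ≤ β s + γ s := by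
      unfold e
      simp only [Nat.succ_eq_add_one] at h1 h2
      split_ifs <;> omega
    omega

theorem sl {P : ℕ → ℕ → ℕ → Prop} (hd : Down P) (hf : (St P).Finite) {x0 : ℕ}
    (hcyl : ∀ x y z, x0 ≤ x → P x y 0 → P x 0 z → P x y z) :
    ∃ K, (∀ k, K ≤ k → ye P (x0 + k) = 0 ∧ ze P (x0 + k) = 0) ∧
      cnt P x0 = ∑ k ∈ range K, ye P (x0 + k) * ze P (x0 + k) ∧
      cnt (Mx P) x0 ≤ ∑ k ∈ range K, e (fun k => ye P (x0 + k)) (fun k => ze P (x0 + k)) k := by
  obtain ⟨K, hK⟩ := exists_K hd hf x0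
  refine ⟨K, hK, ?_, ?_⟩
  all_goals
    have hβ := ye_anti hd hf x0
    have hγ := ze_anti hd hf x0
    have hs : ∀ k y z, P (x0 + k) y z ↔ y < (fun k => ye P (x0 + k)) k ∧
        z < (fun k => ze P (x0 + k)) k ∧
        ¬ (0 ≤ k ∧ ye P (x0 + 0) + 1 ≤ y ∧ ze P (x0 + 0) + 1 ≤ z) := by
      intro k y z
      have a1 := ye_iff hd hf (x0 + k) y
      have a2 := ze_iff hd hf (x0 + k) z
      have a3 : ye P (x0 + k) ≤ ye P (x0 + 0) := hβ (Nat.zero_le k)
      simp only
      constructor
      · intro h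
        have b1 : P (x0 + k) y 0 := hd _ _ _ _ _ _ le_rfl le_rfl (Nat.zero_le _) h
        have b2 : P (x0 + k) 0 z := hd _ _ _ _ _ _ le_rfl (Nat.zero_le _) le_rfl h
        rw [a1] at b1
        rw [a2] at b2
        exact ⟨b1, b2, by omega⟩
      · rintro ⟨h1, h2, _⟩
        exact hcyl _ _ _ (Nat.le_add_right _ _) (a1.2 h1) (a2.2 h2)
    have hK' : ∀ k, K ≤ k → (fun k => ye P (x0 + k)) k = 0 ∨ (fun k => ze P (x0 + k)) k = 0 :=
      fun k hk => Or.inl (hK k hk).1
  · rw [cnt_slices hs hK']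
    apply sum_congr rfl
    intro k _
    have a3 : ye P (x0 + k) ≤ ye P (x0 + 0) := hβ (Nat.zero_le k)
    simp only [Nat.zero_le, if_true]
    unfold sz
    have : ¬ (ye P (x0 + 0) + 1 < ye P (x0 + k) ∧ ze P (x0 + 0) + 1 < ze P (x0 + k)) := by omega
    simp only [this, if_false]
  · refine (cntMx_slices (by omega) (by omega) hs hK').trans ?_
    apply sum_le_sum
    intro k _
    have a3 : ye P (x0 + k) ≤ ye P (x0 + 0) := hβ (Nat.zero_le k)
    simp only [Nat.zero_le, if_true]
    unfold el e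
    have : ¬ (ye P (x0 + 0) + 1 < ye P (x0 + k) ∧ ze P (x0 + 0) + 1 < ze P (x0 + k)) := by omega
    simp only [this, if_false]
    exact le_rfl

end R2X

open Finset R2X

theorem r3 {P : ℕ → ℕ → ℕ → Prop} (hd : Down P) (hf : (St P).Finite)
    (hc : Ctr P 1 2 2) (hcyl : ∀ x y z, 2 ≤ x → P x y 0 → P x 0 z → P x y z)
    (hn : cnt (Mx P) 2 = 4) : 11 ≤ cnt P 2 := by
  obtain ⟨K, hK, hV, hN⟩ := sl hd hf hcyl
  set β : ℕ → ℕ := fun k => ye P (2 + k) with hβd
  set γ : ℕ → ℕ := fun k => ze P (2 + k) with hγd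
  have hβ : Antitone β := ye_anti hd hf 2
  have hγ : Antitone γ := ze_anti hd hf 2
  have h0 : ∀ k, β k = 0 ↔ γ k = 0 := fun k => ye_zero hd hf (2 + k)
  have hVs : cnt P 2 = ∑ k ∈ range K, β k * γ k := hV
  rw [hn] at hN
  have b0 : β 0 ≤ 3 := by
    have := ye_iff hd hf 2 3
    have h := hc.nab
    norm_num at h
    by_contra hcon
    exact h (this.2 (by show 3 < ye P (2 + 0); exact not_le.1 hcon))
  have g0 : γ 0 ≤ 3 := by
    have := ze_iff hd hf 2 3
    have h := hc.nac
    norm_num at h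
    by_contra hcon
    exact h (this.2 (by show 3 < ze P (2 + 0); exact not_le.1 hcon))
  have top : ¬ (β 0 = 3 ∧ γ 0 = 3) := by
    rintro ⟨h1, h2⟩
    apply hc.mx
    constructor
    · exact (ye_iff hd hf 2 2).2 (by show 2 < ye P (2 + 0); change 2 < β 0; omega)
    · exact (ze_iff hd hf 2 2).2 (by show 2 < ze P (2 + 0); change 2 < γ 0; omega)
  have hK0 : β K = 0 := (hK K le_rfl).1
  have L := (legF hβ hγ h0 hK0).1
  have hsum5 : 5 ≤ β 0 + γ 0 := by omega
  have hK1 : K ≠ 0 := by
    rintro rfl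
    simp at hN
  obtain ⟨K', rfl⟩ : ∃ K', K = K' + 1 := ⟨K - 1, by omega⟩
  have L' := (legF (K := K') (β := fun k => β (k + 1)) (γ := fun k => γ (k + 1))
    (fun a b h => hβ (by omega)) (fun a b h => hγ (by omega)) (fun k => h0 (k + 1)) hK0).2
  have hshift : ∀ k, e (fun k => β (k + 1)) (fun k => γ (k + 1)) k = e β γ (k + 1) := by
    intro k; rfl
  simp only [hshift] at L'
  rw [sum_range_succ'] at hN hVs
  have he := e_le β γ 0
  set N' := ∑ k ∈ range K', e β γ (k + 1) with hN'
  set V' := ∑ k ∈ range K', β (k + 1) * γ (k + 1) with hV'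
  have hN3 : 3 ≤ N' := by omega
  have hV6 : 6 ≤ V' := by nlinarith
  have hprod : 6 ≤ β 0 * γ 0 := by
    have h1 : β 0 = 2 ∧ γ 0 = 3 ∨ β 0 = 3 ∧ γ 0 = 2 := by omega
    rcases h1 with ⟨h1, h2⟩ | ⟨h1, h2⟩ <;> rw [h1, h2]
  omega

theorem r2 {P : ℕ → ℕ → ℕ → Prop} (h : CylF P 1 1 3) (hc : Ctr P 1 2 1)
    (hn : cnt (Mx P) 2 = 3) : 8 ≤ cnt P 2 := by
  have hd := h.down
  have hf := h.fin
  have hnab : ¬ P 2 3 0 := by have h := hc.nab; norm_num at h; exact h
  have hnac : ¬ P 2 0 2 := by have h := hc.nac; norm_num at h; exact h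
  have hcyl : ∀ x y z, 2 ≤ x → P x y 0 → P x 0 z → P x y z := by
    intro x y z hx h1 h2
    have hy : y ≤ 2 := by
      by_contra hcon
      exact hnab (hd _ _ _ _ _ _ hx (by omega) le_rfl h1)
    have hz : z ≤ 1 := by
      by_contra hcon
      exact hnac (hd _ _ _ _ _ _ hx le_rfl (by omega) h2)
    exact h.cyl x y z h1 h2 (hd _ _ _ _ _ _ le_rfl hy hz hc.bc) (by omega)
  obtain ⟨K, hK, hV, hN⟩ := sl hd hf hcyl
  set β : ℕ → ℕ := fun k => ye P (2 + k) with hβd
  set γ : ℕ → ℕ := fun k => ze P (2 + k) with hγd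
  have hβ : Antitone β := ye_anti hd hf 2
  have hγ : Antitone γ := ze_anti hd hf 2
  have h0 : ∀ k, β k = 0 ↔ γ k = 0 := fun k => ye_zero hd hf (2 + k)
  have hVs : cnt P 2 = ∑ k ∈ range K, β k * γ k := hV
  have hy : ∀ k y, P (2 + k) y 0 ↔ y < β k := fun k y => ye_iff hd hf (2 + k) y
  have hz : ∀ k z, P (2 + k) 0 z ↔ z < γ k := fun k z => ze_iff hd hf (2 + k) z
  rw [hn] at hN
  have b0 : β 0 ≤ 3 := by
    by_contra hcon
    exact hnab ((hy 0 3).2 (by omega))
  have g0 : γ 0 ≤ 2 := by
    by_contra hcon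
    exact hnac ((hz 0 2).2 (by omega))
  have top : ¬ (β 0 = 3 ∧ γ 0 = 2) := by
    rintro ⟨h1, h2⟩
    apply hc.mx
    exact ⟨(hy 0 2).2 (by omega), (hz 0 1).2 (by omega)⟩
  have hK0 : β K = 0 := (hK K le_rfl).1
  have L := (legF hβ hγ h0 hK0).1
  have hsum4 : 4 ≤ β 0 + γ 0 := by omega
  have hKlt : ∀ k, β k ≠ 0 → k < K := by
    intro k hk
    by_contra hcon
    exact hk (hK k (by omega)).1
  -- the duality
  have dual : ∀ i i', 1 ≤ i → i < i' → Gen P i 2 → Gen P i' 1 → ¬ P (i' - i) 0 1 := by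
    intro i i' hi hii g g'
    obtain ⟨d, hd1, hd3, hA | hB⟩ := h.dxy i 2 i' 1 hi le_rfl hii (by omega) g g'
    · have h2 : ¬ P 0 2 (3 - d) := by simpa using hA.2
      have : d = 1 := by
        by_contra hcon
        have : d = 2 := by omega
        subst this
        exact h2 hc.bc
      subst this
      exact hA.1
    · exfalso
      apply hB.1
      exact h.below 0 (2 - 1) d (by omega) (by omega) (by omega) (by omega)
  have hex : ∃ k, β k ≤ 1 := ⟨K, by omega⟩
  classical
  obtain ⟨i', hi'1, hi'2⟩ : ∃ i', β i' ≤ 1 ∧ ∀ k, k < i' → 2 ≤ β k := by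
    refine ⟨Nat.find hex, Nat.find_spec hex, fun k hk => ?_⟩
    have := Nat.find_min hex hk
    omega
  have hi'0 : i' ≠ 0 := by
    rintro rfl
    omega
  have hi'K : i' ≤ K := by
    by_contra hcon
    have := hi'2 K (by omega)
    omega
  -- `β i' = 1`
  have hNsplit : ∑ k ∈ range K, e β γ k
      = ∑ k ∈ range (i' - 1), e β γ k + e β γ (i' - 1) + ∑ k ∈ range (K - i'), e β γ (i' + k) := by
    have h1 : K = i' + (K - i') := by omega
    rw [h1, sum_range_add]
    have h2 : i' = (i' - 1) + 1 := by omega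
    congr 1
    · conv_lhs => rw [h2]
      rw [sum_range_succ]
    · have : i' + (K - i') - i' = K - i' := by omega
      rw [this]
  have Lt := (legF (K := K - i') (β := fun k => β (i' + k)) (γ := fun k => γ (i' + k))
    (fun a b h => hβ (by omega)) (fun a b h => hγ (by omega)) (fun k => h0 (i' + k))
    (by show β (i' + (K - i')) = 0; rw [show i' + (K - i') = K by omega]; exact hK0)).1
  have hshift : ∀ k, e (fun k => β (i' + k)) (fun k => γ (i' + k)) k = e β γ (i' + k) := by
    intro k; rfl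
  simp only [hshift, add_zero] at Lt
  have S1 := sumE hβ hγ (i' - 1)
  have hb1 := hi'2 (i' - 1) (by omega)
  have hg1 : 1 ≤ γ (i' - 1) := by
    have := h0 (i' - 1)
    omega
  have he1 := e_le β γ (i' - 1)
  have hβi' : β i' = 1 := by
    by_contra hcon
    have hb : β i' = 0 := by omega
    have hg : γ i' = 0 := (h0 i').1 hb
    rw [hb, hg] at Lt
    simp only [add_zero] at Lt
    have : max 1 0 = 1 := rfl
    rw [this] at Lt
    have : β 0 + γ 0 = 4 := by omega
    omega
  have hγi' : 1 ≤ γ i' := by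
    have := h0 i'
    omega
  have gi' : Gen P (2 + i') 1 := by
    refine ⟨by omega, le_rfl, ?_, ?_, ?_⟩
    · rw [hy]; omega
    · have : 2 + i' - 1 = 2 + (i' - 1) := by omega
      rw [this, hy]; omega
    · have := (hy i' 0).2 (by omega)
      simpa using this
  have hcases : (β 0 = 3 ∧ γ 0 = 1) ∨ (β 0 = 2 ∧ γ 0 = 2) := by omega
  rcases hcases with ⟨c1, c2⟩ | ⟨c1, c2⟩
  · -- `(3,1)`
    have hex2 : ∃ k, β k ≤ 2 := ⟨K, by omega⟩
    obtain ⟨i, hi1, hi2⟩ : ∃ i, β i ≤ 2 ∧ ∀ k, k < i → 3 ≤ β k := by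
      refine ⟨Nat.find hex2, Nat.find_spec hex2, fun k hk => ?_⟩
      have := Nat.find_min hex2 hk
      omega
    have hi0 : i ≠ 0 := by
      rintro rfl
      omega
    have hiK : i ≤ K := by
      by_contra hcon
      have := hi2 K (by omega)
      omega
    have hii : i ≤ i' := by
      by_contra hcon
      have := hi2 i' (by omega)
      omega
    -- `β i = 2`
    have hβi : β i = 2 := by
      by_contra hcon
      have hlt : ¬ i < i' := fun hlt => hcon (by have := hi'2 i hlt; omega)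
      have hEq : i = i' := by omega
      -- then there is a jump from 3 to 1
      have S1' := S1
      have hb3 : 3 ≤ β (i' - 1) := hi2 (i' - 1) (by omega)
      have hgi : γ i' ≤ 1 := by
        have := hγ (Nat.zero_le i')
        omega
      rw [hβi'] at Lt
      have hmax : max 1 (1 + γ i') ≤ 2 := by omega
      omega
    have hlt : i < i' := by
      rcases Nat.lt_or_ge i i' with h1 | h1
      · exact h1
      · exfalso
        have : i = i' := by omega
        rw [this] at hβi
        omega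
    have gi : Gen P (2 + i) 2 := by
      refine ⟨by omega, by omega, ?_, ?_, ?_⟩
      · rw [hy]; omega
      · have : 2 + i - 1 = 2 + (i - 1) := by omega
        rw [this, hy]
        have := hi2 (i - 1) (by omega)
        omega
      · have := (hy i 1).2 (by omega)
        simpa using this
    have D := dual (2 + i) (2 + i') (by omega) (by omega) gi gi'
    have hdiff : i + 2 ≤ i' := by
      by_contra hcon
      apply D
      have : 2 + i' - (2 + i) = 1 := by omega
      rw [this]
      exact hc.ac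
    -- volume
    have hb2 : β (i + 1) = 2 := by
      have h1 := hi'2 (i + 1) (by omega)
      have h2 := hβ (Nat.le_succ i)
      simp only [Nat.succ_eq_add_one] at h2
      omega
    have hγpos : ∀ k, β k ≠ 0 → 1 ≤ γ k := by
      intro k hk
      have := h0 k
      omega
    have hsub : ({0, i, i + 1, i'} : Finset ℕ) ⊆ range K := by
      intro k hk
      simp only [mem_insert, mem_singleton] at hk
      rw [mem_range]
      rcases hk with rfl | rfl | rfl | rfl
      · exact hKlt _ (by omega)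
      · exact hKlt _ (by omega)
      · exact hKlt _ (by omega)
      · exact hKlt _ (by omega)
    have hle := sum_le_sum_of_subset (f := fun k => β k * γ k) hsub
    rw [sum_insert (by simp only [mem_insert, mem_singleton]; omega),
      sum_insert (by simp only [mem_insert, mem_singleton]; omega),
      sum_insert (by simp only [mem_singleton]; omega), sum_singleton] at hle
    have e0 := hγpos 0 (by omega)
    have e1 := hγpos i (by omega)
    have e2 := hγpos (i + 1) (by omega)
    simp only [c1, hβi, hb2, hβi'] at hle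
    rw [hVs]
    omega
  · -- `(2,2)`
    have gi : Gen P 2 2 := by
      refine ⟨by omega, by omega, ?_, ?_, ?_⟩
      · have := hy 0 2
        simp only [add_zero] at this
        rw [this]; omega
      · exact hc.ab
      · have := (hy 0 1).2 (by omega)
        simpa using this
    have D := dual 2 (2 + i') (by omega) (by omega) gi gi'
    have hP201 : P 2 0 1 := (hz 0 1).2 (by omega)
    have hi3 : 3 ≤ i' := by
      by_contra hcon
      apply D
      have : 2 + i' - 2 = i' := by omega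
      rw [this]
      exact hd _ _ _ _ _ _ (by omega) le_rfl le_rfl hP201
    have hγpos : ∀ k, β k ≠ 0 → 1 ≤ γ k := by
      intro k hk
      have := h0 k
      omega
    have hb1' := hi'2 1 (by omega)
    have hb2' := hi'2 2 (by omega)
    have hsub : ({0, 1, 2, i'} : Finset ℕ) ⊆ range K := by
      intro k hk
      simp only [mem_insert, mem_singleton] at hk
      rw [mem_range]
      rcases hk with rfl | rfl | rfl | rfl
      · exact hKlt _ (by omega)
      · exact hKlt _ (by omega)
      · exact hKlt _ (by omega)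
      · exact hKlt _ (by omega)
    have hle := sum_le_sum_of_subset (f := fun k => β k * γ k) hsub
    rw [sum_insert (by simp only [mem_insert, mem_singleton]; omega),
      sum_insert (by simp only [mem_insert, mem_singleton]; omega),
      sum_insert (by simp only [mem_singleton]; omega), sum_singleton] at hle
    have e1 := hγpos 1 (by omega)
    have e2 := hγpos 2 (by omega)
    have m1 : 2 ≤ β 1 * γ 1 := by nlinarith
    have m2 : 2 ≤ β 2 * γ 2 := by nlinarith
    simp only [c1, c2, hβi'] at hle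
    rw [hVs]
    omega

end Pool.Agent.T3
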