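import Pool.Agent.T3.Defs

/-!
# Symmetry

`sw P x y z = P y x z` and `rt P x y z = P y z x`.  All the structures are preserved under
permutations of the coordinates.

For `Dual`: first prove `dual_swap` (the two generators `(i,j), (i',j')` of `Q` correspond to the
generators `(j',i'), (j,i)` of `sw Q`; the two alternatives in the conclusion are exchanged).
Then e.g. `rt P = sw (fun x z y => P x y z)` definitionally, `(fun x z y => rt P x y z)` is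
`sw (fun y z x => P x y z)` and `(fun y z x => rt P x y z)` is `P`.
-/

namespace Pool.Agent.T3

theorem dual_swap {P : ℕ → ℕ → ℕ → Prop} {f1 f2 f3 : ℕ} (h : Dual P f1 f2 f3) :
    Dual (sw P) f2 f1 f3 := by
  intro i j i' j' h1 h2 h3 h4 h5 h6
  have g5 : Gen P j i := ⟨h5.2.1, h5.1, h5.2.2.1, h5.2.2.2.2, h5.2.2.2.1⟩
  have g6 : Gen P j' i' := ⟨h6.2.1, h6.1, h6.2.2.1, h6.2.2.2.2, h6.2.2.2.1⟩
  obtain ⟨d, hd1, hd2, hd3⟩ := h j' i' j i h2 h1 h4 h3 g6 g5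
  exact ⟨d, hd1, hd2, hd3.symm⟩

theorem Down.sw {P : ℕ → ℕ → ℕ → Prop} (h : Down P) : Down (sw P) := by
  intro x y z x' y' z' hx hy hz h'
  exact h y x z y' x' z' hy hx hz h'

theorem Down.rt {P : ℕ → ℕ → ℕ → Prop} (h : Down P) : Down (rt P) := by
  intro x y z x' y' z' hx hy hz h'
  exact h y z x y' z' x' hy hz hx h'

theorem fin_sw {P : ℕ → ℕ → ℕ → Prop} (h : (St P).Finite) : (St (sw P)).Finite := by
  refine (h.image fun v : ℕ × ℕ × ℕ => (v.2.1, v.1, v.2.2)).subset ?_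
  rintro ⟨x, y, z⟩ hv
  exact ⟨(y, x, z), hv, rfl⟩

theorem fin_rt {P : ℕ → ℕ → ℕ → Prop} (h : (St P).Finite) : (St (rt P)).Finite := by
  refine (h.image fun v : ℕ × ℕ × ℕ => (v.2.2, v.1, v.2.1)).subset ?_
  rintro ⟨x, y, z⟩ hv
  exact ⟨(y, z, x), hv, rfl⟩

theorem Cyl.sw {P : ℕ → ℕ → ℕ → Prop} (h : Cyl P) : Cyl (sw P) := by
  exact ⟨Down.sw h.down, fin_sw h.fin, h.zero, fun x y z h1 h2 h3 => h.cyl y x z h1 h3 h2⟩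

theorem Cyl.rt {P : ℕ → ℕ → ℕ → Prop} (h : Cyl P) : Cyl (rt P) := by
  exact ⟨Down.rt h.down, fin_rt h.fin, h.zero, fun x y z h1 h2 h3 => h.cyl y z x h3 h1 h2⟩

theorem CylF.sw {P : ℕ → ℕ → ℕ → Prop} {f1 f2 f3 : ℕ} (h : CylF P f1 f2 f3) :
    CylF (sw P) f2 f1 f3 := by
  exact ⟨Down.sw h.down, fin_sw h.fin, h.p2, h.p1, h.p3,
    fun x y z h1 h2 h3 h4 => h.cyl y x z h1 h3 h2 fun h5 => h4 ⟨h5.2.1, h5.1, h5.2.2⟩,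
    h.notF, fun x y z h1 h2 h3 h4 => h.below y x z h2 h1 h3 fun h5 => h4 ⟨h5.2.1, h5.1, h5.2.2⟩,
    dual_swap h.dxy, h.dyz, h.dxz⟩

theorem CylF.rt {P : ℕ → ℕ → ℕ → Prop} {f1 f2 f3 : ℕ} (h : CylF P f1 f2 f3) :
    CylF (rt P) f3 f1 f2 := by
  exact ⟨Down.rt h.down, fin_rt h.fin, h.p3, h.p1, h.p2,
    fun x y z h1 h2 h3 h4 => h.cyl y z x h3 h1 h2 fun h5 => h4 ⟨h5.2.2, h5.1, h5.2.1⟩,
    h.notF, fun x y z h1 h2 h3 h4 => h.below y z x h2 h3 h1 fun h5 => h4 ⟨h5.2.2, h5.1, h5.2.1⟩,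
    dual_swap h.dxz, dual_swap h.dyz, h.dxy⟩

theorem Ctr.sw {P : ℕ → ℕ → ℕ → Prop} {a b c : ℕ} (h : Ctr P a b c) : Ctr (sw P) b a c := by
  exact ⟨h.ab, h.bc, h.ac, h.nab, h.nbc, h.nac, h.my, h.mx, fun h1 => h.mz h1.symm⟩

theorem Ctr.rt {P : ℕ → ℕ → ℕ → Prop} {a b c : ℕ} (h : Ctr P a b c) : Ctr (rt P) c a b := by
  exact ⟨h.ac, h.bc, h.ab, h.nac, h.nbc, h.nab, h.mz, fun h1 => h.mx h1.symm,
    fun h1 => h.my h1.symm⟩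

theorem Mx_sw (P : ℕ → ℕ → ℕ → Prop) : Mx (sw P) = sw (Mx P) := by
  funext x y z
  exact propext ⟨fun h => ⟨h.1, h.2.2.1, h.2.1, h.2.2.2⟩, fun h => ⟨h.1, h.2.2.1, h.2.1, h.2.2.2⟩⟩

theorem Mx_rt (P : ℕ → ℕ → ℕ → Prop) : Mx (rt P) = rt (Mx P) := by
  funext x y z
  exact propext ⟨fun h => ⟨h.1, h.2.2.1, h.2.2.2, h.2.1⟩, fun h => ⟨h.1, h.2.2.2, h.2.1, h.2.2.1⟩⟩

/-- total counts do not change -/
theorem cnt_sw (P : ℕ → ℕ → ℕ → Prop) : cnt (sw P) 0 = cnt P 0 := by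
  unfold cnt
  have hinj : Function.Injective fun v : ℕ × ℕ × ℕ => (v.2.1, v.1, v.2.2) := by
    rintro ⟨x, y, z⟩ ⟨x', y', z'⟩ h
    simp only [Prod.mk.injEq] at h ⊢
    exact ⟨h.2.1, h.1, h.2.2⟩
  rw [← Set.ncard_image_of_injective {v : ℕ × ℕ × ℕ | P v.1 v.2.1 v.2.2 ∧ 0 ≤ v.1} hinj]
  congr 1
  ext ⟨x, y, z⟩
  constructor
  · rintro ⟨h1, -⟩
    exact ⟨(y, x, z), ⟨h1, Nat.zero_le _⟩, rfl⟩
  · rintro ⟨⟨x', y', z'⟩, ⟨h1, -⟩, h2⟩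
    simp only [Prod.mk.injEq] at h2
    obtain ⟨rfl, rfl, rfl⟩ := h2
    exact ⟨h1, Nat.zero_le _⟩

theorem cnt_rt (P : ℕ → ℕ → ℕ → Prop) : cnt (rt P) 0 = cnt P 0 := by
  unfold cnt
  have hinj : Function.Injective fun v : ℕ × ℕ × ℕ => (v.2.2, v.1, v.2.1) := by
    rintro ⟨x, y, z⟩ ⟨x', y', z'⟩ h
    simp only [Prod.mk.injEq] at h ⊢
    exact ⟨h.2.1, h.2.2, h.1⟩
  rw [← Set.ncard_image_of_injective {v : ℕ × ℕ × ℕ | P v.1 v.2.1 v.2.2 ∧ 0 ≤ v.1} hinj]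
  congr 1
  ext ⟨x, y, z⟩
  constructor
  · rintro ⟨h1, -⟩
    exact ⟨(y, z, x), ⟨h1, Nat.zero_le _⟩, rfl⟩
  · rintro ⟨⟨x', y', z'⟩, ⟨h1, -⟩, h2⟩
    simp only [Prod.mk.injEq] at h2
    obtain ⟨rfl, rfl, rfl⟩ := h2
    exact ⟨h1, Nat.zero_le _⟩

end Pool.Agent.T3
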