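import Pool.Agent.T3.XLeg0
import Pool.Agent.T3.Sym
import Pool.Agent.T3.Plane

/-!
# Case I-b: using the duality in the plane `z = 0`

**`no_unit`.**  Two deep generators `(i,j+1)`, `(i+1,j)` cannot both exist: `Dual` gives
`1 ≤ d < f3` with `¬ P 1 0 d` or `¬ P 0 1 d`; but `(1,0,d)`, `(0,1,d)` are `≤ (f1,f2,f3)` and
different from it, so they are in `P` (`below`).

**`b1`.**  `c = 0`.  `xleg0_planar` for `P` and `sw P`: `nX ≤ ye P (a+1) ≤ b`,
`nY ≤ ye (sw P) (b+1) ≤ a`.  If the claim fails, `ye P (a+1) = b` and `ye (sw P) (b+1) = a`, so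
`(a, b+1)` and `(a+1, b)` are generators, contradicting `no_unit`.

**`r1`.**  `f1 = f2 = 1`, `c = 0`, `nX = 2`.  The slices are `β k = ye P (a+1+k)` wide and `γ k ≤ 1`.
`β` takes at least two different nonzero values (`cntMx_slices` with
`p = β 0 + 1`, `q = γ 0 + 1`, `k0 = 0`), so the volume `∑ β k γ k` is at least `3`, with equality only
for `β = 2, 1, 0, ...`.  In this case `(a+1, 2)` and `(a+2, 1)` are generators (`β 0 ≤ b` by
`xleg0_planar`), contradicting `no_unit`.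
-/

namespace Pool.Agent.T3

theorem no_unit {P : ℕ → ℕ → ℕ → Prop} {f1 f2 f3 : ℕ} (h : CylF P f1 f2 f3) {i j : ℕ}
    (hi : f1 ≤ i) (hj : f2 ≤ j) (g : Gen P i (j + 1)) (g' : Gen P (i + 1) j) : False := by
  have p1 := h.p1
  have p2 := h.p2
  obtain ⟨d, hd1, hd2, ⟨u, -⟩ | ⟨u, -⟩⟩ :=
    h.dxy i (j + 1) (i + 1) j hi hj (Nat.lt_succ_self i) (Nat.lt_succ_self j) g g'
  · exact u (h.below _ _ _ (by omega) (by omega) (by omega) (by omega))
  · exact u (h.below _ _ _ (by omega) (by omega) (by omega) (by omega))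

theorem b1 {P : ℕ → ℕ → ℕ → Prop} {f1 f2 f3 a b : ℕ} (h : CylF P f1 f2 f3)
    (hc : Ctr P a b 0) (h1 : f1 ≤ a) (h2 : f2 ≤ b) (h3 : 2 ≤ f3) :
    cnt (Mx P) (a + 1) + cnt (Mx (sw P)) (b + 1) + 1 ≤ a + b := by
  have p1 := h.p1
  have p2 := h.p2
  have hcyl : ∀ x y z, a + 1 ≤ x → P x y 0 → P x 0 z → P x y z := by
    intro x y z hx u v
    rcases Nat.eq_zero_or_pos z with rfl | hz
    · exact u
    · exact absurd (h.down _ _ _ _ _ _ hx le_rfl (by omega) v) hc.nac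
  have hcyl' : ∀ x y z, b + 1 ≤ x → sw P x y 0 → sw P x 0 z → sw P x y z := by
    intro x y z hx u v
    rcases Nat.eq_zero_or_pos z with rfl | hz
    · exact u
    · exact absurd (h.down _ _ _ _ _ _ le_rfl hx (by omega) v) hc.nbc
  obtain ⟨x1, x2⟩ := xleg0_planar h.down h.fin hc hcyl
  obtain ⟨y1, y2⟩ := xleg0_planar (P := sw P) (Down.sw h.down) (fin_sw h.fin) hc.sw hcyl'
  by_contra hcon
  have e1 : ye P (a + 1) = b := by omega
  have e2 : ye (sw P) (b + 1) = a := by omega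
  have w1 := fun y => ye_iff h.down h.fin (a + 1) y
  have w2 := fun y => ye_iff (Down.sw h.down) (fin_sw h.fin) (b + 1) y
  rw [e1] at w1
  rw [e2] at w2
  refine no_unit h h1 h2 (i := a) (j := b) ⟨by omega, by omega, ?_, ?_, ?_⟩
    ⟨by omega, by omega, ?_, ?_, ?_⟩
  · intro u
    exact absurd ((w2 a).1 u) (by omega)
  · exact (w2 (a - 1)).2 (by omega)
  · exact hc.ab
  · intro u
    exact absurd ((w1 b).1 u) (by omega)
  · exact hc.ab
  · exact (w1 (b - 1)).2 (by omega)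

theorem r1 {P : ℕ → ℕ → ℕ → Prop} {f3 a b : ℕ} (h : CylF P 1 1 f3)
    (hc : Ctr P a b 0) (h1 : 1 ≤ a) (h2 : 1 ≤ b) (h3 : 2 ≤ f3)
    (hn : cnt (Mx P) (a + 1) = 2) : 4 ≤ cnt P (a + 1) := by
  have hcyl : ∀ x y z, a + 1 ≤ x → P x y 0 → P x 0 z → P x y z := by
    intro x y z hx u v
    rcases Nat.eq_zero_or_pos z with rfl | hz
    · exact u
    · exact absurd (h.down _ _ _ _ _ _ hx le_rfl (by omega) v) hc.nac
  obtain ⟨-, hb⟩ := xleg0_planar h.down h.fin hc hcyl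
  have hfin : {v : ℕ × ℕ × ℕ | P v.1 v.2.1 v.2.2 ∧ a + 1 ≤ v.1}.Finite :=
    h.fin.subset fun v hv => hv.1
  have four : ∀ t : ℕ × ℕ × ℕ, P t.1 t.2.1 t.2.2 → a + 1 ≤ t.1 → P (a + 1) 1 0 →
      P (a + 2) 0 0 → t ≠ (a + 1, 0, 0) → t ≠ (a + 1, 1, 0) → t ≠ (a + 2, 0, 0) →
      4 ≤ cnt P (a + 1) := by
    intro t ht ht' q1 q2 n1 n2 n3
    have hs : ((({t, (a + 1, 0, 0), (a + 1, 1, 0), (a + 2, 0, 0)} : Finset (ℕ × ℕ × ℕ))) :
        Set (ℕ × ℕ × ℕ)) ⊆ {v : ℕ × ℕ × ℕ | P v.1 v.2.1 v.2.2 ∧ a + 1 ≤ v.1} := by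
      intro v hv
      simp only [Finset.coe_insert, Finset.coe_singleton, Set.mem_insert_iff,
        Set.mem_singleton_iff] at hv
      rcases hv with rfl | rfl | rfl | rfl
      · exact ⟨ht, ht'⟩
      · exact ⟨h.down _ _ _ _ _ _ le_rfl (Nat.zero_le _) le_rfl q1, le_rfl⟩
      · exact ⟨q1, le_rfl⟩
      · exact ⟨q2, Nat.le_succ _⟩
    have hc4 : ({t, (a + 1, 0, 0), (a + 1, 1, 0), (a + 2, 0, 0)} :
        Finset (ℕ × ℕ × ℕ)).card = 4 := by
      rw [Finset.card_insert_of_notMem, Finset.card_insert_of_notMem,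
        Finset.card_insert_of_notMem, Finset.card_singleton]
      · simp
      · simp
      · simp only [Finset.mem_insert, Finset.mem_singleton, not_or]
        exact ⟨n1, n2, n3⟩
    have := Set.ncard_le_ncard hs hfin
    rw [Set.ncard_coe_finset, hc4] at this
    exact this
  have zz : ∀ x y z, a + 1 ≤ x → P x y z → z = 0 := by
    intro x y z hx u
    by_contra hz
    exact hc.nac (h.down _ _ _ _ _ _ hx (Nat.zero_le _) (by omega) u)
  obtain ⟨u, v, huv, hset⟩ := Set.ncard_eq_two.1 hn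
  have hu : Mx P u.1 u.2.1 u.2.2 ∧ a + 1 ≤ u.1 := by
    have : u ∈ {v : ℕ × ℕ × ℕ | Mx P v.1 v.2.1 v.2.2 ∧ a + 1 ≤ v.1} := by
      rw [hset]; exact Set.mem_insert _ _
    exact this
  have hv : Mx P v.1 v.2.1 v.2.2 ∧ a + 1 ≤ v.1 := by
    have : v ∈ {v : ℕ × ℕ × ℕ | Mx P v.1 v.2.1 v.2.2 ∧ a + 1 ≤ v.1} := by
      rw [hset]; exact Set.mem_insert_of_mem _ rfl
    exact this
  have key : ∀ x1 y1 x2 y2, x1 < x2 → a + 1 ≤ x1 → Mx P x1 y1 0 → Mx P x2 y2 0 →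
      4 ≤ cnt P (a + 1) := by
    intro x1 y1 x2 y2 hx ha m1 m2
    have hy : y2 < y1 := by
      by_contra hy
      exact m1.2.1 (h.down _ _ _ _ _ _ (by omega) (by omega) le_rfl m2.1)
    have q1 : P (a + 1) 1 0 := h.down _ _ _ _ _ _ ha (by omega) le_rfl m1.1
    have q2 : P (a + 2) 0 0 := h.down _ _ _ _ _ _ (by omega) (by omega) le_rfl m2.1
    by_cases c1 : P (a + 2) 1 0
    · exact four (a + 2, 1, 0) c1 (Nat.le_succ _) q1 q2 (by simp) (by simp) (by simp)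
    by_cases c2 : P (a + 1) 2 0
    · exact four (a + 1, 2, 0) c2 le_rfl q1 q2 (by simp) (by simp) (by simp)
    exfalso
    have q3 : P a 2 0 := by
      have : 1 < ye P (a + 1) := (ye_iff h.down h.fin _ _).1 q1
      exact h.down _ _ _ _ _ _ le_rfl (by omega) le_rfl hc.ab
    exact no_unit h (i := a + 1) (j := 1) (by omega) le_rfl
      ⟨by omega, by omega, c2, q3, q1⟩ ⟨by omega, le_rfl, c1, q1, q2⟩
  obtain ⟨u1, u2, u3⟩ := u
  obtain ⟨v1, v2, v3⟩ := v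
  simp only at hu hv
  have hu3 := zz _ _ _ hu.2 hu.1.1
  have hv3 := zz _ _ _ hv.2 hv.1.1
  subst hu3
  subst hv3
  rcases lt_trichotomy u1 v1 with hlt | heq | hgt
  · exact key _ _ _ _ hlt hu.2 hu.1 hv.1
  · exfalso
    subst heq
    rcases lt_trichotomy u2 v2 with h4 | h4 | h4
    · exact hu.1.2.2.1 (h.down _ _ _ _ _ _ le_rfl h4 le_rfl hv.1.1)
    · subst h4
      exact huv rfl
    · exact hv.1.2.2.1 (h.down _ _ _ _ _ _ le_rfl h4 le_rfl hu.1.1)
  · exact key _ _ _ _ hgt hv.2 hv.1 hu.1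

end Pool.Agent.T3
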