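import Pool.Agent.T3.Leg

/-!
# The leg lemma for case I-b

The slices `k < k0` are full rectangles; from `k0` on the corner `{y ≥ p, z ≥ q}` is removed.
All slices `k ≤ k0` have `α > p`, `β > q`.  The slice `k0 - 1` always contributes a maximal element
(its corner lies below a removed point).  At most one deep drop of `α` at an index `k ≥ k0 - 1`,
same for `β` (before index `k0 - 1` drops are unrestricted).

## Proof

(A) The part from `k0` on.  Let `N3, V3` be its numbers.  It starts in state L of the leg lemma.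
  (A1) `N3 + 1 ≤ α k0 + β k0`.  Same induction as in the leg lemma: in state R,
  `N + 1 ≤ α + β` (shown there).  In state L: a deep drop (or any drop) of a coordinate
  decreases `α + β`; more precisely if `e = 1` then `α' + β' ≤ α + β - 1`; if `e = 2` and both drop
  `α' + β' ≤ α + β - 2`; if `e = 2` and only one coordinate drops, it jumps from `> q` to `< q`, so
  drops by at least `2`.  If the next slice is empty, `N = e ≤ 2` and `α + β ≥ 4`.
  (A2) `N3 (N3+1) ≤ 2 V3 + 4` (leg lemma, `dd ≤ 1` for the shifted sequences).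
  (A3) If `p = q = 1` and `(α k0, β k0) = (2,2)`: `N3 ≤ 3`, and `V3 ≥ 3`, `N3 = 3 → V3 ≥ 4`.
  (A4) If `p = q = 1` and `(α,β)(k0) ∈ {(2,3),(3,2)}`: `N3 ≤ 3` and `V3 ≥ 4`, `N3 = 3 → V3 ≥ 5`.
  (A5) If `(p,q) = (1,2)`, `(α,β)(k0) = (2,3)` (or swapped): `N3 ≤ 4`, `N3 = 4 → V3 ≥ 8`,
  `N3 = 3 → V3 ≥ 6`, `V3 ≥ 5`.
  (A3)-(A5) are checks of a few sequences (the first slice has 3, 4, 5 points respectively; use that
  at most one deep drop for each coordinate is allowed).

(B) The slice `k0 - 1`, `(α,β) := (α,β)(k0-1) ≥ (α,β)(k0)`: `N1 = N3 + 1`, `V1 = α β + V3`.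
  `N1 ≤ α + β` by (A1).  Now `2 V1 = 2 α β + 2 V3 ≥ 2 α β + N3 (N3+1) - 4` and
  `N1 (N1+1) = N3 (N3+1) + 2 (N3 + 1) ≤ N3 (N3+1) + 2 (α + β)`, so `N1 (N1+1) ≤ 2 V1` if
  `α β - α - β ≥ 2`, i.e. `(α-1)(β-1) ≥ 3`.  Otherwise `(α,β) ∈ {(2,2),(2,3),(3,2)}` and
  (A3)-(A5) give: `(2,2)` (so `p = q = 1`, `(α,β)(k0) = (2,2)`): `N1 (N1+1) ≤ 2 V1` or
  `N1 = 4`, `V1 ≥ 8`.  `(2,3)`, `p = q = 1`: `N1 (N1+1) ≤ 2 V1` (`N1 ≤ 4`, `V1 ≥ 6 + V3`).
  `(2,3)`, `(p,q) = (1,2)`: `N1 (N1+1) ≤ 2 V1` or `N1 = 5`, `V1 ≥ 14`.  `(3,2)` symmetric.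

(C) The slices `k < k0 - 1` by downward induction with the invariant
  `N ≤ α + β` and [`N (N+1) ≤ 2 V`, or (`N = 5`, `V ≥ 14`, `α β ≥ 6`), or
  (`N = 4`, `V ≥ 8`, `p = q = 1`, `α = β = 2`, `k = k0 - 1`)].
  If there is no drop, `V` grows by `α β ≥ 4`: the invariant persists (`N = 4`: `V ≥ 12`, fine;
  `N = 5`: `V ≥ 20`, fine).  If there is a drop, `N` grows by one, still `N ≤ α + β`, and `V` by
  `α β ≥ α + β ≥ N` (as `α, β ≥ 2`), so the first alternative persists; from `N = 4, V ≥ 8` with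
  next slice `(2,2)` we get `N = 5`, `α β ≥ 6`, `V ≥ 14`; from `N = 5`, `V ≥ 14` we get
  `N = 6 ≤ α + β`, so `α β ≥ 8`, `V ≥ 22`, fine.

Checked by computer for `p, q ≤ 4`, `k0 ≤ 3`.
-/

namespace Pool.Agent.T3

open Finset

/-- legs as lists of slices, with the numbers of deep drops, of maximal elements, of elements -/
private inductive LL (p q : ℕ) : ℕ → ℕ → ℕ → ℕ → ℕ → ℕ → Prop
  | nil {a b da db N V : ℕ} (h1 : a = 0) (h2 : b = 0) (h3 : da = 0) (h4 : db = 0) (h5 : N = 0)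
      (h6 : V = 0) : LL p q a b da db N V
  | cons {a b da db N V a' b' da' db' N' V' : ℕ} (ha : 1 ≤ a) (hb : 1 ≤ b) (ha' : a' ≤ a)
      (hb' : b' ≤ b) (h : LL p q a' b' da' db' N' V')
      (h1 : da = (if a' < a ∧ p ≤ a' then 1 else 0) + da')
      (h2 : db = (if b' < b ∧ q ≤ b' then 1 else 0) + db')
      (h3 : N = el p q a b a' b' + N') (h4 : V = sz p q a b + V') : LL p q a b da db N V

private theorem LL.zero {p q a b da db N V : ℕ} (h : LL p q a b da db N V) : a = 0 ↔ b = 0 := by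
  cases h with
  | nil h1 h2 h3 h4 h5 h6 => simp [h1, h2]
  | cons ha hb ha' hb' h h1 h2 h3 h4 => constructor <;> intro h <;> omega

private theorem LL.zeroN {p q a b da db N V : ℕ} (h : LL p q a b da db N V) (h0 : a = 0) :
    N = 0 := by
  cases h with
  | nil h1 h2 h3 h4 h5 h6 => exact h5
  | cons ha hb ha' hb' h h1 h2 h3 h4 => omega

private theorem sz_pos {p q a b : ℕ} (hp : 1 ≤ p) (ha : 1 ≤ a) (hb : 1 ≤ b) :
    1 ≤ sz p q a b := by
  unfold sz
  split_ifs with h
  · obtain ⟨h1, h2⟩ := h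
    have h3 : p * (q + 1) ≤ p * b := Nat.mul_le_mul le_rfl h2
    have h4 : p * (q + 1) = p * q + p := by ring
    omega
  · exact Nat.mul_pos ha hb

private theorem el_le {p q a b a' b' : ℕ} : el p q a b a' b' ≤ 2 := by
  unfold el
  split_ifs <;> omega

private theorem el_le_one {p q a b a' b' : ℕ} (h : ¬ (p < a ∧ q < b)) :
    el p q a b a' b' ≤ 1 := by
  unfold el
  rw [if_neg h]
  split_ifs <;> omega

/-- volume bounds -/
private theorem LL.vol {p q a b da db N V : ℕ} (hp : 1 ≤ p) (h : LL p q a b da db N V)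
    (ha0 : 1 ≤ a) : sz p q a b ≤ V ∧ (N ≤ 2 ∨ sz p q a b + 1 ≤ V) ∧
      (¬ (p < a ∧ q < b) → N ≤ 1 ∨ sz p q a b + 1 ≤ V) := by
  cases h with
  | nil h1 h2 h3 h4 h5 h6 => omega
  | @cons _ _ _ _ _ _ a' b' da' db' N' V' ha hb ha' hb' h h1 h2 h3 h4 =>
    rcases Nat.eq_zero_or_pos a' with h0 | h0
    · have hN := h.zeroN h0
      refine ⟨by omega, Or.inl ?_, fun hn => Or.inl ?_⟩
      · have := @el_le p q a b a' b'
        omega
      · have := @el_le_one p q a b a' b' hn
        omega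
    · have hb0 : 1 ≤ b' := by
        rcases Nat.eq_zero_or_pos b' with h' | h'
        · have := h.zero.2 h'
          omega
        · exact h'
      have hs : 1 ≤ V' := by
        cases h with
        | nil e1 e2 e3 e4 e5 e6 => omega
        | @cons _ _ _ _ _ _ a'' b'' da'' db'' N'' V'' ka kb ka' kb' k k1 k2 k3 k4 =>
          have := @sz_pos p q a' b' hp h0 hb0
          omega
      refine ⟨by omega, Or.inr (by omega), fun _ => Or.inr (by omega)⟩

/-- (A1) -/
private theorem LL.bound {p q a b da db N V : ℕ} (hp : 1 ≤ p) (hq : 1 ≤ q)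
    (h : LL p q a b da db N V) : 1 ≤ a → N + 1 ≤ a + b := by
  induction h with
  | nil h1 h2 h3 h4 h5 h6 => intro h; omega
  | @cons a b da db N V a' b' da' db' N' V' ha hb ha' hb' h h1 h2 h3 h4 ih =>
    intro _
    have hz := h.zero
    rcases Nat.eq_zero_or_pos a' with h0 | h0
    · have hN := h.zeroN h0
      unfold el at h3
      split_ifs at h3 <;> omega
    · have := ih h0
      unfold el at h3
      split_ifs at h3 <;> omega

/-- state R, `p = q = 1` -/
private theorem LL.rr {p q a b da db N V : ℕ} (hp : p = 1) (hq : q = 1)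
    (h : LL p q a b da db N V) : 1 ≤ a → (a = 1 ∨ b = 1) → N ≤ 1 + da + db := by
  subst hp; subst hq
  induction h with
  | nil h1 h2 h3 h4 h5 h6 => intro h; omega
  | @cons a b da db N V a' b' da' db' N' V' ha hb ha' hb' h h1 h2 h3 h4 ih =>
    intro _ hab
    have hz := h.zero
    rcases Nat.eq_zero_or_pos a' with h0 | h0
    · have hN := h.zeroN h0
      unfold el at h3
      split_ifs at h3 <;> omega
    · have := ih h0 (by omega)
      unfold el at h3
      split_ifs at h1 h2 h3 <;> omega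

/-- state L, `p = q = 1`, first width 2 -/
private theorem LL.two {p q a b da db N V : ℕ} (hp : p = 1) (hq : q = 1)
    (h : LL p q a b da db N V) : a = 2 → 2 ≤ b → da ≤ 1 → N ≤ 2 + db := by
  subst hp; subst hq
  induction h with
  | nil h1 h2 h3 h4 h5 h6 => intro h; omega
  | @cons a b da db N V a' b' da' db' N' V' ha hb ha' hb' h h1 h2 h3 h4 ih =>
    intro ha2 hb2 hda
    have hz := h.zero
    rcases Nat.eq_zero_or_pos a' with h0 | h0
    · have hN := h.zeroN h0
      unfold el at h3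
      split_ifs at h3 <;> omega
    · rcases Nat.lt_or_ge a' 2 with h5 | h5
      · have := h.rr rfl rfl h0 (by omega)
        unfold el at h3
        split_ifs at h1 h2 h3 <;> omega
      · rcases Nat.lt_or_ge b' 2 with h6 | h6
        · have := h.rr rfl rfl h0 (by omega)
          unfold el at h3
          split_ifs at h1 h2 h3 <;> omega
        · have := ih (by omega) h6 (by split_ifs at h1 <;> omega)
          unfold el at h3
          split_ifs at h1 h2 h3 <;> omega

/-- state L, `p = q = 1`, second width 2 -/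
private theorem LL.two' {p q a b da db N V : ℕ} (hp : p = 1) (hq : q = 1)
    (h : LL p q a b da db N V) : b = 2 → 2 ≤ a → db ≤ 1 → N ≤ 2 + da := by
  subst hp; subst hq
  induction h with
  | nil h1 h2 h3 h4 h5 h6 => intro h; omega
  | @cons a b da db N V a' b' da' db' N' V' ha hb ha' hb' h h1 h2 h3 h4 ih =>
    intro ha2 hb2 hda
    have hz := h.zero
    rcases Nat.eq_zero_or_pos a' with h0 | h0
    · have hN := h.zeroN h0
      unfold el at h3
      split_ifs at h3 <;> omega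
    · rcases Nat.lt_or_ge b' 2 with h5 | h5
      · have := h.rr rfl rfl h0 (by omega)
        unfold el at h3
        split_ifs at h1 h2 h3 <;> omega
      · rcases Nat.lt_or_ge a' 2 with h6 | h6
        · have := h.rr rfl rfl h0 (by omega)
          unfold el at h3
          split_ifs at h1 h2 h3 <;> omega
        · have := ih (by omega) h6 (by split_ifs at h2 <;> omega)
          unfold el at h3
          split_ifs at h1 h2 h3 <;> omega

/-- (A5) -/
private theorem LL.a5 {da db N V : ℕ} (h : LL 1 2 2 3 da db N V) : N = 4 → 8 ≤ V := by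
  intro hN
  cases h with
  | nil h1 h2 h3 h4 h5 h6 => omega
  | @cons _ _ _ _ _ _ a' b' da' db' N' V' ha hb ha' hb' h h1 h2 h3 h4 =>
    have hz := h.zero
    rcases Nat.eq_zero_or_pos a' with h0 | h0
    · have hN' := h.zeroN h0
      have := @el_le 1 2 2 3 a' b'
      omega
    · have e1 := h.bound le_rfl (by norm_num) h0
      obtain ⟨e2, -, e3⟩ := h.vol le_rfl h0
      have hb0 : 1 ≤ b' := by omega
      clear ha hb h1 h2 h
      interval_cases a' <;> interval_cases b' <;> simp [el, sz] at h3 h4 e2 e3 <;> omega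

/-- (A5), swapped -/
private theorem LL.a5' {da db N V : ℕ} (h : LL 2 1 3 2 da db N V) : N = 4 → 8 ≤ V := by
  intro hN
  cases h with
  | nil h1 h2 h3 h4 h5 h6 => omega
  | @cons _ _ _ _ _ _ a' b' da' db' N' V' ha hb ha' hb' h h1 h2 h3 h4 =>
    have hz := h.zero
    rcases Nat.eq_zero_or_pos a' with h0 | h0
    · have hN' := h.zeroN h0
      have := @el_le 2 1 3 2 a' b'
      omega
    · have e1 := h.bound (by norm_num) le_rfl h0
      obtain ⟨e2, -, e3⟩ := h.vol (by norm_num) h0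
      have hb0 : 1 ≤ b' := by omega
      clear ha hb h1 h2 h
      interval_cases a' <;> interval_cases b' <;> simp [el, sz] at h3 h4 e2 e3 <;> omega

private theorem dd_fin {p k0 K : ℕ} (hp : 1 ≤ p) {α : ℕ → ℕ} (hα : Antitone α) (hK : α K = 0) :
    {k | k0 ≤ k + 1 ∧ α (k + 1) < α k ∧ p ≤ α (k + 1)}.Finite := by
  refine (Set.finite_lt_nat K).subset ?_
  rintro k ⟨-, -, h⟩
  show k < K
  by_contra hk
  have : α (k + 1) ≤ α K := hα (by omega)
  omega

private theorem dd_eq {p : ℕ} (α : ℕ → ℕ) :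
    dd p α = {k | 0 ≤ k + 1 ∧ α (k + 1) < α k ∧ p ≤ α (k + 1)}.ncard := by
  unfold dd
  congr 1
  ext k
  simp

private theorem dd_succ {p K : ℕ} (hp : 1 ≤ p) {α : ℕ → ℕ} (hα : Antitone α) (hK : α K = 0) :
    dd p α = (if α 1 < α 0 ∧ p ≤ α 1 then 1 else 0) + dd p (fun k => α (k + 1)) := by
  have hfin := @dd_fin p 0 (K) hp (fun k => α (k + 1)) (fun i j h => hα (by omega))
    (by have : α (K + 1) ≤ α K := hα (by omega)
        show α (K + 1) = 0
        omega)
  rw [dd_eq, dd_eq]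
  set S' := {k | 0 ≤ k + 1 ∧ (fun k => α (k + 1)) (k + 1) < (fun k => α (k + 1)) k ∧
    p ≤ (fun k => α (k + 1)) (k + 1)} with hS'
  have himg : (Nat.succ '' S').ncard = S'.ncard :=
    Set.ncard_image_of_injective _ Nat.succ_injective
  split_ifs with h
  · have : {k | 0 ≤ k + 1 ∧ α (k + 1) < α k ∧ p ≤ α (k + 1)} = insert 0 (Nat.succ '' S') := by
      ext k
      rcases k with _ | k
      · simp [h]
      · simp [hS']
    rw [this, Set.ncard_insert_of_notMem (by simp) (hfin.image _), himg, Nat.add_comm]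
  · have : {k | 0 ≤ k + 1 ∧ α (k + 1) < α k ∧ p ≤ α (k + 1)} = Nat.succ '' S' := by
      ext k
      rcases k with _ | k
      · simp only [Set.mem_ofPred_eq, Set.mem_image]
        constructor
        · rintro ⟨-, h1, h2⟩
          exact (h ⟨h1, h2⟩).elim
        · rintro ⟨x, -, hx⟩
          exact (Nat.succ_ne_zero x hx).elim
      · simp [hS']
    rw [this, himg, Nat.zero_add]

private theorem toLL {p q : ℕ} (hp : 1 ≤ p) (hq : 1 ≤ q) (K : ℕ) : ∀ (α β : ℕ → ℕ),
    Antitone α → Antitone β → (∀ k, α k = 0 ↔ β k = 0) → α K = 0 →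
    LL p q (α 0) (β 0) (dd p α) (dd q β)
      (∑ k ∈ range K, el p q (α k) (β k) (α (k + 1)) (β (k + 1)))
      (∑ k ∈ range K, sz p q (α k) (β k)) := by
  have nil : ∀ (K : ℕ) (α β : ℕ → ℕ), Antitone α → Antitone β → (∀ k, α k = 0 ↔ β k = 0) →
      α 0 = 0 → LL p q (α 0) (β 0) (dd p α) (dd q β)
      (∑ k ∈ range K, el p q (α k) (β k) (α (k + 1)) (β (k + 1)))
      (∑ k ∈ range K, sz p q (α k) (β k)) := by
    intro K α β hα hβ hz h0
    have h1 : ∀ k, α k = 0 := fun k => by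
      have := hα (Nat.zero_le k)
      omega
    have h2 : ∀ k, β k = 0 := fun k => (hz k).1 (h1 k)
    refine LL.nil h0 (h2 0) ?_ ?_ ?_ ?_
    · simp [dd, h1]
    · simp [dd, h2]
    · exact sum_eq_zero fun k _ => by simp [el, h1]
    · exact sum_eq_zero fun k _ => by simp [sz, h1]
  induction K with
  | zero =>
    intro α β hα hβ hz hK
    exact nil 0 α β hα hβ hz hK
  | succ K ih =>
    intro α β hα hβ hz hK
    rcases Nat.eq_zero_or_pos (α 0) with h0 | h0
    · exact nil _ α β hα hβ hz h0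
    · have hb0 : 1 ≤ β 0 := by
        rcases Nat.eq_zero_or_pos (β 0) with h | h
        · have := (hz 0).2 h
          omega
        · exact h
      have h := ih (fun k => α (k + 1)) (fun k => β (k + 1)) (fun i j h => hα (by omega))
        (fun i j h => hβ (by omega)) (fun k => hz (k + 1)) hK
      refine LL.cons h0 hb0 (hα (Nat.zero_le 1)) (hβ (Nat.zero_le 1)) h
        (dd_succ hp hα hK) (dd_succ hq hβ ((hz _).1 hK)) ?_ ?_
      · rw [sum_range_succ']
        exact Nat.add_comm _ _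
      · rw [sum_range_succ']
        exact Nat.add_comm _ _

/-- the number of maximal elements above, with the first slices full -/
private def NN (p q k0 : ℕ) (α β : ℕ → ℕ) (k : ℕ) : ℕ :=
  if k0 ≤ k then el p q (α k) (β k) (α (k + 1)) (β (k + 1))
  else if k0 = k + 1 then 1
  else if α (k + 1) < α k ∨ β (k + 1) < β k then 1 else 0

private def VV (p q k0 : ℕ) (α β : ℕ → ℕ) (k : ℕ) : ℕ :=
  if k0 ≤ k then sz p q (α k) (β k) else α k * β k

private theorem legB_base {p q K : ℕ} (hp : 1 ≤ p) (hq : 1 ≤ q) {α β : ℕ → ℕ}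
    (hα : Antitone α) (hβ : Antitone β) (h0 : ∀ k, α k = 0 ↔ β k = 0) (hK : α K = 0)
    (hge : ∀ k, k ≤ 1 → p < α k ∧ q < β k)
    (h1 : dd p α ≤ 1) (h2 : dd q β ≤ 1) :
    (∑ k ∈ range K, NN p q 1 α β k) ≤ α 0 + β 0 ∧
    ((∑ k ∈ range K, NN p q 1 α β k) * ((∑ k ∈ range K, NN p q 1 α β k) + 1) ≤
        2 * (∑ k ∈ range K, VV p q 1 α β k) ∨
      ((∑ k ∈ range K, NN p q 1 α β k) = 5 ∧ 14 ≤ (∑ k ∈ range K, VV p q 1 α β k) ∧
        6 ≤ α 0 * β 0) ∨
      ((∑ k ∈ range K, NN p q 1 α β k) = 4 ∧ 8 ≤ (∑ k ∈ range K, VV p q 1 α β k) ∧ p = 1 ∧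
        q = 1 ∧ α 0 = 2 ∧ β 0 = 2)) := by
  obtain ⟨g0a, g0b⟩ := hge 0 (by norm_num)
  obtain ⟨g1a, g1b⟩ := hge 1 le_rfl
  obtain ⟨K, rfl⟩ : ∃ K', K = K' + 1 := by
    rcases K with _ | K
    · omega
    · exact ⟨K, rfl⟩
  have eN : ∑ k ∈ range (K + 1), NN p q 1 α β k =
      (∑ k ∈ range K, el p q (α (k + 1)) (β (k + 1)) (α (k + 1 + 1)) (β (k + 1 + 1))) + 1 := by
    rw [sum_range_succ']
    congr 1
  have eV : ∑ k ∈ range (K + 1), VV p q 1 α β k =
      (∑ k ∈ range K, sz p q (α (k + 1)) (β (k + 1))) + α 0 * β 0 := by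
    rw [sum_range_succ']
    congr 1
  have hα' : Antitone (fun k => α (k + 1)) := fun i j h => hα (by omega)
  have hβ' : Antitone (fun k => β (k + 1)) := fun i j h => hβ (by omega)
  have d1 := dd_succ hp hα hK
  have d2 := dd_succ hq hβ ((h0 _).1 hK)
  have hL := toLL hp hq K (fun k => α (k + 1)) (fun k => β (k + 1)) hα' hβ'
    (fun k => h0 (k + 1)) hK
  obtain ⟨-, l2, -⟩ := leg (K := K) hp hq hα' hβ' (fun k => h0 (k + 1)) hK
    (by omega) (by omega) rfl rfl
  have m1 : α 1 ≤ α 0 := hα (Nat.zero_le 1)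
  have m2 : β 1 ≤ β 0 := hβ (Nat.zero_le 1)
  rw [eN, eV]
  have k1 : (fun k => α (k + 1)) 0 = α 1 := rfl
  have k2 : (fun k => β (k + 1)) 0 = β 1 := rfl
  set N3 := ∑ k ∈ range K, el p q (α (k + 1)) (β (k + 1)) (α (k + 1 + 1)) (β (k + 1 + 1))
    with hN3
  set V3 := ∑ k ∈ range K, sz p q (α (k + 1)) (β (k + 1)) with hV3
  have dα : dd p (fun k => α (k + 1)) ≤ 1 := by omega
  have dβ : dd q (fun k => β (k + 1)) ≤ 1 := by omega
  generalize dd p (fun k => α (k + 1)) = da at hL dα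
  generalize dd q (fun k => β (k + 1)) = db at hL dβ
  clear d1 d2 h1 h2 eN eV hα' hβ' hα hβ h0 hK hge
  generalize α 0 = a0 at *
  generalize β 0 = b0 at *
  rw [Nat.zero_add] at hL
  generalize α 1 = a1 at *
  generalize β 1 = b1 at *
  clear_value N3 V3
  have c1 : N3 + 1 ≤ a1 + b1 := hL.bound hp hq (by omega)
  obtain ⟨c2, c3, -⟩ := hL.vol hp (by omega)
  refine ⟨by omega, ?_⟩
  rcases Nat.lt_or_ge ((a0 - 1) * (b0 - 1)) 3 with hs | hs
  · have ha2 : a0 = 2 ∨ a0 = 3 := by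
      by_contra hne
      have : 3 * 1 ≤ (a0 - 1) * (b0 - 1) := Nat.mul_le_mul (by omega) (by omega)
      omega
    have hb2 : b0 = 2 ∨ b0 = 3 := by
      by_contra hne
      have : 1 * 3 ≤ (a0 - 1) * (b0 - 1) := Nat.mul_le_mul (by omega) (by omega)
      omega
    rcases ha2 with rfl | rfl <;> rcases hb2 with rfl | rfl
    · -- (2,2)
      obtain rfl : p = 1 := by omega
      obtain rfl : q = 1 := by omega
      obtain rfl : a1 = 2 := by omega
      obtain rfl : b1 = 2 := by omega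
      simp [sz] at c2 c3
      rcases Nat.lt_or_ge N3 3 with h3 | h3
      · left
        have : (N3 + 1) * (N3 + 1 + 1) ≤ 3 * 4 := Nat.mul_le_mul (by omega) (by omega)
        omega
      · right; right
        refine ⟨by omega, by omega, rfl, rfl, rfl, rfl⟩
    · -- (2,3)
      obtain rfl : p = 1 := by omega
      obtain rfl : a1 = 2 := by omega
      have hq2 : q = 1 ∨ q = 2 := by omega
      rcases hq2 with rfl | rfl
      · have t := hL.two rfl rfl rfl (by omega) dα
        have hb1 : b1 = 2 ∨ b1 = 3 := by omega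
        left
        rcases Nat.lt_or_ge N3 3 with h3 | h3
        · have : (N3 + 1) * (N3 + 1 + 1) ≤ 3 * 4 := Nat.mul_le_mul (by omega) (by omega)
          omega
        · have : (N3 + 1) * (N3 + 1 + 1) ≤ 4 * 5 := Nat.mul_le_mul (by omega) (by omega)
          rcases hb1 with rfl | rfl <;> simp [sz] at c2 c3 <;> omega
      · obtain rfl : b1 = 3 := by omega
        have t := hL.a5
        simp [sz] at c2 c3
        rcases Nat.lt_or_ge N3 3 with h3 | h3
        · left
          have : (N3 + 1) * (N3 + 1 + 1) ≤ 3 * 4 := Nat.mul_le_mul (by omega) (by omega)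
          omega
        · rcases Nat.lt_or_ge N3 4 with h4 | h4
          · left
            have : (N3 + 1) * (N3 + 1 + 1) ≤ 4 * 5 := Nat.mul_le_mul (by omega) (by omega)
            omega
          · right; left
            have := t (by omega)
            refine ⟨by omega, by omega, by norm_num⟩
    · -- (3,2)
      obtain rfl : q = 1 := by omega
      obtain rfl : b1 = 2 := by omega
      have hq2 : p = 1 ∨ p = 2 := by omega
      rcases hq2 with rfl | rfl
      · have t := hL.two' rfl rfl rfl (by omega) dβ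
        have hb1 : a1 = 2 ∨ a1 = 3 := by omega
        left
        rcases Nat.lt_or_ge N3 3 with h3 | h3
        · have : (N3 + 1) * (N3 + 1 + 1) ≤ 3 * 4 := Nat.mul_le_mul (by omega) (by omega)
          omega
        · have : (N3 + 1) * (N3 + 1 + 1) ≤ 4 * 5 := Nat.mul_le_mul (by omega) (by omega)
          rcases hb1 with rfl | rfl <;> simp [sz] at c2 c3 <;> omega
      · obtain rfl : a1 = 3 := by omega
        have t := hL.a5'
        simp [sz] at c2 c3
        rcases Nat.lt_or_ge N3 3 with h3 | h3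
        · left
          have : (N3 + 1) * (N3 + 1 + 1) ≤ 3 * 4 := Nat.mul_le_mul (by omega) (by omega)
          omega
        · rcases Nat.lt_or_ge N3 4 with h4 | h4
          · left
            have : (N3 + 1) * (N3 + 1 + 1) ≤ 4 * 5 := Nat.mul_le_mul (by omega) (by omega)
            omega
          · right; left
            have := t (by omega)
            refine ⟨by omega, by omega, by norm_num⟩
    · simp at hs
  · left
    obtain ⟨a, rfl⟩ : ∃ a, a0 = a + 1 := ⟨a0 - 1, by omega⟩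
    obtain ⟨b, rfl⟩ : ∃ b, b0 = b + 1 := ⟨b0 - 1, by omega⟩
    simp only [Nat.add_sub_cancel] at hs
    nlinarith [l2, hs, c1, m1, m2]

private theorem legB_aux {p q : ℕ} (hp : 1 ≤ p) (hq : 1 ≤ q) (k0 : ℕ) (hk0 : 1 ≤ k0) :
    ∀ (K : ℕ) (α β : ℕ → ℕ), Antitone α → Antitone β → (∀ k, α k = 0 ↔ β k = 0) → α K = 0 →
    (∀ k, k ≤ k0 → p < α k ∧ q < β k) →
    {k | k0 ≤ k + 1 ∧ α (k + 1) < α k ∧ p ≤ α (k + 1)}.ncard ≤ 1 →
    {k | k0 ≤ k + 1 ∧ β (k + 1) < β k ∧ q ≤ β (k + 1)}.ncard ≤ 1 →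
    (∑ k ∈ range K, NN p q k0 α β k) ≤ α 0 + β 0 ∧
    ((∑ k ∈ range K, NN p q k0 α β k) * ((∑ k ∈ range K, NN p q k0 α β k) + 1) ≤
        2 * (∑ k ∈ range K, VV p q k0 α β k) ∨
      ((∑ k ∈ range K, NN p q k0 α β k) = 5 ∧ 14 ≤ (∑ k ∈ range K, VV p q k0 α β k) ∧
        6 ≤ α 0 * β 0) ∨
      ((∑ k ∈ range K, NN p q k0 α β k) = 4 ∧ 8 ≤ (∑ k ∈ range K, VV p q k0 α β k) ∧ p = 1 ∧
        q = 1 ∧ k0 = 1 ∧ α 0 = 2 ∧ β 0 = 2)) := by
  induction k0, hk0 using Nat.le_induction with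
  | base =>
    intro K α β hα hβ h0 hK hge h1 h2
    have e1 : dd p α ≤ 1 := by
      rw [dd_eq]
      simpa using h1
    have e2 : dd q β ≤ 1 := by
      rw [dd_eq]
      simpa using h2
    obtain ⟨a1, a2⟩ := legB_base hp hq hα hβ h0 hK hge e1 e2
    refine ⟨a1, ?_⟩
    rcases a2 with a | a | ⟨a, b, c, d, e, f⟩
    · exact Or.inl a
    · exact Or.inr (Or.inl a)
    · exact Or.inr (Or.inr ⟨a, b, c, d, rfl, e, f⟩)
  | succ k0 hk0 ih =>
    intro K α β hα hβ h0 hK hge h1 h2
    obtain ⟨g0a, g0b⟩ := hge 0 (by omega)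
    obtain ⟨g1a, g1b⟩ := hge 1 (by omega)
    obtain ⟨K, rfl⟩ : ∃ K', K = K' + 1 := by
      rcases K with _ | K
      · omega
      · exact ⟨K, rfl⟩
    have hα' : Antitone (fun k => α (k + 1)) := fun i j h => hα (by omega)
    have hβ' : Antitone (fun k => β (k + 1)) := fun i j h => hβ (by omega)
    have e1 : {k | k0 ≤ k + 1 ∧ (fun k => α (k + 1)) (k + 1) < (fun k => α (k + 1)) k ∧
        p ≤ (fun k => α (k + 1)) (k + 1)}.ncard ≤ 1 := by
      refine le_trans ?_ h1
      rw [← Set.ncard_image_of_injective _ Nat.succ_injective]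
      refine Set.ncard_le_ncard ?_ (dd_fin hp hα hK)
      rintro _ ⟨k, ⟨u1, u2, u3⟩, rfl⟩
      exact ⟨by show k0 + 1 ≤ k + 1 + 1; omega, u2, u3⟩
    have e2 : {k | k0 ≤ k + 1 ∧ (fun k => β (k + 1)) (k + 1) < (fun k => β (k + 1)) k ∧
        q ≤ (fun k => β (k + 1)) (k + 1)}.ncard ≤ 1 := by
      refine le_trans ?_ h2
      rw [← Set.ncard_image_of_injective _ Nat.succ_injective]
      refine Set.ncard_le_ncard ?_ (dd_fin hq hβ ((h0 _).1 hK))
      rintro _ ⟨k, ⟨u1, u2, u3⟩, rfl⟩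
      exact ⟨by show k0 + 1 ≤ k + 1 + 1; omega, u2, u3⟩
    obtain ⟨i1, i2⟩ := ih K (fun k => α (k + 1)) (fun k => β (k + 1)) hα' hβ'
      (fun k => h0 (k + 1)) hK (fun k hk => hge (k + 1) (by omega)) e1 e2
    have eN : ∑ k ∈ range (K + 1), NN p q (k0 + 1) α β k =
        (∑ k ∈ range K, NN p q k0 (fun k => α (k + 1)) (fun k => β (k + 1)) k) +
        (if α 1 < α 0 ∨ β 1 < β 0 then 1 else 0) := by
      rw [sum_range_succ']
      congr 1
      · refine sum_congr rfl fun k _ => ?_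
        unfold NN
        simp only [Nat.add_le_add_iff_right, Nat.add_right_cancel_iff]
      · unfold NN
        rw [if_neg (by omega), if_neg (by omega)]
    have eV : ∑ k ∈ range (K + 1), VV p q (k0 + 1) α β k =
        (∑ k ∈ range K, VV p q k0 (fun k => α (k + 1)) (fun k => β (k + 1)) k) +
        α 0 * β 0 := by
      rw [sum_range_succ']
      congr 1
      · refine sum_congr rfl fun k _ => ?_
        unfold VV
        simp only [Nat.add_le_add_iff_right]
    rw [eN, eV]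
    have m1 : α 1 ≤ α 0 := hα (Nat.zero_le 1)
    have m2 : β 1 ≤ β 0 := hβ (Nat.zero_le 1)
    simp only [Nat.zero_add] at i1 i2
    generalize (∑ k ∈ range K, NN p q k0 (fun k => α (k + 1)) (fun k => β (k + 1)) k) = N at *
    generalize (∑ k ∈ range K, VV p q k0 (fun k => α (k + 1)) (fun k => β (k + 1)) k) = V at *
    clear eN eV e1 e2 ih hα hβ hα' hβ' h0 hK hge h1 h2
    generalize α 0 = a0 at *
    generalize β 0 = b0 at *
    generalize α 1 = a1 at *
    generalize β 1 = b1 at *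
    have w0 : a1 * b1 ≤ a0 * b0 := Nat.mul_le_mul m1 m2
    have w1 : 2 * 2 ≤ a0 * b0 := Nat.mul_le_mul (by omega) (by omega)
    have w2 : a0 + b0 ≤ a0 * b0 := by nlinarith
    split_ifs with hd
    · refine ⟨by omega, ?_⟩
      rcases i2 with i | ⟨i, j, l⟩ | ⟨i, j, l, l2, l3, l4, l5⟩
      · left
        have e : (N + 1) * (N + 1 + 1) = N * (N + 1) + 2 * (N + 1) := by ring
        have e2 : N + 1 ≤ a0 + b0 := by omega
        rw [e]
        omega
      · left
        subst i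
        have : 8 ≤ a0 * b0 := by
          have : 6 ≤ a0 + b0 := by omega
          obtain ⟨a, rfl⟩ : ∃ a, a0 = a + 2 := ⟨a0 - 2, by omega⟩
          obtain ⟨b, rfl⟩ : ∃ b, b0 = b + 2 := ⟨b0 - 2, by omega⟩
          nlinarith [Nat.zero_le (a * b)]
        omega
      · right; left
        subst l4; subst l5
        have : 6 ≤ a0 * b0 := by
          have h5 : 5 ≤ a0 + b0 := by omega
          obtain ⟨a, rfl⟩ : ∃ a, a0 = a + 2 := ⟨a0 - 2, by omega⟩
          obtain ⟨b, rfl⟩ : ∃ b, b0 = b + 2 := ⟨b0 - 2, by omega⟩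
          nlinarith [Nat.zero_le (a * b)]
        refine ⟨by omega, by omega, this⟩
    · obtain rfl : a1 = a0 := by omega
      obtain rfl : b1 = b0 := by omega
      refine ⟨by omega, ?_⟩
      rcases i2 with i | ⟨i, j, l⟩ | ⟨i, j, l, l2, l3, l4, l5⟩
      · left
        have : 0 ≤ a1 * b1 := Nat.zero_le _
        rw [Nat.add_zero]
        omega
      · left
        subst i
        omega
      · left
        subst i
        omega

theorem legB {p q K k0 : ℕ} (hp : 1 ≤ p) (hq : 1 ≤ q) (hk0 : 1 ≤ k0) {α β : ℕ → ℕ}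
    (hα : Antitone α) (hβ : Antitone β) (h0 : ∀ k, α k = 0 ↔ β k = 0) (hK : α K = 0)
    (hge : ∀ k, k ≤ k0 → p < α k ∧ q < β k)
    (h1 : {k | k0 ≤ k + 1 ∧ α (k + 1) < α k ∧ p ≤ α (k + 1)}.ncard ≤ 1)
    (h2 : {k | k0 ≤ k + 1 ∧ β (k + 1) < β k ∧ q ≤ β (k + 1)}.ncard ≤ 1) {N V : ℕ}
    (hN : N = ∑ k ∈ range K,
      (if k0 ≤ k then el p q (α k) (β k) (α (k + 1)) (β (k + 1))
       else if k0 = k + 1 then 1
       else if α (k + 1) < α k ∨ β (k + 1) < β k then 1 else 0))
    (hV : V = ∑ k ∈ range K, (if k0 ≤ k then sz p q (α k) (β k) else α k * β k)) :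
    N ≤ α 0 + β 0 ∧
    (N * (N + 1) ≤ 2 * V ∨ (N = 5 ∧ 14 ≤ V) ∨
      (N = 4 ∧ 8 ≤ V ∧ p = 1 ∧ q = 1 ∧ k0 = 1 ∧ α 0 = 2 ∧ β 0 = 2)) := by
  have h := legB_aux hp hq k0 hk0 K α β hα hβ h0 hK hge h1 h2
  have eN : ∑ k ∈ range K, NN p q k0 α β k = N := by
    rw [hN]
    rfl
  have eV : ∑ k ∈ range K, VV p q k0 α β k = V := by
    rw [hV]
    rfl
  rw [eN, eV] at h
  obtain ⟨a, b⟩ := h
  refine ⟨a, ?_⟩
  rcases b with b | ⟨b, c, -⟩ | b
  · exact Or.inl b
  · exact Or.inr (Or.inl ⟨b, c⟩)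
  · exact Or.inr (Or.inr b)

end Pool.Agent.T3
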