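import Pool.Agent.T3.Defs

/-!
# Counting elements and maximal elements by slices

The part `{x ≥ x0}` of `P` has slices (at `x = x0 + k`) the rectangle `y < β k, z < γ k`, from
which, for `k ≥ k0`, the points with `y ≥ p` and `z ≥ q` are removed.

Number of elements: a rectangle has `β γ` elements; for `k ≥ k0`, `p < β`, `q < γ` the slice has
`β γ - (β - p) (γ - q) = p γ + q β - p q` elements (for `k ≥ k0` and `β ≤ p` or `γ ≤ q` nothing is
removed).

Maximal elements in slice `k` (an element is maximal in `P` iff it is maximal in its slice and is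
not in the next slice):
* rectangle slices: only `(β-1, γ-1)` can be maximal; if `k + 1 ≠ k0` it is in the next slice iff
  `β - 1 < β'` and `γ - 1 < γ'` (also if `k0 ≤ k + 1`: here `k0 ≤ k`, the slice being a rectangle
  means `β ≤ p` or `γ ≤ q`, so the point is not in the removed region). For `k + 1 = k0` use the
  bound `1`.
* `k ≥ k0`, `p < β`, `q < γ`: only `(β-1, q-1)` and `(p-1, γ-1)` can be maximal. The first is in the
  next slice iff `β - 1 < β'` and `q - 1 < γ'`; so it is maximal only if `β' < β` or `γ' < q`.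
  The second is maximal only if `γ' < γ` or `β' < p`.
* the empty slice has no elements.
-/

namespace Pool.Agent.T3

open Finset

theorem cnt_eq_sum {Q : ℕ → ℕ → ℕ → Prop} {x0 K : ℕ} {β γ : ℕ → ℕ}
    (h : ∀ k y z, Q (x0 + k) y z → y < β k ∧ z < γ k)
    (hK : ∀ k, K ≤ k → β k = 0 ∨ γ k = 0) (c : ℕ → ℕ)
    (hc : ∀ k, k < K → {v : ℕ × ℕ | Q (x0 + k) v.1 v.2}.ncard = c k) :
    cnt Q x0 = ∑ k ∈ range K, c k := by
  classical
  have key : {v : ℕ × ℕ × ℕ | Q v.1 v.2.1 v.2.2 ∧ x0 ≤ v.1} =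
      ((((range K).sigma (fun k => ((range (β k)) ×ˢ (range (γ k))).filter
        (fun v => Q (x0 + k) v.1 v.2))).image
          (fun s : (Σ _ : ℕ, ℕ × ℕ) => ((x0 + s.1, s.2) : ℕ × ℕ × ℕ)) :
            Finset (ℕ × ℕ × ℕ)) : Set (ℕ × ℕ × ℕ)) := by
    ext v
    rcases v with ⟨x, y, z⟩
    simp only [Finset.coe_image, Set.mem_image, Finset.mem_coe, Finset.mem_sigma, mem_range,
      mem_filter, mem_product]
    constructor
    · rintro ⟨h1, h2⟩
      obtain ⟨k, rfl⟩ : ∃ k, x = x0 + k := ⟨x - x0, by simp only at h2; omega⟩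
      have h3 := h k y z h1
      refine ⟨⟨k, (y, z)⟩, ⟨?_, ⟨h3.1, h3.2⟩, h1⟩, rfl⟩
      by_contra hk
      rcases hK k (not_lt.1 hk) with h4 | h4 <;> omega
    · rintro ⟨⟨k, y', z'⟩, ⟨h1, ⟨h2, h3⟩, h4⟩, h5⟩
      simp only [Prod.mk.injEq] at h5
      obtain ⟨rfl, rfl, rfl⟩ := h5
      exact ⟨h4, Nat.le_add_right _ _⟩
  unfold cnt
  rw [key, Set.ncard_coe_finset, card_image_of_injective, card_sigma]
  · refine sum_congr rfl fun k hk => ?_
    rw [← hc k (mem_range.1 hk), ← Set.ncard_coe_finset]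
    congr 1
    ext v
    simp only [coe_filter, mem_product, mem_range]
    constructor
    · rintro ⟨_, h2⟩
      exact h2
    · intro h2
      exact ⟨h k v.1 v.2 h2, h2⟩
  · rintro ⟨k, v⟩ ⟨k', v'⟩ he
    simp only [Prod.mk.injEq] at he
    obtain ⟨h1, h2⟩ := he
    have h3 : k = k' := by omega
    subst h3
    subst h2
    rfl

theorem card_rect_sub (p q b g : ℕ) :
    {v : ℕ × ℕ | v.1 < b ∧ v.2 < g ∧ ¬ (p ≤ v.1 ∧ q ≤ v.2)}.ncard = sz p q b g := by
  classical
  have key : {v : ℕ × ℕ | v.1 < b ∧ v.2 < g ∧ ¬ (p ≤ v.1 ∧ q ≤ v.2)} =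
      (((range b ×ˢ range g) \ (Ico p b ×ˢ Ico q g) : Finset (ℕ × ℕ)) : Set (ℕ × ℕ)) := by
    ext v
    simp only [coe_sdiff, coe_product, Set.mem_sdiff, Set.mem_prod, mem_coe, mem_range, mem_Ico]
    constructor
    · rintro ⟨h1, h2, h3⟩
      exact ⟨⟨h1, h2⟩, fun h4 => h3 ⟨h4.1.1, h4.2.1⟩⟩
    · rintro ⟨⟨h1, h2⟩, h3⟩
      exact ⟨h1, h2, fun h4 => h3 ⟨⟨h4.1, h1⟩, ⟨h4.2, h2⟩⟩⟩
  rw [key, Set.ncard_coe_finset, card_sdiff_of_subset, card_product, card_product, card_range,
    card_range, Nat.card_Ico, Nat.card_Ico]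
  · unfold sz
    split_ifs with h
    · obtain ⟨h1, h2⟩ := h
      obtain ⟨a, rfl⟩ := Nat.exists_eq_add_of_lt h1
      obtain ⟨c, rfl⟩ := Nat.exists_eq_add_of_lt h2
      have e1 : p + a + 1 - p = a + 1 := by omega
      have e2 : q + c + 1 - q = c + 1 := by omega
      rw [e1, e2]
      have e3 : (p + a + 1) * (q + c + 1) =
          (p * q + p * (c + 1) + q * (a + 1)) + (a + 1) * (c + 1) := by ring
      have e4 : p * (q + c + 1) + q * (p + a + 1) =
          (p * q + p * (c + 1) + q * (a + 1)) + p * q := by ring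
      rw [e3, e4, Nat.add_sub_cancel, Nat.add_sub_cancel]
    · have h' : b - p = 0 ∨ g - q = 0 := by
        by_contra hh
        apply h
        constructor <;> omega
      rcases h' with h' | h' <;> simp [h']
  · intro v hv
    simp only [mem_product, mem_range, mem_Ico] at hv ⊢
    exact ⟨hv.1.2, hv.2.2⟩

theorem cnt_slices {P : ℕ → ℕ → ℕ → Prop} {p q x0 k0 K : ℕ} {β γ : ℕ → ℕ}
    (hs : ∀ k y z, P (x0 + k) y z ↔ y < β k ∧ z < γ k ∧ ¬ (k0 ≤ k ∧ p ≤ y ∧ q ≤ z))
    (hK : ∀ k, K ≤ k → β k = 0 ∨ γ k = 0) :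
    cnt P x0 = ∑ k ∈ range K, (if k0 ≤ k then sz p q (β k) (γ k) else β k * γ k) := by
  refine cnt_eq_sum (β := β) (γ := γ) (fun k y z h => ?_) hK _ (fun k _ => ?_)
  · have h2 := (hs k y z).1 h
    exact ⟨h2.1, h2.2.1⟩
  · split_ifs with h0
    · rw [← card_rect_sub]
      congr 1
      ext v
      simp only [Set.mem_ofPred_eq]
      rw [hs]
      simp only [h0, true_and]
    · have : {v : ℕ × ℕ | P (x0 + k) v.1 v.2} =
          ((range (β k) ×ˢ range (γ k) : Finset (ℕ × ℕ)) : Set (ℕ × ℕ)) := by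
        ext v
        simp only [Set.mem_ofPred_eq, coe_product, Set.mem_prod, mem_coe, mem_range]
        rw [hs]
        simp only [h0, false_and, not_false_eq_true, and_true]
      rw [this, Set.ncard_coe_finset, card_product, card_range, card_range]

theorem ncard_le_two {s : Set (ℕ × ℕ)} {u v : ℕ × ℕ} {c d : Prop} [Decidable c] [Decidable d]
    (h : ∀ w ∈ s, (w = u ∧ c) ∨ (w = v ∧ d)) :
    s.ncard ≤ (if c then 1 else 0) + (if d then 1 else 0) := by
  classical
  have hsub : s ⊆ (((if c then {u} else ∅) ∪ (if d then {v} else ∅) : Finset (ℕ × ℕ)) :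
      Set (ℕ × ℕ)) := by
    intro w hw
    rcases h w hw with ⟨h1, h2⟩ | ⟨h1, h2⟩
    · simp [h1, h2]
    · simp [h1, h2]
  refine (Set.ncard_le_ncard hsub (Finset.finite_toSet _)).trans ?_
  rw [Set.ncard_coe_finset]
  refine (card_union_le _ _).trans ?_
  split_ifs <;> simp

theorem ncard_le_one' {s : Set (ℕ × ℕ)} {u : ℕ × ℕ} {c : Prop} [Decidable c]
    (h : ∀ w ∈ s, w = u ∧ c) :
    s.ncard ≤ (if c then 1 else 0) := by
  have := ncard_le_two (s := s) (u := u) (v := u) (c := c) (d := False)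
    (fun w hw => Or.inl (h w hw))
  simpa using this

theorem cntMx_slices {P : ℕ → ℕ → ℕ → Prop} {p q x0 k0 K : ℕ} {β γ : ℕ → ℕ}
    (hp : 1 ≤ p) (hq : 1 ≤ q)
    (hs : ∀ k y z, P (x0 + k) y z ↔ y < β k ∧ z < γ k ∧ ¬ (k0 ≤ k ∧ p ≤ y ∧ q ≤ z))
    (hK : ∀ k, K ≤ k → β k = 0 ∨ γ k = 0) :
    cnt (Mx P) x0 ≤ ∑ k ∈ range K,
      (if k0 ≤ k then el p q (β k) (γ k) (β (k + 1)) (γ (k + 1))
       else if k0 = k + 1 then 1
       else if β (k + 1) < β k ∨ γ (k + 1) < γ k then 1 else 0) := by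
  rw [cnt_eq_sum (Q := Mx P) (β := β) (γ := γ) (fun k y z h => ?_) hK
    (fun k => {v : ℕ × ℕ | Mx P (x0 + k) v.1 v.2}.ncard) (fun k _ => rfl)]
  · refine sum_le_sum fun k _ => ?_
    have hmx : ∀ v : ℕ × ℕ, v ∈ {v : ℕ × ℕ | Mx P (x0 + k) v.1 v.2} →
        (v.1 < β k ∧ v.2 < γ k ∧ ¬ (k0 ≤ k ∧ p ≤ v.1 ∧ q ≤ v.2)) ∧
        ¬ (v.1 < β (k + 1) ∧ v.2 < γ (k + 1) ∧ ¬ (k0 ≤ k + 1 ∧ p ≤ v.1 ∧ q ≤ v.2)) ∧
        ¬ (v.1 + 1 < β k ∧ v.2 < γ k ∧ ¬ (k0 ≤ k ∧ p ≤ v.1 + 1 ∧ q ≤ v.2)) ∧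
        ¬ (v.1 < β k ∧ v.2 + 1 < γ k ∧ ¬ (k0 ≤ k ∧ p ≤ v.1 ∧ q ≤ v.2 + 1)) := by
      intro v hv
      obtain ⟨h1, h2, h3, h4⟩ := hv
      rw [hs] at h1 h3 h4
      rw [add_assoc, hs] at h2
      exact ⟨h1, h2, h3, h4⟩
    by_cases h0 : k0 ≤ k
    · rw [if_pos h0]
      unfold el
      by_cases hz : β k = 0 ∨ γ k = 0
      · rw [if_pos hz]
        have : {v : ℕ × ℕ | Mx P (x0 + k) v.1 v.2} = ∅ := by
          apply Set.eq_empty_of_forall_notMem
          intro v hv
          have := (hmx v hv).1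
          omega
        rw [this, Set.ncard_empty]
      · rw [if_neg hz]
        push Not at hz
        by_cases hpq : p < β k ∧ q < γ k
        · rw [if_pos hpq]
          refine ncard_le_two (u := (β k - 1, q - 1)) (v := (p - 1, γ k - 1)) fun v hv => ?_
          rcases v with ⟨y, z⟩
          have h := hmx _ hv
          simp only at h
          simp only [Prod.mk.injEq]
          by_cases hzq : z < q
          · left
            refine ⟨⟨by omega, by omega⟩, by omega⟩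
          · right
            refine ⟨⟨by omega, by omega⟩, by omega⟩
        · rw [if_neg hpq]
          refine ncard_le_one' (u := (β k - 1, γ k - 1)) fun v hv => ?_
          rcases v with ⟨y, z⟩
          have h := hmx _ hv
          simp only at h
          simp only [Prod.mk.injEq]
          refine ⟨⟨by omega, by omega⟩, by omega⟩
    · rw [if_neg h0]
      by_cases h1 : k0 = k + 1
      · rw [if_pos h1]
        have := ncard_le_one' (s := {v : ℕ × ℕ | Mx P (x0 + k) v.1 v.2})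
          (u := (β k - 1, γ k - 1)) (c := True) fun v hv => by
            rcases v with ⟨y, z⟩
            have h := hmx _ hv
            simp only at h
            simp only [Prod.mk.injEq]
            exact ⟨⟨by omega, by omega⟩, trivial⟩
        simpa using this
      · rw [if_neg h1]
        refine ncard_le_one' (u := (β k - 1, γ k - 1)) fun v hv => ?_
        rcases v with ⟨y, z⟩
        have h := hmx _ hv
        simp only at h
        simp only [Prod.mk.injEq]
        refine ⟨⟨by omega, by omega⟩, by omega⟩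
  · have h2 := (hs k y z).1 h.1
    exact ⟨h2.1, h2.2.1⟩

end Pool.Agent.T3
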