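import Pool.Agent.T3.Wd
import Pool.Agent.T3.Sym
import Pool.Agent.T3.Slice
import Pool.Agent.T3.LegB
import Pool.Agent.T3.Plane

/-!
# The Z-leg in case I-b

`P` of type `CylF`, center `(a,b,c)`, `f1 ≤ a`, `f2 ≤ b`, `c + 2 ≤ f3`.  Work with `Q = rt P`,
`Q x y z = P y z x` (`CylF Q f3 f1 f2`, `Ctr Q c a b`).  Put `α k = ye Q (c+1+k)` (x-extent of `P` at
height `c+1+k`), `β k = ze Q (c+1+k)` (y-extent), `k0 = f3 - (c+1) ≥ 1`.

*Slices*: `Q (c+1+k) y z ↔ y < α k ∧ z < β k ∧ ¬ (k0 ≤ k ∧ f1 ≤ y ∧ f2 ≤ z)`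
(`y ≤ a`, `z ≤ b` by `Ctr.nac`, `Ctr.nbc`, so `P y z 0` by `Ctr.ab`; `k0 ≤ k ↔ f3 ≤ c+1+k`).

*For `k ≤ k0`*: `P f1 0 f3` and `P 0 f2 f3` (`below`), so `f1 < α k`, `f2 < β k`.

*Deep drops.*  If `k0 ≤ k+1`, `α (k+1) < α k`, `f1 ≤ α (k+1)`, then `(c+2+k, α (k+1))` is a
generator of `Q` (`c+2+k ≥ f3`).  Two of them, `k < k'`, contradict `plane_gens` for `Q` (needs
`f2 ≤ b+1`), which gives `a + 1 ≤ α (k+1)`, whereas `α (k+1) < α k ≤ a+1`.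
For `β` use `rt (sw P)` (`rt (sw P) x y z = P z y x`, `CylF _ f3 f2 f1`, `Ctr _ c b a`,
`ye (rt (sw P)) x = ze (rt P) x` by `rfl`).

*Conclusion*: `α 0 ≤ a+1`, `β 0 ≤ b+1`, not both equal (`Ctr.mz`), so `α 0 + β 0 ≤ a+b+1`;
`α 0 ≥ f1 + 1 ≥ 2`, `β 0 ≥ 2`, hence `3 ≤ a + b`.
`legB` for the sums `N`, `V` of `cntMx_slices`, `cnt_slices`; `n ≤ N`; if `n < N` and `N = 5`,
`V ≥ 14` (or `N = 4`, `V ≥ 8`), then `n (n+1) ≤ 2 V`.
-/

namespace Pool.Agent.T3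

private theorem zlegB_ub {P : ℕ → ℕ → ℕ → Prop} {f1 f2 f3 a b c : ℕ} (h : CylF P f1 f2 f3)
    (hc : Ctr P a b c) (k : ℕ) : ye (rt P) (c + 1 + k) ≤ a + 1 := by
  have hQ := h.rt
  by_contra hlt
  push Not at hlt
  have h1 : rt P (c + 1 + k) (a + 1) 0 := (ye_iff hQ.down hQ.fin _ _).mpr hlt
  have h2 : P (a + 1) 0 (c + 1 + k) := h1
  exact hc.nac (h.down _ _ _ _ _ _ le_rfl le_rfl (by omega) h2)

private theorem zlegB_drop {P : ℕ → ℕ → ℕ → Prop} {f1 f2 f3 a b c : ℕ} (h : CylF P f1 f2 f3)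
    (hc : Ctr P a b c) (h2 : f2 ≤ b) :
    {k | f3 - (c + 1) ≤ k + 1 ∧ ye (rt P) (c + 1 + (k + 1)) < ye (rt P) (c + 1 + k) ∧
      f1 ≤ ye (rt P) (c + 1 + (k + 1))}.ncard ≤ 1 := by
  have hQ := h.rt
  have hcQ := hc.rt
  have hanti := ye_anti hQ.down hQ.fin (c + 1)
  obtain ⟨K, hK⟩ := exists_K hQ.down hQ.fin (c + 1)
  have hfin : {k | f3 - (c + 1) ≤ k + 1 ∧ ye (rt P) (c + 1 + (k + 1)) < ye (rt P) (c + 1 + k) ∧
      f1 ≤ ye (rt P) (c + 1 + (k + 1))}.Finite := by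
    refine (Set.finite_lt_nat K).subset ?_
    rintro k ⟨-, hk, -⟩
    show k < K
    by_contra hge
    push Not at hge
    have := (hK k hge).1
    omega
  have key : ∀ k k', f3 - (c + 1) ≤ k + 1 →
      ye (rt P) (c + 1 + (k + 1)) < ye (rt P) (c + 1 + k) →
      f1 ≤ ye (rt P) (c + 1 + (k + 1)) →
      ye (rt P) (c + 1 + (k' + 1)) < ye (rt P) (c + 1 + k') →
      f1 ≤ ye (rt P) (c + 1 + (k' + 1)) → k < k' → False := by
    intro k k' e1 e2 e3 e4 e5 hlt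
    have hf1 := h.p1
    have gen : ∀ l, ye (rt P) (c + 1 + (l + 1)) < ye (rt P) (c + 1 + l) →
        f1 ≤ ye (rt P) (c + 1 + (l + 1)) →
        Gen (rt P) (c + 1 + (l + 1)) (ye (rt P) (c + 1 + (l + 1))) := by
      intro l u1 u2
      refine ⟨by omega, by omega, ?_, ?_, ?_⟩
      · rw [ye_iff hQ.down hQ.fin]
        exact lt_irrefl _
      · have e : c + 1 + (l + 1) - 1 = c + 1 + l := by omega
        have v : rt P (c + 1 + l) (ye (rt P) (c + 1 + (l + 1))) 0 :=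
          (ye_iff hQ.down hQ.fin _ _).mpr u1
        rw [e]
        exact v
      · rw [ye_iff hQ.down hQ.fin]
        omega
    have a1 : ye (rt P) (c + 1 + k') ≤ ye (rt P) (c + 1 + (k + 1)) :=
      hanti (show k + 1 ≤ k' by omega)
    have hpg := plane_gens hQ hcQ (by omega : f2 ≤ b + 1)
      (i := c + 1 + (k + 1)) (j := ye (rt P) (c + 1 + (k + 1)))
      (i' := c + 1 + (k' + 1)) (j' := ye (rt P) (c + 1 + (k' + 1)))
      (by omega) e5 (by omega) (by omega) (gen k e2 e3) (gen k' e4 e5)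
    have hub := zlegB_ub h hc k
    omega
  rw [Set.ncard_le_one hfin]
  rintro k ⟨e1, e2, e3⟩ k' ⟨e1', e2', e3'⟩
  rcases lt_trichotomy k k' with hlt | heq | hlt
  · exact (key k k' e1 e2 e3 e2' e3' hlt).elim
  · exact heq
  · exact (key k' k e1' e2' e3' e2 e3 hlt).elim

theorem zlegB {P : ℕ → ℕ → ℕ → Prop} {f1 f2 f3 a b c : ℕ} (h : CylF P f1 f2 f3)
    (hc : Ctr P a b c) (h1 : f1 ≤ a) (h2 : f2 ≤ b) (h3 : c + 2 ≤ f3) {n V : ℕ}
    (hn : n = cnt (Mx (rt P)) (c + 1)) (hV : V = cnt (rt P) (c + 1)) :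
    3 ≤ a + b ∧ n ≤ a + b + 1 ∧
    (n * (n + 1) ≤ 2 * V ∨ (n = 5 ∧ 14 ≤ V) ∨
      (n = 4 ∧ 8 ≤ V ∧ f1 = 1 ∧ f2 = 1 ∧ c + 2 = f3)) := by
  have hQ := h.rt
  have hsw := h.sw
  have hcsw := hc.sw
  have hf1 := h.p1
  have hf2 := h.p2
  obtain ⟨α, hα⟩ : ∃ α : ℕ → ℕ, α = fun k => ye (rt P) (c + 1 + k) := ⟨_, rfl⟩
  obtain ⟨β, hβ⟩ : ∃ β : ℕ → ℕ, β = fun k => ze (rt P) (c + 1 + k) := ⟨_, rfl⟩
  have hβ' : β = fun k => ye (rt (sw P)) (c + 1 + k) := hβ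
  have hαi : ∀ k y, P y 0 (c + 1 + k) ↔ y < α k := by
    intro k y
    rw [hα]
    exact ye_iff hQ.down hQ.fin (c + 1 + k) y
  have hβi : ∀ k z, P 0 z (c + 1 + k) ↔ z < β k := by
    intro k z
    rw [hβ]
    exact ze_iff hQ.down hQ.fin (c + 1 + k) z
  have hαu : ∀ k, α k ≤ a + 1 := by
    intro k
    rw [hα]
    exact zlegB_ub h hc k
  have hβu : ∀ k, β k ≤ b + 1 := by
    intro k
    rw [hβ']
    exact zlegB_ub hsw hcsw k
  obtain ⟨k0, hk0⟩ : ∃ k0 : ℕ, k0 = f3 - (c + 1) := ⟨_, rfl⟩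
  have hαa : Antitone α := by
    rw [hα]
    exact ye_anti hQ.down hQ.fin (c + 1)
  have hβa : Antitone β := by
    rw [hβ]
    exact ze_anti hQ.down hQ.fin (c + 1)
  have hz : ∀ k, α k = 0 ↔ β k = 0 := by
    intro k
    rw [hα, hβ]
    exact ye_zero hQ.down hQ.fin (c + 1 + k)
  obtain ⟨K, hK⟩ := exists_K hQ.down hQ.fin (c + 1)
  have hKα : ∀ k, K ≤ k → α k = 0 := by
    intro k hk
    rw [hα]
    exact (hK k hk).1
  have hs : ∀ k y z, rt P (c + 1 + k) y z ↔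
      y < α k ∧ z < β k ∧ ¬ (k0 ≤ k ∧ f1 ≤ y ∧ f2 ≤ z) := by
    intro k y z
    constructor
    · intro hP
      have hP' : P y z (c + 1 + k) := hP
      refine ⟨(hαi k y).mp (h.down _ _ _ _ _ _ le_rfl (Nat.zero_le _) le_rfl hP'),
        (hβi k z).mp (h.down _ _ _ _ _ _ (Nat.zero_le _) le_rfl le_rfl hP'), ?_⟩
      rintro ⟨u1, u2, u3⟩
      exact h.notF (h.down _ _ _ _ _ _ u2 u3 (by omega) hP')
    · rintro ⟨u1, u2, u3⟩
      have v1 := (hαi k y).mpr u1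
      have v2 := (hβi k z).mpr u2
      have w1 := hαu k
      have w2 := hβu k
      have v3 : P y z 0 := h.down _ _ _ _ _ _ (by omega) (by omega) le_rfl hc.ab
      show P y z (c + 1 + k)
      refine h.cyl y z (c + 1 + k) v3 v1 v2 ?_
      rintro ⟨t1, t2, t3⟩
      exact u3 ⟨by omega, t1, t2⟩
  have hge : ∀ k, k ≤ k0 → f1 < α k ∧ f2 < β k := by
    intro k hk
    refine ⟨(hαi k f1).mp (h.below _ _ _ le_rfl (Nat.zero_le _) (by omega) ?_),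
      (hβi k f2).mp (h.below _ _ _ (Nat.zero_le _) le_rfl (by omega) ?_)⟩
    · rintro ⟨-, t, -⟩
      omega
    · rintro ⟨t, -, -⟩
      omega
  have hd1 : {k | k0 ≤ k + 1 ∧ α (k + 1) < α k ∧ f1 ≤ α (k + 1)}.ncard ≤ 1 := by
    rw [hk0, hα]
    exact zlegB_drop h hc h2
  have hd2 : {k | k0 ≤ k + 1 ∧ β (k + 1) < β k ∧ f2 ≤ β (k + 1)}.ncard ≤ 1 := by
    rw [hk0, hβ']
    exact zlegB_drop hsw hcsw h1
  have hVs := cnt_slices (P := rt P) (p := f1) (q := f2) (x0 := c + 1) (k0 := k0) (K := K)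
    (β := α) (γ := β) hs (fun k hk => Or.inl (hKα k hk))
  have hNs := cntMx_slices (P := rt P) (p := f1) (q := f2) (x0 := c + 1) (k0 := k0) (K := K)
    (β := α) (γ := β) hf1 hf2 hs (fun k hk => Or.inl (hKα k hk))
  rw [← hV] at hVs
  rw [← hn] at hNs
  obtain ⟨hN1, hN2⟩ := legB hf1 hf2 (by omega : 1 ≤ k0) hαa hβa hz (hKα K le_rfl) hge hd1 hd2
    rfl hVs
  revert hNs hN1 hN2
  generalize (∑ k ∈ Finset.range K,
      (if k0 ≤ k then el f1 f2 (α k) (β k) (α (k + 1)) (β (k + 1))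
       else if k0 = k + 1 then 1
       else if α (k + 1) < α k ∨ β (k + 1) < β k then 1 else 0)) = N
  intro hNs hN1 hN2
  have g0 := hge 0 (Nat.zero_le _)
  have w1 := hαu 0
  have w2 := hβu 0
  have hnot : ¬ (α 0 = a + 1 ∧ β 0 = b + 1) := by
    rintro ⟨t1, t2⟩
    have v1 := (hαi 0 a).mpr (by omega)
    have v2 := (hβi 0 b).mpr (by omega)
    exact hc.mz ⟨v1, v2⟩
  have hsum : α 0 + β 0 ≤ a + b + 1 := by omega
  refine ⟨by omega, by omega, ?_⟩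
  rcases hN2 with hA | ⟨hA, hB⟩ | ⟨hA, hB, hp, hq, hk, -, -⟩
  · left
    exact (Nat.mul_le_mul hNs (by omega)).trans hA
  · rcases Nat.lt_or_ge n 5 with hlt | hge'
    · left
      have : n * (n + 1) ≤ 4 * 5 := Nat.mul_le_mul (by omega) (by omega)
      omega
    · right; left
      exact ⟨by omega, hB⟩
  · rcases Nat.lt_or_ge n 4 with hlt | hge'
    · left
      have : n * (n + 1) ≤ 3 * 4 := Nat.mul_le_mul (by omega) (by omega)
      omega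
    · right; right
      exact ⟨by omega, hB, hp, hq, by omega⟩

end Pool.Agent.T3
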