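import Pool.Agent.T3.ArithIb
import Pool.Agent.T3.ZLegB
import Pool.Agent.T3.Unit
import Pool.Agent.T3.R2
import Pool.Agent.T3.Count

/-!
# Case I-b

`count0` (`P a b c` by `cyl`, as `¬ f3 ≤ c`); `xleg0` for `P` and `sw P` (for `x ≥ a+1`, `P x 0 z`
gives `z ≤ c < f3`, and `P x y 0` gives `y ≤ b`, so `cyl` applies); `zlegB`; `b1`; `r1`, `r2`, `r3` for `P`
and `sw P`; then `arithIb`.
-/

namespace Pool.Agent.T3

/-- the part `x ≥ a+1` is not affected by the removed cone -/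
theorem caseIb_cyl {P : ℕ → ℕ → ℕ → Prop} {f1 f2 f3 a b c : ℕ} (h : CylF P f1 f2 f3)
    (hc : Ctr P a b c) (h3 : c + 2 ≤ f3) :
    ∀ x y z, a + 1 ≤ x → P x y 0 → P x 0 z → P x y z := by
  intro x y z hx hy hz
  have hyb : y ≤ b := by
    by_contra hlt
    exact hc.nab (h.down _ _ _ _ _ _ hx (by omega) le_rfl hy)
  have hzc : z ≤ c := by
    by_contra hlt
    exact hc.nac (h.down _ _ _ _ _ _ hx le_rfl (by omega) hz)
  refine h.cyl x y z hy hz (h.down _ _ _ _ _ _ le_rfl hyb hzc hc.bc) ?_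
  rintro ⟨-, -, h5⟩
  omega

theorem caseIb {P : ℕ → ℕ → ℕ → Prop} {f1 f2 f3 a b c : ℕ} (h : CylF P f1 f2 f3)
    (hc : Ctr P a b c) (h1 : f1 ≤ a) (h2 : f2 ≤ b) (h3 : c + 2 ≤ f3) :
    (cnt (Mx P) 0 + 1) ^ 2 ≤ 4 * cnt P 0 := by
  have hP : P a b c := by
    refine h.cyl a b c hc.ab hc.ac hc.bc ?_
    rintro ⟨-, -, h5⟩
    omega
  obtain ⟨e1, e2⟩ := count0 h.down h.fin hc hP
  have hcx := caseIb_cyl h hc h3
  have hcy := caseIb_cyl h.sw hc.sw h3
  obtain ⟨x1, x2⟩ := xleg0 h.down h.fin hc hcx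
  obtain ⟨y1, y2⟩ := xleg0 h.sw.down h.sw.fin hc.sw hcy
  obtain ⟨z0, z1, z2⟩ := zlegB h hc h1 h2 h3 rfl rfl
  have key := arithIb h.p1 h.p2 h1 h2 h3 z0 x1 x2 y1 y2 z1 z2
    (by
      intro hc0
      subst hc0
      exact b1 h hc h1 h2 (by omega))
    (by
      intro e3 e4 e5
      subst e3 e4 e5
      exact ⟨fun hn => r1 h hc h1 h2 (by omega) hn,
        fun hn => r1 h.sw hc.sw h2 h1 (by omega) hn⟩)
    (by
      intro e3 e4 e5 e6
      subst e3 e4 e5 e6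
      refine ⟨?_, ?_⟩
      · intro e7 e8 hn
        subst e7 e8
        exact r2 h hc hn
      · intro e7 e8 hn
        subst e7 e8
        exact r2 h.sw hc.sw hn)
    (by
      intro e6
      subst e6
      refine ⟨?_, ?_⟩
      · intro e7 e8 hn
        subst e7 e8
        exact r3 h.down h.fin hc hcx hn
      · intro e7 e8 hn
        subst e7 e8
        exact r3 h.sw.down h.sw.fin hc.sw hcy hn)
  rw [e1]
  refine le_trans (Nat.pow_le_pow_left (Nat.add_le_add_right e2 1) 2) key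

end Pool.Agent.T3
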