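import Pool.Agent.T3.Wd

/-!
# Existence of a center

Let `P` be a finite down-closed set containing `0`.  Let `Z c` be the statement
`∃ a b, P a b 0 ∧ ¬ P (a+1) (b+1) 0 ∧ P a 0 c ∧ P 0 b c`.

* `Z 0` holds: take `a` maximal with `P a 0 0` and `b = 0`.
* `Z c` implies `P 0 0 c`, so there is a largest `c` with `Z c`; fix it and a witness `(a₁,b₁)`.
* Let `a0 = wd (fun x => P x 0 (c+1)) - 1`, `b0 = wd (fun y => P 0 y (c+1)) - 1` (truncated
  subtraction), and `A1 = wd (fun x => P x 0 c) - 1`, `B1 = wd (fun y => P 0 y c) - 1`, so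
  `a0 ≤ A1`, `b0 ≤ B1`, `P A1 0 c`, `P 0 B1 c`.
* Claim: `P a0 b0 0`.  If `¬ P 0 0 (c+1)` then `a0 = b0 = 0`.  Otherwise `P a0 0 (c+1)` and
  `P 0 b0 (c+1)`; if `¬ P a0 b0 0`, go down the diagonal `(a0 - t, b0 - t)`: at
  `t = min a0 b0` one coordinate is `0`, and the point is then in `P` (as `P a0 0 0`, `P 0 b0 0`);
  the first `t` with `P (a0-t) (b0-t) 0` gives a witness for `Z (c+1)`, a contradiction.
* `¬ P (A1+1) (B1+1) 0`, since `(a₁,b₁) ≤ (A1,B1)` and `¬ P (a₁+1) (b₁+1) 0`.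
* Choose `(a,b)` with `a0 ≤ a ≤ A1`, `b0 ≤ b ≤ B1`, `P a b 0` and `a + b` maximal.
  Then `¬ P (a+1) (b+1) 0`: otherwise `P (a+1) b 0` and `P a (b+1) 0`, so by maximality
  `a = A1` and `b = B1`, contradiction.
* `nac`, `nbc` hold as `a ≥ a0`, `b ≥ b0`.  `mx`: if `P (a+1) b 0` and `P (a+1) 0 c` then
  `a + 1 ≤ A1`, contradicting maximality.  `my` similarly.  `mz`: if `P a 0 (c+1)` and
  `P 0 b (c+1)` then `Z (c+1)` holds with `(a,b)`.
-/

namespace Pool.Agent.T3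

private theorem max_exists {S : ℕ → Prop} (N : ℕ) (hN : ∀ n, S n → n ≤ N) (h : ∃ n, S n) :
    ∃ M, S M ∧ ∀ n, S n → n ≤ M := by
  classical
  obtain ⟨n, hn⟩ := h
  refine ⟨Nat.findGreatest S N, Nat.findGreatest_spec (hN n hn) hn, fun k hk => ?_⟩
  exact Nat.le_findGreatest (hN k hk) hk

private theorem bdd {P : ℕ → ℕ → ℕ → Prop} (hf : (St P).Finite) :
    ∃ N, ∀ x y z, P x y z → x ≤ N ∧ y ≤ N ∧ z ≤ N := by
  have h1 := (hf.image (fun v : ℕ × ℕ × ℕ => v.1 + v.2.1 + v.2.2)).bddAbove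
  obtain ⟨N, hN⟩ := h1
  refine ⟨N, fun x y z hP => ?_⟩
  have := hN ⟨(x, y, z), hP, rfl⟩
  simp only at this
  omega

theorem exists_ctr {P : ℕ → ℕ → ℕ → Prop} (hd : Down P) (hf : (St P).Finite) (h0 : P 0 0 0) :
    ∃ a b c, Ctr P a b c := by
  classical
  obtain ⟨N, hN⟩ := bdd hf
  -- the largest `c` with `Z c`
  obtain ⟨c, ⟨a₁, b₁, h1, h2, h3, h4⟩, hcmax⟩ := max_exists
    (S := fun c => ∃ a b, P a b 0 ∧ ¬ P (a+1) (b+1) 0 ∧ P a 0 c ∧ P 0 b c) N
    (fun c ⟨a, b, _, _, h, _⟩ => (hN _ _ _ h).2.2) (by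
      obtain ⟨a, ha, hamax⟩ := max_exists (S := fun a => P a 0 0) N
        (fun n hn => (hN _ _ _ hn).1) ⟨0, h0⟩
      refine ⟨0, a, 0, ha, ?_, ha, h0⟩
      intro h
      have := hamax (a + 1) (hd _ _ _ _ _ _ (le_refl _) (Nat.zero_le _) (le_refl _) h)
      omega)
  have hZ : ∀ a b, P a b 0 → ¬ P (a+1) (b+1) 0 → P a 0 (c+1) → P 0 b (c+1) → False := by
    intro a b k1 k2 k3 k4
    have := hcmax (c + 1) ⟨a, b, k1, k2, k3, k4⟩
    omega
  have h00c : P 0 0 c := hd _ _ _ _ _ _ (Nat.zero_le _) (le_refl _) (le_refl _) h3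
  obtain ⟨A1, hA1, hA1max⟩ := max_exists (S := fun x => P x 0 c) N
    (fun n hn => (hN _ _ _ hn).1) ⟨0, h00c⟩
  obtain ⟨B1, hB1, hB1max⟩ := max_exists (S := fun y => P 0 y c) N
    (fun n hn => (hN _ _ _ hn).2.1) ⟨0, h00c⟩
  have ha1 : a₁ ≤ A1 := hA1max _ h3
  have hb1 : b₁ ≤ B1 := hB1max _ h4
  have hAB : ¬ P (A1 + 1) (B1 + 1) 0 := fun h =>
    h2 (hd _ _ _ _ _ _ (by omega) (by omega) (le_refl _) h)
  -- lower corner
  obtain ⟨a0, b0, hab0, ha0A, hb0B, ha0, hb0⟩ : ∃ a0 b0, P a0 b0 0 ∧ a0 ≤ A1 ∧ b0 ≤ B1 ∧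
      (∀ x, P x 0 (c+1) → x ≤ a0) ∧ (∀ y, P 0 y (c+1) → y ≤ b0) := by
    by_cases hc1 : P 0 0 (c + 1)
    · obtain ⟨a0, ha0, ha0max⟩ := max_exists (S := fun x => P x 0 (c + 1)) N
        (fun n hn => (hN _ _ _ hn).1) ⟨0, hc1⟩
      obtain ⟨b0, hb0, hb0max⟩ := max_exists (S := fun y => P 0 y (c + 1)) N
        (fun n hn => (hN _ _ _ hn).2.1) ⟨0, hc1⟩
      refine ⟨a0, b0, ?_, ?_, ?_, ha0max, hb0max⟩
      · by_contra hab
        have hex : ∃ t, P (a0 - t) (b0 - t) 0 := by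
          refine ⟨min a0 b0, ?_⟩
          rcases le_total a0 b0 with h | h
          · rw [min_eq_left h, Nat.sub_self]
            exact hd _ _ _ _ _ _ (le_refl _) (Nat.sub_le _ _) (Nat.zero_le _) hb0
          · rw [min_eq_right h, Nat.sub_self]
            exact hd _ _ _ _ _ _ (Nat.sub_le _ _) (le_refl _) (Nat.zero_le _) ha0
        have ht := Nat.find_spec hex
        have htmin := fun m (hm : m < Nat.find hex) => Nat.find_min hex hm
        set t := Nat.find hex with htdef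
        have ht0 : t ≠ 0 := by
          intro h
          rw [h] at ht
          exact hab ht
        have htle : t ≤ min a0 b0 := by
          by_contra hlt
          push_neg at hlt
          refine htmin (min a0 b0) hlt ?_
          rcases le_total a0 b0 with h | h
          · rw [min_eq_left h, Nat.sub_self]
            exact hd _ _ _ _ _ _ (le_refl _) (Nat.sub_le _ _) (Nat.zero_le _) hb0
          · rw [min_eq_right h, Nat.sub_self]
            exact hd _ _ _ _ _ _ (Nat.sub_le _ _) (le_refl _) (Nat.zero_le _) ha0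
        have hta : t ≤ a0 := le_trans htle (min_le_left _ _)
        have htb : t ≤ b0 := le_trans htle (min_le_right _ _)
        have hprev := htmin (t - 1) (by omega)
        rw [show a0 - (t - 1) = a0 - t + 1 by omega, show b0 - (t - 1) = b0 - t + 1 by omega]
          at hprev
        exact hZ (a0 - t) (b0 - t) ht hprev
          (hd _ _ _ _ _ _ (Nat.sub_le _ _) (le_refl _) (le_refl _) ha0)
          (hd _ _ _ _ _ _ (le_refl _) (Nat.sub_le _ _) (le_refl _) hb0)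
      · exact hA1max _ (hd _ _ _ _ _ _ (le_refl _) (le_refl _) (Nat.le_succ _) ha0)
      · exact hB1max _ (hd _ _ _ _ _ _ (le_refl _) (le_refl _) (Nat.le_succ _) hb0)
    · refine ⟨0, 0, h0, Nat.zero_le _, Nat.zero_le _, ?_, ?_⟩
      · intro x hx
        exact absurd (hd _ _ _ _ _ _ (Nat.zero_le _) (le_refl _) (le_refl _) hx) hc1
      · intro y hy
        exact absurd (hd _ _ _ _ _ _ (le_refl _) (Nat.zero_le _) (le_refl _) hy) hc1
  -- maximal `a + b`
  obtain ⟨s, ⟨a, b, haa, haA, hbb, hbB, hab, hs⟩, hsmax⟩ := max_exists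
    (S := fun s => ∃ a b, a0 ≤ a ∧ a ≤ A1 ∧ b0 ≤ b ∧ b ≤ B1 ∧ P a b 0 ∧ s = a + b) (A1 + B1)
    (fun n ⟨a, b, _, h2, _, h4, _, h6⟩ => by omega)
    ⟨a0 + b0, a0, b0, le_refl _, ha0A, le_refl _, hb0B, hab0, rfl⟩
  have hmaxa : P (a + 1) b 0 → A1 ≤ a := by
    intro h
    by_contra hlt
    push_neg at hlt
    have := hsmax (a + 1 + b) ⟨a + 1, b, by omega, by omega, hbb, hbB, h, rfl⟩
    omega
  have hmaxb : P a (b + 1) 0 → B1 ≤ b := by
    intro h
    by_contra hlt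
    push_neg at hlt
    have := hsmax (a + (b + 1)) ⟨a, b + 1, haa, haA, by omega, by omega, h, rfl⟩
    omega
  have hnab : ¬ P (a + 1) (b + 1) 0 := by
    intro h
    have e1 := hmaxa (hd _ _ _ _ _ _ (le_refl _) (Nat.le_succ _) (le_refl _) h)
    have e2 := hmaxb (hd _ _ _ _ _ _ (Nat.le_succ _) (le_refl _) (le_refl _) h)
    have e3 : a = A1 := le_antisymm haA e1
    have e4 : b = B1 := le_antisymm hbB e2
    rw [e3, e4] at h
    exact hAB h
  refine ⟨a, b, c, ⟨hab, ?_, ?_, hnab, ?_, ?_, ?_, ?_, ?_⟩⟩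
  · exact hd _ _ _ _ _ _ haA (le_refl _) (le_refl _) hA1
  · exact hd _ _ _ _ _ _ (le_refl _) hbB (le_refl _) hB1
  · intro h
    have := ha0 _ h
    omega
  · intro h
    have := hb0 _ h
    omega
  · rintro ⟨k1, k2⟩
    have e1 := hmaxa k1
    have e2 := hA1max _ k2
    omega
  · rintro ⟨k1, k2⟩
    have e1 := hmaxb k1
    have e2 := hB1max _ k2
    omega
  · rintro ⟨k1, k2⟩
    exact hZ a b hab hnab k1 k2

end Pool.Agent.T3
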