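import Pool.Agent.T3.CaseIa
import Pool.Agent.T3.CaseIb
import Pool.Agent.T3.CaseII
import Pool.Agent.T3.Center

/-!
# All cases with a full-support generator

Take a center `(a,b,c)` (`exists_ctr`; `P 0 0 0` by `below`).  At most one coordinate of the center is
smaller than the corresponding coordinate of `F`: if `a < f1` and `b < f2` then `P (a+1) (b+1) 0`
follows from `P f1 f2 0` (`below`), contradicting `Ctr.nab`; similarly for the other pairs.
If none is smaller: `caseII`.  If `c < f3` (so `f1 ≤ a`, `f2 ≤ b`): `caseIa` or `caseIb`.  If `a < f1` or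
`b < f2`: apply these to `rt (rt P)` (center `(b,c,a)`, `F = (f2,f3,f1)`), resp. `rt P` (center
`(c,a,b)`, `F = (f3,f1,f2)`), using `cnt_rt`, `Mx_rt`.
-/

namespace Pool.Agent.T3

theorem caseF_aux {P : ℕ → ℕ → ℕ → Prop} {f1 f2 f3 a b c : ℕ} (h : CylF P f1 f2 f3)
    (hc : Ctr P a b c) (h1 : f1 ≤ a) (h2 : f2 ≤ b) :
    (cnt (Mx P) 0 + 1) ^ 2 ≤ 4 * cnt P 0 := by
  by_cases h3 : f3 ≤ c
  · exact caseII h hc h1 h2 h3
  · by_cases h4 : c + 1 = f3
    · exact caseIa h hc h1 h2 h4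
    · exact caseIb h hc h1 h2 (by omega)

theorem caseF {P : ℕ → ℕ → ℕ → Prop} {f1 f2 f3 : ℕ} (h : CylF P f1 f2 f3) :
    (cnt (Mx P) 0 + 1) ^ 2 ≤ 4 * cnt P 0 := by
  have p1 := h.p1
  have p2 := h.p2
  have p3 := h.p3
  have h0 : P 0 0 0 := h.below 0 0 0 (Nat.zero_le _) (Nat.zero_le _) (Nat.zero_le _) (by omega)
  obtain ⟨a, b, c, hc⟩ := exists_ctr h.down h.fin h0
  have hab : ¬ (a < f1 ∧ b < f2) := fun hh =>
    hc.nab (h.below (a + 1) (b + 1) 0 (by omega) (by omega) (Nat.zero_le _) (by omega))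
  have hac : ¬ (a < f1 ∧ c < f3) := fun hh =>
    hc.nac (h.below (a + 1) 0 (c + 1) (by omega) (Nat.zero_le _) (by omega) (by omega))
  have hbc : ¬ (b < f2 ∧ c < f3) := fun hh =>
    hc.nbc (h.below 0 (b + 1) (c + 1) (Nat.zero_le _) (by omega) (by omega) (by omega))
  by_cases ha : f1 ≤ a
  · by_cases hb : f2 ≤ b
    · exact caseF_aux h hc ha hb
    · have key := caseF_aux h.rt hc.rt (by omega) ha
      rwa [Mx_rt, cnt_rt, cnt_rt] at key
  · have key := caseF_aux h.rt.rt hc.rt.rt (by omega) (by omega)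
    rwa [Mx_rt, cnt_rt, Mx_rt, cnt_rt, cnt_rt, cnt_rt] at key

end Pool.Agent.T3
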