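import Pool.Agent.T3.Defs

/-!
# The leg lemma

A leg is a sequence of slices `(β k, γ k)` (antitone, simultaneously zero, zero at `K`).
`N` bounds the number of maximal elements and `V` is the number of elements.
A drop of `β` at `k` is `β (k+1) < β k`; it is deep if it lands at `β (k+1) ≥ p`.
At most one deep drop of `β` and at most one deep drop of `γ` occur.

Proof: induction on `K` (shifting the sequences by one), i.e. backwards along the leg.  Write
`D = dd p β + dd q γ` for the number of deep drops still to come, `(β,γ)` for the present slice,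
`(β',γ')` for the next one, `e = el p q β γ β' γ'` and `S = sz p q β γ`; `N = e + N'`,
`V = S + V'`, where `N', V', D'` belong to the rest of the leg.

*State R* (`β ≤ p` or `γ ≤ q`, both positive; all later nonempty slices are also in state R).
Claim: `N + 1 ≤ min β p + min γ q + D` and `N (N+1) ≤ 2 V`.  Here `e ≤ 1`, `S = β γ`.  If there is a
drop, then `min β p + min γ q + D` decreases by at least one (a deep drop decreases `D`, any other
drop decreases the min; if the next slice is empty use `min β p + min γ q ≥ 2`).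
Since only a coordinate exceeding its threshold can have a deep drop, `D ≤ 1` if one
coordinate exceeds its threshold and `D = 0` otherwise, so `N + 1 ≤ β + γ`,
hence `N ≤ β + γ - 1 ≤ β γ = S` and
`N (N+1) = N (N-1) + 2 N ≤ 2 V' + 2 S` when `e = 1`; when `e = 0` it is clear.

*State L* (`β > p`, `γ > q`).  `S = p γ + q β - p q ≥ p q + p + q`.
Claim: `N ≤ p + q + D`, `N (N+1) ≤ 2 V + 4`, and `N (N+1) ≤ 2 V` if `D = 0`.
  - `e = 0`: same state (no drop), clear.
  - `e = 1`: exactly one coordinate drops and it drops deeply, say `β' ≥ p`, `γ' = γ`.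
    If `β' ≥ p+1` the next state is L with `D' = D - 1`, and `β ≥ p + 2`,
    `S ≥ p q + p + 2 q ≥ p + q + D ≥ N` (`D ≤ 2`).  If `β' = p` the next state is R with
    `N' ≤ p + q - 1 + D'` and `S ≥ p q + p + q ≥ N`.
  - `e = 2`: we need `S ≥ 2 N - 1` or, where allowed, `S ≥ 2 N - 3` and the next state satisfies
    `N' (N'+1) ≤ 2 V'`.  Cases:
    (b) one coordinate jumps below its threshold, the other does not drop, say `γ' < q`,
    `β' = β`: next state R (or empty) with `N' ≤ p + γ' - 1 + dβ ≤ p + q - 2 + dβ`, `N ≤ p + q + dβ`,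
    `S - (2 N - 1) ≥ (p-1)(q-1) - 2 dβ`.
    (a) both drop.  Both deep with `β' > p`, `γ' > q`: `D = 2`, `β ≥ p+2`, `γ ≥ q+2`,
    `S ≥ p q + 2 p + 2 q`, next state L with `D' = 0`, so `N' ≤ p + q`, `N ≤ p + q + 2`,
    `S - (2 N - 1) ≥ p q - 3 ≥ -2`.
    Both deep with `β' = p` or `γ' = q`: next state R with `D' = 0`, `N' ≤ p + q - 1`,
    `N ≤ p + q + 1`, `S - (2 N - 1) ≥ (p-1)(q-1) - 2`.
    One deep and one jump: `N ≤ p + q`, `S - (2N-1) ≥ (p-1)(q-1)`.
    Two jumps: `N ≤ p + q - 1` (or the leg ends and `N = 2`), fine.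
  In all cases where `D = 0` the defect is `≥ 0`.
(`a defect of -2` in `S - (2N-1)` means `N (N+1) ≤ 2 V + 4`.)

All claims were also checked by computer (dynamic programming) for `p, q ≤ 4`.
-/

namespace Pool.Agent.T3

open Finset

namespace Leg

theorem dd_succ {p : ℕ} {β : ℕ → ℕ} (hβ : Antitone β) {K : ℕ} (hK : β K = 0) :
    dd p β = (if β 1 < β 0 ∧ p ≤ β 1 then 1 else 0) + dd p (fun k => β (k + 1)) := by
  have hfin : {k | (fun k => β (k + 1)) (k + 1) < (fun k => β (k + 1)) k ∧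
      p ≤ (fun k => β (k + 1)) (k + 1)}.Finite := by
    refine (Set.finite_Iio K).subset ?_
    intro k hk
    have h1 : β (k + 1 + 1) < β (k + 1) := hk.1
    by_contra h2
    have h3 : K ≤ k + 1 := by
      simp only [Set.mem_Iio, not_lt] at h2
      omega
    have h4 := hβ h3
    omega
  have himg : (Nat.succ '' {k | (fun k => β (k + 1)) (k + 1) < (fun k => β (k + 1)) k ∧
      p ≤ (fun k => β (k + 1)) (k + 1)}).ncard = dd p (fun k => β (k + 1)) := by
    rw [Set.ncard_image_of_injective _ Nat.succ_injective]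
    rfl
  unfold dd at himg ⊢
  by_cases h : β 1 < β 0 ∧ p ≤ β 1
  · rw [if_pos h]
    have hs : {k | β (k + 1) < β k ∧ p ≤ β (k + 1)} =
        insert 0 (Nat.succ '' {k | (fun k => β (k + 1)) (k + 1) < (fun k => β (k + 1)) k ∧
          p ≤ (fun k => β (k + 1)) (k + 1)}) := by
      ext k
      simp only [Set.mem_ofPred_eq, Set.mem_insert_iff, Set.mem_image]
      constructor
      · intro hk
        rcases k with _ | k
        · left; rfl
        · right; exact ⟨k, hk, rfl⟩
      · rintro (rfl | ⟨j, hj, rfl⟩)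
        · exact h
        · exact hj
    rw [hs, Set.ncard_insert_of_notMem _ (hfin.image _), himg]
    · exact Nat.add_comm _ _
    · rintro ⟨j, -, hj⟩
      exact Nat.succ_ne_zero j hj
  · rw [if_neg h]
    have hs : {k | β (k + 1) < β k ∧ p ≤ β (k + 1)} =
        Nat.succ '' {k | (fun k => β (k + 1)) (k + 1) < (fun k => β (k + 1)) k ∧
          p ≤ (fun k => β (k + 1)) (k + 1)} := by
      ext k
      simp only [Set.mem_ofPred_eq, Set.mem_image]
      constructor
      · intro hk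
        rcases k with _ | k
        · exact absurd hk h
        · exact ⟨k, hk, rfl⟩
      · rintro ⟨j, hj, rfl⟩
        exact hj
    rw [hs, himg, Nat.zero_add]

theorem dd_pos {p : ℕ} {β : ℕ → ℕ} (hβ : Antitone β) (h : 1 ≤ dd p β) : p < β 0 := by
  have h1 : {k | β (k + 1) < β k ∧ p ≤ β (k + 1)}.Nonempty :=
    Set.nonempty_of_ncard_ne_zero (by unfold dd at h; omega)
  obtain ⟨k, hk1, hk2⟩ := h1
  have := hβ (Nat.zero_le k)
  omega

theorem sz_L {p q b g : ℕ} (h1 : p < b) (h2 : q < g) :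
    p * q + p + q ≤ sz p q b g := by
  unfold sz
  rw [if_pos ⟨h1, h2⟩]
  have e1 : p * (q + 1) ≤ p * g := Nat.mul_le_mul_left _ h2
  have e2 : q * (p + 1) ≤ q * b := Nat.mul_le_mul_left _ h1
  have e3 : q * p = p * q := Nat.mul_comm _ _
  rw [Nat.mul_add] at e1 e2
  omega

theorem sz_L2 {p q b g : ℕ} (h1 : p < b) (h2 : q + 1 < g) :
    p * q + 2 * p + q ≤ sz p q b g := by
  unfold sz
  rw [if_pos ⟨h1, by omega⟩]
  have e1 : p * (q + 2) ≤ p * g := Nat.mul_le_mul_left _ h2
  have e2 : q * (p + 1) ≤ q * b := Nat.mul_le_mul_left _ h1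
  have e3 : q * p = p * q := Nat.mul_comm _ _
  rw [Nat.mul_add] at e1 e2
  omega

theorem sz_L3 {p q b g : ℕ} (h1 : p + 1 < b) (h2 : q < g) :
    p * q + p + 2 * q ≤ sz p q b g := by
  unfold sz
  rw [if_pos ⟨by omega, h2⟩]
  have e1 : p * (q + 1) ≤ p * g := Nat.mul_le_mul_left _ h2
  have e2 : q * (p + 2) ≤ q * b := Nat.mul_le_mul_left _ h1
  have e3 : q * p = p * q := Nat.mul_comm _ _
  rw [Nat.mul_add] at e1 e2
  omega

theorem sz_L4 {p q b g : ℕ} (h1 : p + 1 < b) (h2 : q + 1 < g) :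
    p * q + 2 * p + 2 * q ≤ sz p q b g := by
  unfold sz
  rw [if_pos ⟨by omega, by omega⟩]
  have e1 : p * (q + 2) ≤ p * g := Nat.mul_le_mul_left _ h2
  have e2 : q * (p + 2) ≤ q * b := Nat.mul_le_mul_left _ h1
  have e3 : q * p = p * q := Nat.mul_comm _ _
  rw [Nat.mul_add] at e1 e2
  omega

theorem pq_ge {p q : ℕ} (hp : 1 ≤ p) (hq : 1 ≤ q) : p + q ≤ p * q + 1 := by
  obtain ⟨a, rfl⟩ := Nat.exists_eq_add_of_le hp
  obtain ⟨b, rfl⟩ := Nat.exists_eq_add_of_le hq
  nlinarith [Nat.zero_le (a * b)]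

/-- the first claim (linear) -/
theorem step1 {p q b g b' g' d1 d2 d1' d2' N' : ℕ} (hp : 1 ≤ p) (hq : 1 ≤ q)
    (hb : b' ≤ b) (hg : g' ≤ g) (h0 : b = 0 ↔ g = 0) (h0' : b' = 0 ↔ g' = 0)
    (hd1 : d1 = (if b' < b ∧ p ≤ b' then 1 else 0) + d1')
    (hd2 : d2 = (if g' < g ∧ q ≤ g' then 1 else 0) + d2')
    (h1 : d1 ≤ 1) (h2 : d2 ≤ 1) (hp1 : 1 ≤ d1' → p < b') (hp2 : 1 ≤ d2' → q < g')
    (hN : N' + 1 ≤ max 1 (min b' p + min g' q + d1' + d2' + if p < b' ∧ q < g' then 1 else 0)) :
    el p q b g b' g' + N' + 1 ≤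
      max 1 (min b p + min g q + d1 + d2 + if p < b ∧ q < g then 1 else 0) := by
  unfold el
  split_ifs at * <;> omega

/-- the second and the third claim -/
theorem step2 {p q b g b' g' d1 d2 d1' d2' N' V' : ℕ} (hp : 1 ≤ p) (hq : 1 ≤ q)
    (hb : b' ≤ b) (hg : g' ≤ g) (h0 : b = 0 ↔ g = 0) (h0' : b' = 0 ↔ g' = 0)
    (hd1 : d1 = (if b' < b ∧ p ≤ b' then 1 else 0) + d1')
    (hd2 : d2 = (if g' < g ∧ q ≤ g' then 1 else 0) + d2')
    (h1 : d1 ≤ 1) (h2 : d2 ≤ 1) (hp1 : 1 ≤ d1' → p < b') (hp2 : 1 ≤ d2' → q < g')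
    (hN : N' + 1 ≤ max 1 (min b' p + min g' q + d1' + d2' + if p < b' ∧ q < g' then 1 else 0))
    (hL : p < b ∧ q < g)
    (hV : N' * (N' + 1) ≤ 2 * V' + 4)
    (hV0 : ¬ (p < b' ∧ q < g' ∧ 1 ≤ d1' + d2') → N' * (N' + 1) ≤ 2 * V') :
    (el p q b g b' g' + N') * (el p q b g b' g' + N' + 1) ≤ 2 * (sz p q b g + V') + 4 ∧
    (¬ (1 ≤ d1 + d2) →
      (el p q b g b' g' + N') * (el p q b g b' g' + N' + 1) ≤ 2 * (sz p q b g + V')) := by
  have hpq := pq_ge hp hq
  have hS := sz_L hL.1 hL.2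
  have hb0 : ¬ (b = 0 ∨ g = 0) := by omega
  unfold el
  rw [if_neg hb0, if_pos hL]
  have key0 : (0 + 0 + N') * (0 + 0 + N' + 1) = N' * (N' + 1) := by ring
  have key1 : (0 + 1 + N') * (0 + 1 + N' + 1) = N' * (N' + 1) + 2 * (N' + 1) := by ring
  have key1' : (1 + 0 + N') * (1 + 0 + N' + 1) = N' * (N' + 1) + 2 * (N' + 1) := by ring
  have key2 : (1 + 1 + N') * (1 + 1 + N' + 1) = N' * (N' + 1) + 2 * (2 * N' + 3) := by ring
  rcases Nat.lt_or_ge b' b with hbb | hbb
  · rcases Nat.lt_or_ge g' g with hgg | hgg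
    · -- both drop
      rw [if_pos (Or.inl hbb), if_pos (Or.inl hgg), key2]
      by_cases c : p < b' ∧ q < g'
      · have hS4 := sz_L4 (p := p) (q := q) (b := b) (g := g) (by omega) (by omega)
        rw [if_pos c] at hN
        rw [if_pos ⟨hbb, by omega⟩] at hd1
        rw [if_pos ⟨hgg, by omega⟩] at hd2
        have := hV0 (by omega)
        constructor
        · omega
        · omega
      · rw [if_neg c] at hN
        have := hV0 (by omega)
        split_ifs at hd1 hd2 <;> constructor <;> omega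
    · -- only b drops
      have hg2 : g' = g := le_antisymm hg hgg
      subst hg2
      rw [if_pos (Or.inl hbb)]
      by_cases c1 : b' < p
      · rw [if_pos (Or.inr c1), key2]
        rw [if_neg (by omega)] at hN hd1 hd2
        have := hV0 (by omega)
        constructor <;> omega
      · rw [if_neg (by omega), key1']
        rw [if_pos (by omega)] at hd1
        rw [if_neg (by omega)] at hd2
        by_cases c2 : p < b'
        · have hS3 := sz_L3 (p := p) (q := q) (b := b) (g := g') (by omega) (by omega)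
          rw [if_pos ⟨c2, hL.2⟩] at hN
          constructor <;> omega
        · rw [if_neg (by omega)] at hN
          have := hV0 (by omega)
          constructor <;> omega
  · have hb2 : b' = b := le_antisymm hb hbb
    subst hb2
    rcases Nat.lt_or_ge g' g with hgg | hgg
    · by_cases c1 : g' < q
      · rw [if_pos (Or.inr c1), if_pos (Or.inl hgg), key2]
        rw [if_neg (by omega)] at hN hd1 hd2
        have := hV0 (by omega)
        constructor <;> omega
      · rw [if_neg (by omega), if_pos (Or.inl hgg), key1]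
        rw [if_pos (by omega)] at hd2
        rw [if_neg (by omega)] at hd1
        by_cases c2 : q < g'
        · have hS3 := sz_L2 (p := p) (q := q) (b := b') (g := g) (by omega) (by omega)
          rw [if_pos ⟨hL.1, c2⟩] at hN
          constructor <;> omega
        · rw [if_neg (by omega)] at hN
          have := hV0 (by omega)
          constructor <;> omega
    · have hg2 : g' = g := le_antisymm hg hgg
      subst hg2
      rw [if_neg (by omega), if_neg (by omega), key0]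
      rw [if_neg (by omega)] at hd1 hd2
      constructor
      · omega
      · intro h
        have := hV0 (by omega)
        omega

/-- one step in state R -/
theorem stepR {p q b g b' g' d1 d2 N' : ℕ} (hb : b' ≤ b) (hg : g' ≤ g) (h0 : b = 0 ↔ g = 0)
    (hp1 : 1 ≤ d1 → p < b) (hp2 : 1 ≤ d2 → q < g) (h1 : d1 ≤ 1) (h2 : d2 ≤ 1)
    (hN : el p q b g b' g' + N' + 1 ≤
      max 1 (min b p + min g q + d1 + d2 + if p < b ∧ q < g then 1 else 0))
    (hR : ¬ (p < b ∧ q < g)) :
    (el p q b g b' g' + N') * (el p q b g b' g' + N' + 1) ≤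
      N' * (N' + 1) + 2 * sz p q b g := by
  by_cases hb0 : b = 0
  · have hg0 := h0.1 hb0
    subst hb0
    subst hg0
    have e1 : el p q 0 0 b' g' = 0 := by
      unfold el
      rw [if_pos (Or.inl rfl)]
    rw [e1, Nat.zero_add]
    omega
  · have hg0 : g ≠ 0 := fun h => hb0 (h0.2 h)
    have e2 : sz p q b g = b * g := by
      unfold sz
      rw [if_neg hR]
    rw [e2]
    rw [if_neg hR] at hN
    have e3 : el p q b g b' g' = if b' < b ∨ g' < g then 1 else 0 := by
      unfold el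
      rw [if_neg (by omega), if_neg hR]
    by_cases c : b' < b ∨ g' < g
    · rw [if_pos c] at e3
      rw [e3] at hN ⊢
      have h3 : 1 + N' + 1 ≤ b + g := by omega
      have h4 := pq_ge (p := b) (q := g) (by omega) (by omega)
      have e4 : (1 + N') * (1 + N' + 1) = N' * (N' + 1) + 2 * (N' + 1) := by ring
      rw [e4]
      omega
    · rw [if_neg c] at e3
      rw [e3, Nat.zero_add]
      omega

end Leg

theorem leg {p q K : ℕ} (hp : 1 ≤ p) (hq : 1 ≤ q) {β γ : ℕ → ℕ} (hβ : Antitone β)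
    (hγ : Antitone γ) (h0 : ∀ k, β k = 0 ↔ γ k = 0) (hK : β K = 0)
    (h1 : dd p β ≤ 1) (h2 : dd q γ ≤ 1) {N V : ℕ}
    (hN : N = ∑ k ∈ range K, el p q (β k) (γ k) (β (k + 1)) (γ (k + 1)))
    (hV : V = ∑ k ∈ range K, sz p q (β k) (γ k)) :
    N + 1 ≤ max 1 (min (β 0) p + min (γ 0) q + dd p β + dd q γ +
      if p < β 0 ∧ q < γ 0 then 1 else 0) ∧
    N * (N + 1) ≤ 2 * V + 4 ∧
    (¬ (p < β 0 ∧ q < γ 0 ∧ 1 ≤ dd p β + dd q γ) → N * (N + 1) ≤ 2 * V) := by
  induction K generalizing β γ N V with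
  | zero =>
    have hN0 : N = 0 := by simpa using hN
    subst hN0
    refine ⟨by simp, by simp, fun _ => by simp⟩
  | succ K ih =>
    have hβ' : Antitone (fun k => β (k + 1)) := fun a b hab => hβ (Nat.succ_le_succ hab)
    have hγ' : Antitone (fun k => γ (k + 1)) := fun a b hab => hγ (Nat.succ_le_succ hab)
    have hγK : γ (K + 1) = 0 := (h0 _).1 hK
    have hd1 := Leg.dd_succ (p := p) hβ hK
    have hd2 := Leg.dd_succ (p := q) hγ hγK
    have h1' : dd p (fun k => β (k + 1)) ≤ 1 := by omega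
    have h2' : dd q (fun k => γ (k + 1)) ≤ 1 := by omega
    obtain ⟨i1, i2, i3⟩ := ih hβ' hγ' (fun k => h0 (k + 1)) hK h1' h2' rfl rfl
    rw [Finset.sum_range_succ'] at hN hV
    obtain ⟨N', hN'⟩ : ∃ N', N' = ∑ k ∈ range K,
      el p q (β (k + 1)) (γ (k + 1)) (β (k + 1 + 1)) (γ (k + 1 + 1)) := ⟨_, rfl⟩
    obtain ⟨V', hV'⟩ : ∃ V', V' = ∑ k ∈ range K, sz p q (β (k + 1)) (γ (k + 1)) := ⟨_, rfl⟩
    have hp1 : 1 ≤ dd p (fun k => β (k + 1)) → p < β 1 := Leg.dd_pos hβ'
    have hp2 : 1 ≤ dd q (fun k => γ (k + 1)) → q < γ 1 := Leg.dd_pos hγ'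
    have hb := hβ (Nat.zero_le 1)
    have hg := hγ (Nat.zero_le 1)
    simp only [Nat.zero_add] at i1 i2 i3 hN hV
    rw [← hN'] at i1 i2 i3 hN
    rw [← hV'] at i2 i3 hV
    rw [Nat.add_comm] at hN hV
    have s1 := Leg.step1 hp hq hb hg (h0 0) (h0 1) hd1 hd2 h1 h2 hp1 hp2 i1
    rw [← hN] at s1
    refine ⟨s1, ?_⟩
    by_cases hL : p < β 0 ∧ q < γ 0
    · have s2 := Leg.step2 hp hq hb hg (h0 0) (h0 1) hd1 hd2 h1 h2 hp1 hp2 i1 hL i2 i3
      rw [← hN, ← hV] at s2
      refine ⟨s2.1, fun h => s2.2 fun h3 => h ⟨hL.1, hL.2, h3⟩⟩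
    · rw [hN] at s1
      have s3 := Leg.stepR hb hg (h0 0) (Leg.dd_pos hβ) (Leg.dd_pos hγ) h1 h2 s1 hL
      have s4 := i3 (by omega)
      rw [← hN] at s3
      constructor
      · omega
      · intro _
        omega

/-- If the leg starts in state R and the slices `k` and `k+1` are equal, there is extra volume
`β k * γ k` (the slice `k` contains no maximal element). -/
theorem leg_idle {p q K : ℕ} (hp : 1 ≤ p) (hq : 1 ≤ q) {β γ : ℕ → ℕ} (hβ : Antitone β)
    (hγ : Antitone γ) (h0 : ∀ k, β k = 0 ↔ γ k = 0) (hK : β K = 0)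
    (h1 : dd p β ≤ 1) (h2 : dd q γ ≤ 1) {N V : ℕ}
    (hN : N = ∑ k ∈ range K, el p q (β k) (γ k) (β (k + 1)) (γ (k + 1)))
    (hV : V = ∑ k ∈ range K, sz p q (β k) (γ k))
    (hR : ¬ (p < β 0 ∧ q < γ 0)) {k : ℕ} (hk1 : β (k + 1) = β k) (hk2 : γ (k + 1) = γ k) :
    N * (N + 1) + 2 * (β k * γ k) ≤ 2 * V := by
  induction K generalizing β γ N V k with
  | zero =>
    have hN0 : N = 0 := by simpa using hN
    have hk0 : β k = 0 := Nat.le_zero.1 (hK ▸ hβ (Nat.zero_le k))
    rw [hN0, hk0]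
    simp
  | succ K ih =>
    have hβ' : Antitone (fun k => β (k + 1)) := fun a b hab => hβ (Nat.succ_le_succ hab)
    have hγ' : Antitone (fun k => γ (k + 1)) := fun a b hab => hγ (Nat.succ_le_succ hab)
    have hγK : γ (K + 1) = 0 := (h0 _).1 hK
    have hd1 := Leg.dd_succ (p := p) hβ hK
    have hd2 := Leg.dd_succ (p := q) hγ hγK
    have h1' : dd p (fun k => β (k + 1)) ≤ 1 := by omega
    have h2' : dd q (fun k => γ (k + 1)) ≤ 1 := by omega
    obtain ⟨s1, -, -⟩ := leg hp hq hβ hγ h0 hK h1 h2 hN hV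
    obtain ⟨i1, i2, i3⟩ := leg hp hq hβ' hγ' (fun k => h0 (k + 1)) hK h1' h2' rfl rfl
    rw [Finset.sum_range_succ'] at hN hV
    obtain ⟨N', hN'⟩ : ∃ N', N' = ∑ k ∈ range K,
      el p q (β (k + 1)) (γ (k + 1)) (β (k + 1 + 1)) (γ (k + 1 + 1)) := ⟨_, rfl⟩
    obtain ⟨V', hV'⟩ : ∃ V', V' = ∑ k ∈ range K, sz p q (β (k + 1)) (γ (k + 1)) := ⟨_, rfl⟩
    have hb := hβ (Nat.zero_le 1)
    have hg := hγ (Nat.zero_le 1)
    simp only [Nat.zero_add] at i1 i2 i3 hN hV
    rw [← hN'] at i1 i2 i3 hN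
    rw [← hV'] at i2 i3 hV
    rw [Nat.add_comm] at hN hV
    rw [hN] at s1
    have s3 := Leg.stepR hb hg (h0 0) (Leg.dd_pos hβ) (Leg.dd_pos hγ) h1 h2 s1 hR
    rcases k with _ | k
    · have s4 := i3 (by omega)
      have e2 : sz p q (β 0) (γ 0) = β 0 * γ 0 := by
        unfold sz
        rw [if_neg hR]
      have e3 : el p q (β 0) (γ 0) (β 1) (γ 1) = 0 := by
        have a1 : β 1 = β 0 := hk1
        have a2 : γ 1 = γ 0 := hk2
        have a3 : ¬ (β 0 < β 0 ∨ γ 0 < γ 0) := by omega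
        unfold el
        rw [a1, a2, if_neg hR, if_neg a3, ite_self]
      rw [e3, Nat.zero_add] at hN
      rw [e2] at hV
      rw [hN, hV]
      omega
    · have s5 : N' * (N' + 1) + 2 * (β (k + 1) * γ (k + 1)) ≤ 2 * V' := by
        have s6 := ih hβ' hγ' (fun k => h0 (k + 1)) hK h1' h2' rfl rfl (k := k)
          (by simp only [Nat.zero_add]; omega) hk1 hk2
        rw [hN', hV']
        exact s6
      rw [← hN] at s3
      rw [hV]
      omega

end Pool.Agent.T3
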