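import Pool.Agent.T3.Wd
import Pool.Agent.T3.Slice
import Pool.Agent.T3.Leg

/-!
# The X-leg when nothing is removed

Write `β k = ye P (a+1+k)`, `γ k = ze P (a+1+k)`; then `P (a+1+k) y z ↔ y < β k ∧ z < γ k`.
Use `cnt_slices`, `cntMx_slices` with `k0 = 0`, `p = β 0 + 1`, `q = γ 0 + 1` (nothing is removed), and
`leg`: `dd p β = dd q γ = 0`, `β 0 ≤ b + 1`, `γ 0 ≤ c + 1`, not both equal, so
`N + 1 ≤ max 1 (β 0 + γ 0) ≤ b + c + 1` (if `b + c + 1 ≥ 1`), and `N (N+1) ≤ 2 V`.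
-/

namespace Pool.Agent.T3

open Finset

/-- common part: bounds of the X-leg in terms of the extents of the first slice -/
theorem xleg0_aux {P : ℕ → ℕ → ℕ → Prop} {a : ℕ} (hd : Down P) (hf : (St P).Finite)
    (hcyl : ∀ x y z, a + 1 ≤ x → P x y 0 → P x 0 z → P x y z) :
    cnt (Mx P) (a + 1) + 1 ≤ max 1 (ye P (a + 1) + ze P (a + 1)) ∧
    cnt (Mx P) (a + 1) * (cnt (Mx P) (a + 1) + 1) ≤ 2 * cnt P (a + 1) := by
  obtain ⟨K, hK⟩ := exists_K hd hf (a + 1)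
  have hβ := ye_anti hd hf (a + 1)
  have hγ := ze_anti hd hf (a + 1)
  set β : ℕ → ℕ := fun k => ye P (a + 1 + k) with hβd
  set γ : ℕ → ℕ := fun k => ze P (a + 1 + k) with hγd
  have hb0 : β 0 = ye P (a + 1) := rfl
  have hg0 : γ 0 = ze P (a + 1) := rfl
  have hs : ∀ k y z, P ((a + 1) + k) y z ↔
      y < β k ∧ z < γ k ∧ ¬ (0 ≤ k ∧ β 0 + 1 ≤ y ∧ γ 0 + 1 ≤ z) := by
    intro k y z
    have hbk : β k ≤ β 0 := hβ (Nat.zero_le k)
    constructor
    · intro h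
      have h1 : P (a + 1 + k) y 0 := hd _ _ _ _ _ _ le_rfl le_rfl (Nat.zero_le z) h
      have h2 : P (a + 1 + k) 0 z := hd _ _ _ _ _ _ le_rfl (Nat.zero_le y) le_rfl h
      have h1' : y < β k := (ye_iff hd hf _ _).1 h1
      have h2' : z < γ k := (ze_iff hd hf _ _).1 h2
      exact ⟨h1', h2', by omega⟩
    · rintro ⟨h1, h2, -⟩
      exact hcyl _ _ _ (Nat.le_add_right _ _) ((ye_iff hd hf _ _).2 h1) ((ze_iff hd hf _ _).2 h2)
  have hKz : ∀ k, K ≤ k → β k = 0 ∨ γ k = 0 := fun k hk => Or.inl (hK k hk).1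
  have hz : ∀ k, β k = 0 ↔ γ k = 0 := fun k => ye_zero hd hf _
  have dβ : dd (β 0 + 1) β = 0 := by
    unfold dd
    have : {k | β (k + 1) < β k ∧ β 0 + 1 ≤ β (k + 1)} = (∅ : Set ℕ) := by
      ext k
      have := hβ (Nat.zero_le (k + 1))
      simp only [Set.mem_setOf_eq, Set.mem_empty_iff_false, iff_false]
      omega
    rw [this, Set.ncard_empty]
  have dγ : dd (γ 0 + 1) γ = 0 := by
    unfold dd
    have : {k | γ (k + 1) < γ k ∧ γ 0 + 1 ≤ γ (k + 1)} = (∅ : Set ℕ) := by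
      ext k
      have := hγ (Nat.zero_le (k + 1))
      simp only [Set.mem_setOf_eq, Set.mem_empty_iff_false, iff_false]
      omega
    rw [this, Set.ncard_empty]
  have hV := cnt_slices (P := P) (p := β 0 + 1) (q := γ 0 + 1) (x0 := a + 1) (k0 := 0) (K := K)
    (β := β) (γ := γ) hs hKz
  have hN := cntMx_slices (P := P) (p := β 0 + 1) (q := γ 0 + 1) (x0 := a + 1) (k0 := 0) (K := K)
    (β := β) (γ := γ) (by omega) (by omega) hs hKz
  simp only [Nat.zero_le, if_true] at hV hN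
  obtain ⟨l1, -, l3⟩ := leg (p := β 0 + 1) (q := γ 0 + 1) (K := K) (by omega) (by omega) hβ hγ hz
    (hK K le_rfl).1 (by omega) (by omega) rfl rfl
  have l3' := l3 (by omega)
  rw [← hV] at l3'
  set N := ∑ k ∈ range K, el (β 0 + 1) (γ 0 + 1) (β k) (γ k) (β (k + 1)) (γ (k + 1)) with hNd
  rw [dβ, dγ, if_neg (by omega), min_eq_left (by omega), min_eq_left (by omega)] at l1
  refine ⟨?_, ?_⟩
  · rw [← hb0, ← hg0]
    calc cnt (Mx P) (a + 1) + 1 ≤ N + 1 := by omega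
      _ ≤ max 1 (β 0 + γ 0 + 0 + 0 + 0) := l1
      _ = max 1 (β 0 + γ 0) := by simp
  · exact le_trans (Nat.mul_le_mul hN (by omega)) l3'

theorem xleg0 {P : ℕ → ℕ → ℕ → Prop} {a b c : ℕ} (hd : Down P) (hf : (St P).Finite)
    (hc : Ctr P a b c) (hcyl : ∀ x y z, a + 1 ≤ x → P x y 0 → P x 0 z → P x y z) :
    cnt (Mx P) (a + 1) ≤ b + c ∧
    cnt (Mx P) (a + 1) * (cnt (Mx P) (a + 1) + 1) ≤ 2 * cnt P (a + 1) := by
  obtain ⟨h1, h2⟩ := xleg0_aux hd hf hcyl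
  refine ⟨?_, h2⟩
  have hb : ye P (a + 1) ≤ b + 1 := by
    by_contra h
    exact hc.nab ((ye_iff hd hf _ _).2 (by omega))
  have hg : ze P (a + 1) ≤ c + 1 := by
    by_contra h
    exact hc.nac ((ze_iff hd hf _ _).2 (by omega))
  have ht : ¬ (ye P (a + 1) = b + 1 ∧ ze P (a + 1) = c + 1) := by
    rintro ⟨e1, e2⟩
    exact hc.mx ⟨(ye_iff hd hf _ _).2 (by omega), (ze_iff hd hf _ _).2 (by omega)⟩
  have : max 1 (ye P (a + 1) + ze P (a + 1)) ≤ b + c + 1 := max_le (by omega) (by omega)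
  omega

/-- if `c = 0` and the X-leg has `b` maximal elements then the first slice has width `b` -/
theorem xleg0_planar {P : ℕ → ℕ → ℕ → Prop} {a b : ℕ} (hd : Down P) (hf : (St P).Finite)
    (hc : Ctr P a b 0) (hcyl : ∀ x y z, a + 1 ≤ x → P x y 0 → P x 0 z → P x y z) :
    cnt (Mx P) (a + 1) ≤ ye P (a + 1) ∧ ye P (a + 1) ≤ b := by
  obtain ⟨h1, -⟩ := xleg0_aux hd hf hcyl
  have hb : ye P (a + 1) ≤ b + 1 := by
    by_contra h
    exact hc.nab ((ye_iff hd hf _ _).2 (by omega))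
  have hg : ze P (a + 1) ≤ 1 := by
    by_contra h
    exact hc.nac ((ze_iff hd hf _ _).2 (by omega))
  have ht : ¬ (ye P (a + 1) = b + 1 ∧ ze P (a + 1) = 1) := by
    rintro ⟨e1, e2⟩
    exact hc.mx ⟨(ye_iff hd hf _ _).2 (by omega), (ze_iff hd hf _ _).2 (by omega)⟩
  have hz : ye P (a + 1) = 0 ↔ ze P (a + 1) = 0 := ye_zero hd hf _
  have : max 1 (ye P (a + 1) + ze P (a + 1)) ≤ ye P (a + 1) + 1 := max_le (by omega) (by omega)
  constructor
  · omega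
  · omega

end Pool.Agent.T3
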