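import Pool.Agent.T3.QL
import Pool.Agent.T3.XLeg0
import Pool.Agent.T3.Sym
import Pool.Agent.T3.Center
import Pool.Agent.T3.Count

/-!
# Case N: no full-support generator

Take a center `(a,b,c)` (`exists_ctr`); `P a b c` by `cyl`.  `count0`; `xleg0` for `P`, `sw P`, `rt P`
(`Cyl.sw`, `Cyl.rt`, `Ctr.sw`, `Ctr.rt`) gives `n1 ≤ b + c`, `n2 ≤ a + c`, `n3 ≤ a + b` and
`ni (ni+1) ≤ 2 Vi`.  With `e = 1`, `u = b + c - n1`, ... `ident` and `ql` give
`4 m - (t+1)^2 ≥ 4 a b c + ql-term + 2 (u+v+w) ≥ 0`.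
-/

namespace Pool.Agent.T3

theorem Cyl.legcyl {P : ℕ → ℕ → ℕ → Prop} (h : Cyl P) {a b c : ℕ} (hc : Ctr P a b c) :
    ∀ x y z, a + 1 ≤ x → P x y 0 → P x 0 z → P x y z := by
  intro x y z hx hxy hxz
  have hy : y ≤ b := by
    by_contra hy
    exact hc.nab (h.down x y 0 (a + 1) (b + 1) 0 hx (by omega) le_rfl hxy)
  have hz : z ≤ c := by
    by_contra hz
    exact hc.nac (h.down x 0 z (a + 1) 0 (c + 1) hx le_rfl (by omega) hxz)
  exact h.cyl x y z hxy hxz (h.down 0 b c 0 y z le_rfl hy hz hc.bc)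

theorem caseN {P : ℕ → ℕ → ℕ → Prop} (h : Cyl P) : (cnt (Mx P) 0 + 1) ^ 2 ≤ 4 * cnt P 0 := by
  obtain ⟨a, b, c, hc⟩ := exists_ctr h.down h.fin h.zero
  have hP : P a b c := h.cyl a b c hc.ab hc.ac hc.bc
  obtain ⟨h0, h1⟩ := count0 h.down h.fin hc hP
  obtain ⟨x1, x2⟩ := xleg0 h.down h.fin hc (h.legcyl hc)
  obtain ⟨y1, y2⟩ := xleg0 h.sw.down h.sw.fin hc.sw (h.sw.legcyl hc.sw)
  obtain ⟨z1, z2⟩ := xleg0 h.rt.down h.rt.fin hc.rt (h.rt.legcyl hc.rt)
  generalize cnt (Mx P) (a + 1) = n1 at *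
  generalize cnt (Mx (sw P)) (b + 1) = n2 at *
  generalize cnt (Mx (rt P)) (c + 1) = n3 at *
  generalize cnt P (a + 1) = V1 at *
  generalize cnt (sw P) (b + 1) = V2 at *
  generalize cnt (rt P) (c + 1) = V3 at *
  generalize cnt P 0 = M at *
  generalize cnt (Mx P) 0 = T at *
  have hid := ident (a : ℤ) b c n1 n2 n3 1 (b + c - n1) (a + c - n2) (a + b - n3)
    (by ring) (by ring) (by ring)
  have hql := ql (a := (a : ℤ)) (b := b) (c := c) (u := b + c - n1) (v := a + c - n2)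
    (w := a + b - n3) (by positivity) (by positivity) (by positivity)
    (by zify at x1; linarith) (by zify at y1; linarith) (by zify at z1; linarith)
    (by have : (0 : ℤ) ≤ n1 := by positivity
        linarith)
    (by have : (0 : ℤ) ≤ n2 := by positivity
        linarith)
    (by have : (0 : ℤ) ≤ n3 := by positivity
        linarith)
  have habc : (0 : ℤ) ≤ 4 * (a * b * c) := by positivity
  zify at h0 h1 x1 x2 y1 y2 z1 z2 ⊢
  have hT : ((T : ℤ) + 1) ^ 2 ≤ ((n1 : ℤ) + n2 + n3 + 1 + 1) ^ 2 := by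
    apply pow_le_pow_left₀ (by positivity)
    linarith
  rw [h0]
  linarith

end Pool.Agent.T3
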