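import Pool.Agent.T3.Lat4
import Pool.Agent.T3.CaseN
import Pool.Agent.T3.CaseF

namespace Pool.Agent.T3

variable {m : ℕ} {a1 a2 a3 : ZMod m} {w1 w2 w3 : ℕ}

/-- The number `t` of maximal minimal representatives satisfies `(t+1)² ≤ 4 m`. -/
theorem lat_upper [NeZero m] (h : Sys a1 a2 a3 w1 w2 w3) :
    (cnt (Mx (Mn a1 a2 a3 w1 w2 w3)) 0 + 1) ^ 2 ≤ 4 * m := by
  have hm := mn_card h
  rcases mn_structure h with hC | ⟨f1, f2, f3, hC⟩
  · have := caseN hC
    rwa [hm] at this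
  · have := caseF hC
    rwa [hm] at this

end Pool.Agent.T3
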