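import Pool.Agent.T3.Semi
import Pool.Agent.T3.LatUpper

/-!
# The upper bound

`exists_apery`, `edim_sg`, `type_sg` (Hhelper4/NumSemigroup), `exists_sys`, `lat_upper`.
-/

namespace Pool.Agent.T3

open Pool.Agent.Hhelper4.NS

theorem type_upper {Γ : AddSubmonoid ℕ} {m : ℕ} (hm : 1 ≤ m) (h : IsNumerical Γ)
    (he : edim Γ = 4) (hmu : mult Γ = m) : (type Γ + 1) ^ 2 ≤ 4 * m := by
  classical
  have : NeZero m := ⟨by omega⟩
  obtain ⟨w, hw, rfl⟩ := exists_apery h hmu (by omega)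
  have h1 := edim_sg hw
  have h2 := type_sg hw
  rw [he] at h1
  obtain ⟨a1, a2, a3, w1, w2, w3, hs, hle⟩ := exists_sys hw (by omega)
  have h3 := lat_upper hs
  have h4 : type (sg w hw) ≤ cnt (Mx (Mn a1 a2 a3 w1 w2 w3)) 0 := by
    rw [h2]
    convert hle
  exact (Nat.pow_le_pow_left (Nat.add_le_add_right h4 1) 2).trans h3

end Pool.Agent.T3
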