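import Pool.Agent.T3.LowA
import Pool.Agent.T3.LowB
import Pool.Agent.T3.Upper

/-!
# The theorem

`T 3 m = ⌊2 √m⌋ - 1`: upper bound `type_upper` (`(t+1)² ≤ 4m` gives `t + 1 ≤ Nat.sqrt (4m)`); lower
bound: `k = Nat.sqrt m ≥ 2`, `s = m - k²`; if `s ≤ k`, `lowA` gives type `≥ 2k-1` and
`Nat.sqrt (4m) = 2k`; if `k < s ≤ 2k`, `lowB` gives type `≥ 2k` and `Nat.sqrt (4m) = 2k+1`.
-/

namespace Pool.Agent.T3

open Pool.Agent.Hhelper4.NS

/-- the lower bound: there is a numerical semigroup of type at least `sqrt (4 m) - 1` -/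
theorem exists_type_ge (m : ℕ) (hm : 4 ≤ m) :
    ∃ Γ : AddSubmonoid ℕ, IsNumerical Γ ∧ edim Γ = 4 ∧ mult Γ = m ∧
      Nat.sqrt (4 * m) - 1 ≤ type Γ := by
  obtain ⟨k, hk⟩ : ∃ k, k = Nat.sqrt m := ⟨_, rfl⟩
  have h1 : k * k ≤ m := by rw [hk]; exact Nat.sqrt_le m
  have h2 : m < (k + 1) * (k + 1) := by rw [hk]; exact Nat.lt_succ_sqrt m
  have hk2 : 2 ≤ k := by
    by_contra hlt
    have : k ≤ 1 := by omega
    have : (k + 1) * (k + 1) ≤ 2 * 2 := Nat.mul_le_mul (by omega) (by omega)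
    omega
  obtain ⟨s, hs⟩ : ∃ s, m = k * k + s := ⟨m - k * k, by omega⟩
  have hs2 : s ≤ 2 * k := by
    have : (k + 1) * (k + 1) = k * k + 2 * k + 1 := by ring
    omega
  rcases Nat.lt_or_ge k s with hc | hc
  · -- family B
    obtain ⟨t, ht⟩ : ∃ t, s = k + t := ⟨s - k, by omega⟩
    obtain ⟨Γ, g1, g2, g3, g4⟩ := lowB (k := k) (s := t) (m := m) hk2 (by omega) (by omega)
      (by rw [hs, ht]; ring)
    refine ⟨Γ, g1, g2, g3, le_trans ?_ g4⟩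
    have : Nat.sqrt (4 * m) < 2 * k + 2 := by
      rw [Nat.sqrt_lt]
      have : (2 * k + 2) * (2 * k + 2) = 4 * ((k + 1) * (k + 1)) := by ring
      omega
    omega
  · -- family A
    obtain ⟨Γ, g1, g2, g3, g4⟩ := lowA (k := k) (s := s) (m := m) hk2 hc (by rw [hs]; ring)
    refine ⟨Γ, g1, g2, g3, le_trans ?_ g4⟩
    have : Nat.sqrt (4 * m) < 2 * k + 1 := by
      rw [Nat.sqrt_lt]
      have : (2 * k + 1) * (2 * k + 1) = 4 * (k * k) + 4 * k + 1 := by ring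
      omega
    omega

theorem T3_eq (m : ℕ) (hm : 4 ≤ m) : T 3 m = Nat.sqrt (4 * m) - 1 := by
  have hub : ∀ t ∈ {t | ∃ Γ : AddSubmonoid ℕ, IsNumerical Γ ∧ edim Γ = 3 + 1 ∧ mult Γ = m ∧
      type Γ = t}, t ≤ Nat.sqrt (4 * m) - 1 := by
    rintro t ⟨Γ, g1, g2, g3, rfl⟩
    have h := type_upper (by omega) g1 g2 g3
    have h' : type Γ + 1 ≤ Nat.sqrt (4 * m) := by
      rw [Nat.le_sqrt, ← sq]
      exact h
    omega
  obtain ⟨Γ, g1, g2, g3, g4⟩ := exists_type_ge m hm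
  unfold T
  apply le_antisymm
  · exact csSup_le ⟨_, Γ, g1, g2, g3, rfl⟩ hub
  · exact le_trans g4 (le_csSup ⟨_, hub⟩ ⟨Γ, g1, g2, g3, rfl⟩)

end Pool.Agent.T3
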