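import Mathlib

/-!
# The quadratic lemma

For `u ≤ b + c`, `v ≤ a + c`, `w ≤ a + b` (all nonnegative) one has
`0 ≤ 4 (u a + v b + w c) + u² + v² + w² - 2 u v - 2 u w - 2 v w`.

Proof.  If `u ≤ v + w`, `v ≤ u + w`, `w ≤ u + v`, put `α = v + w - u`, `β = u + w - v`,
`γ = u + v - w` (all `≥ 0`); `β + γ = 2 u`, `α + γ = 2 v`, `α + β = 2 w`, so
`2 (u a + v b + w c) = α (b + c) + β (a + c) + γ (a + b) ≥ α u + β v + γ w`, and
`2 (α u + β v + γ w) + u² + v² + w² - 2uv - 2uw - 2vw = α β + β γ + γ α ≥ 0`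
(check by expanding).  If `u > v + w`: `u a + v b + w c ≥ w (a + c) + v (a + b) ≥ 2 v w`, and
`8 v w + u² + v² + w² - 2uv - 2uw - 2vw = (u - v - w)² + 4 v w`.  The other cases are symmetric.

`ident`: the identity behind the final estimates (just `ring`).
-/

namespace Pool.Agent.T3

theorem ql {a b c u v w : ℤ} (ha : 0 ≤ a) (hb : 0 ≤ b) (hc : 0 ≤ c) (hu : 0 ≤ u) (hv : 0 ≤ v)
    (hw : 0 ≤ w) (h1 : u ≤ b + c) (h2 : v ≤ a + c) (h3 : w ≤ a + b) :
    0 ≤ 4 * (u * a + v * b + w * c) + (u * u + v * v + w * w - 2 * u * v - 2 * u * w - 2 * v * w) := by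
  by_cases h4 : v + w < u
  · have e1 : (v + w) * a ≤ u * a := mul_le_mul_of_nonneg_right h4.le ha
    have e2 : v * w ≤ v * (a + b) := mul_le_mul_of_nonneg_left h3 hv
    have e3 : w * v ≤ w * (a + c) := mul_le_mul_of_nonneg_left h2 hw
    have e4 : 0 ≤ v * w := mul_nonneg hv hw
    nlinarith [sq_nonneg (u - v - w)]
  · by_cases h5 : u + w < v
    · have e1 : (u + w) * b ≤ v * b := mul_le_mul_of_nonneg_right h5.le hb
      have e2 : u * w ≤ u * (a + b) := mul_le_mul_of_nonneg_left h3 hu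
      have e3 : w * u ≤ w * (b + c) := mul_le_mul_of_nonneg_left h1 hw
      have e4 : 0 ≤ u * w := mul_nonneg hu hw
      nlinarith [sq_nonneg (v - u - w)]
    · by_cases h6 : u + v < w
      · have e1 : (u + v) * c ≤ w * c := mul_le_mul_of_nonneg_right h6.le hc
        have e2 : u * v ≤ u * (a + c) := mul_le_mul_of_nonneg_left h2 hu
        have e3 : v * u ≤ v * (b + c) := mul_le_mul_of_nonneg_left h1 hv
        have e4 : 0 ≤ u * v := mul_nonneg hu hv
        nlinarith [sq_nonneg (w - u - v)]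
      · push Not at h4 h5 h6
        have ha' : 0 ≤ v + w - u := by linarith
        have hb' : 0 ≤ u + w - v := by linarith
        have hc' : 0 ≤ u + v - w := by linarith
        have e1 : (v + w - u) * u ≤ (v + w - u) * (b + c) := mul_le_mul_of_nonneg_left h1 ha'
        have e2 : (u + w - v) * v ≤ (u + w - v) * (a + c) := mul_le_mul_of_nonneg_left h2 hb'
        have e3 : (u + v - w) * w ≤ (u + v - w) * (a + b) := mul_le_mul_of_nonneg_left h3 hc'
        have e4 := mul_nonneg ha' hb'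
        have e5 := mul_nonneg hb' hc'
        have e6 := mul_nonneg ha' hc'
        nlinarith

theorem ident (a b c n1 n2 n3 e u v w : ℤ) (hu : u = b + c - n1 - e + 1)
    (hv : v = a + c - n2 - e + 1) (hw : w = a + b - n3 - e + 1) :
    4 * ((a + 1) * (b + 1) * (c + 1)) + 2 * (n1 * (n1 + 1) + n2 * (n2 + 1) + n3 * (n3 + 1))
      - (n1 + n2 + n3 + e + 1) ^ 2 =
    4 * (a * b * c) + 4 * (u * a + v * b + w * c) +
      (u * u + v * v + w * w - 2 * u * v - 2 * u * w - 2 * v * w) + 2 * (u + v + w)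
      + 2 * (e * (e - 1)) := by
  subst hu hv hw
  ring

end Pool.Agent.T3
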