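import Pool.Agent.T3.Defs
import Pool.Agent.T3.QL

/-!
# Arithmetic of case II

All numerical data of case II (center `(a,b,c) ≥ F`) are collected in the structure `Dat`, which is
invariant under permutations of the coordinates.

For the X-leg write `lowX :⇔ bX < f2 ∨ gX < f3`, `JX = 1` if `f2 < bX ∧ f3 < gX` (else `0`),
`dX = dXy + dXz`; similarly for `Y` (`aY, gY`; thresholds `f1, f3`) and `Z` (`aZ, bZ`; `f1, f2`).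
`a' = a - f1`, `b' = b - f2`, `c' = c - f3`, `A' = a'+1`, ...

## Leg facts (`leg_facts`)

Since not both slice widths are top, `dX ≤ 1`.  Put `κX = 1` if `dX = 1` and not `lowX`; `κX = 0`
if (`dX = 1` and `lowX`) or (`dX = 0` and not `lowX`); `κX = -1` if `dX = 0` and `lowX`.  Then
  (L1) `nX ≤ f2 + f3 - 1 + κX + JX` (from `hn`; for `κX = -1` and an empty leg: `0 ≤ f2 + f3 - 2`).
  (L2) `JX = 1 → b' + c' ≥ 1`; if moreover neither `bX = b+1` nor `gX = c+1`, then `b' ≥ 1` and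
       `c' ≥ 1`.
  (L3) `κX = 1` and `dXy = 1`: `bX = b+1`, `f3 ≤ gX ≤ c`.  (similarly `dXz = 1`)
  (L4) `nX (nX+1) ≤ 2 VX + 4`, and `≤ 2 VX` unless `JX = 1` and `κX = 1`.
-/

namespace Pool.Agent.T3

/-- The data of case II. -/
structure Dat (f1 f2 f3 a b c bX gX aY gY aZ bZ dXy dXz dYx dYz dZx dZy nX VX nY VY nZ VZ
    e1 e2 e3 : ℕ) : Prop where
  p1 : 1 ≤ f1
  p2 : 1 ≤ f2
  p3 : 1 ≤ f3
  h1 : f1 ≤ a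
  h2 : f2 ≤ b
  h3 : f3 ≤ c
  lX : LegSum f2 f3 b c bX gX dXy dXz nX VX
  lY : LegSum f1 f3 a c aY gY dYx dYz nY VY
  lZ : LegSum f1 f2 a b aZ bZ dZx dZy nZ VZ
  s2xy : ¬ (f2 ≤ bX ∧ bX ≤ b ∧ f1 ≤ aY ∧ aY ≤ a)
  s2xz : ¬ (f3 ≤ gX ∧ gX ≤ c ∧ f1 ≤ aZ ∧ aZ ≤ a)
  s2yz : ¬ (f3 ≤ gY ∧ gY ≤ c ∧ f2 ≤ bZ ∧ bZ ≤ b)
  s3Xy : 1 ≤ dXy → aY < f1 ∨ gY < f3
  s3Xz : 1 ≤ dXz → aZ < f1 ∨ bZ < f2
  s3Yx : 1 ≤ dYx → bX < f2 ∨ gX < f3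
  s3Yz : 1 ≤ dYz → aZ < f1 ∨ bZ < f2
  s3Zx : 1 ≤ dZx → bX < f2 ∨ gX < f3
  s3Zy : 1 ≤ dZy → aY < f1 ∨ gY < f3
  s4xy : 1 ≤ dXy → 1 ≤ dYx → gX + 1 = f3 → gY + 1 = f3 →
    nX * (nX + 1) + 4 ≤ 2 * VX ∧ nY * (nY + 1) + 4 ≤ 2 * VY
  s4xz : 1 ≤ dXz → 1 ≤ dZx → bX + 1 = f2 → bZ + 1 = f2 →
    nX * (nX + 1) + 4 ≤ 2 * VX ∧ nZ * (nZ + 1) + 4 ≤ 2 * VZ
  s4yz : 1 ≤ dYz → 1 ≤ dZy → aY + 1 = f1 → aZ + 1 = f1 →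
    nY * (nY + 1) + 4 ≤ 2 * VY ∧ nZ * (nZ + 1) + 4 ≤ 2 * VZ
  e1l : e1 ≤ 1
  e2l : e2 ≤ 1
  e3l : e3 ≤ 1
  e1h : e1 = 1 → ¬ (gY = c + 1 ∧ f1 ≤ aY) ∧ ¬ (bZ = b + 1 ∧ f1 ≤ aZ)
  e2h : e2 = 1 → ¬ (gX = c + 1 ∧ f2 ≤ bX) ∧ ¬ (aZ = a + 1 ∧ f2 ≤ bZ)
  e3h : e3 = 1 → ¬ (bX = b + 1 ∧ f3 ≤ gX) ∧ ¬ (aY = a + 1 ∧ f3 ≤ gY)

/-- the symmetric form of a leg summary -/
theorem LegSum.symm {p q B C β0 γ0 dβ dγ n V : ℕ} (h : LegSum p q B C β0 γ0 dβ dγ n V) :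
    LegSum q p C B γ0 β0 dγ dβ n V := by
  refine ⟨h.hγ, h.hβ, fun ht => h.htop ⟨ht.2, ht.1⟩, h.hz.symm, h.dγ1, h.dβ1, h.dγt, h.dβt,
    h.dγq, h.dβp, ?_, h.hv, ?_⟩
  · have h1 := h.hn
    by_cases hc : p < β0 ∧ q < γ0
    · rw [if_pos hc] at h1
      rw [if_pos hc.symm]
      omega
    · rw [if_neg hc] at h1
      rw [if_neg (fun hh => hc hh.symm)]
      omega
  · intro hn
    apply h.hv0
    rintro ⟨h1, h2, h3⟩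
    exact hn ⟨h2, h1, by omega⟩

/-- exchange `x` and `y` -/
theorem Dat.swap {f1 f2 f3 a b c bX gX aY gY aZ bZ dXy dXz dYx dYz dZx dZy nX VX nY VY nZ VZ
    e1 e2 e3 : ℕ} (h : Dat f1 f2 f3 a b c bX gX aY gY aZ bZ dXy dXz dYx dYz dZx dZy
      nX VX nY VY nZ VZ e1 e2 e3) :
    Dat f2 f1 f3 b a c aY gY bX gX bZ aZ dYx dYz dXy dXz dZy dZx nY VY nX VX nZ VZ
      e2 e1 e3 where
  p1 := h.p2
  p2 := h.p1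
  p3 := h.p3
  h1 := h.h2
  h2 := h.h1
  h3 := h.h3
  lX := h.lY
  lY := h.lX
  lZ := h.lZ.symm
  s2xy := fun ⟨x1, x2, x3, x4⟩ => h.s2xy ⟨x3, x4, x1, x2⟩
  s2xz := h.s2yz
  s2yz := h.s2xz
  s3Xy := h.s3Yx
  s3Xz := fun x => (h.s3Yz x).symm
  s3Yx := h.s3Xy
  s3Yz := fun x => (h.s3Xz x).symm
  s3Zx := h.s3Zy
  s3Zy := h.s3Zx
  s4xy := fun x1 x2 x3 x4 => (h.s4xy x2 x1 x4 x3).symm
  s4xz := h.s4yz
  s4yz := h.s4xz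
  e1l := h.e2l
  e2l := h.e1l
  e3l := h.e3l
  e1h := h.e2h
  e2h := h.e1h
  e3h := fun x => (h.e3h x).symm

/-- cyclic rotation: the new first coordinate is the old third one -/
theorem Dat.rot {f1 f2 f3 a b c bX gX aY gY aZ bZ dXy dXz dYx dYz dZx dZy nX VX nY VY nZ VZ
    e1 e2 e3 : ℕ} (h : Dat f1 f2 f3 a b c bX gX aY gY aZ bZ dXy dXz dYx dYz dZx dZy
      nX VX nY VY nZ VZ e1 e2 e3) :
    Dat f3 f1 f2 c a b aZ bZ gX bX gY aY dZx dZy dXz dXy dYz dYx nZ VZ nX VX nY VY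
      e3 e1 e2 where
  p1 := h.p3
  p2 := h.p1
  p3 := h.p2
  h1 := h.h3
  h2 := h.h1
  h3 := h.h2
  lX := h.lZ
  lY := h.lX.symm
  lZ := h.lY.symm
  s2xy := fun ⟨x1, x2, x3, x4⟩ => h.s2xz ⟨x3, x4, x1, x2⟩
  s2xz := fun ⟨x1, x2, x3, x4⟩ => h.s2yz ⟨x3, x4, x1, x2⟩
  s2yz := h.s2xy
  s3Xy := fun x => (h.s3Zx x).symm
  s3Xz := fun x => (h.s3Zy x).symm
  s3Yx := h.s3Xz
  s3Yz := fun x => (h.s3Xy x).symm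
  s3Zx := h.s3Yz
  s3Zy := fun x => (h.s3Yx x).symm
  s4xy := fun x1 x2 x3 x4 => (h.s4xz x2 x1 x4 x3).symm
  s4xz := fun x1 x2 x3 x4 => (h.s4yz x2 x1 x4 x3).symm
  s4yz := h.s4xy
  e1l := h.e3l
  e2l := h.e1l
  e3l := h.e2l
  e1h := h.e3h
  e2h := fun x => (h.e1h x).symm
  e3h := fun x => (h.e2h x).symm

/-- The three kinds of legs (`κ = 1`; `κ = 0`, not low; low). `J` is the indicator of
`p < β0 ∧ q < γ0`. -/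
theorem leg_facts {p q B C β0 γ0 dβ dγ n V : ℕ} (h : LegSum p q B C β0 γ0 dβ dγ n V)
    (hp : 1 ≤ p) (hq : 1 ≤ q) (hB : p ≤ B) (hC : q ≤ C) :
    ∃ J : ℕ, J ≤ 1 ∧ (J = 1 → p < β0 ∧ q < γ0 ∧ (p + 1 ≤ B ∨ q + 1 ≤ C)) ∧
      ( -- κ = 1
       (((dβ = 1 ∧ dγ = 0 ∧ β0 = B + 1 ∧ q ≤ γ0 ∧ γ0 ≤ C ∧ (J = 1 → q + 1 ≤ C)) ∨
         (dβ = 0 ∧ dγ = 1 ∧ γ0 = C + 1 ∧ p ≤ β0 ∧ β0 ≤ B ∧ (J = 1 → p + 1 ≤ B))) ∧
        n ≤ p + q + J ∧ n * (n + 1) ≤ 2 * V + 4 * J) ∨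
       -- κ = 0, not low
       (dβ = 0 ∧ dγ = 0 ∧ p ≤ β0 ∧ q ≤ γ0 ∧ n + 1 ≤ p + q + J ∧ n * (n + 1) ≤ 2 * V) ∨
       -- low
       ((β0 < p ∨ γ0 < q) ∧ J = 0 ∧ dβ + dγ ≤ 1 ∧ n + 2 ≤ p + q + (dβ + dγ) ∧
        n * (n + 1) ≤ 2 * V)) := by
  have hβ := h.hβ
  have hγ := h.hγ
  have htop := h.htop
  have hb1 := h.dβ1
  have hg1 := h.dγ1
  have hbt := h.dβt
  have hgt := h.dγt
  have hn := h.hn
  have hv := h.hv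
  have hv0 := h.hv0
  generalize hM : n * (n + 1) = M at hv hv0
  by_cases hJ : p < β0 ∧ q < γ0
  · rw [if_pos hJ] at hn
    obtain ⟨hJ1, hJ2⟩ := hJ
    refine ⟨1, le_rfl, fun _ => ⟨hJ1, hJ2, by omega⟩, ?_⟩
    rcases (by omega : dβ = 0 ∨ dβ = 1) with d1 | d1 <;>
      rcases (by omega : dγ = 0 ∨ dγ = 1) with d2 | d2
    · right; left
      have := hv0 (by omega)
      omega
    · left
      omega
    · left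
      omega
    · omega
  · rw [if_neg hJ] at hn
    have hv1 := hv0 (fun hh => hJ ⟨hh.1, hh.2.1⟩)
    refine ⟨0, by omega, by omega, ?_⟩
    by_cases hl : β0 < p ∨ γ0 < q
    · right; right
      omega
    · rcases (by omega : dβ = 0 ∨ dβ = 1) with d1 | d1 <;>
        rcases (by omega : dγ = 0 ∨ dγ = 1) with d2 | d2
      · right; left
        omega
      · left
        omega
      · left
        omega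
      · omega

end Pool.Agent.T3
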