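import Pool.Agent.T3.ArithII

/-!
# Case II arithmetic, `e1 + e2 + e3 ≤ 1`

Notation of `ArithII.lean`.  Use `ident` with `e = 1`, over `ℤ`: `u = b + c - nX`, `v = a + c - nY`,
`w = a + b - nZ`, `D = a b c - A' B' C' ≥ 0` (`a ≥ A'`, ...).  With `t = nX + nY + nZ + 1`:
`G := 4 (core + VX + VY + VZ) - (t+1)² ≥ 4 D + QL + 2 (u+v+w) - 8 · #bad`, where `QL` is the
expression of `ql` and a leg is bad if `κ = J = 1` (`leg_facts`).

* `u ≥ b' + c' + 1 - κX - JX ≥ 0` (`JX = 1` implies `b' + c' ≥ 1`); similarly `v, w ≥ 0`; so `QL ≥ 0`.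
  If no leg is bad: done.
* A leg is bad, by symmetry (`Dat.swap`, `Dat.rot`) the X-leg with `dXy = 1`: `bX = b+1`,
  `f3 < gX ≤ c`, so `c' ≥ 1`.  `s3Xy`: `Y` is low, `JY = 0`, `κY ≤ 0`, so
  `v ≥ a' + c' + 1 ≥ 2`.  `Z`: `s2xz` gives `aZ < f1` or `aZ = a+1`.  If `aZ < f1`, `Z` is low, `JZ = 0`,
  `κZ ≤ 0`, `w ≥ 1`.  If `aZ = a+1`: `dZx = 0` by `s3Zx` (`X` is not low), `bZ ≤ b` so `dZy = 0`;
  `κZ ≤ 0`; if `JZ = 1` then `f2 < bZ ≤ b`, `b' ≥ 1`, `w ≥ a' + b' + 1 - JZ ≥ 1`; if `JZ = 0`, `w ≥ 1`.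
  So the other legs are not bad, and we need `QL + 2 (u+v+w) ≥ 8` with `u ≥ 0`, `v ≥ 2`, `w ≥ 1`:
  clear if `u ≥ 1` (`QL ≥ 0`); if `u = 0`, `QL = 4 (v b + w c) + (v-w)² ≥ 12`.
-/

namespace Pool.Agent.T3

/-- integer form of the final estimate -/
theorem arithII1_fin {f1 f2 f3 a b c nX VX nY VY nZ VZ e k : ℕ} (p1 : 1 ≤ f1) (p2 : 1 ≤ f2)
    (p3 : 1 ≤ f3) (h1 : f1 ≤ a) (h2 : f2 ≤ b) (h3 : f3 ≤ c) (he : e ≤ 1)
    (hu : nX ≤ b + c) (hv : nY ≤ a + c) (hw : nZ ≤ a + b)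
    (hV : 2 * (nX * (nX + 1)) + 2 * (nY * (nY + 1)) + 2 * (nZ * (nZ + 1)) ≤
      4 * (VX + VY + VZ) + k)
    (hk : (k : ℤ) ≤ 4 * (((b : ℤ) + c - nX) * a + ((a : ℤ) + c - nY) * b + ((a : ℤ) + b - nZ) * c) +
      (((b : ℤ) + c - nX) * ((b : ℤ) + c - nX) + ((a : ℤ) + c - nY) * ((a : ℤ) + c - nY) +
        ((a : ℤ) + b - nZ) * ((a : ℤ) + b - nZ) - 2 * ((b : ℤ) + c - nX) * ((a : ℤ) + c - nY) -
        2 * ((b : ℤ) + c - nX) * ((a : ℤ) + b - nZ) - 2 * ((a : ℤ) + c - nY) * ((a : ℤ) + b - nZ)) +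
      2 * (((b : ℤ) + c - nX) + ((a : ℤ) + c - nY) + ((a : ℤ) + b - nZ))) :
    (nX + nY + nZ + e + 1) ^ 2 + 4 * ((a + 1 - f1) * (b + 1 - f2) * (c + 1 - f3)) ≤
      4 * ((a + 1) * (b + 1) * (c + 1) + VX + VY + VZ) := by
  have hid := ident (a : ℤ) b c nX nY nZ 1 (b + c - nX) (a + c - nY) (a + b - nZ) (by ring)
    (by ring) (by ring)
  have hA : (a + 1 - f1) * (b + 1 - f2) * (c + 1 - f3) ≤ a * b * c :=
    Nat.mul_le_mul (Nat.mul_le_mul (by omega) (by omega)) (by omega)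
  have hsq : (nX + nY + nZ + e + 1) ^ 2 ≤ (nX + nY + nZ + 1 + 1) ^ 2 :=
    Nat.pow_le_pow_left (by omega) 2
  zify at hsq hA hV ⊢
  nlinarith [hid, hsq, hA, hV, hk]

theorem arithII1_core {f1 f2 f3 a b c bX gX aY gY aZ bZ dXy dXz dYx dYz dZx dZy nX VX nY VY nZ VZ
    e1 e2 e3 : ℕ} (h : Dat f1 f2 f3 a b c bX gX aY gY aZ bZ dXy dXz dYx dYz dZx dZy
      nX VX nY VY nZ VZ e1 e2 e3) (he : e1 + e2 + e3 ≤ 1)
    (hd : dXy = 1) (hb : bX = b + 1) (hg : f3 < gX) (hg' : gX ≤ c)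
    (hn : nX ≤ f2 + f3 + 1) (hn2 : nX * (nX + 1) ≤ 2 * VX + 4) :
    (nX + nY + nZ + e1 + e2 + e3 + 1) ^ 2 + 4 * ((a + 1 - f1) * (b + 1 - f2) * (c + 1 - f3)) ≤
      4 * ((a + 1) * (b + 1) * (c + 1) + VX + VY + VZ) := by
  have p1 := h.p1
  have p2 := h.p2
  have p3 := h.p3
  have h1 := h.h1
  have h2 := h.h2
  have h3 := h.h3
  have sY := h.s3Xy (by omega)
  have sZ := h.s3Zx
  have s2 := h.s2xz
  have hu : nX ≤ b + c := by omega
  -- the Y leg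
  have hY : nY + 1 ≤ f1 + f3 ∧ nY * (nY + 1) ≤ 2 * VY := by
    obtain ⟨J, hJ1, hJ2, hc⟩ := leg_facts h.lY p1 p3 h1 h3
    rcases hc with ⟨hc, hc2, hc3⟩ | ⟨hc1, hc2, hc3, hc4, hc5, hc6⟩ | ⟨hc1, hc2, hc3, hc4, hc5⟩
    · exfalso
      rcases hc with hc | hc
      · omega
      · omega
    · exfalso; omega
    · exact ⟨by omega, hc5⟩
  have hZ : nZ + 1 ≤ a + b ∧ nZ * (nZ + 1) ≤ 2 * VZ := by
    obtain ⟨J, hJ1, hJ2, hc⟩ := leg_facts h.lZ p1 p2 h1 h2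
    have htop := h.lZ.htop
    have hβ := h.lZ.hβ
    have hγ := h.lZ.hγ
    rcases hc with ⟨hc, hc2, hc3⟩ | ⟨hc1, hc2, hc3, hc4, hc5, hc6⟩ | ⟨hc1, hc2, hc3, hc4, hc5⟩
    · exfalso
      rcases hc with hc | hc
      · have := sZ (by omega)
        omega
      · exact s2 ⟨by omega, by omega, by omega, by omega⟩
    · refine ⟨?_, hc6⟩
      have haZ : a < aZ := by
        by_contra hcon
        exact s2 ⟨by omega, by omega, by omega, by omega⟩
      have hbZ : bZ ≤ b := by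
        by_contra hcon
        exact htop ⟨by omega, by omega⟩
      rcases Nat.lt_or_ge J 1 with hJ | hJ
      · omega
      · have := hJ2 (by omega)
        omega
    · exact ⟨by omega, hc5⟩
  obtain ⟨hY1, hY2⟩ := hY
  obtain ⟨hZ1, hZ2⟩ := hZ
  have hv : nY ≤ a + c := by omega
  have hw : nZ ≤ a + b := by omega
  have key := arithII1_fin (k := 8) (e := e1 + e2 + e3) (VX := VX) (VY := VY) (VZ := VZ)
    p1 p2 p3 h1 h2 h3 he hu hv hw (by omega) ?_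
  · have hr : nX + nY + nZ + e1 + e2 + e3 + 1 = nX + nY + nZ + (e1 + e2 + e3) + 1 := by ring
    rw [hr]
    exact key
  · have hq := ql (a := (a : ℤ)) (b := b) (c := c) (u := (b : ℤ) + c - nX) (v := (a : ℤ) + c - nY)
      (w := (a : ℤ) + b - nZ) (by positivity) (by positivity) (by positivity) (by omega) (by omega)
      (by omega) (by omega) (by omega) (by omega)
    have hvv : (2 : ℤ) ≤ (a : ℤ) + c - nY := by omega
    have hww : (1 : ℤ) ≤ (a : ℤ) + b - nZ := by omega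
    have huu : (0 : ℤ) ≤ (b : ℤ) + c - nX := by omega
    have hb1 : (1 : ℤ) ≤ b := by omega
    have hc1 : (1 : ℤ) ≤ c := by omega
    generalize (b : ℤ) + c - nX = u at *
    generalize (a : ℤ) + c - nY = v at *
    generalize (a : ℤ) + b - nZ = w at *
    rcases lt_or_ge u 1 with hu0 | hu1
    · have hu00 : u = 0 := by omega
      subst hu00
      have h1 : 0 ≤ (v - 2) * ((b : ℤ)) := by
        apply mul_nonneg <;> omega
      have h2 : 0 ≤ (w - 1) * ((c : ℤ)) := by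
        apply mul_nonneg <;> omega
      push_cast
      nlinarith [sq_nonneg (v - w), h1, h2]
    · push_cast
      linarith

theorem arithII1 {f1 f2 f3 a b c bX gX aY gY aZ bZ dXy dXz dYx dYz dZx dZy nX VX nY VY nZ VZ
    e1 e2 e3 : ℕ} (h : Dat f1 f2 f3 a b c bX gX aY gY aZ bZ dXy dXz dYx dYz dZx dZy
      nX VX nY VY nZ VZ e1 e2 e3) (he : e1 + e2 + e3 ≤ 1) :
    (nX + nY + nZ + e1 + e2 + e3 + 1) ^ 2 + 4 * ((a + 1 - f1) * (b + 1 - f2) * (c + 1 - f3)) ≤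
      4 * ((a + 1) * (b + 1) * (c + 1) + VX + VY + VZ) := by
  have p1 := h.p1
  have p2 := h.p2
  have p3 := h.p3
  have h1 := h.h1
  have h2 := h.h2
  have h3 := h.h3
  -- each leg is either good or bad in one of two ways
  have trich : ∀ {p q B C β0 γ0 dβ dγ n V : ℕ}, LegSum p q B C β0 γ0 dβ dγ n V →
      1 ≤ p → 1 ≤ q → p ≤ B → q ≤ C →
      (n ≤ B + C ∧ n * (n + 1) ≤ 2 * V) ∨
      (dβ = 1 ∧ β0 = B + 1 ∧ q < γ0 ∧ γ0 ≤ C ∧ n ≤ p + q + 1 ∧ n * (n + 1) ≤ 2 * V + 4) ∨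
      (dγ = 1 ∧ γ0 = C + 1 ∧ p < β0 ∧ β0 ≤ B ∧ n ≤ q + p + 1 ∧ n * (n + 1) ≤ 2 * V + 4) := by
    intro p q B C β0 γ0 dβ dγ n V hl hp hq hB hC
    obtain ⟨J, hJ1, hJ2, hc⟩ := leg_facts hl hp hq hB hC
    rcases hc with ⟨hc, hc2, hc3⟩ | ⟨hc1, hc2, hc3, hc4, hc5, hc6⟩ | ⟨hc1, hc2, hc3, hc4, hc5⟩
    · rcases Nat.lt_or_ge J 1 with hJ | hJ
      · left
        exact ⟨by omega, by omega⟩
      · right
        have hJ3 := hJ2 (by omega)
        rcases hc with hc | hc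
        · left
          exact ⟨by omega, by omega, by omega, by omega, by omega, by omega⟩
        · right
          exact ⟨by omega, by omega, by omega, by omega, by omega, by omega⟩
    · left
      refine ⟨?_, hc6⟩
      omega
    · left
      refine ⟨?_, hc5⟩
      omega
  rcases trich h.lX p2 p3 h2 h3 with gX' | ⟨x1, x2, x3, x4, x5, x6⟩ | ⟨x1, x2, x3, x4, x5, x6⟩
  · rcases trich h.lY p1 p3 h1 h3 with gY' | ⟨x1, x2, x3, x4, x5, x6⟩ | ⟨x1, x2, x3, x4, x5, x6⟩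
    · rcases trich h.lZ p1 p2 h1 h2 with gZ' | ⟨x1, x2, x3, x4, x5, x6⟩ | ⟨x1, x2, x3, x4, x5, x6⟩
      · obtain ⟨gX1, gX2⟩ := gX'
        obtain ⟨gY1, gY2⟩ := gY'
        obtain ⟨gZ1, gZ2⟩ := gZ'
        have key := arithII1_fin (k := 0) (e := e1 + e2 + e3) (VX := VX) (VY := VY) (VZ := VZ)
          p1 p2 p3 h1 h2 h3 he gX1 gY1 gZ1 (by omega) ?_
        · have hr : nX + nY + nZ + e1 + e2 + e3 + 1 = nX + nY + nZ + (e1 + e2 + e3) + 1 := by ring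
          rw [hr]
          exact key
        · have hq := ql (a := (a : ℤ)) (b := b) (c := c) (u := (b : ℤ) + c - nX)
            (v := (a : ℤ) + c - nY)
            (w := (a : ℤ) + b - nZ) (by positivity) (by positivity) (by positivity) (by omega)
            (by omega) (by omega) (by omega) (by omega) (by omega)
          have hvv : (0 : ℤ) ≤ (a : ℤ) + c - nY := by omega
          have hww : (0 : ℤ) ≤ (a : ℤ) + b - nZ := by omega
          have huu : (0 : ℤ) ≤ (b : ℤ) + c - nX := by omega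
          push_cast
          linarith
      · have := arithII1_core h.rot (by omega) x1 x2 x3 x4 x5 x6
        linarith
      · have := arithII1_core h.rot.rot.swap (by omega) x1 x2 x3 x4 x5 x6
        linarith
    · have := arithII1_core h.swap (by omega) x1 x2 x3 x4 x5 x6
      linarith
    · have := arithII1_core h.rot.rot (by omega) x1 x2 x3 x4 x5 x6
      linarith
  · have := arithII1_core h (by omega) x1 x2 x3 x4 x5 x6
    linarith
  · have := arithII1_core h.rot.swap (by omega) x1 x2 x3 x4 x5 x6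
    linarith

end Pool.Agent.T3
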