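import Pool.Agent.T3.Defs
import Pool.Agent.T3.QL

/-!
# Arithmetic of case I-a

Center `(a,b,c)` with `f1 ≤ a`, `f2 ≤ b`, `c + 1 = f3`.  `u = b + c - nX`, `v = a + c - nY`,
`w = a + b - nZ`.

* `nX ≤ f2 + f3 - 1 ≤ b + c`: in `lX` we have `gX ≤ c+1 = f3`, so `dXz = 0` (`dγq`), the indicator
  vanishes; if `dXy = 1` then `bX = b+1`, so `gX ≤ c = f3 - 1` (`htop`) and
  `nX + 1 ≤ f2 + (f3 - 1) + 1`; otherwise `nX + 1 ≤ f2 + f3`.  Similarly `nY ≤ f1 + f3 - 1`.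
* `dZx + dZy ≤ 1` (`htop`), and if `dZx = 1` and the indicator is `1` then `aZ = a+1`,
  `f2 < bZ ≤ b`, so `nZ ≤ f1 + f2 + 1 ≤ a + b`; in the other cases `nZ ≤ f1 + f2 ≤ a + b` as
  well.
  (If `dZx = 1` and the indicator is `0`: `nZ + 1 ≤ f1 + f2 + 1`.)
* `ident` with `e = 1` and `ql`: `4 m - (t+1)^2 ≥ 4 a b c + QL + 2 (u+v+w) + (2 VZ - nZ (nZ+1)) * 2`,
  `QL ≥ 0`.  Done if `nZ (nZ+1) ≤ 2 VZ`.
* Otherwise the indicator of `lZ` is `1` and `dZx + dZy = 1`, say `dZx = 1` (the other case is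
  symmetric): `b ≥ bZ ≥ f2 + 1 ≥ 2`, and `nZ (nZ+1) ≤ 2 VZ + 4`, so we need
  `4 a b c + QL + 2 (u+v+w) ≥ 8`.  Clear if `c ≥ 1`.
  Let `c = 0`, `f3 = 1`.  If `bX ≥ 1` then `gX = 1 = c+1`, so `bX ≤ b`; similarly `aY ≤ a`.
  By `s2`: `bX < f2` or `aY < f1`.  Moreover `nX ≤ min bX f2`, `nY ≤ min aY f1` (from `hn`, as
  `dXy = dXz = 0` when `c = 0`).
  `QL = 4 (u a + v b - u v) + (u + v - w)^2`, `0 ≤ u ≤ b`, `0 ≤ v ≤ a`, so `u a + v b - u v ≥ u a`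
  and `≥ v b`.  If `bX < f2`: `u ≥ b - f2 + 1 ≥ 2`, `QL ≥ 8`.  If `aY < f1`:
  `v ≥ a - f1 + 1 ≥ 1`, `v b ≥ 2`, `QL ≥ 8`.
-/

namespace Pool.Agent.T3

theorem arithIa_R (a b c nX nY nZ VX VY VZ u v w : ℤ) (hu : u = b + c - nX)
    (hv : v = a + c - nY) (hw : w = a + b - nZ) :
    4 * ((a + 1) * (b + 1) * (c + 1) + VX + VY + VZ) - (1 + nX + nY + nZ + 1) ^ 2 =
      4 * (a * b * c) + (4 * (u * a + v * b + w * c) +
      (u * u + v * v + w * w - 2 * u * v - 2 * u * w - 2 * v * w)) + 2 * (u + v + w)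
      + 2 * (2 * VX - nX * (nX + 1)) + 2 * (2 * VY - nY * (nY + 1))
      + 2 * (2 * VZ - nZ * (nZ + 1)) := by
  subst hu hv hw
  ring

theorem arithIa_ab {a b : ℤ} (h1 : 1 ≤ a) (h2 : 1 ≤ b) : a + b - 1 ≤ a * b := by nlinarith

theorem arithIa_fc {a b u v : ℤ} (u0 : 0 ≤ u) (v0 : 0 ≤ v)
    (ub : u ≤ b) (va : v ≤ a) (h : 2 ≤ u * a ∨ 2 ≤ v * b) : 2 ≤ u * a + v * b - u * v := by
  rcases h with h | h
  · have h6 : 0 ≤ v * (b - u) := mul_nonneg v0 (by linarith)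
    nlinarith
  · have h6 : 0 ≤ u * (a - v) := mul_nonneg u0 (by linarith)
    nlinarith

theorem arithIa_int {a b c nX VX nY VY nZ VZ : ℤ} (h1 : 1 ≤ a) (h2 : 1 ≤ b) (h0 : 0 ≤ c)
    (hX : nX ≤ b + c) (hX' : nX * (nX + 1) ≤ 2 * VX)
    (hY : nY ≤ a + c) (hY' : nY * (nY + 1) ≤ 2 * VY)
    (hZ : nZ ≤ a + b) (hnX : 0 ≤ nX) (hnY : 0 ≤ nY) (hnZ : 0 ≤ nZ)
    (hZ' : nZ * (nZ + 1) ≤ 2 * VZ ∨ (nZ * (nZ + 1) ≤ 2 * VZ + 4 ∧ 3 ≤ a + b ∧
      (c = 0 → 2 ≤ (b - nX) * a ∨ 2 ≤ (a - nY) * b))) :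
    (1 + nX + nY + nZ + 1) ^ 2 ≤ 4 * ((a + 1) * (b + 1) * (c + 1) + VX + VY + VZ) := by
  obtain ⟨u, hu⟩ : ∃ u, u = b + c - nX := ⟨_, rfl⟩
  obtain ⟨v, hv⟩ : ∃ v, v = a + c - nY := ⟨_, rfl⟩
  obtain ⟨w, hw⟩ : ∃ w, w = a + b - nZ := ⟨_, rfl⟩
  have key := arithIa_R a b c nX nY nZ VX VY VZ u v w hu hv hw
  have u0 : 0 ≤ u := by linarith
  have v0 : 0 ≤ v := by linarith
  have w0 : 0 ≤ w := by linarith
  have ub : u ≤ b + c := by linarith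
  have va : v ≤ a + c := by linarith
  have wab : w ≤ a + b := by linarith
  have hql := ql (by linarith) (by linarith) h0 u0 v0 w0 ub va wab
  have habc : 0 ≤ a * b * c := mul_nonneg (mul_nonneg (by linarith) (by linarith)) h0
  rcases hZ' with h | ⟨h3, h4, h5⟩
  · linarith
  · by_cases hc : c = 0
    · have e1 : 4 * (a * b * c) + (4 * (u * a + v * b + w * c) +
          (u * u + v * v + w * w - 2 * u * v - 2 * u * w - 2 * v * w))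
          = 4 * (u * a + v * b - u * v) + (u + v - w) ^ 2 := by
        rw [hc]; ring
      have e2 : u = b - nX := by rw [hu, hc]; ring
      have e3 : v = a - nY := by rw [hv, hc]; ring
      have e4 := h5 hc
      rw [← e2, ← e3] at e4
      have e5 := arithIa_fc u0 v0 (by rw [hc] at ub; linarith) (by rw [hc] at va; linarith) e4
      have e6 := sq_nonneg (u + v - w)
      linarith
    · have hc1 : 1 ≤ c := by omega
      have e1 := arithIa_ab h1 h2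
      have e2 : a * b ≤ a * b * c := le_mul_of_one_le_right (by linarith) hc1
      linarith

theorem arithIa_legX {p q B C β0 γ0 dβ dγ n V : ℕ} (l : LegSum p q B C β0 γ0 dβ dγ n V)
    (hp : 1 ≤ p) (hpB : p ≤ B) (hq : C + 1 = q) :
    n * (n + 1) ≤ 2 * V ∧ n ≤ p + C ∧ (C = 0 → β0 ≤ B ∧ n ≤ min β0 p) := by
  have iX : ¬ (p < β0 ∧ q < γ0) := fun h => by have := l.hγ; omega
  have hn := l.hn
  rw [if_neg iX] at hn
  have hd : dγ = 0 := by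
    by_contra hne
    have h1 := l.hγ
    have h2 := l.dγq (Nat.one_le_iff_ne_zero.2 hne)
    omega
  have h0 : n * (n + 1) ≤ 2 * V := l.hv0 (fun h => iX ⟨h.1, h.2.1⟩)
  have hβ := l.hβ
  have hγ := l.hγ
  have htop := l.htop
  have hz := l.hz
  have hd1 := l.dβ1
  have hdt := l.dβt
  clear l
  refine ⟨h0, ?_, ?_⟩
  · clear h0
    rcases Nat.lt_or_ge 0 dβ with h | h
    · have := hdt h
      omega
    · omega
  · intro hC
    clear h0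
    have hb : β0 ≤ B := by omega
    refine ⟨hb, ?_⟩
    have hdb : dβ = 0 := by
      by_contra hne
      have := hdt (Nat.one_le_iff_ne_zero.2 hne)
      omega
    subst hdb hd
    omega

theorem arithIa_legZ {p q B C β0 γ0 dβ dγ n V : ℕ} (l : LegSum p q B C β0 γ0 dβ dγ n V)
    (hp : 1 ≤ p) (hq : 1 ≤ q) (hpB : p ≤ B) (hqC : q ≤ C) :
    n ≤ B + C ∧ (n * (n + 1) ≤ 2 * V ∨
      (n * (n + 1) ≤ 2 * V + 4 ∧ (q + 1 ≤ C ∨ p + 1 ≤ B))) := by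
  have hn := l.hn
  have hβ := l.hβ
  have hγ := l.hγ
  have htop := l.htop
  have hd1 := l.dβ1
  have hd2 := l.dγ1
  have hdt := l.dβt
  have hdt' := l.dγt
  have hv := l.hv
  have hv0 := l.hv0
  clear l
  constructor
  · clear hv hv0
    by_cases hi : p < β0 ∧ q < γ0
    · rw [if_pos hi] at hn
      omega
    · rw [if_neg hi] at hn
      omega
  · by_cases hi : p < β0 ∧ q < γ0 ∧ 1 ≤ dβ + dγ
    · refine Or.inr ⟨hv, ?_⟩
      clear hv hv0 hn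
      omega
    · exact Or.inl (hv0 hi)

theorem arithIa_prod {a b f1 f2 nX nY bX aY : ℕ} (p1 : 1 ≤ f1) (p2 : 1 ≤ f2) (h1 : f1 ≤ a)
    (h2 : f2 ≤ b) (hnX : nX ≤ min bX f2) (hnY : nY ≤ min aY f1) (hs : bX < f2 ∨ aY < f1)
    (hd : f2 + 1 ≤ b ∨ f1 + 1 ≤ a) :
    2 ≤ ((b : ℤ) - nX) * a ∨ 2 ≤ ((a : ℤ) - nY) * b := by
  rcases hs with hs | hs
  · left
    rcases hd with hd | hd
    · have e1 : (2 : ℤ) ≤ (b : ℤ) - nX := by omega
      have e2 : (1 : ℤ) ≤ a := by omega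
      nlinarith
    · have e1 : (1 : ℤ) ≤ (b : ℤ) - nX := by omega
      have e2 : (2 : ℤ) ≤ a := by omega
      nlinarith
  · right
    rcases hd with hd | hd
    · have e1 : (1 : ℤ) ≤ (a : ℤ) - nY := by omega
      have e2 : (2 : ℤ) ≤ b := by omega
      nlinarith
    · have e1 : (2 : ℤ) ≤ (a : ℤ) - nY := by omega
      have e2 : (1 : ℤ) ≤ b := by omega
      nlinarith

theorem arithIa {f1 f2 f3 a b c bX gX aY gY aZ bZ dXy dXz dYx dYz dZx dZy nX VX nY VY nZ VZ : ℕ}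
    (p1 : 1 ≤ f1) (p2 : 1 ≤ f2) (h1 : f1 ≤ a) (h2 : f2 ≤ b) (h3 : c + 1 = f3)
    (lX : LegSum f2 f3 b c bX gX dXy dXz nX VX)
    (lY : LegSum f1 f3 a c aY gY dYx dYz nY VY)
    (lZ : LegSum f1 f2 a b aZ bZ dZx dZy nZ VZ)
    (s2 : ¬ (f2 ≤ bX ∧ bX ≤ b ∧ f1 ≤ aY ∧ aY ≤ a)) :
    (1 + nX + nY + nZ + 1) ^ 2 ≤ 4 * ((a + 1) * (b + 1) * (c + 1) + VX + VY + VZ) := by
  obtain ⟨x1, x2, x3⟩ := arithIa_legX lX p2 h2 h3
  obtain ⟨y1, y2, y3⟩ := arithIa_legX lY p1 h1 h3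
  obtain ⟨z1, z2⟩ := arithIa_legZ lZ p1 p2 h1 h2
  clear lX lY lZ
  have hX : nX ≤ b + c := by omega
  have hY : nY ≤ a + c := by omega
  have hZ'' : (nZ : ℤ) * (nZ + 1) ≤ 2 * VZ ∨ ((nZ : ℤ) * (nZ + 1) ≤ 2 * VZ + 4 ∧
      (3 : ℤ) ≤ a + b ∧ ((c : ℤ) = 0 → 2 ≤ ((b : ℤ) - nX) * a ∨ 2 ≤ ((a : ℤ) - nY) * b)) := by
    rcases z2 with h | ⟨h4, h5⟩
    · exact Or.inl (by exact_mod_cast h)
    · have h6 : 3 ≤ a + b := by
        clear x1 x2 x3 y1 y2 y3 z1 s2 h4 hX hY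
        omega
      refine Or.inr ⟨by exact_mod_cast h4, by exact_mod_cast h6, fun hc => ?_⟩
      have hc' : c = 0 := by exact_mod_cast hc
      obtain ⟨x4, x5⟩ := x3 hc'
      obtain ⟨y4, y5⟩ := y3 hc'
      refine arithIa_prod p1 p2 h1 h2 x5 y5 ?_ h5
      by_contra hcon
      push Not at hcon
      exact s2 ⟨hcon.1, x4, hcon.2, y4⟩
  have h := @arithIa_int a b c nX VX nY VY nZ VZ (by exact_mod_cast p1.trans h1)
    (by exact_mod_cast p2.trans h2) (Int.natCast_nonneg _)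
    (by exact_mod_cast hX) (by exact_mod_cast x1)
    (by exact_mod_cast hY) (by exact_mod_cast y1)
    (by exact_mod_cast z1) (Int.natCast_nonneg _) (Int.natCast_nonneg _) (Int.natCast_nonneg _)
    hZ''
  exact_mod_cast h

end Pool.Agent.T3
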