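import Pool.Agent.T3.QL

/-!
# Arithmetic of case I-b

Center `(a,b,c)` with `f1 ≤ a`, `f2 ≤ b`, `c + 2 ≤ f3`.  `u = b + c - nX ≥ 0`, `v = a + c - nY ≥ 0`,
`w = a + b - nZ ≥ -1`, `a, b ≥ 1`, `a + b ≥ 3` (so `a b ≥ 2`).  If `c = 0` then `u + v ≥ 1`.
Let `G = 4 m - (t+1)^2`.  By `ident` (`e = 1`)
`G ≥ 4abc + QL + 2(u+v+w) + 2 (2 VX - nX(nX+1)) + 2 (2 VY - nY(nY+1)) + 2 (2 VZ - nZ(nZ+1))`,
where `QL = 4(ua+vb+wc) + u²+v²+w²-2uv-2uw-2vw`; `QL ≥ 0` if `w ≥ 0` (`ql`).
For `w = -1`: `4abc + QL + 2(u+v+w) = 4c(ab-1) + 4(ua+vb) + (u-v)² + 4(u+v) - 1` (*).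
If `c = 0` then `QL = 4 (ua + vb - uv) + (u+v-w)²` with `u ≤ b`, `v ≤ a`, so `QL ≥ 4 u a` and
`QL ≥ 4 v b`, and more precisely `QL ≥ 4 u a + (u+v-w)²`, `QL ≥ 4 v b + (u+v-w)²`.

1. `nZ (nZ+1) ≤ 2 VZ`.  If `w ≥ 0`, `G ≥ 0`.  If `w = -1`, (*) is `≥ 0`: clear if `c ≥ 1`; if `c = 0`
   use `u + v ≥ 1`.
2. `nZ = 5`, `VZ ≥ 14`: `2 VZ - nZ (nZ+1) ≥ -2`, so we need `4abc + QL + 2(u+v+w) ≥ 4`.
   `a + b ≥ 4` (as `nZ ≤ a+b+1`), so `ab ≥ 3`.  `w = -1`: (*): if `c ≥ 1`, `≥ 8 - 1`; if `c = 0`,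
   `u + v ≥ 1`, `≥ 4 + 1 + 4 - 1`.  `w ≥ 0`: `c ≥ 1` clear; `c = 0`: `QL ≥ 4` as `u + v ≥ 1`.
3. `nZ = 4`, `VZ ≥ 8`, `f1 = f2 = 1`, `c + 2 = f3`: `2 VZ - nZ (nZ+1) ≥ -4`; we need
   `4abc + QL + 2(u+v+w) + 2 (2 VX - nX(nX+1)) + 2 (2 VY - nY(nY+1)) ≥ 8`.  `w = a + b - 4`.
   * `a + b = 3` (`ab = 2`, `w = -1`): (*) `= 4c + 4(ua+vb) + (u-v)² + 4(u+v) - 1`.
     If `u + v ≥ 1` then (*) `≥ 4c + 4 + 1 + 4 - 1 = 8 + 4c` when `u + v = 1`, and more if
     `u + v ≥ 2`.  If `u = v = 0` (so `c ≥ 1`): (*) `= 4c - 1`; `c ≥ 3`: fine (`≥ 11`).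
     `c = 2`: need `2 (2 VX - nX(nX+1)) + ... ≥ 1`: hypothesis `r3` (`nX = b + c`, `nY = a + c`).
     `c = 1`: need `≥ 5`: hypothesis `r2` (gives `8`).
   * `a + b = 4` (`ab ≥ 3`, `w = 0`): `c ≥ 1`: `4abc ≥ 12`.  `c = 0`: `u + v ≥ 1`;
     `QL + 2 (u+v) ≥ 8`, unless (`a = 1`, `b = 3`, `u = 1`, `v = 0`) or (`a = 3`, `b = 1`, `u = 0`,
     `v = 1`), where it is `4 + 1 + 2 = 7`; then `nX = 2` (resp. `nY = 2`), hypothesis `r1`.
   * `a + b ≥ 5` (`w ≥ 1`): `c ≥ 1`: `4abc ≥ 16`; `c = 0`: `u + v ≥ 1`;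
     `QL + 2(u+v+w) ≥ 4 + (u+v-w)² + 2(u+v+w) ≥ 8` (the sum `(s-w)² + 2(s+w) ≥ 4` for `s ≥ 1`,
     `w ≥ 1`).

Checked by computer for small values.
-/

namespace Pool.Agent.T3

theorem arithIb_R (a b c nX nY nZ VX VY VZ u v w : ℤ) (hu : u = b + c - nX)
    (hv : v = a + c - nY) (hw : w = a + b - nZ) :
    4 * ((a + 1) * (b + 1) * (c + 1) + VX + VY + VZ) - (1 + nX + nY + nZ + 1) ^ 2 =
      4 * (a * b * c) + (4 * (u * a + v * b + w * c) +
      (u * u + v * v + w * w - 2 * u * v - 2 * u * w - 2 * v * w)) + 2 * (u + v + w)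
      + 2 * (2 * VX - nX * (nX + 1)) + 2 * (2 * VY - nY * (nY + 1))
      + 2 * (2 * VZ - nZ * (nZ + 1)) := by
  subst hu hv hw
  ring

theorem arithIb_enum {a b u v : ℤ} (h1 : 1 ≤ a) (h2 : 1 ≤ b) (h3 : a + b = 4) (u0 : 0 ≤ u)
    (v0 : 0 ≤ v) (ub : u ≤ b) (va : v ≤ a) (huv : 1 ≤ u + v) (n1 : b - u ≠ 2) (n2 : a - v ≠ 2) :
    8 ≤ 4 * (u * a + v * (b - u)) + (u + v) ^ 2 + 2 * (u + v) := by
  have ha : a ≤ 3 := by linarith
  have hb : b = 4 - a := by linarith
  subst hb
  have hv3 : v ≤ 3 := by linarith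
  have hu3 : u ≤ 3 := by linarith
  interval_cases a <;> interval_cases u <;> interval_cases v <;> omega

theorem arithIb_ab {a b : ℤ} (h1 : 1 ≤ a) (h2 : 1 ≤ b) : a + b - 1 ≤ a * b := by nlinarith

theorem arithIb_c {c x y : ℤ} (h1 : 1 ≤ c) (h0 : 0 ≤ y) (h2 : y ≤ x) : y ≤ c * x := by nlinarith

theorem arithIb_sw {s w : ℤ} (h1 : 1 ≤ s) (h2 : 1 ≤ w) : 4 ≤ (s - w) ^ 2 + 2 * (s + w) := by
  nlinarith

theorem arithIb_fc {a b u v : ℤ} (h1 : 1 ≤ a) (h2 : 1 ≤ b) (u0 : 0 ≤ u) (v0 : 0 ≤ v)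
    (ub : u ≤ b) (h : 1 ≤ u + v) : 1 ≤ u * a + v * (b - u) := by
  by_cases h5 : 1 ≤ u
  · have h6 : 0 ≤ v * (b - u) := mul_nonneg v0 (by linarith)
    nlinarith
  · have h7 : u = 0 := by linarith
    subst h7
    nlinarith

theorem arithIb_int {f1 f2 f3 a b c nX VX nY VY nZ VZ : ℤ}
    (h1 : 1 ≤ a) (h2 : 1 ≤ b) (h0 : 0 ≤ c) (h3 : c + 2 ≤ f3)
    (hab : 3 ≤ a + b)
    (hX : nX ≤ b + c) (hX' : nX * (nX + 1) ≤ 2 * VX)
    (hY : nY ≤ a + c) (hY' : nY * (nY + 1) ≤ 2 * VY)
    (hZ : nZ ≤ a + b + 1) (hnX : 0 ≤ nX) (hnY : 0 ≤ nY) (hnZ : 0 ≤ nZ)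
    (hZ' : nZ * (nZ + 1) ≤ 2 * VZ ∨ (nZ = 5 ∧ 14 ≤ VZ) ∨
      (nZ = 4 ∧ 8 ≤ VZ ∧ f1 = 1 ∧ f2 = 1 ∧ c + 2 = f3))
    (b1 : c = 0 → nX + nY + 1 ≤ a + b)
    (r1 : f1 = 1 → f2 = 1 → c = 0 → (nX = 2 → 4 ≤ VX) ∧ (nY = 2 → 4 ≤ VY))
    (r2 : f1 = 1 → f2 = 1 → f3 = 3 → c = 1 →
      (a = 1 → b = 2 → nX = 3 → 8 ≤ VX) ∧ (a = 2 → b = 1 → nY = 3 → 8 ≤ VY))
    (r3 : c = 2 → (a = 1 → b = 2 → nX = 4 → 11 ≤ VX) ∧ (a = 2 → b = 1 → nY = 4 → 11 ≤ VY)) :
    (1 + nX + nY + nZ + 1) ^ 2 ≤ 4 * ((a + 1) * (b + 1) * (c + 1) + VX + VY + VZ) := by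
  obtain ⟨u, hu⟩ : ∃ u, u = b + c - nX := ⟨_, rfl⟩
  obtain ⟨v, hv⟩ : ∃ v, v = a + c - nY := ⟨_, rfl⟩
  obtain ⟨w, hw⟩ : ∃ w, w = a + b - nZ := ⟨_, rfl⟩
  have key := arithIb_R a b c nX nY nZ VX VY VZ u v w hu hv hw
  have u0 : 0 ≤ u := by linarith
  have v0 : 0 ≤ v := by linarith
  have w1 : -1 ≤ w := by linarith
  have ub : u ≤ b + c := by linarith
  have va : v ≤ a + c := by linarith
  have hab2 : a + b - 1 ≤ a * b := arithIb_ab h1 h2
  have huv : c = 0 → 1 ≤ u + v := fun h => by have := b1 h; linarith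
  -- the two lower bounds
  have fua : u ≤ u * a := le_mul_of_one_le_right u0 h1
  have fvb : v ≤ v * b := le_mul_of_one_le_right v0 h2
  -- case `w = -1`
  have fw : w = -1 → 4 * (a * b * c) + (4 * (u * a + v * b + w * c) +
      (u * u + v * v + w * w - 2 * u * v - 2 * u * w - 2 * v * w)) + 2 * (u + v + w)
      = 4 * (c * (a * b - 1)) + 4 * (u * a + v * b) + (u - v) ^ 2 + 4 * (u + v) - 1 := by
    rintro rfl
    ring
  -- case `c = 0`
  have fc : c = 0 → 4 * (a * b * c) + (4 * (u * a + v * b + w * c) +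
      (u * u + v * v + w * w - 2 * u * v - 2 * u * w - 2 * v * w)) + 2 * (u + v + w)
      = 4 * (u * a + v * (b - u)) + (u + v - w) ^ 2 + 2 * (u + v + w) := by
    rintro rfl
    ring
  have fc1 : c = 0 → 1 ≤ u * a + v * (b - u) := fun h =>
    arithIb_fc h1 h2 u0 v0 (by rw [h] at ub; linarith) (huv h)
  have fabc : 1 ≤ c → a * b ≤ a * b * c := fun h =>
    le_mul_of_one_le_right (by linarith) h
  have hql : 0 ≤ w → 0 ≤ 4 * (u * a + v * b + w * c) +
      (u * u + v * v + w * w - 2 * u * v - 2 * u * w - 2 * v * w) := fun h =>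
    ql (by linarith) (by linarith) h0 u0 v0 h ub va (by linarith)
  rcases hZ' with hZ1 | ⟨hZ2, hZ3⟩ | ⟨hZ4, hZ5, e1, e2, e3⟩
  · -- case 1
    by_cases hw0 : 0 ≤ w
    · have := hql hw0
      have h8 : 0 ≤ a * b * c := by positivity
      linarith
    · have hw' : w = -1 := by linarith
      have h9 := fw hw'
      by_cases hc : c = 0
      · have h10 := huv hc
        have h11 : c * (a * b - 1) = 0 := by rw [hc]; ring
        have h12 := sq_nonneg (u - v)
        linarith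
      · have hc1 : 1 ≤ c := by omega
        have h11 : 1 ≤ c * (a * b - 1) := arithIb_c hc1 (by norm_num) (by linarith)
        have h12 := sq_nonneg (u - v)
        linarith
  · -- case 2
    subst hZ2
    by_cases hw0 : 0 ≤ w
    · have h7 := hql hw0
      by_cases hc : c = 0
      · have h10 := fc1 hc
        have h11 := fc hc
        have h12 := sq_nonneg (u + v - w)
        linarith
      · have hc1 : 1 ≤ c := by omega
        have := fabc hc1
        linarith
    · have hw' : w = -1 := by linarith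
      have h9 := fw hw'
      by_cases hc : c = 0
      · have h10 := huv hc
        have h11 : c * (a * b - 1) = 0 := by rw [hc]; ring
        have h12 := sq_nonneg (u - v)
        linarith
      · have hc1 : 1 ≤ c := by omega
        have h11 : 2 ≤ c * (a * b - 1) := arithIb_c hc1 (by norm_num) (by linarith)
        have h12 := sq_nonneg (u - v)
        linarith
  · -- case 3
    subst hZ4
    have q1 := r1 e1 e2
    have q2 := r2 e1 e2
    by_cases hs3 : a + b = 3
    · have hw' : w = -1 := by linarith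
      have h9 := fw hw'
      have hab3 : a * b = 2 := by
        have : a = 1 ∨ a = 2 := by omega
        rcases this with rfl | rfl
        · have : b = 2 := by linarith
          subst this; norm_num
        · have : b = 1 := by linarith
          subst this; norm_num
      have h9' : c * (a * b - 1) = c := by rw [hab3]; ring
      by_cases hs : u + v = 0
      · have hu0 : u = 0 := by linarith
        have hv0 : v = 0 := by linarith
        have hc1 : 1 ≤ c := by
          by_contra hcc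
          have hc0 : c = 0 := by omega
          have := huv hc0
          linarith
        by_cases hc3 : 3 ≤ c
        · have h12 := sq_nonneg (u - v)
          linarith
        · have h12 := sq_nonneg (u - v)
          have : c = 1 ∨ c = 2 := by omega
          have hav : a = 1 ∨ a = 2 := by omega
          rcases this with hc | hc
          · have q := q2 (by linarith) hc
            rcases hav with ha | ha
            · have q' := q.1 ha (by linarith) (by linarith)
              have hn : nX = 3 := by linarith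
              have : nX * (nX + 1) = 12 := by rw [hn]; norm_num
              linarith
            · have q' := q.2 ha (by linarith) (by linarith)
              have hn : nY = 3 := by linarith
              have : nY * (nY + 1) = 12 := by rw [hn]; norm_num
              linarith
          · have q := r3 hc
            rcases hav with ha | ha
            · have q' := q.1 ha (by linarith) (by linarith)
              have hn : nX = 4 := by linarith
              have : nX * (nX + 1) = 20 := by rw [hn]; norm_num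
              linarith
            · have q' := q.2 ha (by linarith) (by linarith)
              have hn : nY = 4 := by linarith
              have : nY * (nY + 1) = 20 := by rw [hn]; norm_num
              linarith
      · by_cases hs2 : 2 ≤ u + v
        · have h12 := sq_nonneg (u - v)
          linarith
        · have hs1 : u + v = 1 := by omega
          have h12 : 1 ≤ (u - v) ^ 2 := by
            have : u - v = 1 ∨ u - v = -1 := by omega
            rcases this with h | h <;> rw [h] <;> norm_num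
          linarith
    · by_cases hs4 : a + b = 4
      · have hw' : w = 0 := by linarith
        by_cases hc : c = 0
        · have h11 := fc hc
          have h10 := huv hc
          have q := q1 hc
          have ub' : u ≤ b := by linarith
          have va' : v ≤ a := by linarith
          have hnX2 : nX = b - u := by linarith
          have hnY2 : nY = a - v := by linarith
          by_cases hsp : nX = 2 ∨ nY = 2
          · have h13 : 4 ≤ 2 * (2 * VX - nX * (nX + 1)) + 2 * (2 * VY - nY * (nY + 1)) := by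
              rcases hsp with h | h
              · have := q.1 h
                have e : nX * (nX + 1) = 6 := by rw [h]; norm_num
                linarith
              · have := q.2 h
                have e : nY * (nY + 1) = 6 := by rw [h]; norm_num
                linarith
            have h14 := fc1 hc
            have h15 := sq_nonneg (u + v - w)
            linarith
          · push Not at hsp
            have h16 := arithIb_enum h1 h2 hs4 u0 v0 ub' va' h10 (by rw [← hnX2]; exact hsp.1)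
              (by rw [← hnY2]; exact hsp.2)
            rw [hw'] at h11 key
            rw [add_zero, sub_zero] at h11
            linarith
        · have hc1 : 1 ≤ c := by omega
          have h17 := fabc hc1
          have h18 := hql (by linarith)
          linarith
      · have hs5 : 5 ≤ a + b := by omega
        have hw' : 1 ≤ w := by linarith
        by_cases hc : c = 0
        · have h11 := fc hc
          have h10 := huv hc
          have h14 := fc1 hc
          have h19 : 4 ≤ (u + v - w) ^ 2 + 2 * (u + v + w) := arithIb_sw h10 hw'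
          linarith
        · have hc1 : 1 ≤ c := by omega
          have h17 := fabc hc1
          have h18 := hql (by linarith)
          linarith

theorem arithIb {f1 f2 f3 a b c nX VX nY VY nZ VZ : ℕ}
    (p1 : 1 ≤ f1) (p2 : 1 ≤ f2) (h1 : f1 ≤ a) (h2 : f2 ≤ b) (h3 : c + 2 ≤ f3)
    (hab : 3 ≤ a + b)
    (hX : nX ≤ b + c) (hX' : nX * (nX + 1) ≤ 2 * VX)
    (hY : nY ≤ a + c) (hY' : nY * (nY + 1) ≤ 2 * VY)
    (hZ : nZ ≤ a + b + 1)
    (hZ' : nZ * (nZ + 1) ≤ 2 * VZ ∨ (nZ = 5 ∧ 14 ≤ VZ) ∨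
      (nZ = 4 ∧ 8 ≤ VZ ∧ f1 = 1 ∧ f2 = 1 ∧ c + 2 = f3))
    (b1 : c = 0 → nX + nY + 1 ≤ a + b)
    (r1 : f1 = 1 → f2 = 1 → c = 0 → (nX = 2 → 4 ≤ VX) ∧ (nY = 2 → 4 ≤ VY))
    (r2 : f1 = 1 → f2 = 1 → f3 = 3 → c = 1 →
      (a = 1 → b = 2 → nX = 3 → 8 ≤ VX) ∧ (a = 2 → b = 1 → nY = 3 → 8 ≤ VY))
    (r3 : c = 2 → (a = 1 → b = 2 → nX = 4 → 11 ≤ VX) ∧ (a = 2 → b = 1 → nY = 4 → 11 ≤ VY)) :
    (1 + nX + nY + nZ + 1) ^ 2 ≤ 4 * ((a + 1) * (b + 1) * (c + 1) + VX + VY + VZ) := by
  have h := @arithIb_int f1 f2 f3 a b c nX VX nY VY nZ VZ (by exact_mod_cast p1.trans h1)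
    (by exact_mod_cast p2.trans h2) (Int.natCast_nonneg _)
    (by exact_mod_cast h3) (by exact_mod_cast hab) (by exact_mod_cast hX)
    (by exact_mod_cast hX') (by exact_mod_cast hY) (by exact_mod_cast hY')
    (by exact_mod_cast hZ) (Int.natCast_nonneg _) (Int.natCast_nonneg _) (Int.natCast_nonneg _)
    (by exact_mod_cast hZ') (by exact_mod_cast b1) (by exact_mod_cast r1) (by exact_mod_cast r2)
    (by exact_mod_cast r3)
  exact_mod_cast h

end Pool.Agent.T3
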