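import Pool.Agent.T3.ArithIa
import Pool.Agent.T3.States
import Pool.Agent.T3.Count
import Pool.Agent.T3.Sym

/-!
# Case I-a

`count0` (note `P a b c` by `cyl`, as `¬ f3 ≤ c`), `legSum` for `P`, `sw P`, `rt P`
(`CylF.sw`, `CylF.rt`, `Ctr.sw`, `Ctr.rt`), `s2`, and `arithIa`.
-/

namespace Pool.Agent.T3

theorem caseIa {P : ℕ → ℕ → ℕ → Prop} {f1 f2 f3 a b c : ℕ} (h : CylF P f1 f2 f3)
    (hc : Ctr P a b c) (h1 : f1 ≤ a) (h2 : f2 ≤ b) (h3 : c + 1 = f3) :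
    (cnt (Mx P) 0 + 1) ^ 2 ≤ 4 * cnt P 0 := by
  have h1' : f1 ≤ a + 1 := by omega
  have h2' : f2 ≤ b + 1 := by omega
  have h3' : f3 ≤ c + 1 := by omega
  have hP : P a b c := h.cyl a b c hc.ab hc.ac hc.bc (by omega)
  obtain ⟨hcnt, hmx⟩ := count0 h.down h.fin hc hP
  have key := arithIa h.p1 h.p2 h1 h2 h3 (legSum h hc h1' h2' h3')
    (legSum h.sw hc.sw h2' h1' h3') (legSum h.rt hc.rt h3' h1' h2') (s2 h hc h3')
  have e1 : cnt (Mx P) 0 + 1 ≤ 1 + cnt (Mx P) (a + 1) + cnt (Mx (sw P)) (b + 1) +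
      cnt (Mx (rt P)) (c + 1) + 1 := Nat.add_le_add_right hmx 1
  refine (Nat.pow_le_pow_left e1 2).trans (key.trans ?_)
  rw [hcnt]

end Pool.Agent.T3
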