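import Mathlib

/-!
# T(3,m) = ⌊2√m⌋ - 1 : definitions

Order ideals in `ℕ³` are given as predicates `P : ℕ → ℕ → ℕ → Prop`.
-/

namespace Pool.Agent.T3

/-- `P` is closed downwards. -/
def Down (P : ℕ → ℕ → ℕ → Prop) : Prop :=
  ∀ x y z x' y' z', x' ≤ x → y' ≤ y → z' ≤ z → P x y z → P x' y' z'

/-- The set of triples satisfying `P`. -/
def St (P : ℕ → ℕ → ℕ → Prop) : Set (ℕ × ℕ × ℕ) := {v | P v.1 v.2.1 v.2.2}

/-- `(x,y,z)` is a maximal element of `P`. -/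
def Mx (P : ℕ → ℕ → ℕ → Prop) (x y z : ℕ) : Prop :=
  P x y z ∧ ¬ P (x + 1) y z ∧ ¬ P x (y + 1) z ∧ ¬ P x y (z + 1)

/-- number of elements of `P` with first coordinate `≥ x0` -/
noncomputable def cnt (P : ℕ → ℕ → ℕ → Prop) (x0 : ℕ) : ℕ :=
  {v : ℕ × ℕ × ℕ | P v.1 v.2.1 v.2.2 ∧ x0 ≤ v.1}.ncard

/-- swap the first two coordinates -/
def sw (P : ℕ → ℕ → ℕ → Prop) : ℕ → ℕ → ℕ → Prop := fun x y z => P y x z

/-- rotate: the first coordinate of `rt P` is the third coordinate of `P` -/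
def rt (P : ℕ → ℕ → ℕ → Prop) : ℕ → ℕ → ℕ → Prop := fun x y z => P y z x

/-- width of an initial segment of `ℕ` -/
noncomputable def wd (S : ℕ → Prop) : ℕ := sInf {n | ¬ S n}

/-- y-extent of `P` at `(x, ·, 0)` -/
noncomputable def ye (P : ℕ → ℕ → ℕ → Prop) (x : ℕ) : ℕ := wd (fun y => P x y 0)

/-- z-extent of `P` at `(x, 0, ·)` -/
noncomputable def ze (P : ℕ → ℕ → ℕ → Prop) (x : ℕ) : ℕ := wd (fun z => P x 0 z)

/-- `(i,j,0)` with `i, j ≥ 1` is a minimal non-element of `P` (a generator in the plane `z = 0`). -/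
def Gen (P : ℕ → ℕ → ℕ → Prop) (i j : ℕ) : Prop :=
  1 ≤ i ∧ 1 ≤ j ∧ ¬ P i j 0 ∧ P (i - 1) j 0 ∧ P i (j - 1) 0

/-- the duality of pairs of deep generators in the plane `z = 0` -/
def Dual (P : ℕ → ℕ → ℕ → Prop) (f1 f2 f3 : ℕ) : Prop :=
  ∀ i j i' j', f1 ≤ i → f2 ≤ j' → i < i' → j' < j → Gen P i j → Gen P i' j' →
    ∃ d, 1 ≤ d ∧ d < f3 ∧
      ((¬ P (i' - i) 0 d ∧ ¬ P 0 (f2 + (j - j')) (f3 - d)) ∨
       (¬ P 0 (j - j') d ∧ ¬ P (f1 + (i' - i)) 0 (f3 - d)))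

/-- an order ideal which is the intersection of three cylinders -/
structure Cyl (P : ℕ → ℕ → ℕ → Prop) : Prop where
  down : Down P
  fin : (St P).Finite
  zero : P 0 0 0
  cyl : ∀ x y z, P x y 0 → P x 0 z → P 0 y z → P x y z

/-- an order ideal which is the intersection of three cylinders, minus the cone over
`F = (f1,f2,f3)` -/
structure CylF (P : ℕ → ℕ → ℕ → Prop) (f1 f2 f3 : ℕ) : Prop where
  down : Down P
  fin : (St P).Finite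
  p1 : 1 ≤ f1
  p2 : 1 ≤ f2
  p3 : 1 ≤ f3
  cyl : ∀ x y z, P x y 0 → P x 0 z → P 0 y z → ¬ (f1 ≤ x ∧ f2 ≤ y ∧ f3 ≤ z) → P x y z
  notF : ¬ P f1 f2 f3
  below : ∀ x y z, x ≤ f1 → y ≤ f2 → z ≤ f3 → ¬ (x = f1 ∧ y = f2 ∧ z = f3) → P x y z
  dxy : Dual P f1 f2 f3
  dxz : Dual (fun x z y => P x y z) f1 f3 f2
  dyz : Dual (fun y z x => P x y z) f2 f3 f1

/-- a center of (the cylinder hull of) `P` -/
structure Ctr (P : ℕ → ℕ → ℕ → Prop) (a b c : ℕ) : Prop where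
  ab : P a b 0
  ac : P a 0 c
  bc : P 0 b c
  nab : ¬ P (a + 1) (b + 1) 0
  nac : ¬ P (a + 1) 0 (c + 1)
  nbc : ¬ P 0 (b + 1) (c + 1)
  mx : ¬ (P (a + 1) b 0 ∧ P (a + 1) 0 c)
  my : ¬ (P a (b + 1) 0 ∧ P 0 (b + 1) c)
  mz : ¬ (P a 0 (c + 1) ∧ P 0 b (c + 1))

/-- size of the slice `{(y,z) : y < β, z < γ, ¬ (p ≤ y ∧ q ≤ z)}` -/
def sz (p q β γ : ℕ) : ℕ := if p < β ∧ q < γ then p * γ + q * β - p * q else β * γ

/-- bound for the number of elements of the slice `(β,γ)` that are maximal, when the next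
slice is `(β',γ')` -/
def el (p q β γ β' γ' : ℕ) : ℕ :=
  if β = 0 ∨ γ = 0 then 0 else
  if p < β ∧ q < γ then
    (if β' < β ∨ γ' < q then 1 else 0) + (if γ' < γ ∨ β' < p then 1 else 0)
  else (if β' < β ∨ γ' < γ then 1 else 0)

/-- number of deep drops (landing at `≥ p`) of the sequence `β` -/
noncomputable def dd (p : ℕ) (β : ℕ → ℕ) : ℕ := {k | β (k + 1) < β k ∧ p ≤ β (k + 1)}.ncard

/-- Numerical summary of a leg: `p, q` the coordinates of `F` in the slice directions, `B, C` the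
coordinates of the center, `β0, γ0` the first slice, `dβ, dγ` the numbers of deep drops, `n` the
number of maximal elements and `V` the number of elements of the leg. -/
structure LegSum (p q B C β0 γ0 dβ dγ n V : ℕ) : Prop where
  hβ : β0 ≤ B + 1
  hγ : γ0 ≤ C + 1
  htop : ¬ (β0 = B + 1 ∧ γ0 = C + 1)
  hz : β0 = 0 ↔ γ0 = 0
  dβ1 : dβ ≤ 1
  dγ1 : dγ ≤ 1
  dβt : 1 ≤ dβ → β0 = B + 1
  dγt : 1 ≤ dγ → γ0 = C + 1
  dβp : 1 ≤ dβ → p < β0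
  dγq : 1 ≤ dγ → q < γ0
  hn : n + 1 ≤ max 1 (min β0 p + min γ0 q + dβ + dγ + if p < β0 ∧ q < γ0 then 1 else 0)
  hv : n * (n + 1) ≤ 2 * V + 4
  hv0 : ¬ (p < β0 ∧ q < γ0 ∧ 1 ≤ dβ + dγ) → n * (n + 1) ≤ 2 * V

end Pool.Agent.T3
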