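import Pool.Agent.T3.LatDefs

/-!
# First properties of the set of minimal representatives

* `mn_down`: if `Mn p`, `q ≤ p`, `q' ≠ q`, `cl q' = cl q`, then `p - q + q'` has the class of `p` and is
  different from `p`, so `wt p < wt (p - q + q')`, i.e. `wt q < wt q'`.
* `mn_unique`: two minimal representatives of the same class are equal.
* `mn_card`: the map `p ↦ cl p` is a bijection from `St (Mn ..)` to `ZMod m`.
* `mn_rep`: for every `(x,y,z)` there is the minimal representative of its class; it is strictly lighter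
  if `(x,y,z)` is not minimal.
* `mn_sw`, `mn_rt`: permuting the generators.
-/

namespace Pool.Agent.T3

variable {m : ℕ} {a1 a2 a3 : ZMod m} {w1 w2 w3 : ℕ}

theorem mn_down (a1 a2 a3 : ZMod m) (w1 w2 w3 : ℕ) : Down (Mn a1 a2 a3 w1 w2 w3) := by
  intro x y z x' y' z' hx hy hz h u v w hc hne
  obtain ⟨i, rfl⟩ := Nat.exists_eq_add_of_le hx
  obtain ⟨j, rfl⟩ := Nat.exists_eq_add_of_le hy
  obtain ⟨k, rfl⟩ := Nat.exists_eq_add_of_le hz
  have h1 := h (u + i) (v + j) (w + k) ?_ ?_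
  · unfold wt at h1 ⊢
    ring_nf at h1 ⊢
    omega
  · unfold cl at hc ⊢
    push_cast
    linear_combination hc
  · intro h2
    apply hne
    simp only [Prod.mk.injEq] at h2 ⊢
    omega

theorem mn_unique {x y z x' y' z' : ℕ} (h : Mn a1 a2 a3 w1 w2 w3 x y z)
    (h' : Mn a1 a2 a3 w1 w2 w3 x' y' z') (hc : cl a1 a2 a3 x y z = cl a1 a2 a3 x' y' z') :
    (x, y, z) = (x', y', z') := by
  by_contra hne
  have h1 := h x' y' z' hc.symm (fun h2 => hne h2.symm)
  have h2 := h' x y z hc hne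
  omega

theorem mn_fin [NeZero m] (a1 a2 a3 : ZMod m) (w1 w2 w3 : ℕ) :
    (St (Mn a1 a2 a3 w1 w2 w3)).Finite := by
  have hinj : Set.InjOn (fun v : ℕ × ℕ × ℕ => cl a1 a2 a3 v.1 v.2.1 v.2.2)
      (St (Mn a1 a2 a3 w1 w2 w3)) := by
    intro v hv v' hv' hc
    exact mn_unique hv hv' hc
  exact Set.Finite.of_finite_image (Set.toFinite _) hinj

theorem mn_card [NeZero m] (h : Sys a1 a2 a3 w1 w2 w3) : cnt (Mn a1 a2 a3 w1 w2 w3) 0 = m := by
  have hinj : Set.InjOn (fun v : ℕ × ℕ × ℕ => cl a1 a2 a3 v.1 v.2.1 v.2.2)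
      (St (Mn a1 a2 a3 w1 w2 w3)) := by
    intro v hv v' hv' hc
    exact mn_unique hv hv' hc
  have himg : (fun v : ℕ × ℕ × ℕ => cl a1 a2 a3 v.1 v.2.1 v.2.2) ''
      (St (Mn a1 a2 a3 w1 w2 w3)) = Set.univ := by
    apply Set.eq_univ_of_forall
    intro c
    obtain ⟨x, y, z, h1, h2⟩ := h.ex c
    exact ⟨(x, y, z), h2, h1⟩
  have h1 := Set.InjOn.ncard_image hinj
  rw [himg, Set.ncard_univ, Nat.card_zmod] at h1
  refine Eq.trans ?_ h1.symm
  unfold cnt St
  congr 1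
  ext v
  simp

theorem mn_rep (h : Sys a1 a2 a3 w1 w2 w3) (x y z : ℕ) :
    ∃ x' y' z', cl a1 a2 a3 x' y' z' = cl a1 a2 a3 x y z ∧ Mn a1 a2 a3 w1 w2 w3 x' y' z' ∧
      ((x', y', z') ≠ (x, y, z) → wt w1 w2 w3 x' y' z' < wt w1 w2 w3 x y z) := by
  obtain ⟨x', y', z', h1, h2⟩ := h.ex (cl a1 a2 a3 x y z)
  exact ⟨x', y', z', h1, h2, fun hne => h2 x y z h1.symm (fun h3 => hne h3.symm)⟩

theorem mn_sw (a1 a2 a3 : ZMod m) (w1 w2 w3 : ℕ) :
    Mn a2 a1 a3 w2 w1 w3 = sw (Mn a1 a2 a3 w1 w2 w3) := by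
  funext x y z
  apply propext
  constructor
  · intro h u v w hc hne
    have h1 := h v u w ?_ ?_
    · unfold wt at h1 ⊢
      omega
    · unfold cl at hc ⊢
      linear_combination hc
    · intro h2
      apply hne
      simp only [Prod.mk.injEq] at h2 ⊢
      omega
  · intro h u v w hc hne
    have h1 := h v u w ?_ ?_
    · unfold wt at h1 ⊢
      omega
    · unfold cl at hc ⊢
      linear_combination hc
    · intro h2
      apply hne
      simp only [Prod.mk.injEq] at h2 ⊢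
      omega

theorem mn_rt (a1 a2 a3 : ZMod m) (w1 w2 w3 : ℕ) :
    Mn a3 a1 a2 w3 w1 w2 = rt (Mn a1 a2 a3 w1 w2 w3) := by
  funext x y z
  apply propext
  constructor
  · intro h u v w hc hne
    have h1 := h w u v ?_ ?_
    · unfold wt at h1 ⊢
      omega
    · unfold cl at hc ⊢
      linear_combination hc
    · intro h2
      apply hne
      simp only [Prod.mk.injEq] at h2 ⊢
      omega
  · intro h u v w hc hne
    have h1 := h v w u ?_ ?_
    · unfold wt at h1 ⊢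
      omega
    · unfold cl at hc ⊢
      linear_combination hc
    · intro h2
      apply hne
      simp only [Prod.mk.injEq] at h2 ⊢
      omega

theorem sys_sw (h : Sys a1 a2 a3 w1 w2 w3) : Sys a2 a1 a3 w2 w1 w3 := by
  refine ⟨h.p2, h.p1, h.p3, ?_⟩
  intro c
  obtain ⟨x, y, z, h1, h2⟩ := h.ex c
  refine ⟨y, x, z, ?_, ?_⟩
  · rw [← h1]
    unfold cl
    ring
  · rw [mn_sw]
    exact h2

theorem sys_rt (h : Sys a1 a2 a3 w1 w2 w3) : Sys a3 a1 a2 w3 w1 w2 := by
  refine ⟨h.p3, h.p1, h.p2, ?_⟩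
  intro c
  obtain ⟨x, y, z, h1, h2⟩ := h.ex c
  refine ⟨z, x, y, ?_, ?_⟩
  · rw [← h1]
    unfold cl
    ring
  · rw [mn_rt]
    exact h2

end Pool.Agent.T3
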