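import Pool.Agent.T3.Lat1

/-!
# Full-support generators

* `full_class`: a full-support minimal non-element `F = (x,y,z)` has class `0`.
  Let `r` be the minimal representative of its class (`mn_rep`), `wt r < wt F`.  If
  `r.1 ≥ 1`, then `r - e₁` has the same class as `F - e₁`, which is minimal and different from
  `r - e₁`, so `wt (F - e₁) < wt (r - e₁)`, contradicting `wt r < wt F`.  Same for the
  other coordinates; so `r = 0` and the class is `0`.
* `full_unique`: there is at most one of them.  Let `F ≠ F'`; put `v = F' - F` (in `ℤ³`), of class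
  `0`, `v⁺ = (max (F'_i - F_i) 0)`, `v⁻ = (max (F_i - F'_i) 0)` (truncated subtractions in `ℕ`).
  `v⁺` and `v⁻` have the same class.  Neither `F ≤ F'` nor `F' ≤ F` (e.g. if `F ≤ F'`, `F ≠ F'`, some
  `F' - e_i ≥ F` is minimal, so `F` is minimal by `mn_down`), so `v⁺` and `v⁻` both have a zero
  coordinate; since `F'_i ≥ 1` it follows that `v⁺ ≤ F' - e_i` for some `i`, so `v⁺` is minimal; similarly `v⁻` is
  minimal.  So `v⁺ = v⁻` (`mn_unique`); but they have disjoint supports, so both are `0`, `F = F'`.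
* `exists_full`: if `¬ P x y z` but `P x y 0`, `P x 0 z`, `P 0 y z` for a down-closed `P`, take a minimal
  non-element `≤ (x,y,z)` (minimal sum of the coordinates); it has full support.
-/

namespace Pool.Agent.T3

variable {m : ℕ} {a1 a2 a3 : ZMod m} {w1 w2 w3 : ℕ}

theorem full_class (h : Sys a1 a2 a3 w1 w2 w3) {x y z : ℕ}
    (hF : Full (Mn a1 a2 a3 w1 w2 w3) x y z) : cl a1 a2 a3 x y z = 0 := by
  obtain ⟨hx, hy, hz, hn, h1, h2, h3⟩ := hF
  obtain ⟨x, rfl⟩ : ∃ t, x = t + 1 := ⟨x - 1, by omega⟩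
  obtain ⟨y, rfl⟩ : ∃ t, y = t + 1 := ⟨y - 1, by omega⟩
  obtain ⟨z, rfl⟩ : ∃ t, z = t + 1 := ⟨z - 1, by omega⟩
  simp only [Nat.add_sub_cancel] at h1 h2 h3
  obtain ⟨x', y', z', hc, hm, hw⟩ := mn_rep h (x + 1) (y + 1) (z + 1)
  have hne : (x', y', z') ≠ (x + 1, y + 1, z + 1) := by
    intro he
    simp only [Prod.mk.injEq] at he
    obtain ⟨e1, e2, e3⟩ := he
    subst e1 e2 e3
    exact hn hm
  have hlt := hw hne
  unfold wt at hlt
  have hx0 : x' = 0 := by
    by_contra hx0
    obtain ⟨x', rfl⟩ : ∃ t, x' = t + 1 := ⟨x' - 1, by omega⟩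
    have hc' : cl a1 a2 a3 x' y' z' = cl a1 a2 a3 x (y + 1) (z + 1) := by
      unfold cl at hc ⊢
      push_cast at hc ⊢
      linear_combination hc
    have := h1 x' y' z' hc' (by
      intro he
      apply hne
      simp only [Prod.mk.injEq] at he ⊢
      omega)
    unfold wt at this
    ring_nf at this hlt
    omega
  have hy0 : y' = 0 := by
    by_contra hy0
    obtain ⟨y', rfl⟩ : ∃ t, y' = t + 1 := ⟨y' - 1, by omega⟩
    have hc' : cl a1 a2 a3 x' y' z' = cl a1 a2 a3 (x + 1) y (z + 1) := by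
      unfold cl at hc ⊢
      push_cast at hc ⊢
      linear_combination hc
    have := h2 x' y' z' hc' (by
      intro he
      apply hne
      simp only [Prod.mk.injEq] at he ⊢
      omega)
    unfold wt at this
    ring_nf at this hlt
    omega
  have hz0 : z' = 0 := by
    by_contra hz0
    obtain ⟨z', rfl⟩ : ∃ t, z' = t + 1 := ⟨z' - 1, by omega⟩
    have hc' : cl a1 a2 a3 x' y' z' = cl a1 a2 a3 (x + 1) (y + 1) z := by
      unfold cl at hc ⊢
      push_cast at hc ⊢
      linear_combination hc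
    have := h3 x' y' z' hc' (by
      intro he
      apply hne
      simp only [Prod.mk.injEq] at he ⊢
      omega)
    unfold wt at this
    ring_nf at this hlt
    omega
  rw [← hc, hx0, hy0, hz0]
  simp [cl]

theorem full_unique (h : Sys a1 a2 a3 w1 w2 w3) {x y z x' y' z' : ℕ}
    (hF : Full (Mn a1 a2 a3 w1 w2 w3) x y z) (hF' : Full (Mn a1 a2 a3 w1 w2 w3) x' y' z') :
    (x, y, z) = (x', y', z') := by
  have hc := full_class h hF
  have hc' := full_class h hF'
  have hd := mn_down a1 a2 a3 w1 w2 w3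
  obtain ⟨hx, hy, hz, -, h1, -, -⟩ := hF
  obtain ⟨hx', hy', hz', -, h1', -, -⟩ := hF'
  have hp : Mn a1 a2 a3 w1 w2 w3 (x' - x) (y' - y) (z' - z) :=
    hd _ _ _ _ _ _ (by omega) (by omega) (by omega) h1'
  have hm : Mn a1 a2 a3 w1 w2 w3 (x - x') (y - y') (z - z') :=
    hd _ _ _ _ _ _ (by omega) (by omega) (by omega) h1
  have key : ∀ s t : ℕ, ((t - s : ℕ) : ZMod m) - ((s - t : ℕ) : ZMod m) = (t : ZMod m) - s := by
    intro s t
    rcases le_total s t with hst | hst
    · rw [Nat.sub_eq_zero_of_le hst, Nat.cast_sub hst]; simp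
    · rw [Nat.sub_eq_zero_of_le hst, Nat.cast_sub hst]; simp
  have he : cl a1 a2 a3 (x' - x) (y' - y) (z' - z) = cl a1 a2 a3 (x - x') (y - y') (z - z') := by
    unfold cl at hc hc' ⊢
    linear_combination a1 * key x x' + a2 * key y y' + a3 * key z z' + hc' - hc
  have := mn_unique hp hm he
  simp only [Prod.mk.injEq] at this ⊢
  omega

theorem exists_full {P : ℕ → ℕ → ℕ → Prop} (hd : Down P) {x y z : ℕ} (hxyz : ¬ P x y z)
    (h1 : P x y 0) (h2 : P x 0 z) (h3 : P 0 y z) :
    ∃ x' y' z', x' ≤ x ∧ y' ≤ y ∧ z' ≤ z ∧ Full P x' y' z' := by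
  obtain ⟨n, hn⟩ : ∃ n, n = x + y + z := ⟨_, rfl⟩
  induction n using Nat.strong_induction_on generalizing x y z with
  | _ n ih =>
    have hx : x ≠ 0 := by rintro rfl; exact hxyz h3
    have hy : y ≠ 0 := by rintro rfl; exact hxyz h2
    have hz : z ≠ 0 := by rintro rfl; exact hxyz h1
    by_cases c1 : P (x - 1) y z
    · by_cases c2 : P x (y - 1) z
      · by_cases c3 : P x y (z - 1)
        · exact ⟨x, y, z, le_rfl, le_rfl, le_rfl, by omega, by omega, by omega, hxyz, c1, c2, c3⟩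
        · obtain ⟨x', y', z', e1, e2, e3, e4⟩ := ih (x + y + (z - 1)) (by omega) c3 h1
            (hd _ _ _ _ _ _ le_rfl le_rfl (by omega) h2)
            (hd _ _ _ _ _ _ le_rfl le_rfl (by omega) h3) rfl
          exact ⟨x', y', z', e1, e2, by omega, e4⟩
      · obtain ⟨x', y', z', e1, e2, e3, e4⟩ := ih (x + (y - 1) + z) (by omega) c2
          (hd _ _ _ _ _ _ le_rfl (by omega) le_rfl h1) h2
          (hd _ _ _ _ _ _ le_rfl (by omega) le_rfl h3) rfl
        exact ⟨x', y', z', e1, by omega, e3, e4⟩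
    · obtain ⟨x', y', z', e1, e2, e3, e4⟩ := ih ((x - 1) + y + z) (by omega) c1
        (hd _ _ _ _ _ _ (by omega) le_rfl le_rfl h1)
        (hd _ _ _ _ _ _ (by omega) le_rfl le_rfl h2) h3 rfl
      exact ⟨x', y', z', by omega, e2, e3, e4⟩

end Pool.Agent.T3
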