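import Pool.Agent.T3.Lat2

/-!
# Duality of deep generators

Let `P = Mn a1 a2 a3 w1 w2 w3` (`Sys`), `F = (f1,f2,f3)` a full-support minimal non-element, so
`cl F = 0`, and all `v ≤ F`, `v ≠ F` are in `P` (`mn_down`).  Let `g = (i,j,0)`, `g' = (i',j',0)` be deep
generators (`Gen`), `i < i'`, `j' < j`, `f1 ≤ i`, `f2 ≤ j'`.  Write `∼` for same class; different
elements of `P` are never equivalent (`mn_unique`).

1. The minimal representative of `g` is `(0,0,l)` (`gen_rep`): it is different from `g`, so strictly lighter.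
   If its first coordinate was `≥ 1`, subtract `e₁` from both: `g - e₁ ∈ P` would be strictly
   lighter, contradiction; same for the second.  Similarly `(0,0,l')` for `g'`.
2. `¬ P 0 0 (l + f3)`: `(i,j,0) ∼ (0,0,l)`, `F ∼ 0`, so `(i-f1, j-f2, 0) ∼ (0,0,l+f3)`;
   `(i-f1,j-f2,0) ∈ P` (it is `≤ (i-1,j,0)`), and it is different from `(0,0,l+f3)` as `f3 ≥ 1`.
   Similarly `¬ P 0 0 (l' + f3)`.  As `(0,0,l), (0,0,l') ∈ P`: `|l - l'| < f3`.
3. `l ≠ l'`: otherwise `g ∼ g'`, so `(0,j-j',0) ∼ (i'-i,0,0)`, both in `P` (`(0,j-j',0) ≤ (i-1,j,0)`,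
   `(i'-i,0,0) ≤ (i',j'-1,0)`), and different.
4. Let `d = |l - l'|`.
   If `l > l'` (`d = l - l'`): `(i,j,0) ∼ (0,0,l'+d)`, `(i',j',0) ∼ (0,0,l')`, so
   `(i,j,0) ∼ (i',j',d)`, hence `(0, j-j', 0) ∼ (i'-i, 0, d)`.  As `(0,j-j',0) ∈ P` and `d ≥ 1`,
   `¬ P (i'-i) 0 d`.  So `i'-i ≥ f1` (else `(i'-i,0,d) ≤ F`, `≠ F`, is in `P`; here `d < f3`).
   Adding `F`: `(0, f2 + (j-j'), f3) ∼ F + (i'-i,0,d) - ...`: precisely
   `(0, f2 + (j-j'), f3 - d) ∼ (i'-i-f1, 0, 0)`, because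
   `(0, j-j', 0) + F ∼ (i'-i, 0, d)` and cancel `(f1, 0, d)`.  `(i'-i-f1,0,0) ∈ P`, and it is different
   from `(0, f2 + (j-j'), f3-d)`; so `¬ P 0 (f2 + (j-j')) (f3-d)`.  First alternative of `Dual`.
   If `l' > l` (`d = l' - l`): `(i,j,d) ∼ (i',j',0)`, so `(0, j-j', d) ∼ (i'-i,0,0) ∈ P`, so
   `¬ P 0 (j-j') d`, `j - j' ≥ f2`, and `(f1 + (i'-i), 0, f3 - d) ∼ (0, j-j'-f2, 0) ∈ P`, so
   `¬ P (f1 + (i'-i)) 0 (f3-d)`.  Second alternative.
   (To cancel in `ZMod m`, unfold `cl`, push casts and use `linear_combination`.)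
-/

namespace Pool.Agent.T3

variable {m : ℕ} {a1 a2 a3 : ZMod m} {w1 w2 w3 : ℕ}

theorem gen_rep (h : Sys a1 a2 a3 w1 w2 w3) {i j : ℕ}
    (g : Gen (Mn a1 a2 a3 w1 w2 w3) i j) :
    ∃ l, cl a1 a2 a3 i j 0 = cl a1 a2 a3 0 0 l ∧ Mn a1 a2 a3 w1 w2 w3 0 0 l := by
  obtain ⟨hi, hj, hn, h1, h2⟩ := g
  obtain ⟨i, rfl⟩ : ∃ t, i = t + 1 := ⟨i - 1, by omega⟩
  obtain ⟨j, rfl⟩ : ∃ t, j = t + 1 := ⟨j - 1, by omega⟩
  simp only [Nat.add_sub_cancel] at h1 h2
  obtain ⟨x', y', z', hc, hm, hw⟩ := mn_rep h (i + 1) (j + 1) 0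
  have hne : (x', y', z') ≠ (i + 1, j + 1, 0) := by
    intro he
    simp only [Prod.mk.injEq] at he
    obtain ⟨e1, e2, e3⟩ := he
    subst e1 e2 e3
    exact hn hm
  have hlt := hw hne
  unfold wt at hlt
  have hx0 : x' = 0 := by
    by_contra hx0
    obtain ⟨x', rfl⟩ : ∃ t, x' = t + 1 := ⟨x' - 1, by omega⟩
    have hc' : cl a1 a2 a3 x' y' z' = cl a1 a2 a3 i (j + 1) 0 := by
      unfold cl at hc ⊢
      push_cast at hc ⊢
      linear_combination hc
    have := h1 x' y' z' hc' (by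
      intro he
      apply hne
      simp only [Prod.mk.injEq] at he ⊢
      omega)
    unfold wt at this
    ring_nf at this hlt
    omega
  have hy0 : y' = 0 := by
    by_contra hy0
    obtain ⟨y', rfl⟩ : ∃ t, y' = t + 1 := ⟨y' - 1, by omega⟩
    have hc' : cl a1 a2 a3 x' y' z' = cl a1 a2 a3 (i + 1) j 0 := by
      unfold cl at hc ⊢
      push_cast at hc ⊢
      linear_combination hc
    have := h2 x' y' z' hc' (by
      intro he
      apply hne
      simp only [Prod.mk.injEq] at he ⊢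
      omega)
    unfold wt at this
    ring_nf at this hlt
    omega
  subst hx0 hy0
  exact ⟨z', hc.symm, hm⟩

/-- Different elements of the set of minimal representatives are not equivalent. -/
theorem lat3_not {x y z x' y' z' : ℕ} (h : Mn a1 a2 a3 w1 w2 w3 x y z)
    (hc : cl a1 a2 a3 x y z = cl a1 a2 a3 x' y' z') (hne : (x, y, z) ≠ (x', y', z')) :
    ¬ Mn a1 a2 a3 w1 w2 w3 x' y' z' := fun h' => hne (mn_unique h h' hc)

theorem mn_dual (h : Sys a1 a2 a3 w1 w2 w3) {f1 f2 f3 : ℕ}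
    (hF : Full (Mn a1 a2 a3 w1 w2 w3) f1 f2 f3) : Dual (Mn a1 a2 a3 w1 w2 w3) f1 f2 f3 := by
  have hd := mn_down a1 a2 a3 w1 w2 w3
  have hF0 := full_class h hF
  obtain ⟨p1, p2, p3, hFn, hF1, hF2, hF3⟩ := hF
  intro i j i' j' hi hj hii hjj g g'
  obtain ⟨l, hl, hlm⟩ := gen_rep h g
  obtain ⟨l', hl', hlm'⟩ := gen_rep h g'
  obtain ⟨gi, gj, gn, g1, g2⟩ := g
  obtain ⟨gi', gj', gn', g1', g2'⟩ := g'
  -- casts
  obtain ⟨s, rfl⟩ : ∃ s, i = f1 + s := ⟨i - f1, by omega⟩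
  obtain ⟨t, rfl⟩ : ∃ t, j' = f2 + t := ⟨j' - f2, by omega⟩
  obtain ⟨u, rfl⟩ : ∃ u, i' = f1 + s + u := ⟨i' - (f1 + s), by omega⟩
  obtain ⟨v, rfl⟩ : ∃ v, j = f2 + t + v := ⟨j - (f2 + t), by omega⟩
  have hu : 1 ≤ u := by omega
  have hv : 1 ≤ v := by omega
  have eu : f1 + s + u - (f1 + s) = u := by omega
  have ev : f2 + t + v - (f2 + t) = v := by omega
  rw [eu, ev]
  unfold cl at hF0 hl hl'
  push_cast at hF0 hl hl'
  -- step 2
  have A : ¬ Mn a1 a2 a3 w1 w2 w3 0 0 (l + f3) := by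
    have hA : Mn a1 a2 a3 w1 w2 w3 s (t + v) 0 :=
      hd _ _ _ _ _ _ (by omega) (by omega) le_rfl g1
    apply lat3_not hA
    · unfold cl; push_cast; linear_combination hl - hF0
    · simp only [ne_eq, Prod.mk.injEq]; omega
  have A' : ¬ Mn a1 a2 a3 w1 w2 w3 0 0 (l' + f3) := by
    have hA : Mn a1 a2 a3 w1 w2 w3 (s + u) t 0 :=
      hd _ _ _ _ _ _ (by omega) (by omega) le_rfl g1'
    apply lat3_not hA
    · unfold cl; push_cast; linear_combination hl' - hF0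
    · simp only [ne_eq, Prod.mk.injEq]; omega
  have B1 : l' < l + f3 := by
    by_contra hc
    exact A (hd _ _ _ _ _ _ le_rfl le_rfl (by omega) hlm')
  have B2 : l < l' + f3 := by
    by_contra hc
    exact A' (hd _ _ _ _ _ _ le_rfl le_rfl (by omega) hlm)
  -- elements of P
  have Pv : Mn a1 a2 a3 w1 w2 w3 0 v 0 := hd _ _ _ _ _ _ (by omega) (by omega) le_rfl g1
  have Pu : Mn a1 a2 a3 w1 w2 w3 u 0 0 := by
    refine hd _ _ _ _ _ _ ?_ ?_ le_rfl g2'
    · omega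
    · omega
  -- step 3
  have hne : l ≠ l' := by
    rintro rfl
    have := mn_unique Pv Pu (by unfold cl; push_cast; linear_combination hl - hl')
    simp only [Prod.mk.injEq] at this
    omega
  rcases lt_or_gt_of_ne hne with hlt | hlt
  · -- l < l'
    obtain ⟨d, rfl⟩ : ∃ d, l' = l + d := ⟨l' - l, by omega⟩
    have hd1 : 1 ≤ d := by omega
    have hdf : d < f3 := by omega
    obtain ⟨e, rfl⟩ : ∃ e, f3 = d + e := ⟨f3 - d, by omega⟩
    push_cast at hl' hF0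
    have n1 : ¬ Mn a1 a2 a3 w1 w2 w3 0 v d := by
      apply lat3_not Pu
      · unfold cl; push_cast; linear_combination hl' - hl
      · simp only [ne_eq, Prod.mk.injEq]; omega
    have hvf : f2 ≤ v := by
      by_contra hc
      exact n1 (hd _ _ _ _ _ _ (by omega) (by omega) (by omega) hF2)
    obtain ⟨v', rfl⟩ : ∃ v', v = f2 + v' := ⟨v - f2, by omega⟩
    have Pv' : Mn a1 a2 a3 w1 w2 w3 0 v' 0 := hd _ _ _ _ _ _ le_rfl (by omega) le_rfl Pv
    refine ⟨d, hd1, hdf, Or.inr ⟨n1, ?_⟩⟩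
    apply lat3_not Pv'
    · unfold cl
      push_cast [show d + e - d = e by omega] at hl hl' ⊢
      linear_combination hl - hl' - hF0
    · simp only [ne_eq, Prod.mk.injEq]; omega
  · -- l' < l
    obtain ⟨d, rfl⟩ : ∃ d, l = l' + d := ⟨l - l', by omega⟩
    have hd1 : 1 ≤ d := by omega
    have hdf : d < f3 := by omega
    obtain ⟨e, rfl⟩ : ∃ e, f3 = d + e := ⟨f3 - d, by omega⟩
    push_cast at hl hF0
    have n1 : ¬ Mn a1 a2 a3 w1 w2 w3 u 0 d := by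
      apply lat3_not Pv
      · unfold cl; push_cast; linear_combination hl - hl'
      · simp only [ne_eq, Prod.mk.injEq]; omega
    have huf : f1 ≤ u := by
      by_contra hc
      exact n1 (hd _ _ _ _ _ _ (by omega) (by omega) (by omega) hF1)
    obtain ⟨u', rfl⟩ : ∃ u', u = f1 + u' := ⟨u - f1, by omega⟩
    have Pu' : Mn a1 a2 a3 w1 w2 w3 u' 0 0 := hd _ _ _ _ _ _ (by omega) le_rfl le_rfl Pu
    refine ⟨d, hd1, hdf, Or.inl ⟨n1, ?_⟩⟩
    apply lat3_not Pu'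
    · unfold cl
      push_cast [show d + e - d = e by omega] at hl hl' ⊢
      linear_combination hl' - hl - hF0
    · simp only [ne_eq, Prod.mk.injEq]; omega

end Pool.Agent.T3
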