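import Pool.Agent.T3.Lat3

/-!
# The structure of `Mn`

If there is no `Full` triple, `Mn` is `Cyl` (`exists_full`).  Otherwise let `F` be one; `CylF`:
`cyl` by `exists_full` and `full_unique`; `notF`, `below` from `Full` and `mn_down`; `dxy` is
`mn_dual`; `dxz`: apply `mn_dual` to the system `a1 a3 a2` (`Mn a1 a3 a2 w1 w3 w2 x z y =
Mn a1 a2 a3 w1 w2 w3 x y z`, e.g. from `mn_sw`, `mn_rt`), `dyz`: to `a2 a3 a1`.
-/

set_option linter.all false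

namespace Pool.Agent.T3

variable {m : ℕ} {a1 a2 a3 : ZMod m} {w1 w2 w3 : ℕ}

theorem mn_structure [NeZero m] (h : Sys a1 a2 a3 w1 w2 w3) :
    Cyl (Mn a1 a2 a3 w1 w2 w3) ∨ ∃ f1 f2 f3, CylF (Mn a1 a2 a3 w1 w2 w3) f1 f2 f3 := by
  have hd : Down (Mn a1 a2 a3 w1 w2 w3) := mn_down a1 a2 a3 w1 w2 w3
  by_cases hex : ∃ f1 f2 f3, Full (Mn a1 a2 a3 w1 w2 w3) f1 f2 f3
  · right
    obtain ⟨f1, f2, f3, hF⟩ := hex
    have e1 : Mn a1 a3 a2 w1 w3 w2 = fun x z y => Mn a1 a2 a3 w1 w2 w3 x y z := by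
      rw [mn_sw a3 a1 a2 w3 w1 w2, mn_rt a1 a2 a3 w1 w2 w3]
      rfl
    have e2 : Mn a2 a3 a1 w2 w3 w1 = fun y z x => Mn a1 a2 a3 w1 w2 w3 x y z := by
      rw [mn_rt a3 a1 a2 w3 w1 w2, mn_rt a1 a2 a3 w1 w2 w3]
      rfl
    obtain ⟨p1, p2, p3, q0, q1, q2, q3⟩ := id hF
    have d2 : Dual (Mn a1 a3 a2 w1 w3 w2) f1 f3 f2 := by
      refine mn_dual (sys_sw (sys_rt h)) ?_
      rw [e1]
      exact ⟨p1, p3, p2, q0, q1, q3, q2⟩
    have d3 : Dual (Mn a2 a3 a1 w2 w3 w1) f2 f3 f1 := by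
      refine mn_dual (sys_rt (sys_rt h)) ?_
      rw [e2]
      exact ⟨p2, p3, p1, q0, q2, q3, q1⟩
    rw [e1] at d2
    rw [e2] at d3
    refine ⟨f1, f2, f3, ⟨hd, mn_fin a1 a2 a3 w1 w2 w3, p1, p2, p3, ?_, q0, ?_, mn_dual h hF,
      d2, d3⟩⟩
    · intro x y z h1 h2 h3 hn
      by_contra hP
      obtain ⟨x', y', z', hx, hy, hz, hF'⟩ := exists_full hd hP h1 h2 h3
      have hu := full_unique h hF hF'
      simp only [Prod.mk.injEq] at hu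
      obtain ⟨u1, u2, u3⟩ := hu
      exact hn ⟨by omega, by omega, by omega⟩
    · intro x y z hx hy hz hn
      by_cases c1 : x = f1
      · by_cases c2 : y = f2
        · have c3 : z ≠ f3 := fun c3 => hn ⟨c1, c2, c3⟩
          exact hd _ _ _ _ _ _ hx hy (by omega) q3
        · exact hd _ _ _ _ _ _ hx (by omega) hz q2
      · exact hd _ _ _ _ _ _ (by omega) hy hz q1
  · left
    refine ⟨hd, mn_fin a1 a2 a3 w1 w2 w3, ?_, ?_⟩
    · obtain ⟨x, y, z, _, hM⟩ := h.ex 0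
      exact hd _ _ _ _ _ _ (Nat.zero_le _) (Nat.zero_le _) (Nat.zero_le _) hM
    · intro x y z h1 h2 h3
      by_contra hP
      obtain ⟨x', y', z', _, _, _, hF'⟩ := exists_full hd hP h1 h2 h3
      exact hex ⟨x', y', z', hF'⟩

end Pool.Agent.T3
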