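import Pool.Agent.T3.Defs

/-!
# Minimal representatives

`a1, a2, a3 : ZMod m` with positive integer weights.  `Mn m a1 a2 a3 w1 w2 w3 x y z` says that
`(x,y,z)` is the strictly lightest triple in its class `x a1 + y a2 + z a3`.
-/

namespace Pool.Agent.T3

/-- class of a triple -/
def cl {m : ℕ} (a1 a2 a3 : ZMod m) (x y z : ℕ) : ZMod m := x * a1 + y * a2 + z * a3

/-- weight of a triple -/
def wt (w1 w2 w3 x y z : ℕ) : ℕ := w1 * x + w2 * y + w3 * z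

/-- strictly lightest triples of their class -/
def Mn {m : ℕ} (a1 a2 a3 : ZMod m) (w1 w2 w3 : ℕ) (x y z : ℕ) : Prop :=
  ∀ x' y' z', cl a1 a2 a3 x' y' z' = cl a1 a2 a3 x y z → (x', y', z') ≠ (x, y, z) →
    wt w1 w2 w3 x y z < wt w1 w2 w3 x' y' z'

/-- every class has a strictly lightest element -/
structure Sys {m : ℕ} (a1 a2 a3 : ZMod m) (w1 w2 w3 : ℕ) : Prop where
  p1 : 0 < w1
  p2 : 0 < w2
  p3 : 0 < w3
  ex : ∀ c : ZMod m, ∃ x y z, cl a1 a2 a3 x y z = c ∧ Mn a1 a2 a3 w1 w2 w3 x y z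

/-- minimal non-elements of `P` with full support -/
def Full (P : ℕ → ℕ → ℕ → Prop) (x y z : ℕ) : Prop :=
  1 ≤ x ∧ 1 ≤ y ∧ 1 ≤ z ∧ ¬ P x y z ∧ P (x - 1) y z ∧ P x (y - 1) z ∧ P x y (z - 1)

end Pool.Agent.T3
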