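import Pool.Agent.T3.LatDefs
import Pool.Agent.Hhelper4.NumSemigroup

/-!
# A criterion for lower bounds

`R : ℕ → ℕ → ℕ → Prop` is a set of triples (normal forms) such that
* (`red`) every triple not in `R` is equivalent to a strictly lighter triple;
* (`inj`) `cl` is injective on `R`.
The weights satisfy `wi ≡ ai (mod m)`, `wi > m`, and the `ai` generate (`surj`).

Define `w c` as the least weight of a triple of class `c` (`Nat.find` or `sInf`).
* For `p ∈ R`: `w (cl p) = wt p`: a lightest triple `q` of the class is in `R` by `red`, so `q = p` by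
  `inj`.  So every class contains exactly one triple in `R`, its lightest triple.
* `IsApery m w`: `w 0 = 0`; `(w c : ZMod m) = c`; subadditive (add triples);
  `w c > m` for `c ≠ 0` (a triple `≠ 0` has weight `≥` some `wi`).
* Atoms: `ai` is an atom (using `e_i ∈ R`, so `w ai = wi`): if `ai = y + z` with
  `w y + w z = wi`, `y, z ≠ 0`, take lightest triples `p, q` of `y`, `z`: `p + q` has class `ai` and
  weight `wi`; a lightest triple of class `ai` is in `R`, so is `e_i`; but `p + q` is also a lightest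
  triple, so `p + q ∈ R` and `p + q = e_i` by `inj`; impossible as `p, q ≠ 0`.
  Conversely a nonzero class `c` with lightest triple `p` of coordinate sum `≥ 2` is not an
  atom: `p = e_i + p'`, `p' ≠ 0`, and `cl p' ≠ 0` (otherwise `e_i` would be a lighter triple of
  class `c`), `ai ≠ 0` (else `p'` is lighter), and `w c = wt p ≥ w ai + w (cl p') ≥ w c`.
  So the atoms are `a1, a2, a3`, and they are distinct as `e_1, e_2, e_3 ∈ R` (`inj`).
* Maximal: let `p ∈ R` with `p + e_i ∉ R` for `i = 1,2,3`.  Then `c = cl p` is maximal: suppose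
  `w (c + y) = w c + w y`, `y ≠ 0`; let `q ≠ 0` be the lightest triple of `y`, then `p + q` is a lightest
  triple of `c + y`, so `p + q ∈ R`; say `q_i ≥ 1`; `p + e_i ≤ p + q`, and
  `p + e_i` is a lightest triple of its class too (otherwise `p + q` could be made
  lighter), so `p + e_i ∈ R` by `red`, contradiction.
* So if `S` is a finite set of such triples `p`, then the semigroup `sg w` has multiplicity `m`,
  embedding dimension `4` (`edim_sg`) and type `≥ S.card` (`type_sg`; `cl` is injective on `S`).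
-/

namespace Pool.Agent.T3

open Pool.Agent.Hhelper4.NS

/-- class as an additive map -/
def low0F {m : ℕ} (a1 a2 a3 : ZMod m) : (ℕ × ℕ × ℕ) →+ ZMod m where
  toFun v := cl a1 a2 a3 v.1 v.2.1 v.2.2
  map_zero' := by simp [cl]
  map_add' u v := by
    simp only [cl, Prod.fst_add, Prod.snd_add]
    push_cast
    ring

/-- weight as an additive map -/
def low0G (w1 w2 w3 : ℕ) : (ℕ × ℕ × ℕ) →+ ℕ where
  toFun v := wt w1 w2 w3 v.1 v.2.1 v.2.2
  map_zero' := by simp [wt]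
  map_add' u v := by
    simp only [wt, Prod.fst_add, Prod.snd_add]
    ring

/-- lightest triples of their class -/
def Low0L {m : ℕ} (f : (ℕ × ℕ × ℕ) →+ ZMod m) (g : (ℕ × ℕ × ℕ) →+ ℕ) (v : ℕ × ℕ × ℕ) : Prop :=
  ∀ u, f u = f v → g v ≤ g u

theorem low0_down {m : ℕ} {f : (ℕ × ℕ × ℕ) →+ ZMod m} {g : (ℕ × ℕ × ℕ) →+ ℕ}
    {u v : ℕ × ℕ × ℕ} (h : Low0L f g (u + v)) : Low0L f g u := by
  intro x hx
  have h1 := h (x + v) (by rw [map_add, map_add, hx])
  rw [map_add, map_add] at h1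
  omega

theorem low0_zero {m : ℕ} {f : (ℕ × ℕ × ℕ) →+ ZMod m} {g : (ℕ × ℕ × ℕ) →+ ℕ} :
    Low0L f g 0 := by
  intro x _
  rw [map_zero]
  exact Nat.zero_le _

theorem low0_split (v : ℕ × ℕ × ℕ) (hv : v ≠ 0) :
    (∃ u, v = (1, 0, 0) + u) ∨ (∃ u, v = (0, 1, 0) + u) ∨ (∃ u, v = (0, 0, 1) + u) := by
  obtain ⟨x, y, z⟩ := v
  rcases Nat.eq_zero_or_pos x with hx | hx
  · rcases Nat.eq_zero_or_pos y with hy | hy
    · rcases Nat.eq_zero_or_pos z with hz | hz
      · exfalso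
        apply hv
        rw [hx, hy, hz]
        rfl
      · right; right
        refine ⟨(x, y, z - 1), ?_⟩
        simp only [Prod.mk_add_mk, Prod.mk.injEq]
        omega
    · right; left
      refine ⟨(x, y - 1, z), ?_⟩
      simp only [Prod.mk_add_mk, Prod.mk.injEq]
      omega
  · left
    refine ⟨(x - 1, y, z), ?_⟩
    simp only [Prod.mk_add_mk, Prod.mk.injEq]
    omega

/-- The abstract form: `w` is the least weight of a class. -/
structure Low0S {m : ℕ} (f : (ℕ × ℕ × ℕ) →+ ZMod m) (g : (ℕ × ℕ × ℕ) →+ ℕ)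
    (w : ZMod m → ℕ) (c : ZMod m → ℕ × ℕ × ℕ) : Prop where
  light : ∀ x, Low0L f g (c x)
  cls : ∀ x, f (c x) = x
  wc : ∀ x, w x = g (c x)
  inj : ∀ u v, Low0L f g u → Low0L f g v → f u = f v → u = v

theorem low0_w {m : ℕ} {f : (ℕ × ℕ × ℕ) →+ ZMod m} {g : (ℕ × ℕ × ℕ) →+ ℕ}
    {w : ZMod m → ℕ} {c : ZMod m → ℕ × ℕ × ℕ} (h : Low0S f g w c) {v : ℕ × ℕ × ℕ}
    (hv : Low0L f g v) : w (f v) = g v := by
  have h1 := h.inj _ _ (h.light (f v)) hv (h.cls _)
  rw [h.wc, h1]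

theorem low0_wle {m : ℕ} {f : (ℕ × ℕ × ℕ) →+ ZMod m} {g : (ℕ × ℕ × ℕ) →+ ℕ}
    {w : ZMod m → ℕ} {c : ZMod m → ℕ × ℕ × ℕ} (h : Low0S f g w c) (v : ℕ × ℕ × ℕ) :
    w (f v) ≤ g v := by
  rw [h.wc]
  exact h.light (f v) v (h.cls _).symm

theorem low0_L {m : ℕ} {f : (ℕ × ℕ × ℕ) →+ ZMod m} {g : (ℕ × ℕ × ℕ) →+ ℕ}
    {w : ZMod m → ℕ} {c : ZMod m → ℕ × ℕ × ℕ} (h : Low0S f g w c) {v : ℕ × ℕ × ℕ}
    (hv : g v ≤ w (f v)) : Low0L f g v := by
  intro u hu
  have := low0_wle h u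
  rw [hu] at this
  omega

theorem low0_ne {m : ℕ} {f : (ℕ × ℕ × ℕ) →+ ZMod m} {g : (ℕ × ℕ × ℕ) →+ ℕ}
    {w : ZMod m → ℕ} {c : ZMod m → ℕ × ℕ × ℕ} (h : Low0S f g w c) {v : ℕ × ℕ × ℕ}
    (hv : Low0L f g v) (h0 : v ≠ 0) : f v ≠ 0 := by
  intro e
  apply h0
  apply h.inj _ _ hv low0_zero
  rw [e, map_zero]

theorem low0_cne {m : ℕ} {f : (ℕ × ℕ × ℕ) →+ ZMod m} {g : (ℕ × ℕ × ℕ) →+ ℕ}
    {w : ZMod m → ℕ} {c : ZMod m → ℕ × ℕ × ℕ} (h : Low0S f g w c) {x : ZMod m}
    (hx : x ≠ 0) : c x ≠ 0 := by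
  intro e
  apply hx
  rw [← h.cls x, e, map_zero]

/-- an atom is the class of a basis vector -/
theorem low0_atom1 {m : ℕ} {f : (ℕ × ℕ × ℕ) →+ ZMod m} {g : (ℕ × ℕ × ℕ) →+ ℕ}
    {w : ZMod m → ℕ} {c : ZMod m → ℕ × ℕ × ℕ} (h : Low0S f g w c) {x : ZMod m}
    (hx : IsAtom w x) {e u : ℕ × ℕ × ℕ} (he : e ≠ 0) (hc : c x = e + u) : x = f e := by
  have hL := h.light x
  rw [hc] at hL
  have hLe := low0_down hL
  have hLu : Low0L f g u := by
    rw [add_comm] at hL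
    exact low0_down hL
  by_cases hu : u = 0
  · rw [← h.cls x, hc, hu, add_zero]
  · exfalso
    refine hx.2 (f e) (f u) (low0_ne h hLe he) (low0_ne h hLu hu) ?_ ?_
    · rw [← map_add, ← hc, h.cls]
    · rw [low0_w h hLe, low0_w h hLu, h.wc, hc, map_add]

/-- the class of an indecomposable light vector is an atom -/
theorem low0_atom2 {m : ℕ} {f : (ℕ × ℕ × ℕ) →+ ZMod m} {g : (ℕ × ℕ × ℕ) →+ ℕ}
    {w : ZMod m → ℕ} {c : ZMod m → ℕ × ℕ × ℕ} (h : Low0S f g w c) {e : ℕ × ℕ × ℕ}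
    (he : e ≠ 0) (hL : Low0L f g e) (hi : ∀ u v : ℕ × ℕ × ℕ, u + v = e → u = 0 ∨ v = 0) :
    IsAtom w (f e) := by
  refine ⟨low0_ne h hL he, ?_⟩
  intro y z hy hz hyz hw
  rw [low0_w h hL] at hw
  have h1 : f (c y + c z) = f e := by rw [map_add, h.cls, h.cls, hyz]
  have h2 : Low0L f g (c y + c z) := by
    apply low0_L h
    rw [h1, low0_w h hL, map_add, ← h.wc, ← h.wc, hw]
  have h3 := h.inj _ _ h2 hL h1
  rcases hi _ _ h3 with h4 | h4
  · exact low0_cne h hy h4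
  · exact low0_cne h hz h4

theorem low0_max {m : ℕ} {f : (ℕ × ℕ × ℕ) →+ ZMod m} {g : (ℕ × ℕ × ℕ) →+ ℕ}
    {w : ZMod m → ℕ} {c : ZMod m → ℕ × ℕ × ℕ} (h : Low0S f g w c) {p : ℕ × ℕ × ℕ}
    (hp : Low0L f g p) (h1 : ¬ Low0L f g (p + (1, 0, 0))) (h2 : ¬ Low0L f g (p + (0, 1, 0)))
    (h3 : ¬ Low0L f g (p + (0, 0, 1))) : IsMax w (f p) := by
  intro y hy hw
  have e1 : f (p + c y) = f p + y := by rw [map_add, h.cls]
  have hL : Low0L f g (p + c y) := by
    apply low0_L h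
    rw [e1, hw, low0_w h hp, h.wc y, map_add]
  rcases low0_split (c y) (low0_cne h hy) with ⟨u, hu⟩ | ⟨u, hu⟩ | ⟨u, hu⟩
  · rw [hu, ← add_assoc] at hL
    exact h1 (low0_down hL)
  · rw [hu, ← add_assoc] at hL
    exact h2 (low0_down hL)
  · rw [hu, ← add_assoc] at hL
    exact h3 (low0_down hL)

theorem low0_ind1 (u v : ℕ × ℕ × ℕ) (h : u + v = (1, 0, 0)) : u = 0 ∨ v = 0 := by
  obtain ⟨a, b, c⟩ := u
  obtain ⟨a', b', c'⟩ := v
  simp only [Prod.mk_add_mk, Prod.mk.injEq] at h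
  simp only [Prod.mk_eq_zero]
  omega

theorem low0_ind2 (u v : ℕ × ℕ × ℕ) (h : u + v = (0, 1, 0)) : u = 0 ∨ v = 0 := by
  obtain ⟨a, b, c⟩ := u
  obtain ⟨a', b', c'⟩ := v
  simp only [Prod.mk_add_mk, Prod.mk.injEq] at h
  simp only [Prod.mk_eq_zero]
  omega

theorem low0_ind3 (u v : ℕ × ℕ × ℕ) (h : u + v = (0, 0, 1)) : u = 0 ∨ v = 0 := by
  obtain ⟨a, b, c⟩ := u
  obtain ⟨a', b', c'⟩ := v
  simp only [Prod.mk_add_mk, Prod.mk.injEq] at h
  simp only [Prod.mk_eq_zero]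
  omega

theorem low_criterion {m : ℕ} [NeZero m] {a1 a2 a3 : ZMod m} {w1 w2 w3 : ℕ}
    (h1 : (w1 : ZMod m) = a1) (h2 : (w2 : ZMod m) = a2) (h3 : (w3 : ZMod m) = a3)
    (l1 : m < w1) (l2 : m < w2) (l3 : m < w3)
    (surj : ∀ c : ZMod m, ∃ x y z, cl a1 a2 a3 x y z = c)
    {R : ℕ → ℕ → ℕ → Prop}
    (red : ∀ x y z, ¬ R x y z → ∃ x' y' z', cl a1 a2 a3 x' y' z' = cl a1 a2 a3 x y z ∧
      wt w1 w2 w3 x' y' z' < wt w1 w2 w3 x y z)
    (inj : ∀ x y z x' y' z', R x y z → R x' y' z' → cl a1 a2 a3 x y z = cl a1 a2 a3 x' y' z' →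
      (x, y, z) = (x', y', z'))
    (r1 : R 1 0 0) (r2 : R 0 1 0) (r3 : R 0 0 1)
    {S : Finset (ℕ × ℕ × ℕ)}
    (hS : ∀ p ∈ S, R p.1 p.2.1 p.2.2 ∧ ¬ R (p.1 + 1) p.2.1 p.2.2 ∧ ¬ R p.1 (p.2.1 + 1) p.2.2 ∧
      ¬ R p.1 p.2.1 (p.2.2 + 1)) :
    ∃ Γ : AddSubmonoid ℕ, IsNumerical Γ ∧ edim Γ = 4 ∧ mult Γ = m ∧ S.card ≤ type Γ := by
  classical
  set f := low0F a1 a2 a3 with hf
  set g := low0G w1 w2 w3 with hg
  have hfv : ∀ v, f v = cl a1 a2 a3 v.1 v.2.1 v.2.2 := fun _ => rfl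
  have hgv : ∀ v, g v = wt w1 w2 w3 v.1 v.2.1 v.2.2 := fun _ => rfl
  have hLR : ∀ v, Low0L f g v → R v.1 v.2.1 v.2.2 := by
    intro v hv
    by_contra hR
    obtain ⟨x, y, z, e1, e2⟩ := red _ _ _ hR
    have := hv (x, y, z) e1
    rw [hgv, hgv] at this
    exact absurd e2 (not_lt.mpr this)
  have hex : ∀ c : ZMod m, ∃ v, Low0L f g v ∧ f v = c := by
    intro c
    obtain ⟨x, y, z, e⟩ := surj c
    have hne : {v : ℕ × ℕ × ℕ | f v = c}.Nonempty := ⟨(x, y, z), e⟩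
    obtain ⟨v, hv, hmin⟩ := WellFounded.has_min (measure (fun v : ℕ × ℕ × ℕ => g v)).wf _ hne
    refine ⟨v, ?_, hv⟩
    intro u hu
    have h1 := hmin u (by simpa using hu.trans hv)
    have h2 : ¬ (g u < g v) := h1
    omega
  have hinj : ∀ u v, Low0L f g u → Low0L f g v → f u = f v → u = v := by
    intro u v hu hv e
    exact inj _ _ _ _ _ _ (hLR u hu) (hLR v hv) e
  have hRL : ∀ v : ℕ × ℕ × ℕ, R v.1 v.2.1 v.2.2 → Low0L f g v := by
    intro v hv
    obtain ⟨u, hu, e⟩ := hex (f v)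
    have : u = v := inj _ _ _ _ _ _ (hLR u hu) hv e
    rw [← this]
    exact hu
  choose c hc1 hc2 using hex
  have hS0 : Low0S f g (fun x => g (c x)) c := ⟨hc1, hc2, fun _ => rfl, hinj⟩
  set w : ZMod m → ℕ := fun x => g (c x) with hw
  have hcast : ∀ v, ((g v : ℕ) : ZMod m) = f v := by
    intro v
    rw [hgv, hfv]
    simp only [wt, cl]
    push_cast
    rw [h1, h2, h3]
    ring
  have hA : IsApery m w := by
    refine ⟨?_, ?_, ?_, ?_⟩
    · have := low0_w hS0 (low0_zero (f := f) (g := g))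
      rw [map_zero, map_zero] at this
      exact this
    · intro x
      simp only [hw]
      rw [hcast, hc2]
    · intro x y
      have := low0_wle hS0 (c x + c y)
      rw [map_add, map_add, hc2, hc2] at this
      exact this
    · intro x hx
      simp only [hw]
      have hne := low0_cne hS0 hx
      rcases low0_split (c x) hne with ⟨u, hu⟩ | ⟨u, hu⟩ | ⟨u, hu⟩
      · rw [hu, map_add, hgv]
        simp only [wt]
        omega
      · rw [hu, map_add, hgv]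
        simp only [wt]
        omega
      · rw [hu, map_add, hgv]
        simp only [wt]
        omega
  have L1 : Low0L f g (1, 0, 0) := hRL _ r1
  have L2 : Low0L f g (0, 1, 0) := hRL _ r2
  have L3 : Low0L f g (0, 0, 1) := hRL _ r3
  have n1 : ((1, 0, 0) : ℕ × ℕ × ℕ) ≠ 0 := by simp [Prod.ext_iff]
  have n2 : ((0, 1, 0) : ℕ × ℕ × ℕ) ≠ 0 := by simp [Prod.ext_iff]
  have n3 : ((0, 0, 1) : ℕ × ℕ × ℕ) ≠ 0 := by simp [Prod.ext_iff]
  have d12 : f (1, 0, 0) ≠ f (0, 1, 0) := fun e => by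
    have := hinj _ _ L1 L2 e
    simp at this
  have d13 : f (1, 0, 0) ≠ f (0, 0, 1) := fun e => by
    have := hinj _ _ L1 L3 e
    simp at this
  have d23 : f (0, 1, 0) ≠ f (0, 0, 1) := fun e => by
    have := hinj _ _ L2 L3 e
    simp at this
  have hatoms : (Finset.univ.filter (fun x : ZMod m => IsAtom w x)) =
      {f (1, 0, 0), f (0, 1, 0), f (0, 0, 1)} := by
    ext x
    simp only [Finset.mem_filter, Finset.mem_univ, true_and, Finset.mem_insert,
      Finset.mem_singleton]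
    constructor
    · intro hx
      rcases low0_split (c x) (low0_cne hS0 hx.1) with ⟨u, hu⟩ | ⟨u, hu⟩ | ⟨u, hu⟩
      · exact Or.inl (low0_atom1 hS0 hx n1 hu)
      · exact Or.inr (Or.inl (low0_atom1 hS0 hx n2 hu))
      · exact Or.inr (Or.inr (low0_atom1 hS0 hx n3 hu))
    · rintro (rfl | rfl | rfl)
      · exact low0_atom2 hS0 n1 L1 low0_ind1
      · exact low0_atom2 hS0 n2 L2 low0_ind2
      · exact low0_atom2 hS0 n3 L3 low0_ind3
  have hcard : (Finset.univ.filter (fun x : ZMod m => IsAtom w x)).card = 3 := by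
    rw [hatoms]
    exact Finset.card_eq_three.mpr ⟨_, _, _, d12, d13, d23, rfl⟩
  refine ⟨sg w hA, sg_numerical hA, ?_, sg_mult hA, ?_⟩
  · rw [edim_sg hA]
    have : (Finset.univ.filter (fun x : ZMod m => IsAtom w x)).card = 3 := hcard
    convert congrArg (· + 1) this
  · rw [type_sg hA]
    have hle : S.card ≤ (Finset.univ.filter (fun x : ZMod m => IsMax w x)).card := by
      apply Finset.card_le_card_of_injOn (fun p => f p)
      · intro p hp
        simp only [Finset.coe_filter, Finset.mem_univ, true_and, Set.mem_ofPred_eq]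
        obtain ⟨g0, g1, g2, g3⟩ := hS p (by simpa using hp)
        apply low0_max hS0 (hRL p g0)
        · intro hL
          exact g1 (by simpa using hLR _ hL)
        · intro hL
          exact g2 (by simpa using hLR _ hL)
        · intro hL
          exact g3 (by simpa using hLR _ hL)
      · intro p hp q hq e
        exact hinj _ _ (hRL p (hS p (by simpa using hp)).1) (hRL q (hS q (by simpa using hq)).1) e
    convert hle

end Pool.Agent.T3
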