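import Pool.Agent.T3.Low0

/-!
# Lower bound, family A: `m = k² + s`, `0 ≤ s ≤ k`, `k ≥ 2`, type `≥ 2k - 1`

Residues `a1 = k`, `a2 = -1`, `a3 = k - 1` in `ZMod m`; weights `w1 = m (2k+1) + k`, `w2 = 2 m k - 1`,
`w3 = 4 m k + k - 1`.
Normal forms: `R x y z :⇔ (y = 0 ∧ 1 ≤ x ∧ x + z ≤ k-1) ∨ (x = 0 ∧ y + z ≤ k-1) ∨
(x = 0 ∧ z = 0 ∧ y ≤ k - 1 + s)`.

*red* (the new triple is equivalent and strictly lighter):
* `x, y ≥ 1`: `(x,y,z) → (x-1,y-1,z+1)`;  `w3 < w1 + w2`.
* `y = 0`, `x ≥ 1`, `x + z ≥ k`: let `z' = min z (k-1)`, `x' = k - z' ≥ 1` (`x' ≤ x`);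
  `(x,0,z) → (x-x', z'+s, z-z')`.  Class: `x' k + z' (k-1) = k² - z' ≡ -(z'+s)`.
  Weight: `(z'+s) w2 < x' w1 + z' w3`, since `x' w1 + z' w3 ≥ 2 m k (x' + 2 z') + 1 = 2mk (k + z') + 1`
  and `(z'+s) w2 ≤ 2 m k (z' + k)`.
* `x = 0`, `z ≥ 1`, `y + z ≥ k`: let `z' = min z k`, `y' = k - z'` (`y' ≤ y`);
  `(0,y,z) → (z'-1, y-y', z-z')`.  Class: `-y' + z' (k-1) = (z'-1) k`.
  Weight: `(z'-1) w1 < y' w2 + z' w3`: `(z'-1) w1 ≤ (z'-1) (2mk + m + k)`, and
  `y' w2 + z' w3 ≥ 2 m k (k + z') - k`; use `(z'-1)(m + k) ≤ (k-1)(m+k) ≤ mk` (`m ≥ k²`).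
* `x = z = 0`, `y ≥ k + s`: `(0,y,0) → (k-1, y-k-s, 0)`.  Class `-(k+s) ≡ (k-1) k`.
  Weight: `(k-1) w1 < (k+s) w2`: `(k-1)(m(2k+1) + k) = 2mk² - mk - m + k² - k` and
  `(k+s)(2mk - 1) ≥ 2mk² - k + s (2mk-1)`; need `k² < mk + m + s (2mk - 1)`.

*inj*: the classes of the normal forms are represented by the integers
`J k - r` with (`J = x + z`, `r = z`, i.e. `0 ≤ r < J ≤ k-1`) for the first kind,
(`J = z`, `r = y + z`, `1 ≤ J ≤ r ≤ k-1`) for the second kind with `z ≥ 1`, and `-y`,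
`0 ≤ y ≤ k-1+s`, for `z = x = 0`.  `J k - r`, `1 ≤ J ≤ k-1`, `0 ≤ r ≤ k-1` are different integers in
`[1, k(k-1)]`, and `-y ∈ [-(k-1+s), 0]`; all lie in an interval of `m` consecutive integers, so they
are different modulo `m`.

*surj*: `a2 = -1` generates.

*S*: `(x,0,k-1-x)` for `1 ≤ x ≤ k-1`; `(0,y,k-1-y)` for `0 ≤ y ≤ k-2`; `(0,k-1+s,0)`: `2k-1` triples.
-/

namespace Pool.Agent.T3

open Pool.Agent.Hhelper4.NS

/-- the normal forms -/
def laR (k s : ℕ) (x y z : ℕ) : Prop :=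
  (y = 0 ∧ 1 ≤ x ∧ x + z ≤ k - 1) ∨ (x = 0 ∧ y + z ≤ k - 1) ∨ (x = 0 ∧ z = 0 ∧ y ≤ k - 1 + s)

/-- the maximal elements -/
def laf (k s : ℕ) (i : ℕ) : ℕ × ℕ × ℕ :=
  if i < k - 1 then (i + 1, 0, k - 2 - i) else
    if i < 2 * (k - 1) then (0, i - (k - 1), k - 1 - (i - (k - 1))) else (0, k - 1 + s, 0)

theorem laf_inj {k s : ℕ} (hk : 2 ≤ k) :
    Set.InjOn (laf k s) (Finset.range (2 * k - 1)) := by
  intro i hi j hj h
  simp only [Finset.coe_range, Set.mem_Iio] at hi hj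
  unfold laf at h
  split_ifs at h <;> simp only [Prod.mk.injEq] at h <;> omega

theorem laf_max {k s : ℕ} (hk : 2 ≤ k) {i : ℕ} (hi : i < 2 * k - 1) :
    laR k s (laf k s i).1 (laf k s i).2.1 (laf k s i).2.2 ∧
      ¬ laR k s ((laf k s i).1 + 1) (laf k s i).2.1 (laf k s i).2.2 ∧
      ¬ laR k s (laf k s i).1 ((laf k s i).2.1 + 1) (laf k s i).2.2 ∧
      ¬ laR k s (laf k s i).1 (laf k s i).2.1 ((laf k s i).2.2 + 1) := by
  unfold laf
  by_cases c1 : i < k - 1
  · rw [if_pos c1]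
    simp only [laR]
    refine ⟨?_, ?_, ?_, ?_⟩
    · left; refine ⟨trivial, ?_, ?_⟩ <;> omega
    · rintro (h | h | h) <;> omega
    · rintro (h | h | h) <;> omega
    · rintro (h | h | h) <;> omega
  · rw [if_neg c1]
    by_cases c2 : i < 2 * (k - 1)
    · rw [if_pos c2]
      simp only [laR]
      refine ⟨?_, ?_, ?_, ?_⟩
      · right; left; refine ⟨trivial, ?_⟩; omega
      · rintro (h | h | h) <;> omega
      · rintro (h | h | h) <;> omega
      · rintro (h | h | h) <;> omega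
    · rw [if_neg c2]
      simp only [laR]
      refine ⟨?_, ?_, ?_, ?_⟩
      · right; right; refine ⟨trivial, trivial, ?_⟩; omega
      · rintro (h | h | h) <;> omega
      · rintro (h | h | h) <;> omega
      · rintro (h | h | h) <;> omega

/-- the integer representing the class -/
def laV (k : ℕ) (x y z : ℕ) : ℤ := (x : ℤ) * k - y + z * (k - 1)

theorem laV_cl {m k : ℕ} (x y z : ℕ) :
    cl (m := m) k (-1) (k - 1) x y z = ((laV k x y z : ℤ) : ZMod m) := by
  unfold cl laV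
  push_cast
  ring

theorem laV_range {k s : ℕ} (hk : 2 ≤ k) {x y z : ℕ} (h : laR k s x y z) :
    -((k : ℤ) - 1 + s) ≤ laV k x y z ∧ laV k x y z ≤ (k : ℤ) ^ 2 - k := by
  unfold laV
  have h8 : (2 : ℤ) ≤ k := by exact_mod_cast hk
  have h9 : (0 : ℤ) ≤ s := by positivity
  rcases h with ⟨h1', h2, h3⟩ | ⟨h1', h2⟩ | ⟨h1', h2, h3⟩
  · subst h1'
    have h4 : (x : ℤ) + z ≤ k - 1 := by omega
    have h5 : (0 : ℤ) ≤ x := by positivity
    have h6 : (0 : ℤ) ≤ z := by positivity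
    constructor
    · have : 0 ≤ (x : ℤ) * k := by positivity
      have : 0 ≤ (z : ℤ) * (k - 1) := mul_nonneg h6 (by linarith)
      push_cast
      linarith
    · push_cast
      nlinarith
  · subst h1'
    have h4 : (y : ℤ) + z ≤ k - 1 := by omega
    have h6 : (0 : ℤ) ≤ z := by positivity
    have h6' : (0 : ℤ) ≤ y := by positivity
    constructor
    · have : 0 ≤ (z : ℤ) * (k - 1) := mul_nonneg h6 (by linarith)
      push_cast
      linarith
    · push_cast
      nlinarith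
  · subst h1'
    subst h2
    have h4 : (y : ℤ) ≤ k - 1 + s := by omega
    have h6' : (0 : ℤ) ≤ y := by positivity
    constructor
    · push_cast
      linarith
    · push_cast
      nlinarith

theorem la_digits {k J r J' r' : ℤ} (hr : 0 ≤ r) (hrk : r < k) (hr' : 0 ≤ r')
    (hrk' : r' < k) (h : J * k - r = J' * k - r') : J = J' ∧ r = r' := by
  have h1 : (J - J') * k = r - r' := by linarith
  have h2 : J = J' := by
    by_contra hne
    rcases lt_or_gt_of_ne hne with h3 | h3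
    · have : J - J' ≤ -1 := by linarith
      nlinarith
    · have : 1 ≤ J - J' := by linarith
      nlinarith
  subst h2
  exact ⟨rfl, by linarith⟩

/-- every positive value has the form `J k - r` -/
theorem laR_form {k s : ℕ} (hk : 2 ≤ k) {x y z : ℕ} (h : laR k s x y z) :
    (y = 0 ∧ 1 ≤ x ∧ x + z ≤ k - 1 ∧ laV k x y z = ((x : ℤ) + z) * k - z ∧
        0 < laV k x y z) ∨
      (x = 0 ∧ 1 ≤ z ∧ y + z ≤ k - 1 ∧ laV k x y z = (z : ℤ) * k - (y + z) ∧
        0 < laV k x y z) ∨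
      (x = 0 ∧ z = 0 ∧ laV k x y z = -(y : ℤ)) := by
  unfold laR at h
  have h8 : (2 : ℤ) ≤ k := by exact_mod_cast hk
  by_cases hx : 1 ≤ x
  · left
    have hy : y = 0 := by omega
    subst hy
    have hxz : x + z ≤ k - 1 := by omega
    have h5 : (1 : ℤ) ≤ x := by exact_mod_cast hx
    have h6 : (0 : ℤ) ≤ z := by positivity
    refine ⟨rfl, hx, hxz, ?_, ?_⟩
    · unfold laV; push_cast; ring
    · unfold laV; push_cast; nlinarith [mul_nonneg h6 (by linarith : (0 : ℤ) ≤ k - 1)]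
  · have hx0 : x = 0 := by omega
    subst hx0
    by_cases hz : 1 ≤ z
    · right; left
      have hyz : y + z ≤ k - 1 := by omega
      have h5 : (1 : ℤ) ≤ z := by exact_mod_cast hz
      have h6 : (y : ℤ) + z ≤ k - 1 := by omega
      refine ⟨rfl, hz, hyz, ?_, ?_⟩
      · unfold laV; push_cast; ring
      · unfold laV; push_cast; nlinarith
    · right; right
      have hz0 : z = 0 := by omega
      subst hz0
      refine ⟨rfl, rfl, ?_⟩
      unfold laV; push_cast; ring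

theorem laV_inj {k s : ℕ} (hk : 2 ≤ k) {x y z x' y' z' : ℕ}
    (h : laR k s x y z) (h' : laR k s x' y' z') (he : laV k x y z = laV k x' y' z') :
    (x, y, z) = (x', y', z') := by
  have hf := laR_form hk h
  have hf' := laR_form hk h'
  simp only [Prod.mk.injEq]
  rcases hf with ⟨a1, a2, a3, a4, a5⟩ | ⟨a1, a2, a3, a4, a5⟩ | ⟨a1, a2, a4⟩ <;>
  rcases hf' with ⟨b1, b2, b3, b4, b5⟩ | ⟨b1, b2, b3, b4, b5⟩ | ⟨b1, b2, b4⟩
  · rw [a4, b4] at he
    obtain ⟨c1, c2⟩ := la_digits (by positivity) (by omega) (by positivity) (by omega) he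
    omega
  · rw [a4, b4] at he
    obtain ⟨c1, c2⟩ := la_digits (by positivity) (by omega) (by positivity) (by omega) he
    omega
  · exfalso; rw [he, b4] at a5; omega
  · rw [a4, b4] at he
    obtain ⟨c1, c2⟩ := la_digits (by positivity) (by omega) (by positivity) (by omega) he
    omega
  · rw [a4, b4] at he
    obtain ⟨c1, c2⟩ := la_digits (by positivity) (by omega) (by positivity) (by omega) he
    omega
  · exfalso; rw [he, b4] at a5; omega
  · exfalso; rw [← he, a4] at b5; omega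
  · exfalso; rw [← he, a4] at b5; omega
  · rw [a4, b4] at he; omega

theorem la_w2 {m k s x1 z1 w1 w2 w3 : ℤ} (hm0 : 1 ≤ m) (hk : 2 ≤ k) (hs0 : 0 ≤ s) (hs : s ≤ k)
    (hx1 : 1 ≤ x1) (hz1 : 0 ≤ z1) (he : x1 + z1 = k) (hw1 : w1 = m * (2 * k + 1) + k)
    (hw2 : w2 = 2 * m * k - 1) (hw3 : w3 = 4 * m * k + k - 1) :
    w2 * (z1 + s) < w1 * x1 + w3 * z1 := by
  have h1 : w2 * (z1 + s) ≤ (2 * m * k) * (z1 + k) := by
    have hmk : 0 ≤ 2 * m * k := by positivity
    have : w2 * (z1 + s) ≤ (2 * m * k) * (z1 + s) :=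
      mul_le_mul_of_nonneg_right (by linarith) (by linarith)
    have : (2 * m * k) * (z1 + s) ≤ (2 * m * k) * (z1 + k) :=
      mul_le_mul_of_nonneg_left (by linarith) hmk
    linarith
  have h2 : w1 * x1 + w3 * z1 = (2 * m * k) * (z1 + k) + (m + k) * x1 + (k - 1) * z1 := by
    rw [hw1, hw3, ← he]; ring
  have h3 : 0 < (m + k) * x1 := by positivity
  have h4 : 0 ≤ (k - 1) * z1 := mul_nonneg (by linarith) hz1
  linarith

theorem la_w3 {m k t y1 w1 w2 w3 : ℤ} (hm0 : 1 ≤ m) (hk : 2 ≤ k) (ht : 0 ≤ t)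
    (hy1 : 0 ≤ y1) (hw1 : w1 = m * (2 * k + 1) + k)
    (hw2 : w2 = 2 * m * k - 1) (hw3 : w3 = 4 * m * k + k - 1) :
    w1 * t < w2 * y1 + w3 * (t + 1) := by
  have hmk : m ≤ m * k := by nlinarith
  have hmk' : k ≤ m * k := by nlinarith
  have h1 : 0 ≤ w2 * y1 := mul_nonneg (by rw [hw2]; nlinarith) hy1
  have h2 : w1 ≤ w3 + 1 := by rw [hw1, hw3]; nlinarith
  have h3 : w1 * t ≤ (w3 + 1) * t := mul_le_mul_of_nonneg_right h2 ht
  have h4 : w1 ≤ w3 := by rw [hw1, hw3]; nlinarith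
  have h5 : w1 * t ≤ w3 * t := mul_le_mul_of_nonneg_right h4 ht
  have h6 : 0 < w3 := by rw [hw3]; nlinarith
  have h7 : w3 * (t + 1) = w3 * t + w3 := by ring
  linarith

theorem la_w4 {m k s w1 w2 : ℤ} (hm : m = k ^ 2 + s) (hk : 2 ≤ k) (hs0 : 0 ≤ s)
    (hw1 : w1 = m * (2 * k + 1) + k) (hw2 : w2 = 2 * m * k - 1) :
    w1 * (k - 1) < w2 * (k + s) := by
  have h1 : w2 * (k + s) - w1 * (k - 1) = m * k + m - k ^ 2 + s * (2 * m * k - 1) := by
    rw [hw1, hw2]; ring
  have h2 : 1 ≤ m := by rw [hm]; nlinarith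
  have h3 : 0 ≤ s * (2 * m * k - 1) := mul_nonneg hs0 (by nlinarith)
  have h4 : k ^ 2 ≤ m := by rw [hm]; linarith
  have h5 : 0 < m * k := by positivity
  linarith

theorem la_red {k s m w1 w2 w3 : ℕ} (hk : 2 ≤ k) (hs : s ≤ k)
    (hm : m = k ^ 2 + s) (hw1 : w1 = m * (2 * k + 1) + k) (hw2 : w2 + 1 = 2 * m * k)
    (hw3 : w3 + 1 = 4 * m * k + k) (x y z : ℕ) (hR : ¬ laR k s x y z) :
    ∃ x' y' z', cl (m := m) k (-1) (k - 1) x' y' z' = cl (m := m) k (-1) (k - 1) x y z ∧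
      wt w1 w2 w3 x' y' z' < wt w1 w2 w3 x y z := by
  have hM : (k : ZMod m) ^ 2 + s = 0 := by
    have h0 : ((k ^ 2 + s : ℕ) : ZMod m) = 0 := by
      rw [← hm]; exact ZMod.natCast_self m
    push_cast at h0
    exact h0
  have hk2 : 1 ≤ k ^ 2 := Nat.one_le_pow _ _ (by omega)
  have hm0 : 1 ≤ m := by rw [hm]; omega
  have zk : (2 : ℤ) ≤ k := by exact_mod_cast hk
  have zm : (1 : ℤ) ≤ m := by exact_mod_cast hm0
  have zs0 : (0 : ℤ) ≤ s := by positivity
  have zs : (s : ℤ) ≤ k := by exact_mod_cast hs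
  have zm2 : (m : ℤ) = (k : ℤ) ^ 2 + s := by rw [hm]; push_cast; ring
  have z1 : (w1 : ℤ) = m * (2 * k + 1) + k := by rw [hw1]; push_cast; ring
  have z2 : (w2 : ℤ) = 2 * m * k - 1 := by
    have : ((w2 + 1 : ℕ) : ℤ) = ((2 * m * k : ℕ) : ℤ) := by rw [hw2]
    push_cast at this; linarith
  have z3 : (w3 : ℤ) = 4 * m * k + k - 1 := by
    have : ((w3 + 1 : ℕ) : ℤ) = ((4 * m * k + k : ℕ) : ℤ) := by rw [hw3]
    push_cast at this; linarith
  unfold laR at hR
  rcases Nat.eq_zero_or_pos x with hx | hx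
  · subst hx
    rcases Nat.eq_zero_or_pos z with hz | hz
    · -- only y
      subst hz
      have hy : k + s ≤ y := by omega
      obtain ⟨y', rfl⟩ := Nat.exists_eq_add_of_le hy
      obtain ⟨k', hk'⟩ : ∃ k', k = k' + 1 := ⟨k - 1, by omega⟩
      refine ⟨k', y', 0, ?_, ?_⟩
      · have hkc : (k' : ZMod m) = k - 1 := by rw [hk']; push_cast; ring
        unfold cl; push_cast; rw [hkc]; linear_combination hM
      · unfold wt
        have h5 : w1 * k' < w2 * (k + s) := by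
          have e := la_w4 zm2 zk zs0 z1 z2
          have e1 : (k : ℤ) - 1 = k' := by rw [hk']; push_cast; ring
          rw [e1] at e
          exact_mod_cast e
        have h6 : w2 * (k + s + y') = w2 * (k + s) + w2 * y' := by ring
        omega
    · -- x = 0, z ≥ 1
      obtain ⟨t, y1, z2', y2, e1, e2, e3⟩ : ∃ t y1 z2 y2, z = t + 1 + z2 ∧ y = y1 + y2 ∧
          y1 + (t + 1) = k := by
        rcases le_total z k with hzk | hzk
        · exact ⟨z - 1, k - z, 0, y - (k - z), by omega, by omega, by omega⟩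
        · exact ⟨k - 1, 0, z - k, y, by omega, by omega, by omega⟩
      subst e1
      subst e2
      refine ⟨t, y2, z2', ?_, ?_⟩
      · have e4 : (y1 : ZMod m) + (t + 1) = k := by rw [← e3]; push_cast; ring
        unfold cl; push_cast
        linear_combination e4
      · unfold wt
        have h5 : w1 * t < w2 * y1 + w3 * (t + 1) := by
          have e := la_w3 (t := (t : ℤ)) (y1 := (y1 : ℤ)) zm zk (by positivity) (by positivity)
            z1 z2 z3
          exact_mod_cast e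
        have h6 : w2 * (y1 + y2) = w2 * y1 + w2 * y2 := by ring
        have h7 : w3 * (t + 1 + z2') = w3 * (t + 1) + w3 * z2' := by ring
        omega
  · rcases Nat.eq_zero_or_pos y with hy | hy
    · -- y = 0
      subst hy
      obtain ⟨z1', x1, z2', x2, e1, e2, e3, e4⟩ : ∃ z1 x1 z2 x2, z = z1 + z2 ∧ x = x1 + x2 ∧
          x1 + z1 = k ∧ z1 ≤ k - 1 := by
        rcases le_total z (k - 1) with hzk | hzk
        · exact ⟨z, k - z, 0, x - (k - z), by omega, by omega, by omega, by omega⟩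
        · exact ⟨k - 1, 1, z - (k - 1), x - 1, by omega, by omega, by omega, by omega⟩
      subst e1
      subst e2
      refine ⟨x2, z1' + s, z2', ?_, ?_⟩
      · have e5 : (x1 : ZMod m) + z1' = k := by rw [← e3]; push_cast; ring
        unfold cl; push_cast
        linear_combination (-1 : ZMod m) * hM - (k : ZMod m) * e5
      · unfold wt
        have h5 : w2 * (z1' + s) < w1 * x1 + w3 * z1' := by
          have hx1 : (1 : ℤ) ≤ x1 := by omega
          have e := la_w2 (x1 := (x1 : ℤ)) (z1 := (z1' : ℤ)) zm zk zs0 zs hx1 (by positivity)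
            (by exact_mod_cast e3) z1 z2 z3
          exact_mod_cast e
        have h6 : w1 * (x1 + x2) = w1 * x1 + w1 * x2 := by ring
        have h7 : w3 * (z1' + z2') = w3 * z1' + w3 * z2' := by ring
        omega
    · -- x, y ≥ 1
      obtain ⟨x', rfl⟩ : ∃ x', x = x' + 1 := ⟨x - 1, by omega⟩
      obtain ⟨y', rfl⟩ : ∃ y', y = y' + 1 := ⟨y - 1, by omega⟩
      refine ⟨x', y', z + 1, ?_, ?_⟩
      · unfold cl; push_cast; ring
      · unfold wt
        have h4 : w3 < w1 + w2 := by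
          have : (w3 : ℤ) < w1 + w2 := by rw [z1, z2, z3]; nlinarith
          exact_mod_cast this
        have h5 : w1 * (x' + 1) = w1 + w1 * x' := by ring
        have h6 : w2 * (y' + 1) = w2 + w2 * y' := by ring
        have h7 : w3 * (z + 1) = w3 * z + w3 := by ring
        omega

theorem lowA {k s m : ℕ} (hk : 2 ≤ k) (hs : s ≤ k) (hm : m = k ^ 2 + s) :
    ∃ Γ : AddSubmonoid ℕ, IsNumerical Γ ∧ edim Γ = 4 ∧ mult Γ = m ∧ 2 * k - 1 ≤ type Γ := by
  have hk2 : 1 ≤ k ^ 2 := Nat.one_le_pow _ _ (by omega)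
  have hm0 : 1 ≤ m := by rw [hm]; omega
  have : NeZero m := ⟨by omega⟩
  have hmk : m * 2 ≤ m * k := Nat.mul_le_mul_left _ hk
  obtain ⟨w2, hw2⟩ : ∃ w2, w2 + 1 = 2 * m * k := by
    have : 0 < 2 * m * k := by positivity
    exact ⟨2 * m * k - 1, by omega⟩
  obtain ⟨w3, hw3⟩ : ∃ w3, w3 + 1 = 4 * m * k + k := ⟨4 * m * k + k - 1, by omega⟩
  obtain ⟨w1, hw1⟩ : ∃ w1, w1 = m * (2 * k + 1) + k := ⟨_, rfl⟩
  have h0 : ((m : ℕ) : ZMod m) = 0 := ZMod.natCast_self m
  have c1 : (w1 : ZMod m) = k := by rw [hw1]; push_cast; rw [h0]; ring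
  have c3 : (w3 : ZMod m) = k - 1 := by
    have : ((w3 + 1 : ℕ) : ZMod m) = ((4 * m * k + k : ℕ) : ZMod m) := by rw [hw3]
    push_cast at this
    rw [h0] at this
    linear_combination this
  have c2 : (w2 : ZMod m) = -1 := by
    have : ((w2 + 1 : ℕ) : ZMod m) = ((2 * m * k : ℕ) : ZMod m) := by rw [hw2]
    push_cast at this
    rw [h0] at this
    linear_combination this
  have q1 : m * (2 * k + 1) = 2 * (m * k) + m := by ring
  have q2 : 2 * m * k = 2 * (m * k) := by ring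
  have q3 : 4 * m * k = 4 * (m * k) := by ring
  have hcrit := low_criterion (m := m) (a1 := (k : ZMod m)) (a2 := -1) (a3 := (k : ZMod m) - 1)
    (w1 := w1) (w2 := w2) (w3 := w3) c1 c2 c3 (by omega) (by omega) (by omega)
    (fun c => ⟨0, (-c).val, 0, by
      unfold cl
      rw [ZMod.natCast_zmod_val]
      simp⟩)
    (R := laR k s)
    (la_red hk hs hm hw1 hw2 hw3)
    (fun x y z x' y' z' hR hR' he => by
      apply laV_inj hk hR hR'
      rw [laV_cl, laV_cl, ZMod.intCast_eq_intCast_iff_dvd_sub] at he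
      have r1 := laV_range hk hR
      have r2 := laV_range hk hR'
      have hmz : (m : ℤ) = k ^ 2 + s := by rw [hm]; push_cast; ring
      have h3 : laV k x' y' z' - laV k x y z = 0 := by
        apply Int.eq_zero_of_abs_lt_dvd he
        rw [abs_lt, hmz]
        constructor <;> linarith [r1.1, r1.2, r2.1, r2.2]
      linarith)
    (by unfold laR; omega) (by unfold laR; omega) (by unfold laR; omega)
    (S := (Finset.range (2 * k - 1)).image (laf k s))
    (fun p hp => by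
      obtain ⟨i, hi, rfl⟩ := Finset.mem_image.mp hp
      exact laf_max hk (Finset.mem_range.mp hi))
  rw [Finset.card_image_of_injOn (laf_inj hk), Finset.card_range] at hcrit
  exact hcrit

end Pool.Agent.T3
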