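import Pool.Agent.T3.LatDefs
import Pool.Agent.Hhelper4.NumSemigroup

/-!
# From a numerical semigroup with four generators to a system

Let `w : ZMod m → ℕ` be an Apery function (`IsApery m w`) with exactly three atoms `a1, a2, a3`
(distinct).  Let `Wi = w ai > m > 0`.

1. *Decomposition.* For every `c` there is `(x,y,z)` with `cl c = x a1 + y a2 + z a3 = c` and
   `w c = W1 x + W2 y + W3 z` : strong induction on `w c`: `c = 0` is clear; if `c ≠ 0` is an atom, it is
   some `ai`; otherwise `c = c' + c''`, `c', c'' ≠ 0`, `w c = w c' + w c''`, and `w c', w c'' > 0`.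
   Conversely `w (cl x y z) ≤ W1 x + W2 y + W3 z` for all triples (subadditivity).
2. *Perturbation.*  Let `K` be larger than all `w c + 1`, and put `wi = K³ Wi + K^(i-1)` (`i = 1,2,3`), so
   `wt w (x,y,z) = K³ W(x,y,z) + x + K y + K² z` with `W = W1 x + W2 y + W3 z`.
   If `W(x,y,z) = w (cl x y z)` (light) then `x, y, z ≤ W < K`, so
   `x + K y + K² z < K³` and it determines `x, y, z`.
   For a class `c` let `p` be the light triple of class `c` with the least value of
   `x + K y + K² z` (there are finitely many light triples, and at least one).  Any other triple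
   `q` of class `c`: if it is light, then it has a larger value of `x + K y + K² z` (different light
   triples have different values, base `K` digits), so a larger weight; if it is not light,
   `W(q) ≥ W(p) + 1`, so `wt q ≥ K³ (W(p)+1) > wt p`.  So `Mn p`.  Hence `Sys`, and every `Mn`
   triple is light (it is the `p` of its class, by uniqueness).
3. *Maximal elements.*  Let `c` be maximal (`IsMax w c`) and `p` the `Mn` triple of class `c`.  Then `p` is
   a maximal element of `Mn`: if `p + e_i` was `Mn`, it would be light: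
   `w (c + ai) = W(p + e_i) = w c + Wi = w c + w ai` with `ai ≠ 0`, contradicting `IsMax`.
   Different `c` give different `p`.  So the number of maximal `c` is at most `cnt (Mx Mn) 0`
   (finite set by injectivity of `cl` on `Mn`).
-/

namespace Pool.Agent.T3

open Finset Pool.Agent.Hhelper4.NS

theorem semi_w_mul {m : ℕ} {w : ZMod m → ℕ} (h : IsApery m w) (a : ZMod m) (n : ℕ) :
    w ((n : ZMod m) * a) ≤ w a * n := by
  induction n with
  | zero => simp [h.zero]
  | succ n ih =>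
    have e : ((n + 1 : ℕ) : ZMod m) * a = (n : ZMod m) * a + a := by push_cast; ring
    rw [e]
    have := h.add ((n : ZMod m) * a) a
    calc w ((n : ZMod m) * a + a) ≤ w ((n : ZMod m) * a) + w a := this
      _ ≤ w a * n + w a := by omega
      _ = w a * (n + 1) := by ring

theorem semi_w_cl {m : ℕ} {w : ZMod m → ℕ} (h : IsApery m w) (a1 a2 a3 : ZMod m) (x y z : ℕ) :
    w (cl a1 a2 a3 x y z) ≤ wt (w a1) (w a2) (w a3) x y z := by
  unfold cl wt
  have h1 := h.add ((x : ZMod m) * a1 + (y : ZMod m) * a2) ((z : ZMod m) * a3)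
  have h2 := h.add ((x : ZMod m) * a1) ((y : ZMod m) * a2)
  have h3 := semi_w_mul h a1 x
  have h4 := semi_w_mul h a2 y
  have h5 := semi_w_mul h a3 z
  omega

theorem semi_cl_add {m : ℕ} (a1 a2 a3 : ZMod m) (x y z x' y' z' : ℕ) :
    cl a1 a2 a3 (x + x') (y + y') (z + z') = cl a1 a2 a3 x y z + cl a1 a2 a3 x' y' z' := by
  unfold cl
  push_cast
  ring

theorem semi_wt_add (w1 w2 w3 x y z x' y' z' : ℕ) :
    wt w1 w2 w3 (x + x') (y + y') (z + z') = wt w1 w2 w3 x y z + wt w1 w2 w3 x' y' z' := by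
  unfold wt
  ring

theorem semi_dec {m : ℕ} [NeZero m] {w : ZMod m → ℕ} (h : IsApery m w) (a1 a2 a3 : ZMod m)
    (hat : ∀ c, IsAtom w c → c = a1 ∨ c = a2 ∨ c = a3) :
    ∀ (N : ℕ) (c : ZMod m), w c = N → ∃ x y z, cl a1 a2 a3 x y z = c ∧
      wt (w a1) (w a2) (w a3) x y z = w c := by
  intro N
  induction N using Nat.strong_induction_on with
  | _ N ih =>
    intro c hc
    by_cases hc0 : c = 0
    · refine ⟨0, 0, 0, ?_, ?_⟩
      · simp [cl, hc0]
      · simp [wt, hc0, h.zero]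
    · by_cases hA : IsAtom w c
      · rcases hat c hA with e | e | e
        · exact ⟨1, 0, 0, by simp [cl, e], by simp [wt, e]⟩
        · exact ⟨0, 1, 0, by simp [cl, e], by simp [wt, e]⟩
        · exact ⟨0, 0, 1, by simp [cl, e], by simp [wt, e]⟩
      · unfold Pool.Agent.Hhelper4.NS.IsAtom at hA
        push Not at hA
        obtain ⟨y, z, hy, hz, hyz, hw⟩ := hA hc0
        have h1 := h.lt y hy
        have h2 := h.lt z hz
        obtain ⟨x1, y1, z1, e1, f1⟩ := ih (w y) (by omega) y rfl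
        obtain ⟨x2, y2, z2, e2, f2⟩ := ih (w z) (by omega) z rfl
        refine ⟨x1 + x2, y1 + y2, z1 + z2, ?_, ?_⟩
        · rw [semi_cl_add, e1, e2, hyz]
        · rw [semi_wt_add, f1, f2, hw]

theorem semi_digits {K x y z x' y' z' : ℕ} (hx : x < K) (hy : y < K) (hx' : x' < K)
    (hy' : y' < K) (h : x + K * y + K ^ 2 * z = x' + K * y' + K ^ 2 * z') :
    x = x' ∧ y = y' ∧ z = z' := by
  have hK : 0 < K := by omega
  have e1 : x + K * (y + K * z) = x' + K * (y' + K * z') := by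
    calc x + K * (y + K * z) = x + K * y + K ^ 2 * z := by ring
      _ = x' + K * y' + K ^ 2 * z' := h
      _ = x' + K * (y' + K * z') := by ring
  have e2 : x = x' := by
    have := congrArg (fun t => t % K) e1
    simpa [Nat.add_mul_mod_self_left, Nat.mod_eq_of_lt hx, Nat.mod_eq_of_lt hx'] using this
  subst e2
  have e3 : y + K * z = y' + K * z' := by
    have := Nat.add_left_cancel e1
    exact Nat.eq_of_mul_eq_mul_left hK this
  have e4 : y = y' := by
    have := congrArg (fun t => t % K) e3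
    simpa [Nat.add_mul_mod_self_left, Nat.mod_eq_of_lt hy, Nat.mod_eq_of_lt hy'] using this
  subst e4
  exact ⟨rfl, rfl, Nat.eq_of_mul_eq_mul_left hK (Nat.add_left_cancel e3)⟩

theorem semi_lt {K x y z : ℕ} (hx : x < K) (hy : y < K) (hz : z < K) :
    x + K * y + K ^ 2 * z < K ^ 3 := by
  have h1 : K * y ≤ K * (K - 1) := Nat.mul_le_mul_left _ (by omega)
  have h2 : K ^ 2 * z ≤ K ^ 2 * (K - 1) := Nat.mul_le_mul_left _ (by omega)
  obtain ⟨k, rfl⟩ : ∃ k, K = k + 1 := ⟨K - 1, by omega⟩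
  simp only [Nat.add_sub_cancel] at h1 h2
  have e : (k + 1) ^ 3 = k + (k + 1) * k + (k + 1) ^ 2 * k + 1 := by ring
  omega

theorem semi_wt_expand (K W1 W2 W3 x y z : ℕ) :
    wt (K ^ 3 * W1 + 1) (K ^ 3 * W2 + K) (K ^ 3 * W3 + K ^ 2) x y z =
      K ^ 3 * wt W1 W2 W3 x y z + (x + K * y + K ^ 2 * z) := by
  unfold wt
  ring

theorem semi_uniq {m : ℕ} {a1 a2 a3 : ZMod m} {w1 w2 w3 x y z x' y' z' : ℕ}
    (h : Mn a1 a2 a3 w1 w2 w3 x y z) (h' : Mn a1 a2 a3 w1 w2 w3 x' y' z')
    (e : cl a1 a2 a3 x y z = cl a1 a2 a3 x' y' z') : (x, y, z) = (x', y', z') := by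
  by_contra hne
  have h1 := h x' y' z' e.symm (fun t => hne t.symm)
  have h2 := h' x y z e hne
  omega

theorem semi_core {m : ℕ} [NeZero m] {w : ZMod m → ℕ} (h : IsApery m w) (a1 a2 a3 : ZMod m)
    (hat : ∀ c, IsAtom w c → c = a1 ∨ c = a2 ∨ c = a3) (n1 : a1 ≠ 0) (n2 : a2 ≠ 0) (n3 : a3 ≠ 0)
    (K : ℕ) (hK : ∀ c, w c < K) (c : ZMod m) :
    ∃ x y z, cl a1 a2 a3 x y z = c ∧ wt (w a1) (w a2) (w a3) x y z = w c ∧
      Mn a1 a2 a3 (K ^ 3 * w a1 + 1) (K ^ 3 * w a2 + K) (K ^ 3 * w a3 + K ^ 2) x y z := by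
  have g1 := h.lt a1 n1
  have g2 := h.lt a2 n2
  have g3 := h.lt a3 n3
  have hbd : ∀ x y z : ℕ, wt (w a1) (w a2) (w a3) x y z = w c → x < K ∧ y < K ∧ z < K := by
    intro x y z he
    have := hK c
    unfold wt at he
    have e1 : 1 * x ≤ w a1 * x := Nat.mul_le_mul_right _ (by omega)
    have e2 : 1 * y ≤ w a2 * y := Nat.mul_le_mul_right _ (by omega)
    have e3 : 1 * z ≤ w a3 * z := Nat.mul_le_mul_right _ (by omega)
    refine ⟨?_, ?_, ?_⟩ <;> omega
  let L : Set (ℕ × ℕ × ℕ) := {v | cl a1 a2 a3 v.1 v.2.1 v.2.2 = c ∧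
    wt (w a1) (w a2) (w a3) v.1 v.2.1 v.2.2 = w c}
  have hL : L.Nonempty := by
    obtain ⟨x, y, z, e, f⟩ := semi_dec h a1 a2 a3 hat (w c) c rfl
    exact ⟨(x, y, z), e, f⟩
  obtain ⟨p, hp, hmin⟩ := WellFounded.has_min
    (measure (fun v : ℕ × ℕ × ℕ => v.1 + K * v.2.1 + K ^ 2 * v.2.2)).wf L hL
  obtain ⟨x, y, z⟩ := p
  obtain ⟨hp1, hp2⟩ := hp
  simp only at hp1 hp2
  refine ⟨x, y, z, hp1, hp2, ?_⟩
  intro x' y' z' hcl hne
  rw [semi_wt_expand, semi_wt_expand]
  obtain ⟨b1, b2, b3⟩ := hbd x y z hp2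
  by_cases hl : wt (w a1) (w a2) (w a3) x' y' z' = w c
  · have hq : (x', y', z') ∈ L := ⟨by simpa using hcl.trans hp1, hl⟩
    have h1 := hmin _ hq
    have h2 : ¬ (x' + K * y' + K ^ 2 * z' < x + K * y + K ^ 2 * z) := h1
    obtain ⟨b1', b2', b3'⟩ := hbd x' y' z' hl
    have h3 : x' + K * y' + K ^ 2 * z' ≠ x + K * y + K ^ 2 * z := by
      intro he
      obtain ⟨e1, e2, e3⟩ := semi_digits b1' b2' b1 b2 he
      exact hne (by rw [e1, e2, e3])
    rw [hl, hp2]
    omega
  · have h1 := semi_w_cl h a1 a2 a3 x' y' z'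
    rw [hcl, hp1] at h1
    have h2 : w c + 1 ≤ wt (w a1) (w a2) (w a3) x' y' z' := by omega
    have h3 := Nat.mul_le_mul_left (K ^ 3) h2
    have h4 := semi_lt b1 b2 b3
    rw [hp2]
    have h5 : K ^ 3 * (w c + 1) = K ^ 3 * w c + K ^ 3 := by ring
    omega

open Classical in
theorem exists_sys {m : ℕ} [NeZero m] {w : ZMod m → ℕ} (h : IsApery m w)
    (hat : (univ.filter (fun x : ZMod m => IsAtom w x)).card = 3) :
    ∃ (a1 a2 a3 : ZMod m) (w1 w2 w3 : ℕ), Sys a1 a2 a3 w1 w2 w3 ∧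
      (univ.filter (fun x : ZMod m => IsMax w x)).card ≤ cnt (Mx (Mn a1 a2 a3 w1 w2 w3)) 0 := by
  obtain ⟨a1, a2, a3, -, -, -, hs⟩ := Finset.card_eq_three.mp hat
  have hmem : ∀ c, IsAtom w c ↔ c = a1 ∨ c = a2 ∨ c = a3 := by
    intro c
    have : c ∈ univ.filter (fun x : ZMod m => IsAtom w x) ↔ c ∈ ({a1, a2, a3} : Finset (ZMod m)) := by
      rw [hs]
    simpa using this
  have n1 : a1 ≠ 0 := ((hmem a1).mpr (Or.inl rfl)).1
  have n2 : a2 ≠ 0 := ((hmem a2).mpr (Or.inr (Or.inl rfl))).1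
  have n3 : a3 ≠ 0 := ((hmem a3).mpr (Or.inr (Or.inr rfl))).1
  set K : ℕ := (∑ c : ZMod m, w c) + 1 with hKdef
  have hK : ∀ c, w c < K := by
    intro c
    have : w c ≤ ∑ c : ZMod m, w c :=
      Finset.single_le_sum (f := w) (fun _ _ => Nat.zero_le _) (Finset.mem_univ _)
    omega
  have hKpos : 0 < K := by omega
  have core := semi_core h a1 a2 a3 (fun c hc => (hmem c).mp hc) n1 n2 n3 K hK
  choose X Y Z hcl hwt hMn using core
  have light : ∀ x y z, Mn a1 a2 a3 (K ^ 3 * w a1 + 1) (K ^ 3 * w a2 + K) (K ^ 3 * w a3 + K ^ 2)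
      x y z → wt (w a1) (w a2) (w a3) x y z = w (cl a1 a2 a3 x y z) := by
    intro x y z hm
    have e := semi_uniq hm (hMn (cl a1 a2 a3 x y z)) (hcl _).symm
    simp only [Prod.mk.injEq] at e
    obtain ⟨e1, e2, e3⟩ := e
    have := hwt (cl a1 a2 a3 x y z)
    rw [← e1, ← e2, ← e3] at this
    exact this
  refine ⟨a1, a2, a3, K ^ 3 * w a1 + 1, K ^ 3 * w a2 + K, K ^ 3 * w a3 + K ^ 2,
    ⟨by omega, by omega, ?_, fun c => ⟨X c, Y c, Z c, hcl c, hMn c⟩⟩, ?_⟩
  · have : 0 < K ^ 2 := by positivity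
    omega
  · unfold cnt
    have hfin : {v : ℕ × ℕ × ℕ | Mx (Mn a1 a2 a3 (K ^ 3 * w a1 + 1) (K ^ 3 * w a2 + K)
        (K ^ 3 * w a3 + K ^ 2)) v.1 v.2.1 v.2.2 ∧ 0 ≤ v.1}.Finite := by
      apply Set.Finite.of_finite_image
        (f := fun v : ℕ × ℕ × ℕ => cl a1 a2 a3 v.1 v.2.1 v.2.2) (Set.toFinite _)
      rintro ⟨x, y, z⟩ hv ⟨x', y', z'⟩ hv' he
      exact semi_uniq hv.1.1 hv'.1.1 he
    rw [← Set.ncard_coe_finset]
    apply Set.ncard_le_ncard_of_injOn (fun c => (X c, Y c, Z c)) _ _ hfin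
    · intro c hc
      have hmax : IsMax w c := by simpa using hc
      refine ⟨⟨hMn c, ?_, ?_, ?_⟩, Nat.zero_le _⟩
      · intro hm
        have e := light _ _ _ hm
        have e1 : cl a1 a2 a3 (X c + 1) (Y c) (Z c) = c + a1 := by
          have := semi_cl_add a1 a2 a3 (X c) (Y c) (Z c) 1 0 0
          rw [hcl c] at this
          simpa [cl] using this
        have e2 : wt (w a1) (w a2) (w a3) (X c + 1) (Y c) (Z c) = w c + w a1 := by
          have := semi_wt_add (w a1) (w a2) (w a3) (X c) (Y c) (Z c) 1 0 0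
          rw [hwt c] at this
          simpa [wt] using this
        rw [e1, e2] at e
        exact hmax a1 n1 e.symm
      · intro hm
        have e := light _ _ _ hm
        have e1 : cl a1 a2 a3 (X c) (Y c + 1) (Z c) = c + a2 := by
          have := semi_cl_add a1 a2 a3 (X c) (Y c) (Z c) 0 1 0
          rw [hcl c] at this
          simpa [cl] using this
        have e2 : wt (w a1) (w a2) (w a3) (X c) (Y c + 1) (Z c) = w c + w a2 := by
          have := semi_wt_add (w a1) (w a2) (w a3) (X c) (Y c) (Z c) 0 1 0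
          rw [hwt c] at this
          simpa [wt] using this
        rw [e1, e2] at e
        exact hmax a2 n2 e.symm
      · intro hm
        have e := light _ _ _ hm
        have e1 : cl a1 a2 a3 (X c) (Y c) (Z c + 1) = c + a3 := by
          have := semi_cl_add a1 a2 a3 (X c) (Y c) (Z c) 0 0 1
          rw [hcl c] at this
          simpa [cl] using this
        have e2 : wt (w a1) (w a2) (w a3) (X c) (Y c) (Z c + 1) = w c + w a3 := by
          have := semi_wt_add (w a1) (w a2) (w a3) (X c) (Y c) (Z c) 0 0 1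
          rw [hwt c] at this
          simpa [wt] using this
        rw [e1, e2] at e
        exact hmax a3 n3 e.symm
    · intro c _ c' _ he
      simp only [Prod.mk.injEq] at he
      rw [← hcl c, ← hcl c', he.1, he.2.1, he.2.2]

end Pool.Agent.T3
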