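import Pool.Agent.T3.Defs

/-!
# Widths

Basic facts on `wd`, `ye`, `ze`.  For `S` closed downwards and not everything, `S n ↔ n < wd S`
(`wd S = sInf {n | ¬ S n}`).  Everything else is a direct consequence of `Down P` and of the
finiteness of `St P` (note `P 0 0 0` is not assumed; for empty `P` all widths are `0`).
-/

namespace Pool.Agent.T3

theorem wd_iff {S : ℕ → Prop} (hd : ∀ m n, m ≤ n → S n → S m) (hb : ∃ n, ¬ S n) (n : ℕ) :
    S n ↔ n < wd S := by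
  have hmem : ¬ S (wd S) := Nat.sInf_mem (s := {n | ¬ S n}) hb
  constructor
  · intro h
    by_contra hc
    exact hmem (hd _ _ (not_lt.1 hc) h)
  · intro h
    by_contra hc
    exact absurd (Nat.sInf_le (s := {n | ¬ S n}) hc) (not_le.2 h)

private theorem exists_bound {P : ℕ → ℕ → ℕ → Prop} (hf : (St P).Finite) :
    ∃ N, ∀ x y z, P x y z → x < N ∧ y < N ∧ z < N := by
  obtain ⟨N1, h1⟩ := (hf.image (fun v => v.1)).bddAbove
  obtain ⟨N2, h2⟩ := (hf.image (fun v => v.2.1)).bddAbove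
  obtain ⟨N3, h3⟩ := (hf.image (fun v => v.2.2)).bddAbove
  refine ⟨N1 + N2 + N3 + 1, fun x y z h => ?_⟩
  have hm : ((x, y, z) : ℕ × ℕ × ℕ) ∈ St P := h
  have a1 : x ≤ N1 := h1 ⟨_, hm, rfl⟩
  have a2 : y ≤ N2 := h2 ⟨_, hm, rfl⟩
  have a3 : z ≤ N3 := h3 ⟨_, hm, rfl⟩
  omega

theorem ye_iff {P : ℕ → ℕ → ℕ → Prop} (hd : Down P) (hf : (St P).Finite) (x y : ℕ) :
    P x y 0 ↔ y < ye P x := by
  obtain ⟨N, hN⟩ := exists_bound hf
  exact wd_iff (S := fun y => P x y 0) (fun m n h hn => hd _ _ _ _ _ _ le_rfl h le_rfl hn)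
    ⟨N, fun h => absurd (hN _ _ _ h).2.1 (lt_irrefl _)⟩ y

theorem ze_iff {P : ℕ → ℕ → ℕ → Prop} (hd : Down P) (hf : (St P).Finite) (x z : ℕ) :
    P x 0 z ↔ z < ze P x := by
  obtain ⟨N, hN⟩ := exists_bound hf
  exact wd_iff (S := fun z => P x 0 z) (fun m n h hn => hd _ _ _ _ _ _ le_rfl le_rfl h hn)
    ⟨N, fun h => absurd (hN _ _ _ h).2.2 (lt_irrefl _)⟩ z

theorem ye_anti {P : ℕ → ℕ → ℕ → Prop} (hd : Down P) (hf : (St P).Finite) (x0 : ℕ) :
    Antitone (fun k => ye P (x0 + k)) := by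
  intro k k' h
  show ye P (x0 + k') ≤ ye P (x0 + k)
  by_contra hc
  have h1 := (ye_iff hd hf (x0 + k') (ye P (x0 + k))).2 (not_le.1 hc)
  have h2 := hd _ _ _ (x0 + k) (ye P (x0 + k)) 0 (by omega) le_rfl le_rfl h1
  exact absurd ((ye_iff hd hf _ _).1 h2) (lt_irrefl _)

theorem ze_anti {P : ℕ → ℕ → ℕ → Prop} (hd : Down P) (hf : (St P).Finite) (x0 : ℕ) :
    Antitone (fun k => ze P (x0 + k)) := by
  intro k k' h
  show ze P (x0 + k') ≤ ze P (x0 + k)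
  by_contra hc
  have h1 := (ze_iff hd hf (x0 + k') (ze P (x0 + k))).2 (not_le.1 hc)
  have h2 := hd _ _ _ (x0 + k) 0 (ze P (x0 + k)) (by omega) le_rfl le_rfl h1
  exact absurd ((ze_iff hd hf _ _).1 h2) (lt_irrefl _)

theorem ye_zero {P : ℕ → ℕ → ℕ → Prop} (hd : Down P) (hf : (St P).Finite) (x : ℕ) :
    ye P x = 0 ↔ ze P x = 0 := by
  have h1 := ye_iff hd hf x 0
  have h2 := ze_iff hd hf x 0
  constructor
  · intro h
    by_contra hc
    have := h1.1 (h2.2 (Nat.pos_of_ne_zero hc))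
    omega
  · intro h
    by_contra hc
    have := h2.1 (h1.2 (Nat.pos_of_ne_zero hc))
    omega

/-- the extents are eventually zero -/
theorem exists_K {P : ℕ → ℕ → ℕ → Prop} (hd : Down P) (hf : (St P).Finite) (x0 : ℕ) :
    ∃ K, ∀ k, K ≤ k → ye P (x0 + k) = 0 ∧ ze P (x0 + k) = 0 := by
  obtain ⟨N, hN⟩ := exists_bound hf
  refine ⟨N, fun k hk => ?_⟩
  have h0 : ye P (x0 + k) = 0 := by
    by_contra hc
    have := (hN _ _ _ ((ye_iff hd hf (x0 + k) 0).2 (Nat.pos_of_ne_zero hc))).1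
    omega
  exact ⟨h0, (ye_zero hd hf _).1 h0⟩

end Pool.Agent.T3
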