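import Pool.Agent.T3.Wd
import Pool.Agent.T3.Sym
import Pool.Agent.T3.Slice
import Pool.Agent.T3.Leg
import Pool.Agent.T3.Plane

/-!
# The X-leg

`P` of type `CylF` with center `(a,b,c)`, `f1 ≤ a+1`, `f2 ≤ b+1`, `f3 ≤ c+1`.
Write `β k = ye P (a+1+k)`, `γ k = ze P (a+1+k)`.

*Slices.* For `x = a+1+k`: `P x y z ↔ y < β k ∧ z < γ k ∧ ¬ (f2 ≤ y ∧ f3 ≤ z)`.
(→: `Down`; and `f1 ≤ x`, `¬ P f1 f2 f3`.  ←: `P x y 0` and `¬ P (a+1) (b+1) 0` give `y ≤ b`;
`P x 0 z` and `¬ P (a+1) 0 (c+1)` give `z ≤ c`; so `P 0 y z`; use `cyl`.)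

*Deep drops.* If `β (k+1) < β k` and `f2 ≤ β (k+1)` then `(a+2+k, β (k+1))` is a generator
(`Gen`), with `β (k+1) ≤ b`.  Two of them would contradict `plane_gens` (which says `b+1 ≤ j` for
the left one).  If there is one and `β 0 ≤ b`, then `(a+1, β 0)` is another generator
(`P a (β 0) 0` holds as `β 0 ≤ b`), again a contradiction; so `β 0 = b+1`.
For `γ`: apply this to `sw (rt P)`, i.e. `fun x y z => P x z y` (`CylF.rt`, `CylF.sw`, `Ctr.rt`,
`Ctr.sw`; `ye (sw (rt P)) x = ze P x` holds by `rfl`).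

*Summary.* `β 0 ≤ b+1` (else `P (a+1) (b+1) 0`), `γ 0 ≤ c+1`, not both equal (`Ctr.mx`).
`dβp`: a deep drop lands at `≥ p` from a value `≤ β 0`, so `p < β 0`.
The rest is `cnt_slices`, `cntMx_slices` (with `k0 = 0`) and `leg`.
(If `β` denotes the sequence and `K` is such that all later extents vanish.)
-/

namespace Pool.Agent.T3

theorem xleg_slice {P : ℕ → ℕ → ℕ → Prop} {f1 f2 f3 a b c : ℕ} (h : CylF P f1 f2 f3)
    (hc : Ctr P a b c) (h1 : f1 ≤ a + 1) (k y z : ℕ) :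
    P (a + 1 + k) y z ↔ y < ye P (a + 1 + k) ∧ z < ze P (a + 1 + k) ∧
      ¬ (0 ≤ k ∧ f2 ≤ y ∧ f3 ≤ z) := by
  rw [← ye_iff h.down h.fin, ← ze_iff h.down h.fin]
  constructor
  · intro hp
    refine ⟨h.down _ _ _ _ _ _ le_rfl le_rfl (Nat.zero_le _) hp,
      h.down _ _ _ _ _ _ le_rfl (Nat.zero_le _) le_rfl hp, ?_⟩
    rintro ⟨-, h2, h3⟩
    exact h.notF (h.down _ _ _ _ _ _ (by omega) h2 h3 hp)
  · rintro ⟨hy, hz, hn⟩
    have hyb : y ≤ b := by
      by_contra hlt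
      exact hc.nab (h.down _ _ _ _ _ _ (by omega) (by omega) le_rfl hy)
    have hzc : z ≤ c := by
      by_contra hlt
      exact hc.nac (h.down _ _ _ _ _ _ (by omega) le_rfl (by omega) hz)
    have h0 : P 0 y z := h.down _ _ _ _ _ _ le_rfl hyb hzc hc.bc
    refine h.cyl _ _ _ hy hz h0 ?_
    rintro ⟨-, h2, h3⟩
    exact hn ⟨Nat.zero_le _, h2, h3⟩

/-- a deep drop gives a generator -/
theorem drop_gen {P : ℕ → ℕ → ℕ → Prop} (hd : Down P) (hf : (St P).Finite) {f2 x : ℕ}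
    (h2 : 1 ≤ f2) (hx : 1 ≤ x) (hlt : ye P (x + 1) < ye P x) (hge : f2 ≤ ye P (x + 1)) :
    Gen P (x + 1) (ye P (x + 1)) := by
  refine ⟨by omega, by omega, ?_, ?_, ?_⟩
  · rw [ye_iff hd hf]
    exact lt_irrefl _
  · have : x + 1 - 1 = x := rfl
    rw [this, ye_iff hd hf]
    exact hlt
  · rw [ye_iff hd hf]
    omega

theorem deep_le_one {P : ℕ → ℕ → ℕ → Prop} {f1 f2 f3 a b c : ℕ} (h : CylF P f1 f2 f3)
    (hc : Ctr P a b c) (h1 : f1 ≤ a + 1) (h3 : f3 ≤ c + 1) :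
    dd f2 (fun k => ye P (a + 1 + k)) ≤ 1 ∧
    (1 ≤ dd f2 (fun k => ye P (a + 1 + k)) → ye P (a + 1) = b + 1) := by
  have hanti := ye_anti h.down h.fin (a + 1)
  have h0 : ye P (a + 1) ≤ b + 1 := by
    by_contra hlt
    push Not at hlt
    exact hc.nab ((ye_iff h.down h.fin _ _).2 hlt)
  have h0k : ∀ k, ye P (a + 1 + k) ≤ ye P (a + 1) := fun k => hanti (Nat.zero_le k)
  have key : ∀ k1 k2, k1 < k2 → ye P (a + 1 + (k1 + 1)) < ye P (a + 1 + k1) →
      f2 ≤ ye P (a + 1 + (k1 + 1)) → ye P (a + 1 + (k2 + 1)) < ye P (a + 1 + k2) →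
      f2 ≤ ye P (a + 1 + (k2 + 1)) → False := by
    intro k1 k2 hk hd1 hg1 hd2 hg2
    have g1 := drop_gen h.down h.fin h.p2 (x := a + 1 + k1) (by omega) hd1 hg1
    have g2 := drop_gen h.down h.fin h.p2 (x := a + 1 + k2) (by omega) hd2 hg2
    have hm : ye P (a + 1 + k2) ≤ ye P (a + 1 + (k1 + 1)) := hanti (by omega : k1 + 1 ≤ k2)
    have := (plane_gens h hc h3 (by omega) hg2 (by omega) (lt_of_lt_of_le hd2 hm) g1 g2).2
    have h0' := h0k k1
    have hd1' : ye P (a + 1 + k1 + 1) < ye P (a + 1 + k1) := hd1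
    omega
  constructor
  · unfold dd
    have hsub : {k | (fun k => ye P (a + 1 + k)) (k + 1) < (fun k => ye P (a + 1 + k)) k ∧
        f2 ≤ (fun k => ye P (a + 1 + k)) (k + 1)}.Subsingleton := by
      rintro k1 ⟨hd1, hg1⟩ k2 ⟨hd2, hg2⟩
      rcases lt_trichotomy k1 k2 with hk | hk | hk
      · exact (key k1 k2 hk hd1 hg1 hd2 hg2).elim
      · exact hk
      · exact (key k2 k1 hk hd2 hg2 hd1 hg1).elim
    exact (Set.ncard_le_one hsub.finite).2 (fun x hx y hy => hsub hx hy)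
  · intro hge
    unfold dd at hge
    obtain ⟨k, hd, hg⟩ := Set.nonempty_of_ncard_ne_zero (by omega :
      {k | (fun k => ye P (a + 1 + k)) (k + 1) < (fun k => ye P (a + 1 + k)) k ∧
        f2 ≤ (fun k => ye P (a + 1 + k)) (k + 1)}.ncard ≠ 0)
    have hd' : ye P (a + 1 + k + 1) < ye P (a + 1 + k) := hd
    have hg' : f2 ≤ ye P (a + 1 + k + 1) := hg
    by_contra hne
    have hle : ye P (a + 1) ≤ b := by omega
    have h0' := h0k k
    have hp2 := h.p2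
    have g2 := drop_gen h.down h.fin h.p2 (x := a + 1 + k) (by omega) hd' hg'
    have g1 : Gen P (a + 1) (ye P (a + 1)) := by
      refine ⟨by omega, by omega, ?_, ?_, ?_⟩
      · rw [ye_iff h.down h.fin]
        exact lt_irrefl _
      · have : a + 1 - 1 = a := rfl
        rw [this]
        exact h.down _ _ _ _ _ _ le_rfl hle le_rfl hc.ab
      · rw [ye_iff h.down h.fin]
        omega
    have := (plane_gens h hc h3 h1 hg' (by omega) (by omega) g1 g2).2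
    omega

theorem dd_pos_lt {p : ℕ} {β : ℕ → ℕ} (hβ : Antitone β) (hd : 1 ≤ dd p β) : p < β 0 := by
  unfold dd at hd
  obtain ⟨k, h1, h2⟩ := Set.nonempty_of_ncard_ne_zero (by omega :
    {k | β (k + 1) < β k ∧ p ≤ β (k + 1)}.ncard ≠ 0)
  have := hβ (Nat.zero_le k)
  omega

theorem legSum {P : ℕ → ℕ → ℕ → Prop} {f1 f2 f3 a b c : ℕ} (h : CylF P f1 f2 f3)
    (hc : Ctr P a b c) (h1 : f1 ≤ a + 1) (h2 : f2 ≤ b + 1) (h3 : f3 ≤ c + 1) :
    LegSum f2 f3 b c (ye P (a + 1)) (ze P (a + 1)) (dd f2 (fun k => ye P (a + 1 + k)))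
      (dd f3 (fun k => ze P (a + 1 + k))) (cnt (Mx P) (a + 1)) (cnt P (a + 1)) := by
  obtain ⟨hb1, hb2⟩ := deep_le_one h hc h1 h3
  have hg := deep_le_one h.rt.sw hc.rt.sw h1 h2
  have hg1 : dd f3 (fun k => ze P (a + 1 + k)) ≤ 1 := hg.1
  have hg2 : 1 ≤ dd f3 (fun k => ze P (a + 1 + k)) → ze P (a + 1) = c + 1 := hg.2
  have hantb := ye_anti h.down h.fin (a + 1)
  have hantg := ze_anti h.down h.fin (a + 1)
  obtain ⟨K, hK⟩ := exists_K h.down h.fin (a + 1)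
  have hs := xleg_slice h hc h1
  have hcnt := cnt_slices (K := K) hs (fun k hk => Or.inl (hK k hk).1)
  have hmx := cntMx_slices (K := K) h.p2 h.p3 hs (fun k hk => Or.inl (hK k hk).1)
  simp only [Nat.zero_le, if_true] at hcnt hmx
  have hleg := leg h.p2 h.p3 hantb hantg (fun k => ye_zero h.down h.fin (a + 1 + k))
    (hK K le_rfl).1 hb1 hg1 rfl rfl
  obtain ⟨l1, l2, l3⟩ := hleg
  rw [← hcnt] at l2 l3
  refine ⟨?_, ?_, ?_, ye_zero h.down h.fin _, hb1, hg1, hb2, hg2, ?_, ?_, ?_, ?_, ?_⟩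
  · by_contra hlt
    push Not at hlt
    exact hc.nab ((ye_iff h.down h.fin _ _).2 hlt)
  · by_contra hlt
    push Not at hlt
    exact hc.nac ((ze_iff h.down h.fin _ _).2 hlt)
  · rintro ⟨e1, e2⟩
    exact hc.mx ⟨(ye_iff h.down h.fin _ _).2 (by omega), (ze_iff h.down h.fin _ _).2 (by omega)⟩
  · exact fun hd => dd_pos_lt hantb hd
  · exact fun hd => dd_pos_lt hantg hd
  · exact (Nat.add_le_add_right hmx 1).trans l1
  · exact (Nat.mul_le_mul hmx (Nat.add_le_add_right hmx 1)).trans l2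
  · exact fun hn => (Nat.mul_le_mul hmx (Nat.add_le_add_right hmx 1)).trans (l3 hn)

end Pool.Agent.T3
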